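import Pool.Agent.Helper64.DN.Dir

/-!
DN-8 (Adj): relative oddness.

* `oddAt_base`: `U` RC in `A' ∩ Om T`, `z ∈ U`: `U ∩ A` is RC in `A ∩ Om T`, so `A ⊆ Par T (U ∩ A) ⊆ Par T U`; `Par T U` is RC in `A'`
  and contains `z ∈ A`, so `A' ⊆ Par T U` (`par_of_mem`).
* `oddAt_adjoin`: all functions `g t` (`t ∈ T'`) are independent of the coordinates of `T ∪ T'`; `b t` is the sheet.
  `z ∈ Om T'` by `nu_lam_false/true`.  Let `U ∋ z` be RC in `A ∩ Om (T ∪ T')` and
  `U₁ = {w ∈ U | ∀ t ∈ T', b t = false → w t < 1/3, b t = true → 2/3 < w t}`.  On `A ∩ Om (T ∪ T')` the fold points are avoided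
  (`b t = false`: `g t w < 2/3` so `w t ≠ 1/3`; `b t = true`: `g t w > 1/3` so `w t ≠ 2/3`), so `U₁` is RC.
  (i) an RC set `V` of `A ∩ Om (T ∪ T')` whose points `w` all have `w t` in the bad sheet (for one fixed `t ∈ T'`) has
  `Par (T ∪ T') V ∩ A = ∅`: otherwise it is all of `A`, but over the touched point `a` (`g t a < 1/3` resp. `> 2/3`) every solution
  has `w t = lam (b t) (g t a)` in the good sheet.  (ii) `U \ U₁` is a finite disjoint union of such sets (by the first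
  bad `t`, e.g. by `Finset.induction_on` over `T'`), so `z' ∈ Par U ↔ z' ∈ Par U₁` for `z' ∈ A`.
  (iii) `Par (T ∪ T') U₁ = Par T (Par T' U₁)`, `Par T' U₁` is RC in `A ∩ Om T`, and `Sol T' U₁ z = {z}`; so `z ∈ Par T' U₁`, and `OddAt S T A z` gives the claim.
* `oddAt_total`: `U` RC in `Om (T ∪ T')`, `z ∈ U`; `U ∩ OddS T` is RC in `OddS T ∩ Om T'`; so `OddS T ⊆ Par T' (U ∩ OddS T) ⊆ Par T' U`; `Par T' U` is RC in
  `Om T`, so `Par T (Par T' U) = univ` by `par_univ_iff'`.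
* `oddAt_of_oddS`: `V` RC in `OddS T ∩ Om T'`, `z ∈ V`.  Take disjoint open `O₁ ⊇ V`, `O₂ ⊇ (OddS T ∩ Om T') \ V`.  `OddS T` is the intersection of
  the RC sets `W` of `Om T` with `Par T W = univ` (closed under finite intersections), so by compactness some such `W` has
  `W ∩ Om T' ⊆ O₁ ∪ O₂`.  `V' = W ∩ Om T' ∩ O₁` is RC in `Om (T ∪ T')`, contains `z`, so `Par (T ∪ T') V' = univ = Par T (Par T' V')`,
  so `OddS T ⊆ Par T' V'`, and `Par T' V' ∩ OddS T = Par T' (V' ∩ OddS T) = Par T' V` (`OddS T` is a `T'`-cylinder).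
-/

set_option autoImplicit false

namespace H64DN

open Set Topology

variable {J : Type}

theorem oddAt_base (S : FS J) (T : Finset J) (A A' : Set (J → unitInterval)) (h : A ⊆ A')
    (hA : IsClosed A) (hAc : Cyl (T : Set J) A) (hA' : IsClosed A') (hp : IsPreconnected A')
    (hc : Cyl (T : Set J) A') (z : J → unitInterval) (hz : OddAt S T A z) : OddAt S T A' z := by
  obtain ⟨h1, h2, h3⟩ := hz
  refine ⟨h h1, h2, fun U hU hzU => ?_⟩
  have hB : A ∩ Om S T ⊆ A' ∩ Om S T := inter_subset_inter_left _ h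
  have hr := rc_restrict hB (hA.inter (om_closed S T)) hU
  have h4 := h3 _ hr ⟨hzU, h1, h2⟩
  have h5 : Par S T (U ∩ (A ∩ Om S T)) = Par S T U ∩ A := by
    rw [← inter_assoc, par_inter_Om, par_inter S T A U hAc]
  rw [h5] at h4
  exact par_of_mem S T A' hA' hp hc U hU z (h h1) (h4 h1).1

open Classical in
theorem oddAt_total (S : FS J) (T T' : Finset J) (hd : Disjoint T T') (h1 : Ind S T T')
    (hD : Dir S T) (z : J → unitInterval) (hz : OddAt S T' (OddS S T) z) :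
    z ∈ OddS S (T ∪ T') := by
  obtain ⟨hz1, hz2, hz3⟩ := hz
  have hcyl : Cyl (T' : Set J) (Om S T) := om_cyl S T T' hd h1
  have hcyl' : Cyl (T' : Set J) (OddS S T) := oddS_cyl S T _ hcyl
  refine ⟨?_, fun U hU hzU => ?_⟩
  · rw [om_union]
    exact ⟨hz1.1, hz2⟩
  · rw [om_union] at hU
    have hB : OddS S T ∩ Om S T' ⊆ Om S T ∩ Om S T' := inter_subset_inter_left _ fun w hw => hw.1
    have hr := rc_restrict hB ((oddS_closed S T hD).inter (om_closed S T')) hU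
    have h4 := hz3 _ hr ⟨hzU, hz1, hz2⟩
    have h5 : Par S T' (U ∩ (OddS S T ∩ Om S T')) = Par S T' U ∩ OddS S T := by
      rw [← inter_assoc, par_inter_Om, par_inter S T' _ U hcyl']
    rw [h5] at h4
    rw [par_comp S T T' hd h1 U]
    have hRC := par_RC S T' (Om S T) (om_closed S T) hcyl U hU
    exact (par_univ_iff' S T hD _ hRC).2 fun w hw => (h4 hw).1

open Classical in
theorem oddAt_of_oddS (S : FS J) (T T' : Finset J) (hd : Disjoint T T') (h1 : Ind S T T')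
    (hD : Dir S T) (z : J → unitInterval) (hz : z ∈ OddS S (T ∪ T')) :
    OddAt S T' (OddS S T) z := by
  have hcyl : Cyl (T' : Set J) (Om S T) := om_cyl S T T' hd h1
  have hcyl' : Cyl (T' : Set J) (OddS S T) := oddS_cyl S T _ hcyl
  have hsd : (T ∪ T') \ T = T' := by
    rw [Finset.union_sdiff_left]
    exact Finset.sdiff_eq_self_of_disjoint hd.symm
  have hz1 : z ∈ OddS S T := by
    refine oddS_mono S T (T ∪ T') Finset.subset_union_left ?_ hz
    rw [hsd]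
    exact h1
  have hz2 : z ∈ Om S T ∩ Om S T' := by
    rw [← om_union]
    exact hz.1
  refine ⟨hz1, hz2.2, fun V hV hzV => ?_⟩
  obtain ⟨hV1, hV2, hV3⟩ := hV
  obtain ⟨O₁, O₂, hO₁, hO₂, hVO, hCO, hdis⟩ :=
    normal_separation hV2 hV3 disjoint_sdiff_right
  obtain ⟨z₀, h0, hz0⟩ := hD
  have hD : Dir S T := ⟨z₀, h0, hz0⟩
  have hsub : connectedComponentIn (Om S T) z₀ ⊆ (O₁ ∪ O₂) ∪ (Om S T')ᶜ := by
    rw [← oddS_eq S T z₀ h0 hz0]
    intro w hw
    by_cases hw' : w ∈ Om S T'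
    · left
      by_cases hwV : w ∈ V
      · exact Or.inl (hVO hwV)
      · exact Or.inr (hCO ⟨⟨hw, hw'⟩, hwV⟩)
    · exact Or.inr hw'
  obtain ⟨W, hW, hzW, hWs⟩ := component_between (om_closed S T) h0
    ((hO₁.union hO₂).union (om_closed S T').isOpen_compl) hsub
  have hPW : Par S T W = univ := (hz0 W hW).1 hzW
  have hOW : OddS S T ⊆ W := (par_univ_iff' S T hD W hW).1 hPW
  have hWO : ∀ w ∈ W, w ∈ Om S T' → w ∈ O₁ ∨ w ∈ O₂ := by
    intro w hw hw'
    rcases hWs hw with h | h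
    · exact h
    · exact absurd hw' h
  have hno : ∀ w, w ∈ O₁ → w ∈ O₂ → False := fun w a b => disjoint_left.1 hdis a b
  have hV' : RC (Om S T ∩ Om S T') (W ∩ Om S T' ∩ O₁) := by
    refine ⟨fun w hw => ⟨hW.1 hw.1.1, hw.1.2⟩, ?_, ?_⟩
    · have e : W ∩ Om S T' ∩ O₁ = (W ∩ Om S T') ∩ O₂ᶜ := by
        ext w
        constructor
        · rintro ⟨⟨a, b⟩, c⟩
          exact ⟨⟨a, b⟩, fun d => hno w c d⟩
        · rintro ⟨⟨a, b⟩, c⟩
          refine ⟨⟨a, b⟩, ?_⟩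
          rcases hWO w a b with h | h
          · exact h
          · exact absurd h c
      rw [e]
      exact (hW.2.1.inter (om_closed S T')).inter hO₂.isClosed_compl
    · have e : (Om S T ∩ Om S T') \ (W ∩ Om S T' ∩ O₁) =
          ((Om S T \ W) ∩ Om S T') ∪ ((W ∩ Om S T') ∩ O₁ᶜ) := by
        ext w
        constructor
        · rintro ⟨⟨a, b⟩, c⟩
          by_cases hw : w ∈ W
          · exact Or.inr ⟨⟨hw, b⟩, fun d => c ⟨⟨hw, b⟩, d⟩⟩
          · exact Or.inl ⟨⟨a, hw⟩, b⟩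
        · rintro (⟨⟨a, b⟩, c⟩ | ⟨⟨a, b⟩, c⟩)
          · exact ⟨⟨a, c⟩, fun d => b d.1.1⟩
          · exact ⟨⟨hW.1 a, b⟩, fun d => c d.2⟩
      rw [e]
      exact (hW.2.2.inter (om_closed S T')).union
        ((hW.2.1.inter (om_closed S T')).inter hO₁.isClosed_compl)
  have hzV' : z ∈ W ∩ Om S T' ∩ O₁ := ⟨⟨hOW hz1, hz2.2⟩, hVO hzV⟩
  have hP : Par S (T ∪ T') (W ∩ Om S T' ∩ O₁) = univ := by
    refine hz.2 _ ?_ hzV'
    rw [om_union]
    exact hV'
  rw [par_comp S T T' hd h1] at hP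
  have hRC := par_RC S T' (Om S T) (om_closed S T) hcyl _ hV'
  have hOP := (par_univ_iff' S T hD _ hRC).1 hP
  have e : (W ∩ Om S T' ∩ O₁) ∩ OddS S T = V := by
    ext w
    constructor
    · rintro ⟨⟨⟨a, b⟩, c⟩, d⟩
      by_contra hwV
      exact hno w c (hCO ⟨⟨d, b⟩, hwV⟩)
    · intro hw
      have := hV1 hw
      exact ⟨⟨⟨hOW this.1, this.2⟩, hVO hw⟩, this.1⟩
  have h6 := par_inter S T' (OddS S T) (W ∩ Om S T' ∩ O₁) hcyl'
  rw [e] at h6
  rw [h6]
  exact fun w hw => ⟨hOP hw, hw⟩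

end H64DN
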