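import Pool.Agent.Helper64.DN.Adja

/-!
DN-8 (Adj): relative oddness.

* `oddAt_base`: `U` RC in `A' ∩ Om T`, `z ∈ U`: `U ∩ A` is RC in `A ∩ Om T`, so `A ⊆ Par T (U ∩ A) ⊆ Par T U`; `Par T U` is RC in `A'`
  and contains `z ∈ A`, so `A' ⊆ Par T U` (`par_of_mem`).
* `oddAt_adjoin`: all functions `g t` (`t ∈ T'`) are independent of the coordinates of `T ∪ T'`; `b t` is the sheet.
  `z ∈ Om T'` by `nu_lam_false/true`.  Let `U ∋ z` be RC in `A ∩ Om (T ∪ T')` and
  `U₁ = {w ∈ U | ∀ t ∈ T', b t = false → w t < 1/3, b t = true → 2/3 < w t}`.  On `A ∩ Om (T ∪ T')` the fold points are avoided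
  (`b t = false`: `g t w < 2/3` so `w t ≠ 1/3`; `b t = true`: `g t w > 1/3` so `w t ≠ 2/3`), so `U₁` is RC.
  (i) an RC set `V` of `A ∩ Om (T ∪ T')` whose points `w` all have `w t` in the bad sheet (for one fixed `t ∈ T'`) has
  `Par (T ∪ T') V ∩ A = ∅`: otherwise it is all of `A`, but over the touched point `a` (`g t a < 1/3` resp. `> 2/3`) every solution
  has `w t = lam (b t) (g t a)` in the good sheet.  (ii) `U \ U₁` is a finite disjoint union of such sets (by the first
  bad `t`, e.g. by `Finset.induction_on` over `T'`), so `z' ∈ Par U ↔ z' ∈ Par U₁` for `z' ∈ A`.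
  (iii) `Par (T ∪ T') U₁ = Par T (Par T' U₁)`, `Par T' U₁` is RC in `A ∩ Om T`, and `Sol T' U₁ z = {z}`; so `z ∈ Par T' U₁`, and `OddAt S T A z` gives the claim.
* `oddAt_total`: `U` RC in `Om (T ∪ T')`, `z ∈ U`; `U ∩ OddS T` is RC in `OddS T ∩ Om T'`; so `OddS T ⊆ Par T' (U ∩ OddS T) ⊆ Par T' U`; `Par T' U` is RC in
  `Om T`, so `Par T (Par T' U) = univ` by `par_univ_iff'`.
* `oddAt_of_oddS`: `V` RC in `OddS T ∩ Om T'`, `z ∈ V`.  Take disjoint open `O₁ ⊇ V`, `O₂ ⊇ (OddS T ∩ Om T') \ V`.  `OddS T` is the intersection of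
  the RC sets `W` of `Om T` with `Par T W = univ` (closed under finite intersections), so by compactness some such `W` has
  `W ∩ Om T' ⊆ O₁ ∪ O₂`.  `V' = W ∩ Om T' ∩ O₁` is RC in `Om (T ∪ T')`, contains `z`, so `Par (T ∪ T') V' = univ = Par T (Par T' V')`,
  so `OddS T ⊆ Par T' V'`, and `Par T' V' ∩ OddS T = Par T' (V' ∩ OddS T) = Par T' V` (`OddS T` is a `T'`-cylinder).
-/

set_option autoImplicit false

namespace H64DN

open Set Topology

variable {J : Type}

private theorem adjb_ind_mono {S : FS J} {T₁ T₁' T₂ T₂' : Finset J} (h : Ind S T₁' T₂')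
    (h1 : T₁ ⊆ T₁') (h2 : T₂ ⊆ T₂') : Ind S T₁ T₂ :=
  fun t ht z z' hz => h t (h1 ht) z z' (fun i hi => hz i (fun hi2 => hi (h2 hi2)))

private theorem adjb_cyl_mono {R R' : Set J} {A : Set (J → unitInterval)} (h : Cyl R' A)
    (h1 : R ⊆ R') : Cyl R A :=
  fun z hz w hw => h z hz w (fun j hj => hw j (fun hj2 => hj (h1 hj2)))

private theorem adjb_rc_split {X : Type} [TopologicalSpace X] {B U F G : Set X} (hU : RC B U)
    (hF : IsClosed F) (hG : IsClosed G) (hcov : ∀ w ∈ U, w ∈ F ∨ w ∈ G)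
    (hdis : ∀ w ∈ U, w ∈ F → w ∈ G → False) : RC B (U ∩ F) := by
  refine ⟨fun w hw => hU.1 hw.1, hU.2.1.inter hF, ?_⟩
  have h : B \ (U ∩ F) = (B \ U) ∪ (U ∩ G) := by
    ext w
    constructor
    · rintro ⟨h1, h2⟩
      by_cases h3 : w ∈ U
      · right
        refine ⟨h3, ?_⟩
        rcases hcov w h3 with h4 | h4
        · exact absurd ⟨h3, h4⟩ h2
        · exact h4
      · left
        exact ⟨h1, h3⟩
    · rintro (⟨h1, h2⟩ | ⟨h1, h2⟩)
      · exact ⟨h1, fun h3 => h2 h3.1⟩
      · exact ⟨hU.1 h1, fun h3 => hdis w h1 h3.2 h2⟩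
  rw [h]
  exact hU.2.2.union (hU.2.1.inter hG)

open Classical in
private theorem adjb_core (S : FS J) (T : Finset J) (t : J) (ht : t ∉ T) (h1 : Ind S T {t})
    (h2 : Ind S {t} (T ∪ {t})) (A : Set (J → unitInterval)) (hA : IsClosed A)
    (hp : IsPreconnected A) (hc : Cyl ((T ∪ {t} : Finset J) : Set J) A)
    (z : J → unitInterval) (hz : OddAt S T A z) (G B : Set (J → unitInterval)) (hG : IsClosed G)
    (hB : IsClosed B) (hGB : ∀ w, w ∈ G ∨ w ∈ B)
    (f1 : ∀ w ∈ A, nu (w t) = S.g t w → w ∈ G → w ∈ B → False)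
    (a : J → unitInterval) (ha : a ∈ A)
    (f2 : ∀ w : J → unitInterval, nu (w t) = S.g t a → w ∈ B → False) (fz : z ∈ G)
    (f3 : ∀ w : J → unitInterval, w ∈ G → nu (w t) = S.g t z → w t = z t) (f4 : NF (z t))
    (f5 : nu (z t) = S.g t z) : OddAt S (T ∪ {t}) A z := by
  have hd : Disjoint T {t} := Finset.disjoint_singleton_right.2 ht
  have f5' : z ∈ Om S {t} := by
    intro s hs
    rw [Finset.mem_singleton] at hs
    subst hs
    exact f5
  refine ⟨hz.1, ?_, ?_⟩
  · rw [om_union]
    exact ⟨hz.2.1, f5'⟩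
  · intro U hU hzU z' hz'
    have hg : ∀ w w' : J → unitInterval, (∀ j, j ∉ T ∪ {t} → w j = w' j) →
        S.g t w = S.g t w' := fun w w' h => h2 t (Finset.mem_singleton_self t) w w' h
    have hAt : ∀ w ∈ U, w ∈ A ∧ nu (w t) = S.g t w :=
      fun w hw => ⟨(hU.1 hw).1, (hU.1 hw).2 t (by simp)⟩
    have hdis : ∀ w ∈ U, w ∈ G → w ∈ B → False :=
      fun w hw hwG hwB => f1 w (hAt w hw).1 (hAt w hw).2 hwG hwB
    have hU1 : RC (A ∩ Om S (T ∪ {t})) (U ∩ G) :=
      adjb_rc_split hU hG hB (fun w _ => hGB w) hdis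
    have hU2 : RC (A ∩ Om S (T ∪ {t})) (U ∩ B) :=
      adjb_rc_split hU hB hG (fun w _ => (hGB w).symm) (fun w hw hwB hwG => hdis w hw hwG hwB)
    have hdj : Disjoint (U ∩ G) (U ∩ B) := by
      rw [Set.disjoint_left]
      rintro w ⟨hw, hwG⟩ ⟨-, hwB⟩
      exact hdis w hw hwG hwB
    have hUeq : U = (U ∩ G) ∪ (U ∩ B) := by
      ext w
      constructor
      · intro hw
        rcases hGB w with h | h
        · exact Or.inl ⟨hw, h⟩
        · exact Or.inr ⟨hw, h⟩
      · rintro (h | h) <;> exact h.1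
    have hl : z' ∈ Par S (T ∪ {t}) (U ∩ G) := by
      rw [par_comp S T {t} hd h1]
      have hcyl1 : Cyl (({t} : Finset J) : Set J) (A ∩ Om S T) := by
        intro w hw w' hw'
        refine ⟨adjb_cyl_mono hc (by simp) w hw.1 w' hw', om_cyl S T {t} hd h1 w hw.2 w' hw'⟩
      have hRC : RC (A ∩ Om S T) (Par S {t} (U ∩ G)) := by
        apply par_RC S {t} (A ∩ Om S T) (hA.inter (om_closed S T)) hcyl1 (U ∩ G)
        rw [Set.inter_assoc, ← om_union]
        exact hU1
      have hzV : z ∈ Par S {t} (U ∩ G) := by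
        change Odd (Sol S {t} (U ∩ G) z).ncard
        have h3 : Sol S {t} (U ∩ G) z = {z} := by
          ext w
          rw [Set.mem_singleton_iff]
          constructor
          · rintro ⟨hw1, hw2, hw3, hw4⟩
            have hgw : S.g t w = S.g t z := hg w z (fun j hj => hw3 j (fun hj2 => hj (by
              rw [Finset.mem_union]; exact Or.inr hj2)))
            have h4 : w t = z t := f3 w hw1.2 (by
              rw [← hgw]; exact hw2 t (Finset.mem_singleton_self t))
            funext j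
            by_cases hj : j = t
            · subst hj; exact h4
            · exact hw3 j (by rw [Finset.mem_singleton]; exact hj)
          · rintro rfl
            refine ⟨⟨hzU, fz⟩, f5', fun _ _ => rfl, ?_⟩
            intro s hs
            rw [Finset.mem_singleton] at hs
            subst hs
            exact f4
        rw [h3, Set.ncard_singleton]
        exact odd_one
      exact hz.2.2 _ hRC hzV hz'
    have hr : z' ∉ Par S (T ∪ {t}) (U ∩ B) := by
      intro h
      have h3 := par_of_mem S (T ∪ {t}) A hA hp hc (U ∩ B) hU2 z' hz' h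
      obtain ⟨w, hw1, hw2, hw3, hw4⟩ := exists_of_mem_par S (T ∪ {t}) (U ∩ B) a (h3 ha)
      exact f2 w (by rw [← hg w a hw3]; exact hw2 t (by simp)) hw1.2
    rw [hUeq, par_union S _ _ _ hdj]
    exact Or.inl ⟨hl, hr⟩

open Classical in
private theorem adjb_one (S : FS J) (T : Finset J) (t : J) (ht : t ∉ T) (h1 : Ind S T {t})
    (h2 : Ind S {t} (T ∪ {t})) (A : Set (J → unitInterval)) (hA : IsClosed A)
    (hp : IsPreconnected A) (hc : Cyl ((T ∪ {t} : Finset J) : Set J) A) (b : Bool)
    (z : J → unitInterval) (hz : OddAt S T A z) (hzt : z t = lam b (S.g t z))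
    (hF : b = false → (∀ a ∈ A, (S.g t a : ℝ) < 2 / 3) ∧ ∃ a ∈ A, (S.g t a : ℝ) < 1 / 3)
    (hT : b = true → (∀ a ∈ A, 1 / 3 < (S.g t a : ℝ)) ∧ ∃ a ∈ A, 2 / 3 < (S.g t a : ℝ)) :
    OddAt S (T ∪ {t}) A z := by
  have hct : Continuous (fun w : J → unitInterval => ((w t : unitInterval) : ℝ)) :=
    continuous_subtype_val.comp (continuous_apply t)
  cases b with
  | false =>
    obtain ⟨hF1, a, ha, ha1⟩ := hF rfl
    have hgz := hF1 z hz.1
    have hz3 : ((z t : unitInterval) : ℝ) = (S.g t z : ℝ) / 2 := by rw [hzt, lam_false_coe]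
    refine adjb_core S T t ht h1 h2 A hA hp hc z hz
      {w | ((w t : unitInterval) : ℝ) ≤ 1 / 3} {w | 1 / 3 ≤ ((w t : unitInterval) : ℝ)}
      (isClosed_le hct continuous_const) (isClosed_le continuous_const hct)
      (fun w => le_total ((w t : unitInterval) : ℝ) (1 / 3)) ?_ a ha ?_ ?_ ?_ ?_ ?_
    · intro w hw h3 h4 h5
      simp only [Set.mem_setOf_eq] at h4 h5
      rw [nu_low h4] at h3
      have := hF1 w hw
      linarith
    · intro w h3 h4
      have h5 := eq_lam_false ha1 h3
      simp only [Set.mem_setOf_eq, h5, lam_false_coe] at h4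
      linarith
    · simp only [Set.mem_setOf_eq, hz3]
      linarith
    · intro w h3 h4
      rw [hzt]
      exact eq_lam_false_of_lt h3 h4
    · constructor <;> (rw [hz3]; intro h3; linarith [(S.g t z).2.1])
    · rw [hzt]
      exact nu_lam_false hgz.le
  | true =>
    obtain ⟨hT1, a, ha, ha1⟩ := hT rfl
    have hgz := hT1 z hz.1
    have hz3 : ((z t : unitInterval) : ℝ) = (1 + (S.g t z : ℝ)) / 2 := by rw [hzt, lam_true_coe]
    refine adjb_core S T t ht h1 h2 A hA hp hc z hz
      {w | 2 / 3 ≤ ((w t : unitInterval) : ℝ)} {w | ((w t : unitInterval) : ℝ) ≤ 2 / 3}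
      (isClosed_le continuous_const hct) (isClosed_le hct continuous_const)
      (fun w => le_total (2 / 3) ((w t : unitInterval) : ℝ)) ?_ a ha ?_ ?_ ?_ ?_ ?_
    · intro w hw h3 h4 h5
      simp only [Set.mem_setOf_eq] at h4 h5
      rw [nu_high h4 (w t).2.2] at h3
      have := hT1 w hw
      linarith
    · intro w h3 h4
      have h5 := eq_lam_true ha1 h3
      simp only [Set.mem_setOf_eq, h5, lam_true_coe] at h4
      linarith
    · simp only [Set.mem_setOf_eq, hz3]
      linarith
    · intro w h3 h4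
      rw [hzt]
      exact eq_lam_true_of_lt h3 h4
    · constructor <;> (rw [hz3]; intro h3; linarith [(S.g t z).2.1])
    · rw [hzt]
      exact nu_lam_true hgz.le

open Classical in
theorem oddAt_adjoin (S : FS J) (T T' : Finset J) (hd : Disjoint T T') (h1 : Ind S T T')
    (h2 : Ind S T' (T ∪ T')) (A : Set (J → unitInterval)) (hA : IsClosed A)
    (hp : IsPreconnected A) (hc : Cyl ((T ∪ T' : Finset J) : Set J) A) (b : J → Bool)
    (z : J → unitInterval) (hz : OddAt S T A z)
    (hb : ∀ t ∈ T', z t = lam (b t) (S.g t z) ∧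
      (b t = false → (∀ a ∈ A, (S.g t a : ℝ) < 2 / 3) ∧ ∃ a ∈ A, (S.g t a : ℝ) < 1 / 3) ∧
      (b t = true → (∀ a ∈ A, 1 / 3 < (S.g t a : ℝ)) ∧ ∃ a ∈ A, 2 / 3 < (S.g t a : ℝ))) :
    OddAt S (T ∪ T') A z := by
  induction T' using Finset.induction_on with
  | empty =>
    rw [Finset.union_empty]
    exact hz
  | insert t T'' htT ih =>
    have hsub : T'' ⊆ insert t T'' := Finset.subset_insert t T''
    have htT' : t ∉ T := fun h => Finset.disjoint_left.1 hd h (Finset.mem_insert_self t T'')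
    have ih' := ih (Finset.disjoint_of_subset_right hsub hd)
      (adjb_ind_mono h1 subset_rfl hsub)
      (adjb_ind_mono h2 hsub (Finset.union_subset_union_right hsub))
      (adjb_cyl_mono hc (by
        rw [Finset.coe_subset]
        exact Finset.union_subset_union_right hsub))
      (fun s hs => hb s (hsub hs))
    have e : T ∪ insert t T'' = (T ∪ T'') ∪ {t} := by
      ext j
      simp only [Finset.mem_union, Finset.mem_insert, Finset.mem_singleton]
      tauto
    rw [e]
    rw [e] at hc h2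
    obtain ⟨hb1, hb2, hb3⟩ := hb t (Finset.mem_insert_self t T'')
    apply adjb_one S (T ∪ T'') t ?_ ?_ ?_ A hA hp hc (b t) z ih' hb1 hb2 hb3
    · rw [Finset.mem_union]
      rintro (h | h)
      · exact htT' h
      · exact htT h
    · intro s hs w w' hw
      rw [Finset.mem_union] at hs
      rcases hs with hs | hs
      · exact h1 s hs w w' (fun i hi => hw i (fun hi2 => hi (by
          rw [Finset.mem_singleton] at hi2
          rw [hi2]
          exact Finset.mem_insert_self t T'')))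
      · exact h2 s (hsub hs) w w' (fun i hi => hw i (fun hi2 => hi (by
          rw [Finset.mem_union]
          exact Or.inr hi2)))
    · exact adjb_ind_mono h2 (by simp) subset_rfl

end H64DN
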