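import Mathlib

/-!
# Project DN (MP_542c23_gt): dendrons in C(Y), Y hereditarily indecomposable.
Base definitions.  Proof sketch: /team-store/helper64_DN_proof.md
-/

set_option autoImplicit false

namespace H64DN

open Set Topology

/-! ## The fold -/

/-- The fold `[0,1] → [0,1]`: `2y` on `[0,1/3]`, `1-y` on `[1/3,2/3]`, `2y-1` on `[2/3,1]`. -/
noncomputable def nu (y : ℝ) : ℝ := min (2 * y) (max (1 - y) (2 * y - 1))

/-- `y` is not a fold point. -/
def NF (y : unitInterval) : Prop := (y : ℝ) ≠ 1 / 3 ∧ (y : ℝ) ≠ 2 / 3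

/-! ## Relatively clopen sets and cylinders -/

/-- `U` is relatively clopen in (the closed set) `A`. -/
def RC {X : Type} [TopologicalSpace X] (A U : Set X) : Prop :=
  U ⊆ A ∧ IsClosed U ∧ IsClosed (A \ U)

/-- `A` is a cylinder in the directions `R`. -/
def Cyl {J : Type} (R : Set J) (A : Set (J → unitInterval)) : Prop :=
  ∀ z ∈ A, ∀ w : J → unitInterval, (∀ j, j ∉ R → w j = z j) → w ∈ A

/-! ## Systems of folds -/

/-- A system of folds on the coordinates `J`: the coordinate `j` is (if it is a fold coordinate)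
subject to `nu (z j) = g j z`, where `g j` depends only on coordinates of smaller rank. -/
structure FS (J : Type) where
  g : J → (J → unitInterval) → unitInterval
  cont : ∀ j, Continuous (g j)
  rk : J → ℕ
  dep : ∀ (j : J) (z z' : J → unitInterval), (∀ i, rk i < rk j → z i = z' i) → g j z = g j z'

/-- Solutions of the fold equations `T`. -/
def Om {J : Type} (S : FS J) (T : Finset J) : Set (J → unitInterval) :=
  {z | ∀ t ∈ T, nu (z t) = S.g t z}

/-- The non-fold solutions over `z` (off `T` equal to `z`) which lie in `U`. -/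
def Sol {J : Type} (S : FS J) (T : Finset J) (U : Set (J → unitInterval))
    (z : J → unitInterval) : Set (J → unitInterval) :=
  {w | w ∈ U ∧ w ∈ Om S T ∧ (∀ j, j ∉ T → w j = z j) ∧ ∀ t ∈ T, NF (w t)}

/-- The parity set of `U`. -/
def Par {J : Type} (S : FS J) (T : Finset J) (U : Set (J → unitInterval)) :
    Set (J → unitInterval) :=
  {z | Odd (Sol S T U z).ncard}

/-- The functions of `T₁` do not depend on the coordinates in `T₂`. -/
def Ind {J : Type} (S : FS J) (T₁ T₂ : Finset J) : Prop :=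
  ∀ t ∈ T₁, ∀ z z' : J → unitInterval, (∀ i, i ∉ T₂ → z i = z' i) → S.g t z = S.g t z'

/-- The odd component. -/
def OddS {J : Type} (S : FS J) (T : Finset J) : Set (J → unitInterval) :=
  {z | z ∈ Om S T ∧ ∀ U, RC (Om S T) U → z ∈ U → Par S T U = univ}

/-- The parity is a Dirac measure. -/
def Dir {J : Type} (S : FS J) (T : Finset J) : Prop :=
  ∃ z₀ ∈ Om S T, ∀ U, RC (Om S T) U → (z₀ ∈ U ↔ Par S T U = univ)

/-- `z` is odd over the closed set `A` (relative parity). -/
def OddAt {J : Type} (S : FS J) (T : Finset J) (A : Set (J → unitInterval))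
    (z : J → unitInterval) : Prop :=
  z ∈ A ∧ z ∈ Om S T ∧ ∀ U, RC (A ∩ Om S T) U → z ∈ U → A ⊆ Par S T U

/-! ## Letters and coordinates -/

/-- Coordinates over the letters `L`: pairs (stage `m`, injection `Fin (k m) → L`). -/
abbrev Coord (k : ℕ → ℕ) (L : Type) : Type := Σ m : ℕ, (Fin (k m) ↪ L)

/-- The cube over the letters `L`. -/
abbrev E (k : ℕ → ℕ) (L : Type) : Type := Coord k L → unitInterval

/-- Restriction along an injection of letters. -/
def pull {k : ℕ → ℕ} {A B : Type} (φ : A ↪ B) (z : E k B) : E k A :=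
  fun c => z ⟨c.1, c.2.trans φ⟩

/-- A program: the test functions and their types (`false` = low, `true` = high). -/
structure Prog (k : ℕ → ℕ) where
  s : ∀ m : ℕ, C(E k (Fin (k m)), unitInterval)
  τ : ∀ m : ℕ, Fin (k m) → Bool
  dep : ∀ (m : ℕ) (z z' : E k (Fin (k m))), (∀ c : Coord k (Fin (k m)), c.1 < m → z c = z' c) →
    s m z = s m z'

theorem pull_continuous {k : ℕ → ℕ} {A B : Type} (φ : A ↪ B) :
    Continuous (pull φ : E k B → E k A) :=
  continuous_pi fun _ => continuous_apply _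

/-- The system of folds over the letters `L` given by a program. -/
def fs {k : ℕ → ℕ} (P : Prog k) (L : Type) : FS (Coord k L) where
  g c z := P.s c.1 (pull c.2 z)
  cont c := (P.s c.1).continuous.comp (pull_continuous c.2)
  rk c := c.1
  dep c _ _ h := P.dep c.1 _ _ fun _ hc' => h _ hc'

/-- The fold coordinates of rank in `[1,n)` over `Fin N`. -/
noncomputable def TT (k : ℕ → ℕ) (n N : ℕ) : Finset (Coord k (Fin N)) :=
  ((Finset.range n).filter (1 ≤ ·)).sigma fun _ => Finset.univ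

theorem mem_TT {k : ℕ → ℕ} {n N : ℕ} (c : Coord k (Fin N)) :
    c ∈ TT k n N ↔ 1 ≤ c.1 ∧ c.1 < n := by
  simp [TT, and_comm]

/-- The continuum of stage `n` over `Fin N`. -/
def Yf {k : ℕ → ℕ} (P : Prog k) (n N : ℕ) : Set (E k (Fin N)) := OddS (fs P (Fin N)) (TT k n N)

/-- The continuum of stage `n` over any set of letters. -/
def Yn {k : ℕ → ℕ} (P : Prog k) (n : ℕ) (L : Type) : Set (E k L) :=
  {z | ∀ (N : ℕ) (e : Fin N ↪ L), pull e z ∈ Yf P n N}

/-- The limit continuum over any set of letters. -/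
def YY {k : ℕ → ℕ} (P : Prog k) (L : Type) : Set (E k L) := {z | ∀ n : ℕ, z ∈ Yn P n L}

/-- The test of stage `m` attains an extreme value on the continuum of stage `m`. -/
def Tch {k : ℕ → ℕ} (P : Prog k) (m : ℕ) : Prop :=
  ∃ a ∈ Yf P m (k m), (P.s m a : ℝ) < 1 / 3 ∨ 2 / 3 < (P.s m a : ℝ)

/-- `A` is a cylinder in all coordinates of rank `≥ m`. -/
def CylR {k : ℕ → ℕ} {L : Type} (m : ℕ) (A : Set (E k L)) : Prop :=
  ∀ z ∈ A, ∀ w : E k L, (∀ c : Coord k L, c.1 < m → w c = z c) → w ∈ A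

/-! ## Sections -/

/-- The good sheet: `c/2` (low) or `(1+c)/2` (high). -/
noncomputable def lam (b : Bool) (c : unitInterval) : unitInterval :=
  if b then ⟨(1 + (c : ℝ)) / 2, by constructor <;> linarith [c.2.1, c.2.2]⟩
  else ⟨(c : ℝ) / 2, by constructor <;> linarith [c.2.1, c.2.2]⟩

/-- A priority: for every injection `e : Fin n → L` the position whose letter decides (or none). -/
def Prio (L : Type) : Type := ∀ n : ℕ, (Fin n ↪ L) → Option (Fin n)

open Classical in
/-- The priority of a set of letters `w` ordered by `r` : the first letter of `w` decides. -/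
noncomputable def ofSet {L : Type} (w : Set L) (r : L → L → Prop) : Prio L := fun _ e =>
  if h : ∃ j, e j ∈ w ∧ ∀ j', j' ≠ j → e j' ∈ w → r (e j) (e j') then some h.choose else none

/-- The priority of a single letter. -/
noncomputable def single {L : Type} (i : L) : Prio L := ofSet {i} (fun _ _ => False)

/-- Restriction of a priority. -/
def Prio.comap {A B : Type} (ρ : Prio B) (φ : A ↪ B) : Prio A := fun n e => ρ n (e.trans φ)

/-- One step of the section map: rewrite the coordinates of rank `n`. -/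
noncomputable def upd {k : ℕ → ℕ} (P : Prog k) {L : Type} (ρ : Prio L) (n : ℕ) (z : E k L) :
    E k L := fun c =>
  if c.1 = n then
    match ρ (k c.1) c.2 with
    | none => z c
    | some j => if c.1 = 0 then 0 else lam (P.τ c.1 j) (P.s c.1 (pull c.2 z))
  else z c

/-- The section map, ranks `< n` only. -/
noncomputable def secn {k : ℕ → ℕ} (P : Prog k) {L : Type} (ρ : Prio L) : ℕ → E k L → E k L
  | 0, z => z
  | n + 1, z => upd P ρ n (secn P ρ n z)

/-- The section map, all ranks. -/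
noncomputable def sec {k : ℕ → ℕ} (P : Prog k) {L : Type} (ρ : Prio L) (z : E k L) : E k L :=
  fun c => secn P ρ (c.1 + 1) z c

/-- The letter `0` of `ℕ` as a priority. -/
noncomputable abbrev sg0 : Prio ℕ := single (0 : ℕ)

/-! ## Consistency -/

/-- `s` with type `τ` is touched by exactly one extreme on `K` along all `e` with `e j = 0`. -/
def Touch {k : ℕ → ℕ} {N : ℕ} (s : E k (Fin N) → unitInterval) (b : Bool) (j : Fin N)
    (K : Set (E k ℕ)) : Prop :=
  ∀ e : Fin N ↪ ℕ, e j = 0 →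
    (b = false → (∀ z ∈ K, (s (pull e z) : ℝ) < 2 / 3) ∧ ∃ z ∈ K, (s (pull e z) : ℝ) < 1 / 3) ∧
    (b = true → (∀ z ∈ K, 1 / 3 < (s (pull e z) : ℝ)) ∧ ∃ z ∈ K, 2 / 3 < (s (pull e z) : ℝ))

/-- The consistency condition of stage `m` for the test `s` with types `τ`. -/
def Cons {k : ℕ → ℕ} (P : Prog k) (m : ℕ) (N : ℕ) (s : E k (Fin N) → unitInterval)
    (τ : Fin N → Bool) : Prop :=
  ∃ K : Fin N → Set (E k ℕ),
    (∀ j, IsClosed (K j) ∧ IsPreconnected (K j) ∧ CylR m (K j) ∧ K j ⊆ Yn P m ℕ ∧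
      secn P sg0 m '' Yn P m ℕ ⊆ K j ∧ Touch s (τ j) j (K j)) ∧
    ∀ j j', K j ⊆ K j' ∨ K j' ⊆ K j

/-- The base coordinate of the letter `i`. -/
def baseC {k : ℕ → ℕ} (hk0 : k 0 = 1) {L : Type} (i : L) : Coord k L :=
  ⟨0, ⟨fun _ => i, fun a b _ => Fin.ext (by have := a.2; have := b.2; omega)⟩⟩

/-! ## The limit object: natural hereditarily indecomposable systems -/

/-- The limit continuum of the letter `i`. -/
def cset {k : ℕ → ℕ} (P : Prog k) (Y : ∀ L : Type, Set (E k L)) {L : Type} (i : L) : Set (E k L) :=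
  sec P (single i) '' Y L

/-- Goodness of a test in the limit. -/
def Good {k : ℕ → ℕ} (P : Prog k) (Y : ∀ L : Type, Set (E k L)) (N : ℕ)
    (s : E k (Fin N) → unitInterval) : Prop :=
  ∃ (K : Fin N → Set (E k ℕ)) (τ : Fin N → Bool),
    (∀ j, IsClosed (K j) ∧ IsPreconnected (K j) ∧ K j ⊆ Y ℕ ∧ cset P Y (0 : ℕ) ⊆ K j ∧
      Touch s (τ j) j (K j) ∧
      ∀ e e' : Fin N ↪ ℕ, e j = 0 → e' j = 0 → pull e '' K j = pull e' '' K j) ∧
    ∀ j j', K j ⊆ K j' ∨ K j' ⊆ K j

/-- `r` is a strict linear order on the set `w`. -/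
def LinOn {L : Type} (w : Set L) (r : L → L → Prop) : Prop :=
  (∀ a ∈ w, ¬ r a a) ∧ (∀ a ∈ w, ∀ b ∈ w, ∀ c ∈ w, r a b → r b c → r a c) ∧
    (∀ a ∈ w, ∀ b ∈ w, a ≠ b → r a b ∨ r b a)

/-- The interface between the two halves of the project. -/
structure NS (k : ℕ → ℕ) where
  P : Prog k
  hk : ∀ m, 1 ≤ k m
  hk0 : k 0 = 1
  Y : ∀ L : Type, Set (E k L)
  closed : ∀ L : Type, IsClosed (Y L)
  conn : ∀ L : Type, IsConnected (Y L)
  image_pull : ∀ {A B : Type} (φ : A ↪ B), pull φ '' Y B = Y A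
  sec_mem : ∀ {L : Type} (w : Set L) (r : L → L → Prop), LinOn w r →
    ∀ z ∈ Y L, sec P (ofSet w r) z ∈ Y L
  base_one : ∀ {L : Type} (i : L), ∃ z ∈ Y L, z (baseC hk0 i) = 1
  rich : ∀ N : ℕ, 1 ≤ N → ∀ O : Set C(E k (Fin N), unitInterval), IsOpen O → ∀ s ∈ O,
    Good P Y N s →
    ∃ f ∈ O, ∀ (L : Type) (e : Fin N ↪ L), ∃ c : Coord k L, ∀ z ∈ Y L, nu (z c) = f (pull e z)

/-- Hereditary indecomposability in the form: subcontinua which meet are comparable. -/
def HI {X : Type} [TopologicalSpace X] (Y : Set X) : Prop :=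
  ∀ A B : Set X, A ⊆ Y → B ⊆ Y → IsClosed A → IsConnected A → IsClosed B → IsConnected B →
    (A ∩ B).Nonempty → A ⊆ B ∨ B ⊆ A

end H64DN
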