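import Pool.Agent.Helper64.DN.Base

/-!
DN-1 (Nu): elementary facts on the fold and the sheets.  All are case distinctions + linarith.
-/

set_option autoImplicit false

namespace H64DN

open Set Topology

theorem nu_low {y : ℝ} (h : y ≤ 1 / 3) : nu y = 2 * y := by
  unfold nu
  rw [min_eq_left]
  exact le_max_of_le_left (by linarith)

theorem nu_mid {y : ℝ} (h1 : 1 / 3 ≤ y) (h2 : y ≤ 2 / 3) : nu y = 1 - y := by
  unfold nu
  rw [max_eq_left (by linarith), min_eq_right (by linarith)]

theorem nu_high {y : ℝ} (h : 2 / 3 ≤ y) (h1 : y ≤ 1) : nu y = 2 * y - 1 := by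
  unfold nu
  rw [max_eq_right (by linarith), min_eq_right (by linarith)]

theorem nu_continuous : Continuous nu := by
  unfold nu
  fun_prop

theorem nu_eq_iff {y c : ℝ} (h1 : y ≤ 1) :
    nu y = c ↔ (y ≤ 1 / 3 ∧ y = c / 2) ∨ (1 / 3 ≤ y ∧ y ≤ 2 / 3 ∧ y = 1 - c) ∨
      (2 / 3 ≤ y ∧ y = (1 + c) / 2) := by
  rcases le_total y (1 / 3) with h | h
  · rw [nu_low h]
    constructor
    · intro e; left; exact ⟨h, by linarith⟩
    · rintro (⟨_, e⟩ | ⟨a, b, e⟩ | ⟨a, e⟩) <;> linarith
  · rcases le_total y (2 / 3) with h' | h'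
    · rw [nu_mid h h']
      constructor
      · intro e; right; left; exact ⟨h, h', by linarith⟩
      · rintro (⟨_, e⟩ | ⟨a, b, e⟩ | ⟨a, e⟩) <;> linarith
    · rw [nu_high h' h1]
      constructor
      · intro e; right; right; exact ⟨h', by linarith⟩
      · rintro (⟨_, e⟩ | ⟨a, b, e⟩ | ⟨a, e⟩) <;> linarith

@[simp] theorem lam_false_coe (c : unitInterval) : ((lam false c : unitInterval) : ℝ) = c / 2 := rfl

@[simp] theorem lam_true_coe (c : unitInterval) :
    ((lam true c : unitInterval) : ℝ) = (1 + c) / 2 := rfl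

theorem lam_continuous (b : Bool) : Continuous (lam b) := by
  cases b
  · exact Continuous.subtype_mk (by fun_prop) _
  · exact Continuous.subtype_mk (by fun_prop) _

theorem nu_lam_false {c : unitInterval} (h : (c : ℝ) ≤ 2 / 3) : nu (lam false c) = c := by
  rw [lam_false_coe, nu_low (by linarith)]; ring

theorem nu_lam_true {c : unitInterval} (h : 1 / 3 ≤ (c : ℝ)) : nu (lam true c) = c := by
  rw [lam_true_coe, nu_high (by linarith) (by linarith [c.2.2])]; ring

/-- Below `1/3` the only solution is the low sheet. -/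
theorem eq_lam_false {y c : unitInterval} (h : (c : ℝ) < 1 / 3) (e : nu y = c) :
    y = lam false c := by
  apply Subtype.ext
  rw [lam_false_coe]
  rcases (nu_eq_iff y.2.2).1 e with ⟨_, h1⟩ | ⟨_, _, h1⟩ | ⟨_, h1⟩
  · exact h1
  · linarith
  · linarith

/-- Above `2/3` the only solution is the high sheet. -/
theorem eq_lam_true {y c : unitInterval} (h : 2 / 3 < (c : ℝ)) (e : nu y = c) :
    y = lam true c := by
  apply Subtype.ext
  rw [lam_true_coe]
  rcases (nu_eq_iff y.2.2).1 e with ⟨_, h1⟩ | ⟨_, _, h1⟩ | ⟨_, h1⟩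
  · linarith
  · linarith
  · exact h1

/-- A solution in the low sheet is `lam false`. -/
theorem eq_lam_false_of_lt {y c : unitInterval} (h : (y : ℝ) ≤ 1 / 3) (e : nu y = c) :
    y = lam false c := by
  apply Subtype.ext
  rw [lam_false_coe]
  rw [nu_low h] at e
  linarith

/-- A solution in the high sheet is `lam true`. -/
theorem eq_lam_true_of_lt {y c : unitInterval} (h : 2 / 3 ≤ (y : ℝ)) (e : nu y = c) :
    y = lam true c := by
  apply Subtype.ext
  rw [lam_true_coe]
  rw [nu_high h y.2.2] at e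
  linarith

end H64DN
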