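import Pool.Agent.Helper64.DN.Sec
import Pool.Agent.Helper64.DN.Nu
import Pool.Agent.Helper64.DN.Top

/-!
DN-18 (CBasic): basic facts on the continua `cs S i = sec (single i) '' Y L` of a system `S : NS k`.

* `single i = ofSet {i} (fun _ _ => False)`, and `LinOn {i} (fun _ _ => False)`; so `S.sec_mem` gives `cs_subset`; closed/connected: image
  of the continuum `Y L` under `sec_continuous`.
* `pull_cs`: `pull φ (sec (single (φ a)) z) = sec (single a) (pull φ z)` (`sec_pull`, `single_comap`) and `S.image_pull`.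
* `pull_cs_off`: `pull φ (sec (single i) z) = pull φ z` (`single_comap_off`, `sec_noPrio`).
* `cs_fix`: `sec (single i)` is idempotent (`sec_congr`: `sec z` and `z` agree on the coordinates with `i ∉ range c.2`, `sec_none`).
* `cs_inj`: `z = sec z`, `z' = sec z'`, `sec_congr`.
* `test_sep`: `O = {f | (∀ z ∈ K₁, f z < 2/3) ∧ f a < 1/3 ∧ (∀ z ∈ K₂, 1/3 < f z) ∧ 2/3 < f b}` is open in `C(E k (Fin N), unitInterval)`; `S.rich` with `L = Fin N`,
  `e` the identity; `sheet_sep`.
* `sheet_sep`: on `K₁` the coordinate `z c` is never `1/3` (`nu (1/3) = 2/3`), `K₁` is preconnected, at the point with `f < 1/3` it is `< 1/6`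
  (`eq_lam_false`); so `z c < 1/3` on `K₁`.  Similarly `z c > 2/3` on `K₂`.
-/

set_option autoImplicit false

namespace H64DN

open Set Topology

variable {k : ℕ → ℕ} (S : NS k)

/-- The continuum of the letter `i`. -/
noncomputable abbrev cs {L : Type} (i : L) : Set (E k L) := cset S.P S.Y i

private theorem linOn_single' {L : Type} (i : L) : LinOn ({i} : Set L) (fun _ _ => False) := by
  refine ⟨fun _ _ h => h, fun _ _ _ _ _ _ h _ => h.elim, ?_⟩
  intro a ha b hb hab
  rw [mem_singleton_iff] at ha hb
  exact absurd (ha.trans hb.symm) hab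

theorem cs_subset {L : Type} (i : L) : cs S i ⊆ S.Y L := by
  rintro _ ⟨z, hz, rfl⟩
  exact S.sec_mem {i} (fun _ _ => False) (linOn_single' i) z hz

theorem cs_closed {L : Type} (i : L) : IsClosed (cs S i) :=
  ((S.closed L).isCompact.image (sec_continuous S.P (single i))).isClosed

theorem cs_connected {L : Type} (i : L) : IsConnected (cs S i) :=
  (S.conn L).image _ (sec_continuous S.P (single i)).continuousOn

theorem pull_cs {A B : Type} (φ : A ↪ B) (a : A) : pull φ '' cs S (φ a) = cs S a := by
  have h1 : ∀ z : E k B, pull φ (sec S.P (single (φ a)) z) = sec S.P (single a) (pull φ z) := by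
    intro z
    rw [sec_pull, single_comap]
  have h2 : sec S.P (single a) '' (pull φ '' S.Y B) = cs S a := by
    rw [S.image_pull]
    rfl
  rw [← h2, image_image]
  change pull φ '' (sec S.P (single (φ a)) '' S.Y B) = _
  rw [image_image]
  exact image_congr fun z _ => h1 z

theorem pull_cs_off {A B : Type} (φ : A ↪ B) (i : B) (hi : i ∉ range φ) :
    pull φ '' cs S i = S.Y A := by
  have h1 : ∀ z : E k B, pull φ (sec S.P (single i) z) = pull φ z := by
    intro z
    rw [sec_pull, single_comap_off φ i hi, sec_noPrio]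
  rw [← S.image_pull φ]
  change pull φ '' (sec S.P (single i) '' S.Y B) = _
  rw [image_image]
  exact image_congr fun z _ => h1 z

theorem cs_fix {L : Type} (i : L) (z : E k L) (hz : z ∈ cs S i) : sec S.P (single i) z = z := by
  obtain ⟨y, _, rfl⟩ := hz
  exact sec_congr S.P (single i) _ _ fun c hc => sec_none S.P (single i) y c hc

theorem cs_inj {L : Type} (i : L) (z z' : E k L) (hz : z ∈ cs S i) (hz' : z' ∈ cs S i)
    (h : ∀ c : Coord k L, i ∉ range c.2 → z c = z' c) : z = z' := by
  rw [← cs_fix S i z hz, ← cs_fix S i z' hz']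
  exact sec_congr S.P (single i) _ _ fun c hc => h c ((single_none i c.2).1 hc)

theorem cs_base {L : Type} (i : L) (z : E k L) (hz : z ∈ cs S i) : z (baseC S.hk0 i) = 0 := by
  obtain ⟨y, _, rfl⟩ := hz
  have hj : 0 < k 0 := by
    have := S.hk 0
    omega
  exact sec_zero S.P (single i) y (baseC S.hk0 i) (⟨0, hj⟩ : Fin (k 0))
    ((single_some i _ _).2 rfl) rfl

/-- In every `cs S i`, the base coordinate of another letter takes the value `1`. -/
theorem cs_base_one {L : Type} (i j : L) (h : i ≠ j) : ∃ z ∈ cs S i, z (baseC S.hk0 j) = 1 := by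
  obtain ⟨z, hz, hz1⟩ := S.base_one j
  refine ⟨sec S.P (single i) z, ⟨z, hz, rfl⟩, ?_⟩
  rw [← hz1]
  refine sec_none S.P (single i) z (baseC S.hk0 j) ((single_none i _).2 ?_)
  rintro ⟨t, ht⟩
  exact h ht.symm

end H64DN
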