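import Pool.Agent.Helper64.DN.CBasica

/-!
DN-18 (CBasic): basic facts on the continua `cs S i = sec (single i) '' Y L` of a system `S : NS k`.

* `single i = ofSet {i} (fun _ _ => False)`, and `LinOn {i} (fun _ _ => False)`; so `S.sec_mem` gives `cs_subset`; closed/connected: image
  of the continuum `Y L` under `sec_continuous`.
* `pull_cs`: `pull φ (sec (single (φ a)) z) = sec (single a) (pull φ z)` (`sec_pull`, `single_comap`) and `S.image_pull`.
* `pull_cs_off`: `pull φ (sec (single i) z) = pull φ z` (`single_comap_off`, `sec_noPrio`).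
* `cs_fix`: `sec (single i)` is idempotent (`sec_congr`: `sec z` and `z` agree on the coordinates with `i ∉ range c.2`, `sec_none`).
* `cs_inj`: `z = sec z`, `z' = sec z'`, `sec_congr`.
* `test_sep`: `O = {f | (∀ z ∈ K₁, f z < 2/3) ∧ f a < 1/3 ∧ (∀ z ∈ K₂, 1/3 < f z) ∧ 2/3 < f b}` is open in `C(E k (Fin N), unitInterval)`; `S.rich` with `L = Fin N`,
  `e` the identity; `sheet_sep`.
* `sheet_sep`: on `K₁` the coordinate `z c` is never `1/3` (`nu (1/3) = 2/3`), `K₁` is preconnected, at the point with `f < 1/3` it is `< 1/6`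
  (`eq_lam_false`); so `z c < 1/3` on `K₁`.  Similarly `z c > 2/3` on `K₂`.
-/

set_option autoImplicit false

namespace H64DN

open Set Topology

variable {k : ℕ → ℕ} (S : NS k)

theorem sheet_sep {L : Type} (K₁ K₂ : Set (E k L)) (h1 : IsPreconnected K₁)
    (h2 : IsPreconnected K₂) (c : Coord k L) (f : E k L → ℝ)
    (hf1 : ∀ z ∈ K₁, nu (z c) = f z) (hf2 : ∀ z ∈ K₂, nu (z c) = f z)
    (a1 : ∀ z ∈ K₁, f z < 2 / 3) (a2 : ∃ z ∈ K₁, f z < 1 / 3) (b1 : ∀ z ∈ K₂, 1 / 3 < f z)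
    (b2 : ∃ z ∈ K₂, 2 / 3 < f z) (f0 : ∀ z, 0 ≤ f z ∧ f z ≤ 1) : Disjoint K₁ K₂ := by
  have hg : Continuous (fun z : E k L => ((z c : unitInterval) : ℝ)) :=
    continuous_subtype_val.comp (continuous_apply c)
  have low : ∀ z ∈ K₁, ((z c : unitInterval) : ℝ) < 1 / 3 := by
    intro z hz
    obtain ⟨a, ha, haf⟩ := a2
    have hac : ((a c : unitInterval) : ℝ) < 1 / 3 := by
      have e := hf1 a ha
      rcases (nu_eq_iff (a c).2.2).1 e with ⟨_, h⟩ | ⟨_, _, h⟩ | ⟨_, h⟩ <;> linarith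
    by_contra hcon
    have hcon' : 1 / 3 ≤ ((z c : unitInterval) : ℝ) := not_lt.1 hcon
    have hI : IsPreconnected ((fun z : E k L => ((z c : unitInterval) : ℝ)) '' K₁) :=
      h1.image _ hg.continuousOn
    have hO := hI.ordConnected
    have hm : (1 / 3 : ℝ) ∈ (fun z : E k L => ((z c : unitInterval) : ℝ)) '' K₁ :=
      hO.out (mem_image_of_mem _ ha) (mem_image_of_mem _ hz) ⟨hac.le, hcon'⟩
    obtain ⟨w, hw, hwc⟩ := hm
    have e := hf1 w hw
    have hwc' : ((w c : unitInterval) : ℝ) = 1 / 3 := hwc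
    rw [nu_low (le_of_eq hwc'), hwc'] at e
    have := a1 w hw
    linarith
  have high : ∀ z ∈ K₂, 2 / 3 < ((z c : unitInterval) : ℝ) := by
    intro z hz
    obtain ⟨b, hb, hbf⟩ := b2
    have hbc : 2 / 3 < ((b c : unitInterval) : ℝ) := by
      have e := hf2 b hb
      rcases (nu_eq_iff (b c).2.2).1 e with ⟨_, h⟩ | ⟨_, _, h⟩ | ⟨_, h⟩ <;> linarith
    by_contra hcon
    have hcon' : ((z c : unitInterval) : ℝ) ≤ 2 / 3 := not_lt.1 hcon
    have hI : IsPreconnected ((fun z : E k L => ((z c : unitInterval) : ℝ)) '' K₂) :=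
      h2.image _ hg.continuousOn
    have hO := hI.ordConnected
    have hm : (2 / 3 : ℝ) ∈ (fun z : E k L => ((z c : unitInterval) : ℝ)) '' K₂ :=
      hO.out (mem_image_of_mem _ hz) (mem_image_of_mem _ hb) ⟨hcon', hbc.le⟩
    obtain ⟨w, hw, hwc⟩ := hm
    have e := hf2 w hw
    have hwc' : ((w c : unitInterval) : ℝ) = 2 / 3 := hwc
    rw [nu_mid (by rw [hwc']; norm_num) (le_of_eq hwc'), hwc'] at e
    have := b1 w hw
    linarith
  rw [Set.disjoint_left]
  intro z hz1 hz2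
  have l := low z hz1
  have h := high z hz2
  linarith

theorem test_sep (N : ℕ) (hN : 1 ≤ N) (K₁ K₂ : Set (E k (Fin N))) (hK₁ : K₁ ⊆ S.Y (Fin N))
    (hK₂ : K₂ ⊆ S.Y (Fin N)) (hc₁ : IsClosed K₁) (hc₂ : IsClosed K₂) (h1 : IsPreconnected K₁)
    (h2 : IsPreconnected K₂) (s : C(E k (Fin N), unitInterval)) (hs : Good S.P S.Y N s)
    (a1 : ∀ z ∈ K₁, (s z : ℝ) < 2 / 3) (a2 : ∃ z ∈ K₁, (s z : ℝ) < 1 / 3)
    (b1 : ∀ z ∈ K₂, 1 / 3 < (s z : ℝ)) (b2 : ∃ z ∈ K₂, 2 / 3 < (s z : ℝ)) :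
    Disjoint K₁ K₂ := by
  obtain ⟨a, ha, haf⟩ := a2
  obtain ⟨b, hb, hbf⟩ := b2
  have hU1 : IsOpen {x : unitInterval | (x : ℝ) < 2 / 3} :=
    isOpen_lt continuous_subtype_val continuous_const
  have hU2 : IsOpen {x : unitInterval | (1 / 3 : ℝ) < (x : ℝ)} :=
    isOpen_lt continuous_const continuous_subtype_val
  have hU3 : IsOpen {x : unitInterval | (x : ℝ) < 1 / 3} :=
    isOpen_lt continuous_subtype_val continuous_const
  have hU4 : IsOpen {x : unitInterval | (2 / 3 : ℝ) < (x : ℝ)} :=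
    isOpen_lt continuous_const continuous_subtype_val
  have o1 : IsOpen {f : C(E k (Fin N), unitInterval) |
      MapsTo f K₁ {x : unitInterval | (x : ℝ) < 2 / 3}} :=
    ContinuousMap.isOpen_setOfPred_mapsTo hc₁.isCompact hU1
  have o2 : IsOpen {f : C(E k (Fin N), unitInterval) |
      MapsTo f K₂ {x : unitInterval | (1 / 3 : ℝ) < (x : ℝ)}} :=
    ContinuousMap.isOpen_setOfPred_mapsTo hc₂.isCompact hU2
  have o3 : IsOpen {f : C(E k (Fin N), unitInterval) | (f a : ℝ) < 1 / 3} :=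
    hU3.preimage (continuous_eval_const a)
  have o4 : IsOpen {f : C(E k (Fin N), unitInterval) | (2 / 3 : ℝ) < (f b : ℝ)} :=
    hU4.preimage (continuous_eval_const b)
  obtain ⟨f, ⟨⟨⟨f1, f2⟩, f3⟩, f4⟩, hf⟩ := S.rich N hN _ (((o1.inter o2).inter o3).inter o4) s
    ⟨⟨⟨fun z hz => a1 z hz, fun z hz => b1 z hz⟩, haf⟩, hbf⟩ hs
  obtain ⟨c, hc⟩ := hf (Fin N) (Function.Embedding.refl (Fin N))
  have hpull : ∀ z : E k (Fin N), pull (Function.Embedding.refl (Fin N)) z = z := fun z => rfl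
  refine sheet_sep K₁ K₂ h1 h2 c (fun z => ((f z : unitInterval) : ℝ)) ?_ ?_ ?_ ⟨a, ha, f3⟩ ?_
    ⟨b, hb, f4⟩ ?_
  · intro z hz
    have := hc z (hK₁ hz)
    rw [hpull] at this
    exact this
  · intro z hz
    have := hc z (hK₂ hz)
    rw [hpull] at this
    exact this
  · intro z hz
    exact f1 hz
  · intro z hz
    exact f2 hz
  · intro z
    exact ⟨(f z).2.1, (f z).2.2⟩

end H64DN
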