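import Pool.Agent.Helper64.DN.Par1

/-!
DN-3 (Comp): finiteness and composition.

Key decomposition (`sol_union`): let `T₁`, `T₂` be disjoint and `Ind S T₁ T₂`.  For `w ∈ Sol S (T₁ ∪ T₂) U z`
let `z₁ = w` on `T₁`, `= z` off `T₁`.  Then `z₁ ∈ Sol S T₁ univ z` (the functions of `T₁` do not see the
change on `T₂`) and `w ∈ Sol S T₂ U z₁`; conversely `z₁ ∈ Sol S T₁ univ z`, `w ∈ Sol S T₂ U z₁` imply
`w ∈ Sol S (T₁ ∪ T₂) U z` and `w = z₁` on `T₁`, so the union is disjoint.
* `sol_finite`: induction on `T.card`: remove an element `t` of maximal rank (`Finset.exists_max_image`),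
  `T₁ = T.erase t`, `T₂ = {t}`, `Ind` by `ind_of_rk`.
* `par_comp`: `ncard (Sol (T₁ ∪ T₂) U z) = ∑ z₁ ∈ Sol T₁ univ z, ncard (Sol T₂ U z₁)`, and a sum of naturals is
  odd iff the number of odd terms is odd (`Finset.odd_sum_iff_odd_card_odd`); the odd terms are the
  elements of `Sol S T₁ (Par S T₂ U) z`.
-/

set_option autoImplicit false

namespace H64DN

open Set Topology

variable {J : Type}

open Classical in
/-- `w` on `T`, `z` off `T`. -/
private noncomputable def glue (T : Finset J) (w z : J → unitInterval) : J → unitInterval :=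
  fun j => if j ∈ T then w j else z j

private theorem glue_mem {T : Finset J} {w z : J → unitInterval} {j : J} (h : j ∈ T) :
    glue T w z j = w j := by
  classical
  simp [glue, h]

private theorem glue_notMem {T : Finset J} {w z : J → unitInterval} {j : J} (h : j ∉ T) :
    glue T w z j = z j := by
  classical
  simp [glue, h]

open Classical in
private theorem sol_split (S : FS J) (T₁ T₂ : Finset J) (hi : Ind S T₁ T₂)
    (U : Set (J → unitInterval)) (z w : J → unitInterval) (hw : w ∈ Sol S (T₁ ∪ T₂) U z) :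
    glue T₁ w z ∈ Sol S T₁ univ z ∧ w ∈ Sol S T₂ U (glue T₁ w z) := by
  obtain ⟨hU, hO, hoff, hN⟩ := hw
  have key : ∀ i, i ∉ T₂ → w i = glue T₁ w z i := by
    intro i hi2
    by_cases h1 : i ∈ T₁
    · rw [glue_mem h1]
    · rw [glue_notMem h1]
      exact hoff i (by simp [h1, hi2])
  refine ⟨⟨mem_univ _, ?_, ?_, ?_⟩, hU, ?_, key, ?_⟩
  · intro t ht
    rw [glue_mem ht, hO t (Finset.mem_union_left _ ht), hi t ht w (glue T₁ w z) key]
  · intro j hj
    exact glue_notMem hj
  · intro t ht
    rw [glue_mem ht]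
    exact hN t (Finset.mem_union_left _ ht)
  · intro t ht
    exact hO t (Finset.mem_union_right _ ht)
  · intro t ht
    exact hN t (Finset.mem_union_right _ ht)

open Classical in
private theorem sol_join (S : FS J) (T₁ T₂ : Finset J) (hd : Disjoint T₁ T₂) (hi : Ind S T₁ T₂)
    (U : Set (J → unitInterval)) (z z₁ w : J → unitInterval) (h1 : z₁ ∈ Sol S T₁ univ z)
    (h2 : w ∈ Sol S T₂ U z₁) : w ∈ Sol S (T₁ ∪ T₂) U z ∧ glue T₁ w z = z₁ := by
  obtain ⟨-, hO1, hoff1, hN1⟩ := h1
  obtain ⟨hU, hO2, hoff2, hN2⟩ := h2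
  have hnot : ∀ t ∈ T₁, t ∉ T₂ := fun t ht => Finset.disjoint_left.1 hd ht
  refine ⟨⟨hU, ?_, ?_, ?_⟩, ?_⟩
  · intro t ht
    rcases Finset.mem_union.1 ht with ht | ht
    · rw [hoff2 t (hnot t ht), hO1 t ht, hi t ht w z₁ hoff2]
    · exact hO2 t ht
  · intro j hj
    rw [Finset.mem_union, not_or] at hj
    rw [hoff2 j hj.2, hoff1 j hj.1]
  · intro t ht
    rcases Finset.mem_union.1 ht with ht | ht
    · rw [hoff2 t (hnot t ht)]
      exact hN1 t ht
    · exact hN2 t ht
  · funext j
    by_cases hj : j ∈ T₁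
    · rw [glue_mem hj, hoff2 j (hnot j hj)]
    · rw [glue_notMem hj, hoff1 j hj]

theorem sol_finite (S : FS J) (T : Finset J) (U : Set (J → unitInterval)) (z : J → unitInterval) :
    (Sol S T U z).Finite := by
  classical
  induction hn : T.card generalizing T U z with
  | zero =>
    rw [Finset.card_eq_zero] at hn
    subst hn
    refine (Set.finite_singleton z).subset ?_
    intro w hw
    rw [Set.mem_singleton_iff]
    funext j
    exact hw.2.2.1 j (Finset.notMem_empty j)
  | succ n ih =>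
    have hne : T.Nonempty := by
      rw [← Finset.card_pos]
      omega
    obtain ⟨t, ht, hmax⟩ := Finset.exists_max_image T S.rk hne
    have hcard : (T.erase t).card = n := by
      rw [Finset.card_erase_of_mem ht]
      omega
    have hunion : T.erase t ∪ {t} = T := by
      ext x
      by_cases hx : x = t
      · subst hx
        simp [ht]
      · simp [hx]
    have hind : Ind S (T.erase t) {t} := by
      apply ind_of_rk
      intro a ha b hb
      rw [Finset.mem_singleton] at hb
      subst hb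
      exact hmax a (Finset.mem_of_mem_erase ha)
    have hind2 : Ind S {t} {t} := by
      apply ind_of_rk
      intro a ha b hb
      rw [Finset.mem_singleton] at ha hb
      rw [ha, hb]
    have hfin : (⋃ z₁ ∈ Sol S (T.erase t) univ z, Sol S {t} U z₁).Finite :=
      (ih (T.erase t) univ z hcard).biUnion fun z₁ _ => sol_single_finite S t hind2 U z₁
    refine hfin.subset ?_
    intro w hw
    rw [← hunion] at hw
    obtain ⟨h1, h2⟩ := sol_split S (T.erase t) {t} hind U z w hw
    exact Set.mem_biUnion h1 h2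

open Classical in
theorem par_comp (S : FS J) (T₁ T₂ : Finset J) (hd : Disjoint T₁ T₂) (hi : Ind S T₁ T₂)
    (U : Set (J → unitInterval)) : Par S (T₁ ∪ T₂) U = Par S T₁ (Par S T₂ U) := by
  ext z
  have hF := sol_finite S (T₁ ∪ T₂) U z
  have hF1 := sol_finite S T₁ univ z
  have hF2 := sol_finite S T₁ (Par S T₂ U) z
  have hmaps : ∀ w ∈ hF.toFinset, glue T₁ w z ∈ hF1.toFinset := by
    intro w hw
    rw [Set.Finite.mem_toFinset] at hw ⊢
    exact (sol_split S T₁ T₂ hi U z w hw).1
  have hcard : (Sol S (T₁ ∪ T₂) U z).ncard = ∑ z₁ ∈ hF1.toFinset, (Sol S T₂ U z₁).ncard := by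
    rw [Set.ncard_eq_toFinset_card _ hF, Finset.card_eq_sum_card_fiberwise hmaps]
    apply Finset.sum_congr rfl
    intro z₁ hz₁
    rw [Set.Finite.mem_toFinset] at hz₁
    rw [Set.ncard_eq_toFinset_card _ (sol_finite S T₂ U z₁)]
    apply congrArg
    ext w
    rw [Finset.mem_filter, Set.Finite.mem_toFinset, Set.Finite.mem_toFinset]
    constructor
    · rintro ⟨h1, h2⟩
      have := (sol_split S T₁ T₂ hi U z w h1).2
      rwa [h2] at this
    · intro h
      exact sol_join S T₁ T₂ hd hi U z z₁ w hz₁ h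
  have hcard2 : (Sol S T₁ (Par S T₂ U) z).ncard =
      (hF1.toFinset.filter (fun z₁ => Odd (Sol S T₂ U z₁).ncard)).card := by
    rw [Set.ncard_eq_toFinset_card _ hF2]
    apply congrArg
    ext w
    rw [Finset.mem_filter, Set.Finite.mem_toFinset, Set.Finite.mem_toFinset]
    constructor
    · rintro ⟨h1, h2, h3, h4⟩
      exact ⟨⟨mem_univ _, h2, h3, h4⟩, h1⟩
    · rintro ⟨⟨-, h2, h3, h4⟩, h1⟩
      exact ⟨h1, h2, h3, h4⟩
  change Odd (Sol S (T₁ ∪ T₂) U z).ncard ↔ Odd (Sol S T₁ (Par S T₂ U) z).ncard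
  rw [hcard, hcard2]
  exact Finset.odd_sum_iff_odd_card_odd _

end H64DN
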