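import Pool.Agent.Helper64.DN.ParG
import Pool.Agent.Helper64.DN.Top

/-!
DN-6 (Dir): the odd component.

Let `z₀` witness `Dir S T`.  For `U` RC in `Om S T`: `Par S T U` is `∅` or `univ` (`par_of_mem` with `A = univ`), and
`Par S T (Om \ U) = univ \ Par S T U` (`par_diff`).
* `oddS_eq`: `z ∈ OddS` iff `z` lies in every RC set containing `z₀`: if `z ∈ OddS`, `U ∋ z₀` RC and `z ∉ U` then `Om \ U` is RC,
  contains `z`, so `Par (Om \ U) = univ`, but `Par U = univ`: contradiction with `par_diff`.  Conversely, if
  `z ∈ U` RC and `Par U ≠ univ` then `z₀ ∉ U`, so `z₀ ∈ Om \ U`, so `z ∈ Om \ U`, contradiction.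
  So `OddS S T = connectedComponentIn (Om S T) z₀` (`component_eq`).
* `dir_insert`: `Ind S T {t}`, `z ∈ OddS S T` with `g t z < 1/3` or `> 2/3`; new witness `z' = update z t (lam b (g t z))`.
  `Par S (insert t T) U = Par S T (Par S {t} U)` (`par_comp`, `Ind S T {t}`), `Par S {t} U` is RC in `Om S T`
  (`par_RC`, `om_cyl`), so it has parity `univ` iff it meets `OddS S T` iff it contains `z` iff `z' ∈ U` (`mem_par_single_low/high`;
  `Ind S {t} {t}` holds by rank).
* `oddS_mono`: `z' ∈ OddS S T'`, `U ∋ z'` RC in `Om S T`; `U ∩ Om S (T' \ T)` is RC in `Om S T' = Om S T ∩ Om S (T' \ T)`;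
  `univ = Par T' (U ∩ Om (T' \ T)) = Par T (Par (T' \ T) (U ∩ ..)) = Par T U`, since `U` is a `(T' \ T)`-cylinder (`rc_cyl`, `om_cyl`),
  hence `Par (T' \ T) U = U` (`par_inter`, `par_total`).
* `oddS_onto`: for every RC set `U` of `Om S T'` with `Par T' U = univ`: `Par (T' \ T) U` is RC in `Om S T` with parity `univ`, so it contains
  `OddS S T ∋ z`, so `U` contains some `w = z` off `T' \ T`.  These `U` are closed under finite intersections
  (they are the RC sets containing the witness of `Dir S T'`); compactness gives `w` in all of them, i.e. in `OddS S T'`.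
* `oddS_cyl`: if `Om S T` is an `R`-cylinder then so is every RC subset (`rc_cyl`), hence `OddS S T`.
-/

set_option autoImplicit false

namespace H64DN

open Set Topology

variable {J : Type}

theorem oddS_eq (S : FS J) (T : Finset J) (z₀ : J → unitInterval) (h0 : z₀ ∈ Om S T)
    (h : ∀ U, RC (Om S T) U → (z₀ ∈ U ↔ Par S T U = univ)) :
    OddS S T = connectedComponentIn (Om S T) z₀ := by
  rw [component_eq (om_closed S T) h0]
  ext w
  constructor
  · rintro ⟨hw, hodd⟩ U hU hz
    by_contra hwU
    have h1 : Par S T (Om S T \ U) = univ := hodd _ (rc_diff hU) ⟨hw, hwU⟩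
    have h2 := par_diff S T univ U (fun _ _ _ _ => mem_univ _)
      (by rw [univ_inter]; exact hU.1)
    rw [univ_inter, h1, (h U hU).1 hz, sdiff_self] at h2
    exact (univ_nonempty (α := J → unitInterval)).ne_empty h2
  · intro hw
    have hRC : RC (Om S T) (Om S T) := ⟨Subset.rfl, om_closed S T, by rw [sdiff_self]; exact isClosed_empty⟩
    refine ⟨hw _ hRC h0, fun U hU hwU => ?_⟩
    rw [← h U hU]
    by_contra hz
    exact (hw _ (rc_diff hU) ⟨h0, hz⟩).2 hwU

theorem oddS_closed (S : FS J) (T : Finset J) (hD : Dir S T) : IsClosed (OddS S T) := by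
  obtain ⟨z₀, h0, h⟩ := hD
  rw [oddS_eq S T z₀ h0 h]
  exact component_closed (om_closed S T) z₀

theorem oddS_connected (S : FS J) (T : Finset J) (hD : Dir S T) : IsConnected (OddS S T) := by
  obtain ⟨z₀, h0, h⟩ := hD
  rw [oddS_eq S T z₀ h0 h]
  exact isConnected_connectedComponentIn_iff.2 h0

theorem par_univ_iff (S : FS J) (T : Finset J) (hD : Dir S T) (U : Set (J → unitInterval))
    (hU : RC (Om S T) U) : Par S T U = univ ↔ (OddS S T ∩ U).Nonempty := by
  constructor
  · intro hP
    obtain ⟨z₀, h0, h⟩ := hD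
    refine ⟨z₀, ?_, (h U hU).2 hP⟩
    rw [oddS_eq S T z₀ h0 h]
    exact mem_connectedComponentIn h0
  · rintro ⟨w, hw, hwU⟩
    exact hw.2 U hU hwU

theorem par_univ_iff' (S : FS J) (T : Finset J) (hD : Dir S T) (U : Set (J → unitInterval))
    (hU : RC (Om S T) U) : Par S T U = univ ↔ OddS S T ⊆ U := by
  obtain ⟨z₀, h0, h⟩ := hD
  constructor
  · intro hP w hw
    rw [oddS_eq S T z₀ h0 h, component_eq (om_closed S T) h0] at hw
    exact hw U hU ((h U hU).2 hP)
  · intro hs
    have hz : z₀ ∈ OddS S T := by
      rw [oddS_eq S T z₀ h0 h]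
      exact mem_connectedComponentIn h0
    exact hz.2 U hU (hs hz)

private theorem om_empty (S : FS J) : Om S (∅ : Finset J) = univ := by
  ext z
  simp [Om]

private theorem rc_univ {U : Set (J → unitInterval)} (hU : RC (univ : Set (J → unitInterval)) U)
    {z : J → unitInterval} (hz : z ∈ U) : U = univ := by
  have hc : IsClopen U := by
    refine ⟨hU.2.1, ?_⟩
    rw [← isClosed_compl_iff, compl_eq_univ_sdiff]
    exact hU.2.2
  rcases isClopen_iff.1 hc with h | h
  · rw [h] at hz
    exact absurd hz (notMem_empty z)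
  · exact h

theorem dir_empty (S : FS J) : Dir S ∅ := by
  refine ⟨fun _ => 0, by rw [om_empty]; exact mem_univ _, fun U hU => ?_⟩
  rw [par_empty]
  rw [om_empty] at hU
  constructor
  · intro hz
    exact rc_univ hU hz
  · intro h
    rw [h]
    exact mem_univ _

theorem oddS_empty (S : FS J) : OddS S ∅ = univ := by
  ext z
  constructor
  · intro _
    exact mem_univ _
  · intro _
    refine ⟨by rw [om_empty]; exact mem_univ _, fun U hU hz => ?_⟩
    rw [par_empty]
    rw [om_empty] at hU
    exact rc_univ hU hz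

open Classical in
private theorem dir_insert_aux (S : FS J) (T : Finset J) (hD : Dir S T) (t : J) (ht : t ∉ T)
    (hi : Ind S T {t}) (z : J → unitInterval) (hz : z ∈ OddS S T) (y : unitInterval)
    (hy : nu y = S.g t z)
    (hpar : ∀ U, z ∈ Par S {t} U ↔ Function.update z t y ∈ U) : Dir S (insert t T) := by
  have htt : Ind S {t} {t} := ind_of_rk S {t} {t} fun a ha b hb => by
    rw [Finset.mem_singleton] at ha hb
    rw [ha, hb]
  have hdis : Disjoint T {t} := Finset.disjoint_singleton_right.2 ht
  have hins : insert t T = T ∪ {t} := by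
    rw [Finset.insert_eq, Finset.union_comm]
  have hcyl : Cyl (({t} : Finset J) : Set J) (Om S T) := om_cyl S T {t} hdis hi
  have hoff : ∀ j, j ∉ (({t} : Finset J) : Set J) → Function.update z t y j = z j := by
    intro j hj
    rw [Function.update_of_ne]
    intro h
    exact hj (by rw [h]; simp)
  rw [hins]
  refine ⟨Function.update z t y, ?_, fun U hU => ?_⟩
  · rw [om_union]
    refine ⟨hcyl z hz.1 _ hoff, fun t' ht' => ?_⟩
    rw [Finset.mem_singleton] at ht'
    subst ht'
    rw [Function.update_self, hy]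
    congr 1
    refine htt t' (Finset.mem_singleton_self t') _ _ fun i hi' => (hoff i fun h => hi' ?_).symm
    exact Finset.mem_coe.1 h
  · rw [om_union] at hU
    have hRC : RC (Om S T) (Par S {t} U) := par_RC S {t} (Om S T) (om_closed S T) hcyl U hU
    rw [par_comp S T {t} hdis hi U, ← hpar U]
    constructor
    · intro h
      exact (par_univ_iff S T hD _ hRC).2 ⟨z, hz, h⟩
    · intro h
      exact (par_univ_iff' S T hD _ hRC).1 h hz

open Classical in
theorem dir_insert (S : FS J) (T : Finset J) (hD : Dir S T) (t : J) (ht : t ∉ T)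
    (hi : Ind S T {t}) (z : J → unitInterval) (hz : z ∈ OddS S T)
    (he : (S.g t z : ℝ) < 1 / 3 ∨ 2 / 3 < (S.g t z : ℝ)) : Dir S (insert t T) := by
  have htt : Ind S {t} {t} := ind_of_rk S {t} {t} fun a ha b hb => by
    rw [Finset.mem_singleton] at ha hb
    rw [ha, hb]
  rcases he with he | he
  · exact dir_insert_aux S T hD t ht hi z hz (lam false (S.g t z))
      (nu_lam_false (by linarith)) fun U => mem_par_single_low S t htt U z he
  · exact dir_insert_aux S T hD t ht hi z hz (lam true (S.g t z))
      (nu_lam_true (by linarith)) fun U => mem_par_single_high S t htt U z he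

end H64DN
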