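import Pool.Agent.Helper64.DN.Dira

/-!
DN-6 (Dir): the odd component.

Let `z₀` witness `Dir S T`.  For `U` RC in `Om S T`: `Par S T U` is `∅` or `univ` (`par_of_mem` with `A = univ`), and
`Par S T (Om \ U) = univ \ Par S T U` (`par_diff`).
* `oddS_eq`: `z ∈ OddS` iff `z` lies in every RC set containing `z₀`: if `z ∈ OddS`, `U ∋ z₀` RC and `z ∉ U` then `Om \ U` is RC,
  contains `z`, so `Par (Om \ U) = univ`, but `Par U = univ`: contradiction with `par_diff`.  Conversely, if
  `z ∈ U` RC and `Par U ≠ univ` then `z₀ ∉ U`, so `z₀ ∈ Om \ U`, so `z ∈ Om \ U`, contradiction.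
  So `OddS S T = connectedComponentIn (Om S T) z₀` (`component_eq`).
* `dir_insert`: `Ind S T {t}`, `z ∈ OddS S T` with `g t z < 1/3` or `> 2/3`; new witness `z' = update z t (lam b (g t z))`.
  `Par S (insert t T) U = Par S T (Par S {t} U)` (`par_comp`, `Ind S T {t}`), `Par S {t} U` is RC in `Om S T`
  (`par_RC`, `om_cyl`), so it has parity `univ` iff it meets `OddS S T` iff it contains `z` iff `z' ∈ U` (`mem_par_single_low/high`;
  `Ind S {t} {t}` holds by rank).
* `oddS_mono`: `z' ∈ OddS S T'`, `U ∋ z'` RC in `Om S T`; `U ∩ Om S (T' \ T)` is RC in `Om S T' = Om S T ∩ Om S (T' \ T)`;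
  `univ = Par T' (U ∩ Om (T' \ T)) = Par T (Par (T' \ T) (U ∩ ..)) = Par T U`, since `U` is a `(T' \ T)`-cylinder (`rc_cyl`, `om_cyl`),
  hence `Par (T' \ T) U = U` (`par_inter`, `par_total`).
* `oddS_onto`: for every RC set `U` of `Om S T'` with `Par T' U = univ`: `Par (T' \ T) U` is RC in `Om S T` with parity `univ`, so it contains
  `OddS S T ∋ z`, so `U` contains some `w = z` off `T' \ T`.  These `U` are closed under finite intersections
  (they are the RC sets containing the witness of `Dir S T'`); compactness gives `w` in all of them, i.e. in `OddS S T'`.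
* `oddS_cyl`: if `Om S T` is an `R`-cylinder then so is every RC subset (`rc_cyl`), hence `OddS S T`.
-/

set_option autoImplicit false

namespace H64DN

open Set Topology

variable {J : Type}

theorem oddS_cyl (S : FS J) (T : Finset J) (R : Set J) (h : Cyl R (Om S T)) :
    Cyl R (OddS S T) := by
  intro z hz w hw
  refine ⟨h z hz.1 w hw, fun U hU hwU => ?_⟩
  refine hz.2 U hU ?_
  exact rc_cyl R (Om S T) U h hU w hwU z fun j hj => (hw j hj).symm

open Classical in
theorem oddS_mono (S : FS J) (T T' : Finset J) (h : T ⊆ T') (hi : Ind S T (T' \ T)) :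
    OddS S T' ⊆ OddS S T := by
  intro z hz
  have hT' : T ∪ (T' \ T) = T' := Finset.union_sdiff_of_subset h
  have hd : Disjoint T (T' \ T) := Finset.disjoint_sdiff
  have hOm : Om S T' = Om S T ∩ Om S (T' \ T) := by
    rw [← om_union, hT']
  have hzO := hz.1
  rw [hOm] at hzO
  refine ⟨hzO.1, fun U hU hzU => ?_⟩
  have hsub : Om S T' ⊆ Om S T := by rw [hOm]; exact inter_subset_left
  have hV : RC (Om S T') (U ∩ Om S T') := rc_restrict hsub (om_closed S T') hU
  have h1 := hz.2 _ hV ⟨hzU, hz.1⟩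
  have h2 : U ∩ Om S T' = U ∩ Om S (T' \ T) := by
    rw [hOm, ← inter_assoc, inter_eq_left.2 hU.1]
  have h3 : Cyl ((T' \ T : Finset J) : Set J) U :=
    rc_cyl _ (Om S T) U (om_cyl S T (T' \ T) hd hi) hU
  have h4 : Par S (T' \ T) (U ∩ Om S (T' \ T)) = U := by
    rw [par_inter_Om]
    have h5 := par_inter S (T' \ T) U univ h3
    rw [univ_inter, par_total, univ_inter] at h5
    exact h5
  have h6 := par_comp S T (T' \ T) hd hi (U ∩ Om S (T' \ T))
  rw [h4, hT', ← h2, h1] at h6
  exact h6.symm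

open Classical in
theorem oddS_onto (S : FS J) (T T' : Finset J) (hD : Dir S T) (hD' : Dir S T') (h : T ⊆ T')
    (hi : Ind S T (T' \ T)) (z : J → unitInterval) (hz : z ∈ OddS S T) :
    ∃ z' ∈ OddS S T', ∀ j, j ∉ T' \ T → z' j = z j := by
  have hT' : T ∪ (T' \ T) = T' := Finset.union_sdiff_of_subset h
  have hd : Disjoint T (T' \ T) := Finset.disjoint_sdiff
  have hOm : Om S T' = Om S T ∩ Om S (T' \ T) := by
    rw [← om_union, hT']
  obtain ⟨z₀, h0, hz₀⟩ := hD'
  have hcyl := om_cyl S T (T' \ T) hd hi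
  have key : ∀ U, RC (Om S T') U → z₀ ∈ U → ∃ w ∈ U, ∀ j, j ∉ T' \ T → w j = z j := by
    intro U hU hzU
    have h1 : Par S T' U = univ := (hz₀ U hU).1 hzU
    have h2 : RC (Om S T) (Par S (T' \ T) U) :=
      par_RC S (T' \ T) (Om S T) (om_closed S T) hcyl U (by rw [← hOm]; exact hU)
    have h3 := par_comp S T (T' \ T) hd hi U
    rw [hT', h1] at h3
    have h4 := (par_univ_iff' S T hD _ h2).1 h3.symm hz
    obtain ⟨w, hw, -, hw2, -⟩ := exists_of_mem_par S (T' \ T) U z h4
    exact ⟨w, hw, hw2⟩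
  set F : {U : Set (J → unitInterval) // RC (Om S T') U ∧ z₀ ∈ U} → Set (J → unitInterval) :=
    fun U => U.1 ∩ {w | ∀ j, j ∉ T' \ T → w j = z j} with hF
  have hcl : IsClosed {w : J → unitInterval | ∀ j, j ∉ T' \ T → w j = z j} := by
    have he : {w : J → unitInterval | ∀ j, j ∉ T' \ T → w j = z j} =
        ⋂ j, ⋂ (_ : j ∉ T' \ T), {w : J → unitInterval | w j = z j} := by
      ext w
      simp only [mem_setOf_eq, mem_iInter]
    rw [he]
    exact isClosed_iInter fun j => isClosed_iInter fun _ =>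
      isClosed_eq (continuous_apply j) continuous_const
  have hFc : ∀ U, IsClosed (F U) := fun U => U.2.1.2.1.inter hcl
  haveI : Nonempty {U : Set (J → unitInterval) // RC (Om S T') U ∧ z₀ ∈ U} :=
    ⟨⟨Om S T', ⟨subset_rfl, om_closed S T', by rw [diff_self]; exact isClosed_empty⟩, h0⟩⟩
  have hne : (⋂ U, F U).Nonempty := by
    refine IsCompact.nonempty_iInter_of_directed_nonempty_isCompact_isClosed F ?_ ?_
      (fun U => (hFc U).isCompact) hFc
    · intro U V
      refine ⟨⟨U.1 ∩ V.1, rc_inter U.2.1 V.2.1, U.2.2, V.2.2⟩, ?_, ?_⟩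
      · intro w hw
        exact ⟨hw.1.1, hw.2⟩
      · intro w hw
        exact ⟨hw.1.2, hw.2⟩
    · intro U
      obtain ⟨w, hw, hw2⟩ := key U.1 U.2.1 U.2.2
      exact ⟨w, hw, hw2⟩
  obtain ⟨w, hw⟩ := hne
  rw [mem_iInter] at hw
  refine ⟨w, ?_, (hw (Classical.arbitrary _)).2⟩
  rw [oddS_eq S T' z₀ h0 hz₀, component_eq (om_closed S T') h0]
  intro U hU hzU
  exact (hw ⟨U, hU, hzU⟩).1

end H64DN
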