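import Pool.Agent.Helper64.DN.Inv

/-!
DN-20 (Disj): `(4a)` and `(4b)` of the proof.

* `cs_disj`: enough for `L = Fin 2`, `i = 0`, `j = 1` (pull along `e : Fin 2 ↪ L`, `e 0 = i`, `e 1 = j`, `pull_cs`).
  Test `s z = 1/2 + (z (baseC 0) - z (baseC 1)) / 2`.  `Good` with `K 0 = K 1 = cs S 0` (over `ℕ`), `τ 0 = false`, `τ 1 = true`:
  for `e : Fin 2 ↪ ℕ` with `e 0 = 0` and `z ∈ cs S 0`: `z (baseC (e 0)) = 0` (`cs_base`), so `s (pull e z) ≤ 1/2`, and `= 0` if `z (baseC (e 1)) = 1`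
  (`cs_base_one`); similarly `τ 1`.  (`pull e z (baseC a) = z (baseC (e a))`.)  `pull e '' cs S 0 = cs S j = pull e' '' cs S 0` for `e j = e' j = 0`.
  Then `test_sep` with `K₁ = cs S 0`, `K₂ = cs S 1` in `Y (Fin 2)`.
* `good_cs`: helper: a test `s` on `Fin N` such that for every `j` either (`s < 2/3` on `cs S j` and `< 1/3` somewhere on it) or
  (`> 1/3`, `> 2/3`) is good (all `K j = cs S 0`, since `pull e '' cs S 0 = cs S j` for `e j = 0`).
* `C1`: suppose `a ∈ K`, `a ∉ cs S i`, `b ∈ cs S i`, `b ∉ K`.  `ury4` with `AL = {a} ∪ ⋃ j ≠ i, cs S j`, `Ale = K`, `Age = cs S i`, `AH = {b}` (disjointness by `cs_disj`).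
  `good_cs` (low for `j ≠ i`, high for `j = i`), `test_sep` with `K₁ = K`, `K₂ = cs S i` contradicts `K ∩ cs S i ≠ ∅`.
-/

set_option autoImplicit false

namespace H64DN

open Set Topology

variable {k : ℕ → ℕ} (S : NS k)

theorem good_cs (N : ℕ) (s : C(E k (Fin N), unitInterval)) (τ : Fin N → Bool)
    (h : ∀ j, (τ j = false → (∀ z ∈ cs S j, (s z : ℝ) < 2 / 3) ∧ ∃ z ∈ cs S j, (s z : ℝ) < 1 / 3) ∧
      (τ j = true → (∀ z ∈ cs S j, 1 / 3 < (s z : ℝ)) ∧ ∃ z ∈ cs S j, 2 / 3 < (s z : ℝ))) :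
    Good S.P S.Y N s := by
  have hp : ∀ (j : Fin N) (e : Fin N ↪ ℕ), e j = 0 → pull e '' cs S (0 : ℕ) = cs S j := by
    intro j e hj
    have := pull_cs S e j
    rw [hj] at this
    exact this
  refine ⟨fun _ => cs S (0 : ℕ), τ, ?_, fun _ _ => Or.inl (Subset.refl _)⟩
  intro j
  refine ⟨cs_closed S 0, (cs_connected S 0).isPreconnected, cs_subset S 0, Subset.refl _, ?_, ?_⟩
  · intro e hj
    refine ⟨fun hb => ?_, fun hb => ?_⟩
    · obtain ⟨h1, z, hz, hz'⟩ := (h j).1 hb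
      refine ⟨fun w hw => h1 _ ?_, ?_⟩
      · rw [← hp j e hj]
        exact mem_image_of_mem _ hw
      · rw [← hp j e hj] at hz
        obtain ⟨w, hw, rfl⟩ := hz
        exact ⟨w, hw, hz'⟩
    · obtain ⟨h1, z, hz, hz'⟩ := (h j).2 hb
      refine ⟨fun w hw => h1 _ ?_, ?_⟩
      · rw [← hp j e hj]
        exact mem_image_of_mem _ hw
      · rw [← hp j e hj] at hz
        obtain ⟨w, hw, rfl⟩ := hz
        exact ⟨w, hw, hz'⟩
  · intro e e' h1 h2
    show pull e '' cs S (0 : ℕ) = pull e' '' cs S (0 : ℕ)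
    rw [hp j e h1, hp j e' h2]

/-- The test which separates the two letters of `Fin 2`. -/
noncomputable def dtest (hk0 : k 0 = 1) : C(E k (Fin 2), unitInterval) where
  toFun z := ⟨1 / 2 + ((z (baseC hk0 0) : ℝ) - (z (baseC hk0 1) : ℝ)) / 2, by
    have h1 := (z (baseC hk0 (0 : Fin 2))).2.1
    have h2 := (z (baseC hk0 (0 : Fin 2))).2.2
    have h3 := (z (baseC hk0 (1 : Fin 2))).2.1
    have h4 := (z (baseC hk0 (1 : Fin 2))).2.2
    constructor <;> linarith⟩
  continuous_toFun := by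
    refine Continuous.subtype_mk ?_ _
    have h1 : Continuous fun z : E k (Fin 2) => ((z (baseC hk0 (0 : Fin 2)) : unitInterval) : ℝ) :=
      continuous_subtype_val.comp (continuous_apply _)
    have h2 : Continuous fun z : E k (Fin 2) => ((z (baseC hk0 (1 : Fin 2)) : unitInterval) : ℝ) :=
      continuous_subtype_val.comp (continuous_apply _)
    exact continuous_const.add ((h1.sub h2).div_const 2)

theorem dtest_coe (hk0 : k 0 = 1) (z : E k (Fin 2)) :
    ((dtest hk0 z : unitInterval) : ℝ) =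
      1 / 2 + ((z (baseC hk0 0) : ℝ) - (z (baseC hk0 1) : ℝ)) / 2 := rfl

theorem dtest_zero (z : E k (Fin 2)) (hz : z ∈ cs S (0 : Fin 2)) :
    ((dtest S.hk0 z : unitInterval) : ℝ) = 1 / 2 - (z (baseC S.hk0 1) : ℝ) / 2 := by
  rw [dtest_coe, cs_base S 0 z hz]
  simp
  ring

theorem dtest_one (z : E k (Fin 2)) (hz : z ∈ cs S (1 : Fin 2)) :
    ((dtest S.hk0 z : unitInterval) : ℝ) = 1 / 2 + (z (baseC S.hk0 0) : ℝ) / 2 := by
  rw [dtest_coe, cs_base S 1 z hz]
  simp

theorem cs_disj_two : Disjoint (cs S (0 : Fin 2)) (cs S (1 : Fin 2)) := by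
  have a1 : ∀ z ∈ cs S (0 : Fin 2), ((dtest S.hk0 z : unitInterval) : ℝ) < 2 / 3 := by
    intro z hz
    rw [dtest_zero S z hz]
    have := (z (baseC S.hk0 (1 : Fin 2))).2.1
    linarith
  have a2 : ∃ z ∈ cs S (0 : Fin 2), ((dtest S.hk0 z : unitInterval) : ℝ) < 1 / 3 := by
    obtain ⟨z, hz, h1⟩ := cs_base_one S (0 : Fin 2) 1 (by decide)
    refine ⟨z, hz, ?_⟩
    rw [dtest_zero S z hz, h1]
    norm_num
  have b1 : ∀ z ∈ cs S (1 : Fin 2), 1 / 3 < ((dtest S.hk0 z : unitInterval) : ℝ) := by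
    intro z hz
    rw [dtest_one S z hz]
    have := (z (baseC S.hk0 (0 : Fin 2))).2.1
    linarith
  have b2 : ∃ z ∈ cs S (1 : Fin 2), 2 / 3 < ((dtest S.hk0 z : unitInterval) : ℝ) := by
    obtain ⟨z, hz, h1⟩ := cs_base_one S (1 : Fin 2) 0 (by decide)
    refine ⟨z, hz, ?_⟩
    rw [dtest_one S z hz, h1]
    norm_num
  have hg : Good S.P S.Y 2 (dtest S.hk0) := by
    refine good_cs S 2 _ ![false, true] ?_
    intro j
    fin_cases j
    · exact ⟨fun _ => ⟨a1, a2⟩, fun h => absurd h (by decide)⟩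
    · exact ⟨fun h => absurd h (by decide), fun _ => ⟨b1, b2⟩⟩
  exact test_sep S 2 (by norm_num) _ _ (cs_subset S 0) (cs_subset S 1) (cs_closed S 0)
    (cs_closed S 1) (cs_connected S 0).isPreconnected (cs_connected S 1).isPreconnected
    (dtest S.hk0) hg a1 a2 b1 b2

theorem cs_disj {L : Type} (i j : L) (h : i ≠ j) : Disjoint (cs S i) (cs S j) := by
  rw [Set.disjoint_left]
  intro z hz hz'
  let e : Fin 2 ↪ L := ⟨![i, j], by
    intro a b hab
    fin_cases a <;> fin_cases b <;> simp_all⟩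
  have h0 : e 0 = i := rfl
  have h1 : e 1 = j := rfl
  have m0 : pull e z ∈ cs S (0 : Fin 2) := by
    rw [← pull_cs S e 0, h0]
    exact mem_image_of_mem _ hz
  have m1 : pull e z ∈ cs S (1 : Fin 2) := by
    rw [← pull_cs S e 1, h1]
    exact mem_image_of_mem _ hz'
  exact Set.disjoint_left.1 (cs_disj_two S) m0 m1

theorem C1 (N : ℕ) (i : Fin N) (K : Set (E k (Fin N))) (hK : K ⊆ S.Y (Fin N))
    (hc : IsClosed K) (hp : IsConnected K) (hm : (K ∩ cs S i).Nonempty) :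
    K ⊆ cs S i ∨ cs S i ⊆ K := by
  by_contra hcon
  rw [not_or, Set.not_subset, Set.not_subset] at hcon
  obtain ⟨⟨a, haK, hac⟩, b, hbc, hbK⟩ := hcon
  have hN : 1 ≤ N := by
    have := i.2
    omega
  have hab : b ≠ a := fun e => hac (e ▸ hbc)
  have hUc : IsClosed ({a} ∪ ⋃ j ∈ {j : Fin N | j ≠ i}, cs S j) := by
    refine isClosed_singleton.union ?_
    exact (Set.toFinite _).isClosed_biUnion fun j _ => cs_closed S j
  have hdis : ∀ z ∈ cs S i, z ∉ ({a} ∪ ⋃ j ∈ {j : Fin N | j ≠ i}, cs S j : Set (E k (Fin N))) := by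
    rintro z hz (rfl | hz')
    · exact hac hz
    · rw [mem_iUnion₂] at hz'
      obtain ⟨j, hj, hzj⟩ := hz'
      exact Set.disjoint_left.1 (cs_disj S j i hj) hzj hz
  obtain ⟨s, sL, sle, sge, sH⟩ := ury4 ({a} ∪ ⋃ j ∈ {j : Fin N | j ≠ i}, cs S j) K (cs S i) {b}
    hUc hc (cs_closed S i) isClosed_singleton
    (by
      rw [Set.disjoint_singleton_right]
      rintro (h | h)
      · exact hdis b hbc h
      · exact hbK h)
    (by
      rw [Set.disjoint_left]
      rintro z (h | h)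
      · exact hdis z h
      · rw [mem_singleton_iff.1 h]
        exact hdis b hbc)
  have sa : s a = 0 := sL a (Or.inl rfl)
  have sb : s b = 1 := sH b rfl
  have b1 : ∀ z ∈ cs S i, 1 / 3 < (s z : ℝ) := by
    intro z hz
    have := sge z hz
    linarith
  have b2 : ∃ z ∈ cs S i, 2 / 3 < (s z : ℝ) := by
    refine ⟨b, hbc, ?_⟩
    rw [sb]
    norm_num
  have hg : Good S.P S.Y N s := by
    refine good_cs S N s (fun j => decide (j = i)) ?_
    intro j
    refine ⟨fun hj => ?_, fun hj => ?_⟩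
    · have hji : j ≠ i := by simpa using hj
      have hs0 : ∀ z ∈ cs S j, s z = 0 := fun z hz =>
        sL z (Or.inr (mem_iUnion₂.2 ⟨j, hji, hz⟩))
      refine ⟨fun z hz => ?_, ?_⟩
      · rw [hs0 z hz]
        norm_num
      · obtain ⟨z, hz⟩ := (cs_connected S j).nonempty
        refine ⟨z, hz, ?_⟩
        rw [hs0 z hz]
        norm_num
    · have hji : j = i := by simpa using hj
      subst hji
      exact ⟨b1, b2⟩
  have hd := test_sep S N hN K (cs S i) hK (cs_subset S i) hc (cs_closed S i) hp.isPreconnected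
    (cs_connected S i).isPreconnected s hg
    (fun z hz => by
      have := sle z hz
      linarith)
    ⟨a, haK, by rw [sa]; norm_num⟩ b1 b2
  obtain ⟨z, hz, hz'⟩ := hm
  exact Set.disjoint_left.1 hd hz hz'

end H64DN
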