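import Pool.Agent.Helper64.DN.Fam

/-!
DN-28 (Ord): order facts for a family `Fam X D r`.  `ab r d d'` means that `d` is above `d'`.

* `ab_asymm`: if `ab d d'` and `ab d' d`, at a point `x` with `0 < r d x < 1` (`mid`): `r d x ≠ 1` so `r d' x = 0`, then `r d' x ≠ 1` so `r d x = 0`. Contradiction.
* `ab_trans`: `r d x₀ = r d' x₀ = r d'' x₀ = 0` and `ab d d'`, `ab d' d''`.  `d ≠ d''` by asymmetry.  `compat d d''`: the first alternative fails at `x₀`; the third (`∀ x, r d x = 1 ∨ r d'' x = 0`) fails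
  at a point with `0 < r d x < 1`: then `r d'' x = 0`, so `r d' x = 0` (`ab d' d''`), so `r d x = 0` (`ab d d'`).
* `linOn_wx`.
* `active_unique`, `active_other`: `compat` and the argument of `ab_asymm`.
-/

set_option autoImplicit false

namespace H64DN

open Set Topology

variable {X : Type} [TopologicalSpace X] {D : Type}

/-- `d` is above `d'`. -/
def ab (r : D → C(X, unitInterval)) (d d' : D) : Prop := d ≠ d' ∧ ∀ x, r d' x = 1 ∨ r d x = 0

/-- The order on letters. -/
def Rr (r : D → C(X, unitInterval)) : D ⊕ ℕ → D ⊕ ℕ → Prop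
  | Sum.inl d, Sum.inl d' => ab r d d'
  | _, _ => False

/-- The letters passed at `x`. -/
def wx (r : D → C(X, unitInterval)) (x : X) : Set (D ⊕ ℕ) := {a | ∃ d, a = Sum.inl d ∧ r d x = 0}

theorem ab_asymm (r : D → C(X, unitInterval)) (h : Fam X D r) {d d' : D} (h1 : ab r d d')
    (h2 : ab r d' d) : False := by
  obtain ⟨x, hx0, hx1⟩ := h.mid d
  have h3 : r d' x = 0 := (h2.2 x).resolve_left hx1.ne
  have h4 : r d x = 0 := by
    refine (h1.2 x).resolve_left ?_
    rw [h3]
    exact zero_ne_one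
  exact hx0.ne' h4

theorem ab_trans (r : D → C(X, unitInterval)) (h : Fam X D r) {d d' d'' : D} (x₀ : X)
    (e : r d x₀ = 0) (e' : r d' x₀ = 0) (e'' : r d'' x₀ = 0) (h1 : ab r d d')
    (h2 : ab r d' d'') : ab r d d'' := by
  have hne : d ≠ d'' := by
    rintro rfl
    exact ab_asymm r h h1 h2
  rcases h.compat d d'' hne with h3 | h3 | h3
  · exfalso
    rcases h3 x₀ with h4 | h4
    · rw [e] at h4
      exact zero_ne_one h4
    · rw [e''] at h4
      exact zero_ne_one h4
  · exact ⟨hne, h3⟩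
  · exfalso
    obtain ⟨x, hx0, hx1⟩ := h.mid d
    have h4 : r d'' x = 0 := (h3 x).resolve_left hx1.ne
    have h5 : r d' x = 0 := by
      refine (h2.2 x).resolve_left ?_
      rw [h4]
      exact zero_ne_one
    have h6 : r d x = 0 := by
      refine (h1.2 x).resolve_left ?_
      rw [h5]
      exact zero_ne_one
    exact hx0.ne' h6

theorem ab_total (r : D → C(X, unitInterval)) (h : Fam X D r) {d d' : D} (hd : d ≠ d') (x₀ : X)
    (e : r d x₀ = 0) (e' : r d' x₀ = 0) : ab r d d' ∨ ab r d' d := by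
  rcases h.compat d d' hd with h3 | h3 | h3
  · exfalso
    rcases h3 x₀ with h4 | h4
    · rw [e] at h4
      exact zero_ne_one h4
    · rw [e'] at h4
      exact zero_ne_one h4
  · exact Or.inl ⟨hd, h3⟩
  · exact Or.inr ⟨hd.symm, h3⟩

theorem active_unique (r : D → C(X, unitInterval)) (h : Fam X D r) {d d' : D} (x : X)
    (e : 0 < r d x ∧ r d x < 1) (e' : 0 < r d' x ∧ r d' x < 1) : d = d' := by
  by_contra hd
  rcases h.compat d d' hd with h3 | h3 | h3
  · rcases h3 x with h4 | h4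
    · exact e.2.ne h4
    · exact e'.2.ne h4
  · rcases h3 x with h4 | h4
    · exact e'.2.ne h4
    · exact e.1.ne' h4
  · rcases h3 x with h4 | h4
    · exact e.2.ne h4
    · exact e'.1.ne' h4

theorem active_other (r : D → C(X, unitInterval)) (h : Fam X D r) {d d' : D} (hd : d' ≠ d) (x : X)
    (e : 0 < r d x ∧ r d x < 1) : (ab r d' d → r d' x = 0) ∧ (¬ ab r d' d → r d' x = 1) := by
  refine ⟨fun h1 => (h1.2 x).resolve_left e.2.ne, fun h1 => ?_⟩
  rcases h.compat d d' hd.symm with h3 | h3 | h3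
  · exact (h3 x).resolve_left e.2.ne
  · exact (h3 x).resolve_right e.1.ne'
  · exact absurd ⟨hd, h3⟩ h1

theorem zero_of_ab (r : D → C(X, unitInterval)) {d d' : D} (h1 : ab r d d') (x : X)
    (e : r d' x ≠ 1) : r d x = 0 := (h1.2 x).resolve_left e

theorem linOn_wx (r : D → C(X, unitInterval)) (h : Fam X D r) (x : X) :
    LinOn (wx r x) (Rr r) := by
  refine ⟨?_, ?_, ?_⟩
  · rintro a ⟨d, rfl, -⟩ h1
    exact h1.1 rfl
  · rintro a ⟨d, rfl, e⟩ b ⟨d', rfl, e'⟩ c ⟨d'', rfl, e''⟩ h1 h2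
    exact ab_trans r h x e e' e'' h1 h2
  · rintro a ⟨d, rfl, e⟩ b ⟨d', rfl, e'⟩ hne
    have hd : d ≠ d' := fun hh => hne (by rw [hh])
    exact ab_total r h hd x e e'

end H64DN
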