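import Pool.Agent.Helper64.DN.Lift
import Pool.Agent.Helper64.DN.Ord

/-!
DN-29 (Emb1): the embedding `ff`, closed connected values, restriction formulas, injectivity.

* `ff_closed`, `ff_connected`, `ff_subset`: image of a continuum of `Y L` under `sec` (`sec_continuous`, `S.sec_mem` with `linOn_wx`).
* `pull_sec`: `pull e (sec (ofSet w R) z) = sec (ofSet (e ⁻¹' w) ..) (pull e z)` (`sec_pull`, `ofSet_comap`).
* `pull_K_off`: `cs S i ⊆ K i t ⊆ Y`, `pull_cs_off`.  `pull_K_on`: `K i t` is `Inv {a ≠ i}` (`exact_inv`), take `φ : ℕ ↪ L` with `φ 0 = i`,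
  `pull_eq_of_inv` for `e` and `ψ.trans φ`, `K_pull`.
* `ff_injective`: `φ : ℕ ↪ D ⊕ ℕ`, `φ 0 = inl d`, `φ (n+1) = inr n`: `pull φ '' ff x = G (r d x)`: `φ ⁻¹' wx r x` is `{0}` if `r d x = 0` and `∅` otherwise; if `r d x = 0`: the set under `sec`
  is `K (inl d'') t` with `d'' ≠ d` (whose pull is `Y ℕ` by `pull_cs_off`) or `Y L`; so the image is `sec (single 0) '' Y ℕ = cs S 0 = G 0` (`ofSet_singleton`).
  If `0 < r d x < 1`: `d` is the active letter (`active_unique`), the image is `pull φ '' K (inl d) (r d x) = G (r d x)`; if `r d x = 1`: `Y ℕ = G 1`.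
  Then `sepa` and `G_lt`.
-/

set_option autoImplicit false

namespace H64DN

open Set Topology

variable {k : ℕ → ℕ} (S : NS k) {X : Type} [TopologicalSpace X] {D : Type}

open Classical in
/-- The continuum at `x` before the passed letters are inserted. -/
noncomputable def MM (r : D → C(X, unitInterval)) (K : D ⊕ ℕ → unitInterval → Set (E k (D ⊕ ℕ)))
    (x : X) : Set (E k (D ⊕ ℕ)) :=
  if h : ∃ d, 0 < r d x ∧ r d x < 1 then K (Sum.inl h.choose) (r h.choose x) else S.Y (D ⊕ ℕ)

/-- The embedding. -/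
noncomputable def ff (r : D → C(X, unitInterval)) (K : D ⊕ ℕ → unitInterval → Set (E k (D ⊕ ℕ)))
    (x : X) : Set (E k (D ⊕ ℕ)) :=
  sec S.P (ofSet (wx r x) (Rr r)) '' MM S r K x

variable {G : unitInterval → Set (E k ℕ)} {K : D ⊕ ℕ → unitInterval → Set (E k (D ⊕ ℕ))}
  (hA : ArcData S (D ⊕ ℕ) G K) (r : D → C(X, unitInterval)) (hr : Fam X D r)

include hA in
theorem MM_active (hr : Fam X D r) (x : X) (d : D) (h : 0 < r d x ∧ r d x < 1) :
    MM S r K x = K (Sum.inl d) (r d x) := by
  have hex : ∃ d, 0 < r d x ∧ r d x < 1 := ⟨d, h⟩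
  have hd : hex.choose = d := active_unique r hr x hex.choose_spec h
  unfold MM
  rw [dif_pos hex, hd]

theorem MM_inactive (x : X) (h : ¬ ∃ d, 0 < r d x ∧ r d x < 1) : MM S r K x = S.Y (D ⊕ ℕ) := by
  unfold MM
  rw [dif_neg h]

include hA in
private theorem MM_closed (hr : Fam X D r) (x : X) : IsClosed (MM S r K x) := by
  by_cases h : ∃ d, 0 < r d x ∧ r d x < 1
  · obtain ⟨d, hd⟩ := h
    rw [MM_active S hA r hr x d hd]
    exact hA.K_closed _ _
  · rw [MM_inactive S r x h]
    exact S.closed _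

include hA in
private theorem MM_connected (hr : Fam X D r) (x : X) : IsConnected (MM S r K x) := by
  by_cases h : ∃ d, 0 < r d x ∧ r d x < 1
  · obtain ⟨d, hd⟩ := h
    rw [MM_active S hA r hr x d hd]
    exact hA.K_conn _ _
  · rw [MM_inactive S r x h]
    exact S.conn _

include hA in
private theorem MM_subset (hr : Fam X D r) (x : X) : MM S r K x ⊆ S.Y (D ⊕ ℕ) := by
  by_cases h : ∃ d, 0 < r d x ∧ r d x < 1
  · obtain ⟨d, hd⟩ := h
    rw [MM_active S hA r hr x d hd]
    exact hA.K_sub _ _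
  · rw [MM_inactive S r x h]

include hA hr in
theorem ff_closed (x : X) : IsClosed (ff S r K x) := by
  unfold ff
  exact ((MM_closed S hA r hr x).isCompact.image (sec_continuous S.P _)).isClosed

include hA hr in
theorem ff_connected (x : X) : IsConnected (ff S r K x) := by
  unfold ff
  exact (MM_connected S hA r hr x).image _ (sec_continuous S.P _).continuousOn

include hA hr in
theorem ff_subset (x : X) : ff S r K x ⊆ S.Y (D ⊕ ℕ) := by
  unfold ff
  rintro _ ⟨z, hz, rfl⟩
  exact S.sec_mem (wx r x) (Rr r) (linOn_wx r hr x) z (MM_subset S hA r hr x hz)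

end H64DN
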