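import Pool.Agent.Helper64.DN.Emb1a

/-!
DN-29 (Emb1): the embedding `ff`, closed connected values, restriction formulas, injectivity.

* `ff_closed`, `ff_connected`, `ff_subset`: image of a continuum of `Y L` under `sec` (`sec_continuous`, `S.sec_mem` with `linOn_wx`).
* `pull_sec`: `pull e (sec (ofSet w R) z) = sec (ofSet (e ⁻¹' w) ..) (pull e z)` (`sec_pull`, `ofSet_comap`).
* `pull_K_off`: `cs S i ⊆ K i t ⊆ Y`, `pull_cs_off`.  `pull_K_on`: `K i t` is `Inv {a ≠ i}` (`exact_inv`), take `φ : ℕ ↪ L` with `φ 0 = i`,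
  `pull_eq_of_inv` for `e` and `ψ.trans φ`, `K_pull`.
* `ff_injective`: `φ : ℕ ↪ D ⊕ ℕ`, `φ 0 = inl d`, `φ (n+1) = inr n`: `pull φ '' ff x = G (r d x)`: `φ ⁻¹' wx r x` is `{0}` if `r d x = 0` and `∅` otherwise; if `r d x = 0`: the set under `sec`
  is `K (inl d'') t` with `d'' ≠ d` (whose pull is `Y ℕ` by `pull_cs_off`) or `Y L`; so the image is `sec (single 0) '' Y ℕ = cs S 0 = G 0` (`ofSet_singleton`).
  If `0 < r d x < 1`: `d` is the active letter (`active_unique`), the image is `pull φ '' K (inl d) (r d x) = G (r d x)`; if `r d x = 1`: `Y ℕ = G 1`.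
  Then `sepa` and `G_lt`.
-/

set_option autoImplicit false

namespace H64DN

open Set Topology

variable {k : ℕ → ℕ} (S : NS k) {X : Type} [TopologicalSpace X] {D : Type}

variable {G : unitInterval → Set (E k ℕ)} {K : D ⊕ ℕ → unitInterval → Set (E k (D ⊕ ℕ))}
  (hA : ArcData S (D ⊕ ℕ) G K) (r : D → C(X, unitInterval)) (hr : Fam X D r)

private theorem emb1b_trans {A B C : Type} (φ : A ↪ B) (ψ : B ↪ C) (z : E k C) :
    pull (φ.trans ψ) z = pull φ (pull ψ z) := rfl

include hA in
private theorem emb1b_off {A : Type} (e : A ↪ D ⊕ ℕ) (i : D ⊕ ℕ) (hi : i ∉ range e)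
    (t : unitInterval) : pull e '' K i t = S.Y A := by
  refine Subset.antisymm ?_ ?_
  · rw [← S.image_pull e]
    exact image_mono (hA.K_sub i t)
  · rw [← pull_cs_off S e i hi]
    exact image_mono (hA.K_cs i t)

include hA in
theorem pull_K_off {N : ℕ} (e : Fin N ↪ D ⊕ ℕ) (i : D ⊕ ℕ) (hi : i ∉ range e)
    (t : unitInterval) : pull e '' K i t = S.Y (Fin N) :=
  emb1b_off S hA e i hi t

include hA in
theorem pull_K_on {N : ℕ} (e : Fin N ↪ D ⊕ ℕ) (j : Fin N) (t : unitInterval)
    (ψ : Fin N ↪ ℕ) (hψ : ψ j = 0) : pull e '' K (e j) t = pull ψ '' G t := by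
  classical
  set φ : ℕ ↪ D ⊕ ℕ := Function.Embedding.inr.trans
    (Equiv.swap (Sum.inr 0 : D ⊕ ℕ) (e j)).toEmbedding with hφd
  have hφ : φ 0 = e j := by
    rw [hφd]
    simp
  have hinv := exact_inv S (e j) (K (e j) t) (hA.K_closed _ _) (hA.K_conn _ _) (hA.K_sub _ _)
    (hA.K_cs _ _)
  have h1 : pull e '' K (e j) t = pull (ψ.trans φ) '' K (e j) t := by
    refine pull_eq_of_inv _ _ hinv e (ψ.trans φ) fun a => ?_
    by_cases ha : a = j
    · left
      rw [ha, Function.Embedding.trans_apply, hψ, hφ]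
    · right
      refine ⟨fun h => ha (e.injective h), fun h => ha (ψ.injective ?_)⟩
      rw [Function.Embedding.trans_apply, ← hφ] at h
      rw [hψ]
      exact φ.injective h
  rw [h1, ← hA.K_pull (e j) t φ hφ, image_image]
  rfl

include hr in
theorem pull_ff {A : Type} (e : A ↪ D ⊕ ℕ) (x : X) :
    pull e '' ff S r K x =
      sec S.P (ofSet (e ⁻¹' wx r x) (fun a a' => Rr r (e a) (e a'))) '' (pull e '' MM S r K x) := by
  rw [ff, image_image, image_image]
  refine image_congr fun z _ => ?_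
  rw [sec_pull, ofSet_comap _ _ (linOn_wx r hr x)]

/-- The embedding of the letters `ℕ` which starts with `inl d`. -/
private def emb1b_phi (d : D) : ℕ ↪ D ⊕ ℕ where
  toFun n := match n with
    | 0 => Sum.inl d
    | n + 1 => Sum.inr n
  inj' := by
    intro a b h
    match a, b, h with
    | 0, 0, _ => rfl
    | n + 1, m + 1, h => 
      have h1 : n = m := by simpa using h
      rw [h1]

private theorem emb1b_phi_zero (d : D) : emb1b_phi d 0 = Sum.inl d := rfl

private theorem emb1b_phi_mem (d d' : D) (h : d' ≠ d) : Sum.inl d' ∉ range (emb1b_phi d) := by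
  rintro ⟨n, hn⟩
  match n, hn with
  | 0, hn =>
    have h1 : d = d' := by simpa [emb1b_phi] using hn
    exact h h1.symm
  | n + 1, hn =>
    simp [emb1b_phi] at hn

private theorem emb1b_pre (d : D) (x : X) (n : ℕ) :
    n ∈ emb1b_phi d ⁻¹' wx r x ↔ n = 0 ∧ r d x = 0 := by
  constructor
  · rintro ⟨d', hd', h0⟩
    match n, hd' with
    | 0, hd' =>
      have h1 : d = d' := by simpa [emb1b_phi] using hd'
      rw [h1]
      exact ⟨rfl, h0⟩
    | n + 1, hd' =>
      simp [emb1b_phi] at hd'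
  · rintro ⟨rfl, h0⟩
    exact ⟨d, rfl, h0⟩

include hA in
private theorem emb1b_MM (hr : Fam X D r) (d : D) (x : X) (h : ¬ (0 < r d x ∧ r d x < 1)) :
    pull (emb1b_phi d) '' MM S r K x = S.Y ℕ := by
  by_cases hex : ∃ d', 0 < r d' x ∧ r d' x < 1
  · obtain ⟨d', hd'⟩ := hex
    rw [MM_active S hA r hr x d' hd']
    refine emb1b_off S hA _ _ (emb1b_phi_mem d d' ?_) _
    rintro rfl
    exact h hd'
  · rw [MM_inactive S r x hex]
    exact S.image_pull _

include hA hr in
private theorem emb1b_key (d : D) (x : X) : pull (emb1b_phi d) '' ff S r K x = G (r d x) := by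
  rw [pull_ff S r hr]
  by_cases h0 : r d x = 0
  · have hpre : emb1b_phi d ⁻¹' wx r x = {0} := by
      ext n
      rw [emb1b_pre, mem_singleton_iff]
      exact ⟨fun h => h.1, fun h => ⟨h, h0⟩⟩
    rw [hpre, ofSet_singleton, emb1b_MM S hA r hr d x (fun h => h.1.ne' h0), h0, hA.G_zero]
    rfl
  · have hpre : emb1b_phi d ⁻¹' wx r x = ∅ := by
      ext n
      rw [emb1b_pre]
      simp [h0]
    rw [hpre, ofSet_empty]
    have hid : ∀ s : Set (E k ℕ), sec S.P noPrio '' s = s := by
      intro s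
      have h1 : (sec S.P noPrio : E k ℕ → E k ℕ) = id := by
        funext z
        exact sec_noPrio S.P z
      rw [h1, image_id]
    rw [hid]
    by_cases h1 : r d x = 1
    · rw [emb1b_MM S hA r hr d x (fun h => h.2.ne h1), h1, hA.G_one]
    · have hact : 0 < r d x ∧ r d x < 1 :=
        ⟨unitInterval.pos_iff_ne_zero.2 h0, unitInterval.lt_one_iff_ne_one.2 h1⟩
      rw [MM_active S hA r hr x d hact]
      exact hA.K_pull _ _ _ (emb1b_phi_zero d)

include hA hr in
theorem ff_injective : Function.Injective (ff S r K) := by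
  intro x y hxy
  by_contra hne
  obtain ⟨d, hd⟩ := hr.sepa x y hne
  have h1 : G (r d x) = G (r d y) := by
    rw [← emb1b_key S hA r hr d x, ← emb1b_key S hA r hr d y, hxy]
  rcases lt_or_gt_of_ne hd with h | h
  · exact (hA.G_lt _ _ h).ne h1
  · exact (hA.G_lt _ _ h).ne h1.symm

end H64DN
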