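import Pool.Agent.Helper64.DN.Emb1

/-!
DN-30 (Emb2): continuity of the embedding.

Fix `e : Fin N ↪ D ⊕ ℕ`.  For `j : Fin N` with `e j = inl d` let `Z j = {a | a ≠ j, ∃ d', e a = inl d' ∧ ab r d' d}`, `ρ j = ofSet (Z j) (fun a a' => Rr r (e a) (e a'))`, `ψ j : Fin N ↪ ℕ` with `ψ j j = 0`,
`X j = {x | ∀ a ≠ j, ∀ d', e a = inl d' → (ab r d' d → r d' x = 0) ∧ (¬ ab r d' d → r d' x = 1)}` (closed), `X∅ = {x | ∀ a d', e a = inl d' → r d' x = 1}` (closed).
(i) the sets cover `X`: if some `e j = inl d` has `0 < r d x < 1`: `active_other`.  Otherwise all values are `0` or `1`; if none is `0`: `X∅`.  If the set `{a | value 0}` is nonempty, it is linearly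
ordered by `ab` (`ab_total`, `ab_trans`, `ab_asymm`), let `j` be its last element: for another `a` with value `0`: `ab (e a) (e j)`; if the value at `a` is `1` then not `ab (e a) (e j)` (`zero_of_ab`).
(ii) on `X∅`: `pull e '' ff x = Y (Fin N)` (`pull_ff`; `e ⁻¹' wx = ∅`, `ofSet_empty`, `sec_noPrio`; the active letter, if any, is not in the range of `e`: `pull_K_off`; `S.image_pull`).
(iii) on `X j`: `pull e '' ff x = sec (ρ j) '' (pull (ψ j) '' G (r d x))`:
 `0 < r d x < 1`: `e ⁻¹' wx r x = Z j`, `MM_active`, `pull_K_on`.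
 `r d x = 1`: `e ⁻¹' wx r x = Z j`, `pull e '' MM = Y (Fin N)` (`pull_K_off`: an active letter in the range of `e` is excluded since all values are `0` or `1`), `G 1 = Y ℕ`, `S.image_pull`.
 `r d x = 0`: `e ⁻¹' wx r x = Z j ∪ {j}`, `j` last: `sec_ofSet_append`, `ofSet_singleton`; `sec (single j) '' Y (Fin N) = cs S j = pull (ψ j) '' cs S 0 = pull (ψ j) '' G 0` (`pull_cs`).
(iv) so for open `U`, `{x | pull e '' ff x ⊆ U}` has complement `(X∅ or ∅) ∪ ⋃ j, (X j ∩ {x | ¬ G (r d x) ⊆ (sec (ρ j) ∘ pull (ψ j)) ⁻¹' U})`, a finite union of closed sets (`G_sub_open`); similarly for `(.. ∩ U).Nonempty` (`G_meet_open`).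
* `ff_sub_open`: `V` open in `E k L`, `ff x₀ ⊆ V`: `ff x₀` is compact, so there are finitely many coordinates, hence `e : Fin N ↪ L` and `U` open with `ff x₀ ⊆ pull e ⁻¹' U ⊆ V`.
-/

set_option autoImplicit false

namespace H64DN

open Set Topology

variable {k : ℕ → ℕ} (S : NS k) {X : Type} [TopologicalSpace X] {D : Type}
variable {G : unitInterval → Set (E k ℕ)} {K : D ⊕ ℕ → unitInterval → Set (E k (D ⊕ ℕ))}
  (hA : ArcData S (D ⊕ ℕ) G K) (r : D → C(X, unitInterval)) (hr : Fam X D r)

private theorem exists_last {α : Type} (R : α → α → Prop) (s : Finset α) (hs : s.Nonempty)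
    (h : LinOn (s : Set α) R) : ∃ j ∈ s, ∀ a ∈ s, a ≠ j → R a j := by
  classical
  induction s using Finset.induction_on with
  | empty => exact absurd hs Finset.not_nonempty_empty
  | insert b s hb ih =>
    by_cases hs' : s.Nonempty
    · have h' : LinOn (s : Set α) R := by
        refine ⟨fun a ha => h.1 a (by simp [Finset.mem_coe.1 ha]), ?_, ?_⟩
        · intro a ha c hc d hd
          exact h.2.1 a (by simp [Finset.mem_coe.1 ha]) c (by simp [Finset.mem_coe.1 hc]) d
            (by simp [Finset.mem_coe.1 hd])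
        · intro a ha c hc
          exact h.2.2 a (by simp [Finset.mem_coe.1 ha]) c (by simp [Finset.mem_coe.1 hc])
      obtain ⟨j, hj, hj'⟩ := ih hs' h'
      have hbj : b ≠ j := fun e => hb (e ▸ hj)
      rcases h.2.2 b (by simp) j (by simp [hj]) hbj with h1 | h1
      · refine ⟨j, Finset.mem_insert_of_mem hj, ?_⟩
        intro a ha haj
        rcases Finset.mem_insert.1 ha with rfl | ha
        · exact h1
        · exact hj' a ha haj
      · refine ⟨b, Finset.mem_insert_self _ _, ?_⟩
        intro a ha hab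
        rcases Finset.mem_insert.1 ha with rfl | ha
        · exact absurd rfl hab
        · by_cases haj : a = j
          · rw [haj]; exact h1
          · exact h.2.1 a (by simp [ha]) j (by simp [hj]) b (by simp) (hj' a ha haj) h1
    · rw [Finset.not_nonempty_iff_eq_empty] at hs'
      subst hs'
      refine ⟨b, by simp, ?_⟩
      intro a ha hab
      rcases Finset.mem_insert.1 ha with rfl | ha
      · exact absurd rfl hab
      · exact absurd ha (Finset.notMem_empty _)

private theorem unit_cases (t : unitInterval) : t = 0 ∨ t = 1 ∨ (0 < t ∧ t < 1) := by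
  rcases eq_or_lt_of_le (unitInterval.nonneg' (t := t)) with h | h
  · exact Or.inl h.symm
  · rcases eq_or_lt_of_le (unitInterval.le_one' (t := t)) with h' | h'
    · exact Or.inr (Or.inl h')
    · exact Or.inr (Or.inr ⟨h, h'⟩)

/-- An embedding of `Fin N` in `ℕ` sending `j` to `0`. -/
private theorem exists_psi {N : ℕ} (j : Fin N) : ∃ ψ : Fin N ↪ ℕ, ψ j = 0 := by
  classical
  refine ⟨⟨fun a => if a = j then 0 else a.val + 1, ?_⟩, ?_⟩
  · intro a b h
    by_cases ha : a = j <;> by_cases hb : b = j
    · rw [ha, hb]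
    · simp [ha, hb] at h
    · simp [ha, hb] at h
    · simp only [ha, hb, if_false] at h
      exact Fin.ext (by omega)
  · simp

include hA in
private theorem pull_MM_full (hr : Fam X D r) {N : ℕ} (e : Fin N ↪ D ⊕ ℕ) (x : X)
    (h : ∀ a d', e a = Sum.inl d' → r d' x = 0 ∨ r d' x = 1) :
    pull e '' MM S r K x = S.Y (Fin N) := by
  by_cases hx : ∃ d, 0 < r d x ∧ r d x < 1
  · obtain ⟨d, hd⟩ := hx
    rw [MM_active S hA r hr x d hd]
    apply pull_K_off S hA
    rintro ⟨a, ha⟩
    rcases h a d ha with h0 | h0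
    · exact absurd hd.1 (by rw [h0]; exact lt_irrefl _)
    · exact absurd hd.2 (by rw [h0]; exact lt_irrefl _)
  · rw [MM_inactive S r x hx]
    exact S.image_pull e

include hA in
private theorem on_empty (hr : Fam X D r) {N : ℕ} (e : Fin N ↪ D ⊕ ℕ) (x : X)
    (h : ∀ a d', e a = Sum.inl d' → r d' x = 1) :
    pull e '' ff S r K x = S.Y (Fin N) := by
  rw [pull_ff S r hr e x]
  have h0 : e ⁻¹' wx r x = ∅ := by
    ext a
    simp only [mem_preimage, wx, mem_setOf_eq, mem_empty_iff_false, iff_false]
    rintro ⟨d, hd, hd0⟩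
    rw [h a d hd] at hd0
    exact one_ne_zero hd0
  rw [h0, ofSet_empty, pull_MM_full S hA r hr e x (fun a d' hd => Or.inr (h a d' hd))]
  have : (sec S.P (noPrio : Prio (Fin N))) = id := by
    funext z
    exact sec_noPrio S.P z
  rw [this, image_id]

/-- The letters of `e` above `e j`. -/
private def ZZ {N : ℕ} (e : Fin N ↪ D ⊕ ℕ) (j : Fin N) : Set (Fin N) := {a | Rr r (e a) (e j)}

private theorem pre_eq {N : ℕ} (e : Fin N ↪ D ⊕ ℕ) (j : Fin N) (d : D) (hd : e j = Sum.inl d)
    (x : X)
    (h : ∀ a, a ≠ j → ∀ d', e a = Sum.inl d' →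
      (ab r d' d → r d' x = 0) ∧ (¬ ab r d' d → r d' x = 1)) (a : Fin N) (haj : a ≠ j) :
    a ∈ e ⁻¹' wx r x ↔ a ∈ ZZ r e j := by
  simp only [mem_preimage, wx, mem_setOf_eq, ZZ, hd]
  constructor
  · rintro ⟨d', hd', h0⟩
    rw [hd']
    by_contra hab
    have := (h a haj d' hd').2 hab
    rw [this] at h0
    exact one_ne_zero h0
  · intro hR
    rcases he : e a with d' | n
    · rw [he] at hR
      exact ⟨d', rfl, (h a haj d' he).1 hR⟩
    · rw [he] at hR
      exact absurd hR (by simp [Rr])

private theorem not_mem_ZZ {N : ℕ} (e : Fin N ↪ D ⊕ ℕ) (j : Fin N) : j ∉ ZZ r e j := by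
  simp only [ZZ, mem_setOf_eq]
  rcases e j with d | n
  · intro h
    exact h.1 rfl
  · intro h
    exact h

include hA in
private theorem on_j (hr : Fam X D r) {N : ℕ} (e : Fin N ↪ D ⊕ ℕ) (j : Fin N) (d : D)
    (hd : e j = Sum.inl d) (ψ : Fin N ↪ ℕ) (hψ : ψ j = 0) (x : X)
    (h : ∀ a, a ≠ j → ∀ d', e a = Sum.inl d' →
      (ab r d' d → r d' x = 0) ∧ (¬ ab r d' d → r d' x = 1)) :
    pull e '' ff S r K x =
      sec S.P (ofSet (ZZ r e j) (fun a a' => Rr r (e a) (e a'))) '' (pull ψ '' G (r d x)) := by
  rw [pull_ff S r hr e x]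
  have hval : ∀ a, a ≠ j → ∀ d', e a = Sum.inl d' → r d' x = 0 ∨ r d' x = 1 := by
    intro a haj d' hd'
    by_cases hab : ab r d' d
    · exact Or.inl ((h a haj d' hd').1 hab)
    · exact Or.inr ((h a haj d' hd').2 hab)
  rcases unit_cases (r d x) with h0 | h1 | hm
  · -- value 0
    have hpre : e ⁻¹' wx r x = ZZ r e j ∪ {j} := by
      ext a
      by_cases haj : a = j
      · subst haj
        simp only [mem_preimage, wx, mem_setOf_eq, union_singleton, mem_insert_iff, true_or,
          iff_true]
        exact ⟨d, hd, h0⟩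
      · rw [pre_eq r e j d hd x h a haj]
        simp [haj]
    have hlin := linOn_comap (wx r x) (Rr r) (linOn_wx r hr x) e
    rw [hpre] at hlin ⊢
    have hfull : pull e '' MM S r K x = S.Y (Fin N) := by
      apply pull_MM_full S hA r hr e x
      intro a d' hd'
      by_cases haj : a = j
      · subst haj
        rw [hd] at hd'
        have : d = d' := Sum.inl.inj hd'
        subst this
        exact Or.inl h0
      · exact hval a haj d' hd'
    rw [hfull, h0, hA.G_zero]
    have h3 : pull ψ '' cs S (0 : ℕ) = cs S j := by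
      rw [← hψ]
      exact pull_cs S ψ j
    rw [h3]
    show _ = _ '' (sec S.P (single j) '' S.Y (Fin N))
    rw [image_image]
    apply image_congr
    intro z _
    rw [sec_ofSet_append S.P (ZZ r e j) {j} _ hlin, ofSet_singleton]
    intro a ha b hb
    rw [mem_singleton_iff] at hb
    subst hb
    exact ha
  · -- value 1
    have hpre : e ⁻¹' wx r x = ZZ r e j := by
      ext a
      by_cases haj : a = j
      · subst haj
        refine ⟨?_, fun h' => absurd h' (not_mem_ZZ r e a)⟩
        rintro ⟨d', hd', h0⟩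
        rw [hd] at hd'
        have : d = d' := Sum.inl.inj hd'
        subst this
        rw [h1] at h0
        exact absurd h0 one_ne_zero
      · exact pre_eq r e j d hd x h a haj
    have hfull : pull e '' MM S r K x = S.Y (Fin N) := by
      apply pull_MM_full S hA r hr e x
      intro a d' hd'
      by_cases haj : a = j
      · subst haj
        rw [hd] at hd'
        have : d = d' := Sum.inl.inj hd'
        subst this
        exact Or.inr h1
      · exact hval a haj d' hd'
    rw [hfull, hpre, h1, hA.G_one, S.image_pull ψ]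
  · have hpre : e ⁻¹' wx r x = ZZ r e j := by
      ext a
      by_cases haj : a = j
      · subst haj
        refine ⟨?_, fun h' => absurd h' (not_mem_ZZ r e a)⟩
        rintro ⟨d', hd', h0⟩
        rw [hd] at hd'
        have : d = d' := Sum.inl.inj hd'
        subst this
        rw [h0] at hm
        exact absurd hm.1 (lt_irrefl _)
      · exact pre_eq r e j d hd x h a haj
    rw [hpre, MM_active S hA r hr x d hm, ← hd, pull_K_on S hA e j (r d x) ψ hψ]

private theorem cover (hr : Fam X D r) {N : ℕ} (e : Fin N ↪ D ⊕ ℕ) (x : X) :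
    (∀ a d', e a = Sum.inl d' → r d' x = 1) ∨
    ∃ j d, e j = Sum.inl d ∧ ∀ a, a ≠ j → ∀ d', e a = Sum.inl d' →
      (ab r d' d → r d' x = 0) ∧ (¬ ab r d' d → r d' x = 1) := by
  classical
  by_cases hact : ∃ j d, e j = Sum.inl d ∧ 0 < r d x ∧ r d x < 1
  · obtain ⟨j, d, hd, hm⟩ := hact
    refine Or.inr ⟨j, d, hd, ?_⟩
    intro a haj d' hd'
    have hne : d' ≠ d := by
      rintro rfl
      exact haj (e.injective (hd'.trans hd.symm))
    exact active_other r hr hne x hm
  · have hval : ∀ a d', e a = Sum.inl d' → r d' x = 0 ∨ r d' x = 1 := by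
      intro a d' hd'
      rcases unit_cases (r d' x) with h | h | h
      · exact Or.inl h
      · exact Or.inr h
      · exact absurd ⟨a, d', hd', h⟩ hact
    by_cases hz : ∃ a, a ∈ e ⁻¹' wx r x
    · obtain ⟨a₀, ha₀⟩ := hz
      have hlin := linOn_comap (wx r x) (Rr r) (linOn_wx r hr x) e
      obtain ⟨j, hj, hj'⟩ := exists_last (fun a a' => Rr r (e a) (e a'))
        (Finset.univ.filter (fun a => a ∈ e ⁻¹' wx r x)) ⟨a₀, by simpa using ha₀⟩
        (by
          have : ((Finset.univ.filter (fun a => a ∈ e ⁻¹' wx r x) : Finset (Fin N)) :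
              Set (Fin N)) = e ⁻¹' wx r x := by
            ext a
            simp
          rw [this]
          exact hlin)
      simp only [Finset.mem_filter, Finset.mem_univ, true_and] at hj hj'
      obtain ⟨d, hd, h0⟩ := hj
      refine Or.inr ⟨j, d, hd, ?_⟩
      intro a haj d' hd'
      constructor
      · intro hab
        exact zero_of_ab r hab x (by rw [h0]; exact zero_ne_one)
      · intro hab
        rcases hval a d' hd' with h1 | h1
        · have := hj' a ⟨d', hd', h1⟩ haj
          rw [hd', hd] at this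
          exact absurd this hab
        · exact h1
    · left
      intro a d' hd'
      rcases hval a d' hd' with h1 | h1
      · exact absurd ⟨a, d', hd', h1⟩ hz
      · exact h1

include hA in
private theorem closed_of (hr : Fam X D r) {N : ℕ} (e : Fin N ↪ D ⊕ ℕ)
    (Q : Set (E k (Fin N)) → Prop)
    (hQ : ∀ f : E k ℕ → E k (Fin N), Continuous f → IsClosed {t | Q (f '' G t)}) :
    IsClosed {x | Q (pull e '' ff S r K x)} := by
  classical
  choose ψ hψ using fun j : Fin N => exists_psi j
  have hpt : ∀ (d : D) (t : unitInterval), IsClosed {x | r d x = t} := fun d t =>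
    isClosed_eq (r d).continuous continuous_const
  let F0 : Set X := {x | (∀ a d', e a = Sum.inl d' → r d' x = 1) ∧ Q (S.Y (Fin N))}
  let F : Fin N → Set X := fun j => {x | ∃ d, e j = Sum.inl d ∧
    (∀ a, a ≠ j → ∀ d', e a = Sum.inl d' →
      (ab r d' d → r d' x = 0) ∧ (¬ ab r d' d → r d' x = 1)) ∧
    Q ((fun z => sec S.P (ofSet (ZZ r e j) (fun a a' => Rr r (e a) (e a'))) (pull (ψ j) z)) ''
      G (r d x))}
  have hF0 : IsClosed F0 := by
    have : F0 = (⋂ a, ⋂ d', ⋂ (_ : e a = Sum.inl d'), {x | r d' x = 1}) ∩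
        {_x | Q (S.Y (Fin N))} := by
      ext x
      simp [F0]
    rw [this]
    refine IsClosed.inter ?_ ?_
    · exact isClosed_iInter fun a => isClosed_iInter fun d' => isClosed_iInter fun _ => hpt d' 1
    · exact isClosed_const
  have hF : ∀ j, IsClosed (F j) := by
    intro j
    rcases hj : e j with d | n
    · have : F j = (⋂ a, ⋂ (_ : a ≠ j), ⋂ d', ⋂ (_ : e a = Sum.inl d'),
          ((⋂ (_ : ab r d' d), {x | r d' x = 0}) ∩ (⋂ (_ : ¬ ab r d' d), {x | r d' x = 1}))) ∩
          (r d) ⁻¹' {t | Q ((fun z => sec S.P (ofSet (ZZ r e j)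
            (fun a a' => Rr r (e a) (e a'))) (pull (ψ j) z)) '' G t)} := by
        ext x
        simp only [F, mem_setOf_eq, mem_inter_iff, mem_iInter, mem_preimage]
        constructor
        · rintro ⟨d₁, hd₁, h1, h2⟩
          rw [hj] at hd₁
          have : d = d₁ := Sum.inl.inj hd₁
          subst this
          exact ⟨fun a ha d' hd' => h1 a ha d' hd', h2⟩
        · rintro ⟨h1, h2⟩
          exact ⟨d, hj, fun a ha d' hd' => h1 a ha d' hd', h2⟩
      rw [this]
      refine IsClosed.inter ?_ ?_
      · refine isClosed_iInter fun a => isClosed_iInter fun _ => isClosed_iInter fun d' =>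
          isClosed_iInter fun _ => IsClosed.inter ?_ ?_
        · exact isClosed_iInter fun _ => hpt d' 0
        · exact isClosed_iInter fun _ => hpt d' 1
      · refine IsClosed.preimage (r d).continuous (hQ _ ?_)
        exact (sec_continuous S.P _).comp (pull_continuous (ψ j))
    · have : F j = ∅ := by
        ext x
        simp only [F, mem_setOf_eq, mem_empty_iff_false, iff_false]
        rintro ⟨d, hd, _⟩
        rw [hj] at hd
        exact absurd hd (by simp)
      rw [this]
      exact isClosed_empty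
  have key : {x | Q (pull e '' ff S r K x)} = F0 ∪ ⋃ j, F j := by
    ext x
    simp only [mem_setOf_eq, mem_union, mem_iUnion]
    constructor
    · intro hq
      rcases cover r hr e x with h | ⟨j, d, hd, h⟩
      · left
        refine ⟨h, ?_⟩
        rw [on_empty S hA r hr e x h] at hq
        exact hq
      · right
        refine ⟨j, d, hd, h, ?_⟩
        rw [on_j S hA r hr e j d hd (ψ j) (hψ j) x h, image_image] at hq
        exact hq
    · rintro (⟨h, hq⟩ | ⟨j, d, hd, h, hq⟩)
      · rw [on_empty S hA r hr e x h]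
        exact hq
      · rw [on_j S hA r hr e j d hd (ψ j) (hψ j) x h, image_image]
        exact hq
  rw [key]
  exact hF0.union (isClosed_iUnion_of_finite hF)

include hA hr in
theorem pull_ff_open {N : ℕ} (e : Fin N ↪ D ⊕ ℕ) (U : Set (E k (Fin N))) (hU : IsOpen U) :
    IsOpen {x | pull e '' ff S r K x ⊆ U} ∧ IsOpen {x | (pull e '' ff S r K x ∩ U).Nonempty} := by
  constructor
  · rw [← isClosed_compl_iff]
    have := closed_of S hA r hr e (fun B => ¬ B ⊆ U) (by
      intro f hf
      have h1 := hA.G_sub_open (f ⁻¹' U) (hU.preimage hf)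
      rw [← isClosed_compl_iff] at h1
      convert h1 using 1
      ext t
      simp only [mem_setOf_eq, mem_compl_iff, image_subset_iff])
    exact this
  · rw [← isClosed_compl_iff]
    have := closed_of S hA r hr e (fun B => ¬ (B ∩ U).Nonempty) (by
      intro f hf
      have h1 := hA.G_meet_open (f ⁻¹' U) (hU.preimage hf)
      rw [← isClosed_compl_iff] at h1
      convert h1 using 1
      ext t
      simp only [mem_setOf_eq, mem_compl_iff]
      rw [image_inter_nonempty_iff])
    exact this

end H64DN
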