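import Pool.Agent.Helper64.DN.Emb2a

/-!
DN-30 (Emb2): continuity of the embedding.

Fix `e : Fin N ↪ D ⊕ ℕ`.  For `j : Fin N` with `e j = inl d` let `Z j = {a | a ≠ j, ∃ d', e a = inl d' ∧ ab r d' d}`, `ρ j = ofSet (Z j) (fun a a' => Rr r (e a) (e a'))`, `ψ j : Fin N ↪ ℕ` with `ψ j j = 0`,
`X j = {x | ∀ a ≠ j, ∀ d', e a = inl d' → (ab r d' d → r d' x = 0) ∧ (¬ ab r d' d → r d' x = 1)}` (closed), `X∅ = {x | ∀ a d', e a = inl d' → r d' x = 1}` (closed).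
(i) the sets cover `X`: if some `e j = inl d` has `0 < r d x < 1`: `active_other`.  Otherwise all values are `0` or `1`; if none is `0`: `X∅`.  If the set `{a | value 0}` is nonempty, it is linearly
ordered by `ab` (`ab_total`, `ab_trans`, `ab_asymm`), let `j` be its last element: for another `a` with value `0`: `ab (e a) (e j)`; if the value at `a` is `1` then not `ab (e a) (e j)` (`zero_of_ab`).
(ii) on `X∅`: `pull e '' ff x = Y (Fin N)` (`pull_ff`; `e ⁻¹' wx = ∅`, `ofSet_empty`, `sec_noPrio`; the active letter, if any, is not in the range of `e`: `pull_K_off`; `S.image_pull`).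
(iii) on `X j`: `pull e '' ff x = sec (ρ j) '' (pull (ψ j) '' G (r d x))`:
 `0 < r d x < 1`: `e ⁻¹' wx r x = Z j`, `MM_active`, `pull_K_on`.
 `r d x = 1`: `e ⁻¹' wx r x = Z j`, `pull e '' MM = Y (Fin N)` (`pull_K_off`: an active letter in the range of `e` is excluded since all values are `0` or `1`), `G 1 = Y ℕ`, `S.image_pull`.
 `r d x = 0`: `e ⁻¹' wx r x = Z j ∪ {j}`, `j` last: `sec_ofSet_append`, `ofSet_singleton`; `sec (single j) '' Y (Fin N) = cs S j = pull (ψ j) '' cs S 0 = pull (ψ j) '' G 0` (`pull_cs`).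
(iv) so for open `U`, `{x | pull e '' ff x ⊆ U}` has complement `(X∅ or ∅) ∪ ⋃ j, (X j ∩ {x | ¬ G (r d x) ⊆ (sec (ρ j) ∘ pull (ψ j)) ⁻¹' U})`, a finite union of closed sets (`G_sub_open`); similarly for `(.. ∩ U).Nonempty` (`G_meet_open`).
* `ff_sub_open`: `V` open in `E k L`, `ff x₀ ⊆ V`: `ff x₀` is compact, so there are finitely many coordinates, hence `e : Fin N ↪ L` and `U` open with `ff x₀ ⊆ pull e ⁻¹' U ⊆ V`.
-/

set_option autoImplicit false

namespace H64DN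

open Set Topology

private theorem emb2b_fact {B L : Type} {N : ℕ} (e₁ : B ↪ L) (e : Fin N ↪ L)
    (h : ∀ b, e₁ b ∈ range e) : ∃ φ : B ↪ Fin N, φ.trans e = e₁ := by
  choose f hf using h
  refine ⟨⟨f, fun a b hab => e₁.injective ?_⟩, ?_⟩
  · rw [← hf a, ← hf b, hab]
  · ext b
    exact hf b

private theorem emb2b_exE {L : Type} (A : Finset L) :
    ∃ (N : ℕ) (e : Fin N ↪ L), ∀ a ∈ A, a ∈ range e := by
  refine ⟨A.card, A.equivFin.symm.toEmbedding.trans (Function.Embedding.subtype _), ?_⟩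
  intro a ha
  refine ⟨A.equivFin ⟨a, ha⟩, ?_⟩
  simp

private theorem emb2b_pull_trans {k : ℕ → ℕ} {A B C : Type} (φ : A ↪ B) (e : B ↪ C)
    (z : E k C) : pull (φ.trans e) z = pull φ (pull e z) := rfl

private theorem emb2b_basis {k : ℕ → ℕ} {L : Type} (V : Set (E k L)) (hV : IsOpen V)
    (z : E k L) (hz : z ∈ V) : ∃ (N : ℕ) (e : Fin N ↪ L) (U : Set (E k (Fin N))),
      IsOpen U ∧ pull e z ∈ U ∧ pull e ⁻¹' U ⊆ V := by
  classical
  obtain ⟨I, u, hu, hI⟩ := isOpen_pi_iff.1 hV z hz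
  obtain ⟨N, e, he⟩ := emb2b_exE (I.biUnion (fun c : Coord k L => Finset.univ.map c.2))
  have h1 : ∀ c : Coord k L, c ∈ I → ∃ φ : Fin (k c.1) ↪ Fin N, φ.trans e = c.2 := by
    intro c hc
    apply emb2b_fact
    intro b
    apply he
    rw [Finset.mem_biUnion]
    exact ⟨c, hc, Finset.mem_map.2 ⟨b, Finset.mem_univ _, rfl⟩⟩
  choose φ hφ using h1
  have h2 : ∀ (c : Coord k L) (hc : c ∈ I) (y : E k L),
      pull e y ⟨c.1, φ c hc⟩ = y c := by
    intro c hc y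
    change y ⟨c.1, (φ c hc).trans e⟩ = y c
    rw [hφ c hc]
  refine ⟨N, e, ⋂ c ∈ I.attach, {y | y ⟨c.1.1, φ c.1 c.2⟩ ∈ u c.1}, ?_, ?_, ?_⟩
  · apply isOpen_biInter_finset
    intro c _
    have h3 : Continuous (fun y : E k (Fin N) => y ⟨c.1.1, φ c.1 c.2⟩) := continuous_apply _
    exact (hu c.1 c.2).1.preimage h3
  · simp only [mem_iInter, mem_ofPred_eq]
    intro c _
    rw [h2]
    exact (hu c.1 c.2).2
  · intro y hy
    apply hI
    intro c hc
    simp only [mem_preimage, mem_iInter, mem_ofPred_eq] at hy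
    have h3 := hy ⟨c, hc⟩ (Finset.mem_attach _ _)
    rw [h2] at h3
    exact h3

private theorem emb2b_compact {k : ℕ → ℕ} {L : Type} (V : Set (E k L)) (hV : IsOpen V)
    (C : Set (E k L)) (hC : IsCompact C) (hCV : C ⊆ V) :
    ∃ (N : ℕ) (e : Fin N ↪ L) (U : Set (E k (Fin N))),
      IsOpen U ∧ C ⊆ pull e ⁻¹' U ∧ pull e ⁻¹' U ⊆ V := by
  classical
  refine hC.induction_on (p := fun s => ∃ (N : ℕ) (e : Fin N ↪ L) (U : Set (E k (Fin N))),
      IsOpen U ∧ s ⊆ pull e ⁻¹' U ∧ pull e ⁻¹' U ⊆ V) ?_ ?_ ?_ ?_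
  · exact ⟨0, ⟨fun a => a.elim0, fun a => a.elim0⟩, ∅, isOpen_empty, by simp, by simp⟩
  · rintro s t hst ⟨N, e, U, h1, h2, h3⟩
    exact ⟨N, e, U, h1, hst.trans h2, h3⟩
  · rintro s t ⟨N₁, e₁, U₁, h1, h2, h3⟩ ⟨N₂, e₂, U₂, g1, g2, g3⟩
    obtain ⟨N, e, he⟩ := emb2b_exE (Finset.univ.map e₁ ∪ Finset.univ.map e₂)
    obtain ⟨φ₁, rfl⟩ := emb2b_fact e₁ e (fun b => he _ (Finset.mem_union_left _
      (Finset.mem_map.2 ⟨b, Finset.mem_univ _, rfl⟩)))
    obtain ⟨φ₂, rfl⟩ := emb2b_fact e₂ e (fun b => he _ (Finset.mem_union_right _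
      (Finset.mem_map.2 ⟨b, Finset.mem_univ _, rfl⟩)))
    refine ⟨N, e, pull φ₁ ⁻¹' U₁ ∪ pull φ₂ ⁻¹' U₂,
      (h1.preimage (pull_continuous _)).union (g1.preimage (pull_continuous _)), ?_, ?_⟩
    · rintro y (hy | hy)
      · exact Or.inl (h2 hy)
      · exact Or.inr (g2 hy)
    · rintro y (hy | hy)
      · exact h3 hy
      · exact g3 hy
  · intro z hz
    obtain ⟨N, e, U, h1, h2, h3⟩ := emb2b_basis V hV z (hCV hz)
    refine ⟨pull e ⁻¹' U, ?_, N, e, U, h1, Subset.rfl, h3⟩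
    exact mem_nhdsWithin_of_mem_nhds ((h1.preimage (pull_continuous e)).mem_nhds h2)

variable {k : ℕ → ℕ} (S : NS k) {X : Type} [TopologicalSpace X] {D : Type}
variable {G : unitInterval → Set (E k ℕ)} {K : D ⊕ ℕ → unitInterval → Set (E k (D ⊕ ℕ))}
  (hA : ArcData S (D ⊕ ℕ) G K) (r : D → C(X, unitInterval)) (hr : Fam X D r)

include hA hr in
theorem ff_sub_open (V : Set (E k (D ⊕ ℕ))) (hV : IsOpen V) : IsOpen {x | ff S r K x ⊆ V} := by
  rw [isOpen_iff_mem_nhds]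
  intro x₀ hx₀
  obtain ⟨N, e, U, h1, h2, h3⟩ := emb2b_compact V hV (ff S r K x₀)
    ((ff_closed S hA r hr x₀).isCompact) hx₀
  refine Filter.mem_of_superset (((pull_ff_open S hA r hr e U h1).1).mem_nhds ?_) ?_
  · exact image_subset_iff.2 h2
  · intro x hx
    exact (image_subset_iff.1 hx).trans h3

include hA hr in
theorem ff_meet_open (V : Set (E k (D ⊕ ℕ))) (hV : IsOpen V) :
    IsOpen {x | (ff S r K x ∩ V).Nonempty} := by
  rw [isOpen_iff_mem_nhds]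
  rintro x₀ ⟨z, hz1, hz2⟩
  obtain ⟨N, e, U, h1, h2, h3⟩ := emb2b_basis V hV z hz2
  refine Filter.mem_of_superset (((pull_ff_open S hA r hr e U h1).2).mem_nhds ?_) ?_
  · exact ⟨pull e z, mem_image_of_mem _ hz1, h2⟩
  · rintro x ⟨_, ⟨y, hy, rfl⟩, hyU⟩
    exact ⟨y, hy, h3 hyU⟩

end H64DN
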