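import Pool.Agent.Helper64.DN.Base

/-!
DN-15 (Enum): the arities `kk` and the candidate tests.

`m` codes `(N, r, n, c)`: `N = (unpair (unpair m).1).1 + 1`, `r = (unpair (unpair m).1).2`, `n = (unpair (unpair m).2).1`.
* `trunc n` sets the coordinates of rank `≥ n` to `0` (continuous).
* `C(E kk (Fin N), unitInterval)` is separable: `E kk (Fin N)` is a countable product of copies of `[0,1]` (second countable, compact),
  use the second countability of the compact-open topology.
* `cand_dense`: for `h ∈ O`, `h ∘ trunc n → h` in `C(E, unitInterval)` (uniformly: uniform continuity of `h` on the compact product; the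
  sequence `trunc n z` converges to `z` uniformly in `z`), so some `h ∘ trunc n ∈ O`; `g ↦ g ∘ trunc n` is continuous, so its preimage of `O` is open and
  nonempty and contains some `denseSeq r`.
* `exists_index`: `m = pair (pair (N-1) r) (pair n c)` with `c` large; `m ≥ c`.
-/

set_option autoImplicit false

namespace H64DN

open Set Topology

/-- The arities. -/
def kk (m : ℕ) : ℕ := (Nat.unpair (Nat.unpair m).1).1 + 1

theorem kk_pos (m : ℕ) : 1 ≤ kk m := Nat.le_add_left 1 _

theorem kk_zero : kk 0 = 1 := by simp [kk]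

/-- Truncation at rank `n`. -/
noncomputable def trunc (N n : ℕ) : C(E kk (Fin N), E kk (Fin N)) where
  toFun z c := if c.1 < n then z c else 0
  continuous_toFun := by
    refine continuous_pi fun c => ?_
    by_cases h : c.1 < n
    · simpa [h] using continuous_apply c
    · simpa [h] using continuous_const

theorem sepSpace (N : ℕ) : TopologicalSpace.SeparableSpace C(E kk (Fin N), unitInterval) := by
  haveI : SecondCountableTopology (E kk (Fin N)) := inferInstance
  haveI : SecondCountableTopology C(E kk (Fin N), unitInterval) := inferInstance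
  infer_instance

/-- The dense sequence of test functions. -/
noncomputable def dseq (N : ℕ) (r : ℕ) : C(E kk (Fin N), unitInterval) :=
  haveI := sepSpace N
  TopologicalSpace.denseSeq C(E kk (Fin N), unitInterval) r

/-- The candidate number `(r, n)` of arity `N`. -/
noncomputable def cand (N r n : ℕ) : C(E kk (Fin N), unitInterval) := (dseq N r).comp (trunc N n)

/-- The candidate of stage `m`. -/
noncomputable def candm (m : ℕ) : C(E kk (Fin (kk m)), unitInterval) :=
  cand (kk m) (Nat.unpair (Nat.unpair m).1).2 (Nat.unpair (Nat.unpair m).2).1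

theorem cand_dep (N r n : ℕ) (z z' : E kk (Fin N)) (h : ∀ c : Coord kk (Fin N), c.1 < n → z c = z' c) :
    cand N r n z = cand N r n z' := by
  have ht : trunc N n z = trunc N n z' := by
    funext c
    change (if c.1 < n then z c else 0) = (if c.1 < n then z' c else 0)
    by_cases hc : c.1 < n
    · simp [hc, h c hc]
    · simp [hc]
  change dseq N r (trunc N n z) = dseq N r (trunc N n z')
  rw [ht]

/-- The truncations converge uniformly to the identity. -/
theorem trunc_unif (N : ℕ) :
    TendstoUniformly (fun (n : ℕ) (z : E kk (Fin N)) => trunc N n z) (fun z => z)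
      Filter.atTop := by
  rw [tendstoUniformly_iff_tendsto, Pi.uniformity, Filter.tendsto_iInf]
  intro c
  rw [Filter.tendsto_comap_iff]
  have hev : ∀ᶠ q : ℕ × E kk (Fin N) in Filter.atTop ×ˢ ⊤,
      ((fun a : E kk (Fin N) × E kk (Fin N) => (a.1 c, a.2 c)) ∘
        fun q : ℕ × E kk (Fin N) => (q.2, trunc N q.1 q.2)) q = (q.2 c, q.2 c) := by
    have h1 : ∀ᶠ n : ℕ in Filter.atTop, c.1 < n := Filter.eventually_gt_atTop c.1
    have h2 := h1.prod_inl (⊤ : Filter (E kk (Fin N)))
    filter_upwards [h2] with q hq
    change (q.2 c, (if c.1 < q.1 then q.2 c else 0)) = (q.2 c, q.2 c)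
    rw [if_pos hq]
  intro W hW
  rw [Filter.mem_map]
  filter_upwards [hev] with q hq
  rw [Set.mem_preimage, hq]
  exact refl_mem_uniformity hW

theorem cand_dense (N : ℕ) (O : Set C(E kk (Fin N), unitInterval)) (hO : IsOpen O)
    (hne : O.Nonempty) : ∃ r n, cand N r n ∈ O := by
  obtain ⟨h, hh⟩ := hne
  have huc : UniformContinuous (h : E kk (Fin N) → unitInterval) :=
    CompactSpace.uniformContinuous_of_continuous h.continuous
  have h1 : TendstoUniformly (fun (n : ℕ) (z : E kk (Fin N)) => h (trunc N n z))
      (fun z => h z) Filter.atTop := huc.comp_tendstoUniformly (trunc_unif N)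
  have h2 : Filter.Tendsto (fun n : ℕ => h.comp (trunc N n)) Filter.atTop (𝓝 h) := by
    rw [ContinuousMap.tendsto_iff_tendstoUniformly]
    exact h1
  obtain ⟨n, hn⟩ := (h2.eventually (hO.mem_nhds hh)).exists
  have h3 : Continuous fun g : C(E kk (Fin N), unitInterval) => g.comp (trunc N n) :=
    ContinuousMap.continuous_precomp (trunc N n)
  have h4 : IsOpen ((fun g : C(E kk (Fin N), unitInterval) => g.comp (trunc N n)) ⁻¹' O) :=
    hO.preimage h3
  haveI := sepSpace N
  obtain ⟨r, hr⟩ :=
    (TopologicalSpace.denseRange_denseSeq C(E kk (Fin N), unitInterval)).exists_mem_open h4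
      ⟨h, hn⟩
  exact ⟨r, n, hr⟩

theorem exists_index (N : ℕ) (hN : 1 ≤ N) (r n n₀ : ℕ) :
    ∃ m, n₀ ≤ m ∧ kk m = N ∧ (Nat.unpair (Nat.unpair m).1).2 = r ∧
      (Nat.unpair (Nat.unpair m).2).1 = n := by
  refine ⟨Nat.pair (Nat.pair (N - 1) r) (Nat.pair n n₀), ?_, ?_, ?_, ?_⟩
  · exact (Nat.right_le_pair n n₀).trans (Nat.right_le_pair _ _)
  · simp only [kk, Nat.unpair_pair]
    omega
  · simp only [Nat.unpair_pair]
  · simp only [Nat.unpair_pair]

end H64DN
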