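import Pool.Agent.Helper64.DN.Base

/-!
DN-27 (Fam): from free arcs to a compatible separating family.

Fix `o : X`.  Let `𝓕 = {r : C(X, unitInterval) | free r, r o = 1, ∃ x, r x = 0}`, `free r`: `0 < r z < 1`, `r z = r w` imply `z = w`.  `J r = r ⁻¹' (0,1)`.
(F1) for `x ≠ y` there is `r ∈ 𝓕` with `{r x, r y} = {0, 1}`: take `r₀` from `FreeSep`, `0 < a < b < 1` with `r₀ o ∉ [a,b]`, compose with the clamped affine map
`[a,b] → [0,1]` (still free), and with `1 - ·` if the value at `o` is `0`.
(F2) `r ∈ 𝓕`, `0 < t < 1`: there is exactly one point `p` with `r p = t` (X connected); `{r ≤ t}` and `{t ≤ r}` are preconnected: if `{r ≤ t} = A ⊔ B` with `A, B` closed, `p ∈ A`,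
then `B` is closed and `X \\ B = A ∪ {t ≤ r}` is closed, so `B = ∅`.  Also `{r < t} = ⋃_{s<t} {r ≤ s}` and `{t < r}` are preconnected, and `J r` is preconnected
(increasing union of `r ⁻¹' [a,b] ≅ [a,b]`: continuous bijection from a compact space to a Hausdorff space).
(F3) Zorn: `D ⊆ 𝓕` maximal with `J r ∩ J r' = ∅` for `r ≠ r'` in `D`.
(F4) for `r ≠ r'` in `D`: `r'` is constant `= c ∈ {0,1}` on `J r`, `r = c' ∈ {0,1}` on `J r'`.
 `c = c' = 0` impossible: `S = {1/2 ≤ r}` is connected, contains `o` (`r' = 1`) and the point `p` with `r p = 1/2` (`r' p = 0`), so some `w ∈ S` has `r' w = 1/2`, so `w ∈ J r'`, `r w = 0`. Contradiction.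
 `c = 0, c' = 1`: `∀ x, r x = 1 ∨ r' x = 0`: otherwise `r x = 0` and `r' x = 1` (if `r x ∈ (0,1)` then `r' x = c = 0`; if `r' x ∈ (0,1)` then `r x = c' = 1`); `{r ≤ 1/2}` is connected and contains
 `x` and `p`, so some `w` in it has `r' w = 1/2`, so `r w = 1`. Contradiction.  `c = 1, c' = 0` symmetric.
 `c = c' = 1`: `∀ x, r x = 1 ∨ r' x = 1` in the same way.
(F5) separation: `x ≠ y`, `r` from (F1).  If `r ∉ D`, by maximality `J r` meets some `J d`, `d ∈ D`, at `z`; `t = r z`, `t' = d z`: `X \\ {z} = {r < t} ⊔ {t < r} = {d < t'} ⊔ {t' < d}`; the sets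
`{r < t}`, `{t < r}` are preconnected, so each lies in one of `{d < t'}`, `{t' < d}` (open, disjoint), not both in the same one (both are nonempty); so `d x ≠ d y`.
-/

set_option autoImplicit false

namespace H64DN

open Set Topology

/-- Any two distinct points are separated by a free arc. -/
def FreeSep (X : Type) [TopologicalSpace X] : Prop :=
  ∀ x y : X, x ≠ y → ∃ r : C(X, unitInterval), r x = 0 ∧ r y = 1 ∧
    ∀ z w : X, 0 < r z → r z < 1 → r z = r w → z = w

/-- Half of a preconnected closed set cut at a point. -/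
theorem free_half {X : Type} [TopologicalSpace X] {C s s' : Set X} (hC : IsPreconnected C)
    (hs : IsClosed s) (hs' : IsClosed s') (hu : s ∪ s' = C) (hi : (s ∩ s').Subsingleton) :
    IsPreconnected s := by
  rw [isPreconnected_iff_subset_of_fully_disjoint_closed hs]
  have hsC : s ⊆ C := hu ▸ Set.subset_union_left
  have key : ∀ u v : Set X, IsClosed u → IsClosed v → s ⊆ u ∪ v → Disjoint u v →
      s ∩ s' ⊆ u → s ⊆ u ∨ s ⊆ v := by
    intro u v hu' hv' hsub hd hsu
    have h1 := (isPreconnected_iff_subset_of_disjoint_closed.mp hC) (s ∩ v) ((s ∩ u) ∪ s')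
      (hs.inter hv') ((hs.inter hu').union hs') (by
        intro x hx
        rw [← hu] at hx
        rcases hx with hx | hx
        · rcases hsub hx with h | h
          · exact Or.inr (Or.inl ⟨hx, h⟩)
          · exact Or.inl ⟨hx, h⟩
        · exact Or.inr (Or.inr hx)) (by
        rw [Set.eq_empty_iff_forall_notMem]
        rintro x ⟨-, ⟨hxs, hxv⟩, h | h⟩
        · exact Set.disjoint_left.mp hd h.2 hxv
        · exact Set.disjoint_left.mp hd (hsu ⟨hxs, h⟩) hxv)
    rcases h1 with h1 | h1
    · exact Or.inr fun x hx => (h1 (hsC hx)).2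
    · refine Or.inl fun x hx => ?_
      rcases h1 (hsC hx) with h | h
      · exact h.2
      · exact hsu ⟨hx, h⟩
  intro u v hu' hv' hsub hd
  by_cases hne : (s ∩ s').Nonempty
  · obtain ⟨p, hp⟩ := hne
    rcases hsub hp.1 with h | h
    · exact key u v hu' hv' hsub hd (fun x hx => (hi hx hp) ▸ h)
    · exact (key v u hv' hu' (by rwa [Set.union_comm]) hd.symm
        (fun x hx => (hi hx hp) ▸ h)).symm
  · rw [Set.not_nonempty_iff_eq_empty] at hne
    exact key u v hu' hv' hsub hd (by rw [hne]; exact Set.empty_subset _)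

theorem free_pieces {X : Type} [TopologicalSpace X] [ConnectedSpace X]
    (r : C(X, unitInterval))
    (hr : ∀ z w : X, 0 < r z → r z < 1 → r z = r w → z = w) (t : unitInterval)
    (h0 : 0 < t) (h1 : t < 1) :
    IsPreconnected {z | r z ≤ t} ∧ IsPreconnected {z | t ≤ r z} := by
  have hc1 : IsClosed {z | r z ≤ t} := isClosed_le r.continuous continuous_const
  have hc2 : IsClosed {z | t ≤ r z} := isClosed_le continuous_const r.continuous
  have hi : ({z | r z ≤ t} ∩ {z | t ≤ r z}).Subsingleton := by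
    rintro x ⟨hx1, hx2⟩ y ⟨hy1, hy2⟩
    have hx : r x = t := le_antisymm hx1 hx2
    have hy : r y = t := le_antisymm hy1 hy2
    exact hr x y (hx ▸ h0) (hx ▸ h1) (hx.trans hy.symm)
  have hu : ({z | r z ≤ t} ∪ {z | t ≤ r z}) = univ := by
    ext x
    simpa using le_total (r x) t
  refine ⟨free_half isPreconnected_univ hc1 hc2 hu hi, ?_⟩
  exact free_half isPreconnected_univ hc2 hc1 (by rw [Set.union_comm]; exact hu)
    (by rw [Set.inter_comm]; exact hi)

/-- `(F2)`. -/
theorem free_preconnected (X : Type) [TopologicalSpace X] [CompactSpace X] [T2Space X]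
    [ConnectedSpace X] (r : C(X, unitInterval))
    (hr : ∀ z w : X, 0 < r z → r z < 1 → r z = r w → z = w) :
    (∀ t : unitInterval, 0 < t → t < 1 →
      IsPreconnected {z | r z ≤ t} ∧ IsPreconnected {z | t ≤ r z} ∧
      IsPreconnected {z | r z < t} ∧ IsPreconnected {z | t < r z}) ∧
    IsPreconnected {z | 0 < r z ∧ r z < 1} := by
  constructor
  · intro t h0 h1
    refine ⟨(free_pieces r hr t h0 h1).1, (free_pieces r hr t h0 h1).2, ?_, ?_⟩
    · have he : {z | r z < t} = ⋃₀ ((fun s : unitInterval => {z | r z ≤ s}) '' {s | 0 < s ∧ s < t}) := by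
        ext x
        simp only [mem_ofPred_eq, sUnion_image, mem_iUnion, exists_prop]
        constructor
        · intro hx
          obtain ⟨s, hs1, hs2⟩ := exists_between hx
          exact ⟨s, ⟨lt_of_le_of_lt (unitInterval.nonneg _) hs1, hs2⟩, hs1.le⟩
        · rintro ⟨s, ⟨-, hs⟩, hx⟩
          exact lt_of_le_of_lt hx hs
      rw [he]
      refine IsPreconnected.sUnion_directed ?_ ?_
      · rintro _ ⟨a, ha, rfl⟩ _ ⟨b, hb, rfl⟩
        rcases le_total a b with hab | hab
        · exact ⟨_, ⟨b, hb, rfl⟩, fun x hx => le_trans hx hab, Subset.rfl⟩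
        · exact ⟨_, ⟨a, ha, rfl⟩, Subset.rfl, fun x hx => le_trans hx hab⟩
      · rintro _ ⟨a, ha, rfl⟩
        exact (free_pieces r hr a ha.1 (ha.2.trans h1)).1
    · have he : {z | t < r z} = ⋃₀ ((fun s : unitInterval => {z | s ≤ r z}) '' {s | t < s ∧ s < 1}) := by
        ext x
        simp only [mem_ofPred_eq, sUnion_image, mem_iUnion, exists_prop]
        constructor
        · intro hx
          obtain ⟨s, hs1, hs2⟩ := exists_between hx
          exact ⟨s, ⟨hs1, lt_of_lt_of_le hs2 (unitInterval.le_one _)⟩, hs2.le⟩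
        · rintro ⟨s, ⟨hs, -⟩, hx⟩
          exact lt_of_lt_of_le hs hx
      rw [he]
      refine IsPreconnected.sUnion_directed ?_ ?_
      · rintro _ ⟨a, ha, rfl⟩ _ ⟨b, hb, rfl⟩
        rcases le_total a b with hab | hab
        · exact ⟨_, ⟨a, ha, rfl⟩, Subset.rfl, fun x hx => le_trans hab hx⟩
        · exact ⟨_, ⟨b, hb, rfl⟩, fun x hx => le_trans hab hx, Subset.rfl⟩
      · rintro _ ⟨a, ha, rfl⟩
        exact (free_pieces r hr a (h0.trans ha.1) ha.2).2
  · have he : {z | 0 < r z ∧ r z < 1} =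
        ⋃₀ ((fun s : unitInterval × unitInterval => {z | s.1 ≤ r z ∧ r z ≤ s.2}) ''
          {s | 0 < s.1 ∧ s.1 < 1 ∧ 0 < s.2 ∧ s.2 < 1}) := by
      ext x
      simp only [mem_ofPred_eq, sUnion_image, mem_iUnion, exists_prop, Prod.exists]
      constructor
      · rintro ⟨hx0, hx1⟩
        exact ⟨r x, r x, ⟨hx0, hx1, hx0, hx1⟩, le_rfl, le_rfl⟩
      · rintro ⟨a, b, ⟨ha, -, -, hb⟩, h1, h2⟩
        exact ⟨lt_of_lt_of_le ha h1, lt_of_le_of_lt h2 hb⟩
    rw [he]
    refine IsPreconnected.sUnion_directed ?_ ?_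
    · rintro _ ⟨⟨a, b⟩, ⟨ha0, ha1, hb0, hb1⟩, rfl⟩ _ ⟨⟨a', b'⟩, ⟨ha0', ha1', hb0', hb1'⟩, rfl⟩
      refine ⟨_, ⟨⟨min a a', max b b'⟩,
        ⟨lt_min ha0 ha0', lt_of_le_of_lt (min_le_left _ _) ha1,
          lt_of_lt_of_le hb0 (le_max_left _ _), max_lt hb1 hb1'⟩, rfl⟩, ?_, ?_⟩
      · exact fun x hx => ⟨le_trans (min_le_left _ _) hx.1, le_trans hx.2 (le_max_left _ _)⟩
      · exact fun x hx => ⟨le_trans (min_le_right _ _) hx.1, le_trans hx.2 (le_max_right _ _)⟩
    · rintro _ ⟨⟨a, b⟩, ⟨ha0, ha1, hb0, hb1⟩, rfl⟩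
      simp only at ha0 ha1 hb0 hb1
      show IsPreconnected {z | a ≤ r z ∧ r z ≤ b}
      by_cases hab : a ≤ b
      · have hd1 : IsClosed {z | a ≤ r z} := isClosed_le continuous_const r.continuous
        have hd2 : IsClosed {z | r z ≤ b} := isClosed_le r.continuous continuous_const
        have hc1 : IsClosed {z | a ≤ r z ∧ r z ≤ b} := hd1.inter hd2
        have hc2 : IsClosed {z | r z ≤ a} := isClosed_le r.continuous continuous_const
        refine free_half (free_pieces r hr b hb0 hb1).1 hc1 hc2 ?_ ?_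
        · ext x
          simp only [mem_union, mem_ofPred_eq]
          constructor
          · rintro (h | h)
            · exact h.2
            · exact le_trans h hab
          · intro h
            rcases le_total a (r x) with h' | h'
            · exact Or.inl ⟨h', h⟩
            · exact Or.inr h'
        · rintro x ⟨⟨hx1, -⟩, hx2⟩ y ⟨⟨hy1, -⟩, hy2⟩
          have hx : r x = a := le_antisymm hx2 hx1
          have hy : r y = a := le_antisymm hy2 hy1
          exact hr x y (hx ▸ ha0) (hx ▸ ha1) (hx.trans hy.symm)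
      · have : {z | a ≤ r z ∧ r z ≤ b} = ∅ := by
          rw [Set.eq_empty_iff_forall_notMem]
          rintro x ⟨h1, h2⟩
          exact hab (le_trans h1 h2)
        rw [this]
        exact isPreconnected_empty

end H64DN
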