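import Pool.Agent.Helper64.DN.Fama

/-!
DN-27 (Fam): from free arcs to a compatible separating family.

Fix `o : X`.  Let `𝓕 = {r : C(X, unitInterval) | free r, r o = 1, ∃ x, r x = 0}`, `free r`: `0 < r z < 1`, `r z = r w` imply `z = w`.  `J r = r ⁻¹' (0,1)`.
(F1) for `x ≠ y` there is `r ∈ 𝓕` with `{r x, r y} = {0, 1}`: take `r₀` from `FreeSep`, `0 < a < b < 1` with `r₀ o ∉ [a,b]`, compose with the clamped affine map
`[a,b] → [0,1]` (still free), and with `1 - ·` if the value at `o` is `0`.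
(F2) `r ∈ 𝓕`, `0 < t < 1`: there is exactly one point `p` with `r p = t` (X connected); `{r ≤ t}` and `{t ≤ r}` are preconnected: if `{r ≤ t} = A ⊔ B` with `A, B` closed, `p ∈ A`,
then `B` is closed and `X \\ B = A ∪ {t ≤ r}` is closed, so `B = ∅`.  Also `{r < t} = ⋃_{s<t} {r ≤ s}` and `{t < r}` are preconnected, and `J r` is preconnected
(increasing union of `r ⁻¹' [a,b] ≅ [a,b]`: continuous bijection from a compact space to a Hausdorff space).
(F3) Zorn: `D ⊆ 𝓕` maximal with `J r ∩ J r' = ∅` for `r ≠ r'` in `D`.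
(F4) for `r ≠ r'` in `D`: `r'` is constant `= c ∈ {0,1}` on `J r`, `r = c' ∈ {0,1}` on `J r'`.
 `c = c' = 0` impossible: `S = {1/2 ≤ r}` is connected, contains `o` (`r' = 1`) and the point `p` with `r p = 1/2` (`r' p = 0`), so some `w ∈ S` has `r' w = 1/2`, so `w ∈ J r'`, `r w = 0`. Contradiction.
 `c = 0, c' = 1`: `∀ x, r x = 1 ∨ r' x = 0`: otherwise `r x = 0` and `r' x = 1` (if `r x ∈ (0,1)` then `r' x = c = 0`; if `r' x ∈ (0,1)` then `r x = c' = 1`); `{r ≤ 1/2}` is connected and contains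
 `x` and `p`, so some `w` in it has `r' w = 1/2`, so `r w = 1`. Contradiction.  `c = 1, c' = 0` symmetric.
 `c = c' = 1`: `∀ x, r x = 1 ∨ r' x = 1` in the same way.
(F5) separation: `x ≠ y`, `r` from (F1).  If `r ∉ D`, by maximality `J r` meets some `J d`, `d ∈ D`, at `z`; `t = r z`, `t' = d z`: `X \\ {z} = {r < t} ⊔ {t < r} = {d < t'} ⊔ {t' < d}`; the sets
`{r < t}`, `{t < r}` are preconnected, so each lies in one of `{d < t'}`, `{t' < d}` (open, disjoint), not both in the same one (both are nonempty); so `d x ≠ d y`.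
-/

set_option autoImplicit false

namespace H64DN

open Set Topology

/-- A compatible separating family of windows. -/
structure Fam (X : Type) [TopologicalSpace X] (D : Type) (r : D → C(X, unitInterval)) : Prop where
  sepa : ∀ x y : X, x ≠ y → ∃ d, r d x ≠ r d y
  mid : ∀ d, ∃ x, 0 < r d x ∧ r d x < 1
  compat : ∀ d d', d ≠ d' → (∀ x, r d x = 1 ∨ r d' x = 1) ∨ (∀ x, r d' x = 1 ∨ r d x = 0) ∨
    (∀ x, r d x = 1 ∨ r d' x = 0)

/-- The free functions with value `1` at `o` and somewhere `0`. -/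
def FamFr {X : Type} [TopologicalSpace X] (o : X) (r : C(X, unitInterval)) : Prop :=
  (∀ z w : X, 0 < r z → r z < 1 → r z = r w → z = w) ∧ r o = 1 ∧ ∃ x, r x = 0

/-- The open arc of `r`. -/
def FamJ {X : Type} [TopologicalSpace X] (r : C(X, unitInterval)) : Set X :=
  {z | 0 < r z ∧ r z < 1}

/-- The value `1/2`. -/
noncomputable def famH : unitInterval := ⟨1 / 2, by norm_num, by norm_num⟩

theorem famH_pos : (0 : unitInterval) < famH := by
  rw [← Subtype.coe_lt_coe]; show (0 : ℝ) < 1 / 2; norm_num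

theorem famH_lt : famH < (1 : unitInterval) := by
  rw [← Subtype.coe_lt_coe]; show (1 / 2 : ℝ) < 1; norm_num

/-- The clamped affine reparametrisation. -/
noncomputable def famClamp {X : Type} [TopologicalSpace X] (r : C(X, unitInterval)) (a b : ℝ) :
    C(X, unitInterval) :=
  ⟨fun z => Set.projIcc (0 : ℝ) 1 zero_le_one (((r z : ℝ) - a) / (b - a)), by
    refine continuous_projIcc.comp ?_
    exact ((continuous_subtype_val.comp r.continuous).sub continuous_const).div_const _⟩

theorem famClamp_coe {X : Type} [TopologicalSpace X] (r : C(X, unitInterval)) (a b : ℝ) (z : X) :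
    ((famClamp r a b z : unitInterval) : ℝ) = max 0 (min 1 (((r z : ℝ) - a) / (b - a))) := by
  simp only [famClamp, ContinuousMap.coe_mk, Set.coe_projIcc]

theorem famClamp_zero {X : Type} [TopologicalSpace X] (r : C(X, unitInterval)) {a b : ℝ}
    (hab : a < b) {z : X} (hz : (r z : ℝ) ≤ a) : famClamp r a b z = 0 := by
  apply Subtype.ext
  rw [famClamp_coe]
  have h : ((r z : ℝ) - a) / (b - a) ≤ 0 :=
    div_nonpos_of_nonpos_of_nonneg (by linarith) (by linarith)
  rw [max_eq_left (le_trans (min_le_right _ _) h)]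
  rfl

theorem famClamp_one {X : Type} [TopologicalSpace X] (r : C(X, unitInterval)) {a b : ℝ}
    (hab : a < b) {z : X} (hz : b ≤ (r z : ℝ)) : famClamp r a b z = 1 := by
  apply Subtype.ext
  rw [famClamp_coe]
  have h : 1 ≤ ((r z : ℝ) - a) / (b - a) := by
    rw [le_div_iff₀ (by linarith)]; linarith
  rw [min_eq_left h]
  norm_num

theorem famClamp_free {X : Type} [TopologicalSpace X] (r : C(X, unitInterval)) {a b : ℝ}
    (ha : 0 < a) (hab : a < b) (hb : b < 1)
    (hr : ∀ z w : X, 0 < r z → r z < 1 → r z = r w → z = w) (z w : X)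
    (h0 : 0 < famClamp r a b z) (h1 : famClamp r a b z < 1)
    (he : famClamp r a b z = famClamp r a b w) : z = w := by
  have key : ∀ u : X, 0 < famClamp r a b u → famClamp r a b u < 1 →
      a < (r u : ℝ) ∧ (r u : ℝ) < b ∧
        ((famClamp r a b u : unitInterval) : ℝ) = ((r u : ℝ) - a) / (b - a) := by
    intro u hu0 hu1
    have h2 : a < (r u : ℝ) := by
      by_contra hc
      rw [famClamp_zero r hab (not_lt.mp hc)] at hu0
      exact lt_irrefl _ hu0
    have h3 : (r u : ℝ) < b := by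
      by_contra hc
      rw [famClamp_one r hab (not_lt.mp hc)] at hu1
      exact lt_irrefl _ hu1
    refine ⟨h2, h3, ?_⟩
    rw [famClamp_coe]
    have h4 : ((r u : ℝ) - a) / (b - a) ≤ 1 := by
      rw [div_le_one (by linarith)]; linarith
    have h5 : 0 ≤ ((r u : ℝ) - a) / (b - a) := div_nonneg (by linarith) (by linarith)
    rw [min_eq_right h4, max_eq_right h5]
  obtain ⟨hz1, hz2, hz3⟩ := key z h0 h1
  obtain ⟨hw1, hw2, hw3⟩ := key w (he ▸ h0) (he ▸ h1)
  have h6 : ((r z : ℝ) - a) / (b - a) = ((r w : ℝ) - a) / (b - a) := by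
    rw [← hz3, ← hw3, he]
  have hne : b - a ≠ 0 := by linarith
  have h7 : (r z : ℝ) = (r w : ℝ) := by
    have := (div_left_inj' hne).mp h6
    linarith
  refine hr z w ?_ ?_ (Subtype.ext h7)
  · rw [← Subtype.coe_lt_coe]
    show (0 : ℝ) < (r z : ℝ)
    linarith
  · rw [← Subtype.coe_lt_coe]
    show (r z : ℝ) < (1 : ℝ)
    linarith

/-- The reversed function. -/
noncomputable def famSymm {X : Type} [TopologicalSpace X] (r : C(X, unitInterval)) :
    C(X, unitInterval) :=
  ⟨fun z => unitInterval.symm (r z), unitInterval.continuous_symm.comp r.continuous⟩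

theorem famSymm_apply {X : Type} [TopologicalSpace X] (r : C(X, unitInterval)) (z : X) :
    famSymm r z = unitInterval.symm (r z) := rfl

/-- `(F1)`. -/
theorem fam_one {X : Type} [TopologicalSpace X] (h : FreeSep X) (o x y : X) (hxy : x ≠ y) :
    ∃ r : C(X, unitInterval), FamFr o r ∧ ((r x = 0 ∧ r y = 1) ∨ (r x = 1 ∧ r y = 0)) := by
  obtain ⟨r, hx, hy, hr⟩ := h x y hxy
  have hx' : (r x : ℝ) = 0 := by rw [hx]; rfl
  have hy' : (r y : ℝ) = 1 := by rw [hy]; rfl
  by_cases ho : (r o : ℝ) ≤ 1 / 2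
  · have hab : (5 / 8 : ℝ) < 7 / 8 := by norm_num
    have h1 : famClamp r (5 / 8) (7 / 8) x = 0 := famClamp_zero r hab (by rw [hx']; norm_num)
    have h2 : famClamp r (5 / 8) (7 / 8) y = 1 := famClamp_one r hab (by rw [hy']; norm_num)
    have h3 : famClamp r (5 / 8) (7 / 8) o = 0 := famClamp_zero r hab (by linarith)
    refine ⟨famSymm (famClamp r (5 / 8) (7 / 8)), ⟨?_, ?_, y, ?_⟩, Or.inr ⟨?_, ?_⟩⟩
    · intro z w hz0 hz1 he
      rw [famSymm_apply] at hz0 hz1
      rw [famSymm_apply, famSymm_apply] at he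
      have he' : famClamp r (5 / 8) (7 / 8) z = famClamp r (5 / 8) (7 / 8) w :=
        unitInterval.symm_bijective.injective he
      refine famClamp_free r (by norm_num) hab (by norm_num) hr z w ?_ ?_ he'
      · have := unitInterval.lt_symm_comm.mp (show unitInterval.symm
          (famClamp r (5 / 8) (7 / 8) z) < unitInterval.symm 0 by
            rw [unitInterval.symm_zero]; exact hz1)
        rw [unitInterval.symm_symm] at this
        exact this
      · have := unitInterval.symm_lt_comm.mp (show unitInterval.symm 1 <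
          unitInterval.symm (famClamp r (5 / 8) (7 / 8) z) by
            rw [unitInterval.symm_one]; exact hz0)
        rw [unitInterval.symm_symm] at this
        exact this
    · rw [famSymm_apply, h3, unitInterval.symm_zero]
    · rw [famSymm_apply, h2, unitInterval.symm_one]
    · rw [famSymm_apply, h1, unitInterval.symm_zero]
    · rw [famSymm_apply, h2, unitInterval.symm_one]
  · have hab : (1 / 8 : ℝ) < 3 / 8 := by norm_num
    have h1 : famClamp r (1 / 8) (3 / 8) x = 0 := famClamp_zero r hab (by rw [hx']; norm_num)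
    have h2 : famClamp r (1 / 8) (3 / 8) y = 1 := famClamp_one r hab (by rw [hy']; norm_num)
    have h3 : famClamp r (1 / 8) (3 / 8) o = 1 := famClamp_one r hab (by linarith)
    refine ⟨famClamp r (1 / 8) (3 / 8), ⟨?_, h3, x, h1⟩, Or.inl ⟨h1, h2⟩⟩
    intro z w hz0 hz1 he
    exact famClamp_free r (by norm_num) hab (by norm_num) hr z w hz0 hz1 he

theorem fam_ivt {X : Type} [TopologicalSpace X] {S : Set X} (hS : IsPreconnected S)
    (f : C(X, unitInterval)) {a b : X} (ha : a ∈ S) (hb : b ∈ S) (t : unitInterval)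
    (h1 : f a ≤ t) (h2 : t ≤ f b) : ∃ w ∈ S, f w = t :=
  hS.intermediate_value ha hb f.continuous.continuousOn ⟨h1, h2⟩

theorem fam_mid {X : Type} [TopologicalSpace X] [ConnectedSpace X] {o : X}
    {r : C(X, unitInterval)} (hr : FamFr o r) : ∃ p, r p = famH := by
  obtain ⟨-, ho, x, hx⟩ := hr
  obtain ⟨w, -, hw⟩ := fam_ivt (isPreconnected_univ (α := X)) r (mem_univ x) (mem_univ o) famH
    (by rw [hx]; exact famH_pos.le) (by rw [ho]; exact famH_lt.le)
  exact ⟨w, hw⟩

theorem fam_val {X : Type} [TopologicalSpace X] {r : C(X, unitInterval)} {z : X}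
    (hz : z ∉ FamJ r) : r z = 0 ∨ r z = 1 := by
  by_contra hc
  push Not at hc
  exact hz ⟨lt_of_le_of_ne (unitInterval.nonneg _) (Ne.symm hc.1),
    lt_of_le_of_ne (unitInterval.le_one _) hc.2⟩

/-- `r'` is constant on the arc of `r`. -/
theorem fam_const {X : Type} [TopologicalSpace X] {r r' : C(X, unitInterval)}
    (hJ : IsPreconnected (FamJ r)) (hd : ∀ z, z ∈ FamJ r → z ∉ FamJ r') {p z : X}
    (hp : p ∈ FamJ r) (hz : z ∈ FamJ r) : r' z = r' p := by
  have key : ∀ a b : X, a ∈ FamJ r → b ∈ FamJ r → r' a = 0 → r' b = 1 → False := by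
    intro a b ha hb h0 h1
    obtain ⟨w, hw, hw'⟩ := fam_ivt hJ r' ha hb famH (by rw [h0]; exact famH_pos.le)
      (by rw [h1]; exact famH_lt.le)
    exact hd w hw ⟨by rw [hw']; exact famH_pos, by rw [hw']; exact famH_lt⟩
  rcases fam_val (hd z hz) with h1 | h1 <;> rcases fam_val (hd p hp) with h2 | h2
  · rw [h1, h2]
  · exact (key z p hz hp h1 h2).elim
  · exact (key p z hp hz h2 h1).elim
  · rw [h1, h2]

/-- `(F4)`. -/
theorem fam_compat {X : Type} [TopologicalSpace X] [CompactSpace X] [T2Space X]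
    [ConnectedSpace X] {o : X} {r r' : C(X, unitInterval)} (hr : FamFr o r) (hr' : FamFr o r')
    (hd : ∀ z, z ∈ FamJ r → z ∉ FamJ r') :
    (∀ x, r x = 1 ∨ r' x = 1) ∨ (∀ x, r' x = 1 ∨ r x = 0) ∨ (∀ x, r x = 1 ∨ r' x = 0) := by
  have hd' : ∀ z, z ∈ FamJ r' → z ∉ FamJ r := fun z hz hz' => hd z hz' hz
  obtain ⟨hf, hJ⟩ := free_preconnected X r hr.1
  obtain ⟨hf', hJ'⟩ := free_preconnected X r' hr'.1
  obtain ⟨p, hp⟩ := fam_mid hr
  obtain ⟨p', hp'⟩ := fam_mid hr'
  have hpJ : p ∈ FamJ r := ⟨by rw [hp]; exact famH_pos, by rw [hp]; exact famH_lt⟩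
  have hpJ' : p' ∈ FamJ r' := ⟨by rw [hp']; exact famH_pos, by rw [hp']; exact famH_lt⟩
  have hc : ∀ z ∈ FamJ r, r' z = r' p := fun z hz => fam_const hJ hd hpJ hz
  have hc' : ∀ z ∈ FamJ r', r z = r p' := fun z hz => fam_const hJ' hd' hpJ' hz
  have hlo := (hf famH famH_pos famH_lt).1
  have hhi := (hf famH famH_pos famH_lt).2.1
  have hlo' := (hf' famH famH_pos famH_lt).1
  have hmid : ∀ w, r w = famH → w ∈ FamJ r := fun w hw =>
    ⟨by rw [hw]; exact famH_pos, by rw [hw]; exact famH_lt⟩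
  have hmid' : ∀ w, r' w = famH → w ∈ FamJ r' := fun w hw =>
    ⟨by rw [hw]; exact famH_pos, by rw [hw]; exact famH_lt⟩
  rcases fam_val (hd p hpJ) with h1 | h1 <;> rcases fam_val (hd' p' hpJ') with h2 | h2
  · exfalso
    obtain ⟨w, hw, hw'⟩ := fam_ivt hhi r' (a := p) (b := o)
      (show famH ≤ r p from hp.ge) (show famH ≤ r o by rw [hr.2.1]; exact famH_lt.le) famH
      (by rw [h1]; exact famH_pos.le) (by rw [hr'.2.1]; exact famH_lt.le)
    have h3 : r w = 0 := by rw [hc' w (hmid' w hw'), h2]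
    have h4 : famH ≤ r w := hw
    rw [h3] at h4
    exact absurd h4 (not_le.mpr famH_pos)
  · refine Or.inr (Or.inr fun x => ?_)
    by_contra hx
    push Not at hx
    have hx1 : x ∉ FamJ r := fun hxJ => hx.2 (by rw [hc x hxJ, h1])
    have hx2 : x ∉ FamJ r' := fun hxJ => hx.1 (by rw [hc' x hxJ, h2])
    have hx3 : r x = 0 := (fam_val hx1).resolve_right hx.1
    have hx4 : r' x = 1 := (fam_val hx2).resolve_left hx.2
    obtain ⟨w, hw, hw'⟩ := fam_ivt hlo r' (a := p) (b := x)
      (show r p ≤ famH from hp.le) (show r x ≤ famH by rw [hx3]; exact famH_pos.le) famH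
      (by rw [h1]; exact famH_pos.le) (by rw [hx4]; exact famH_lt.le)
    have h3 : r w = 1 := by rw [hc' w (hmid' w hw'), h2]
    have h4 : r w ≤ famH := hw
    rw [h3] at h4
    exact absurd h4 (not_le.mpr famH_lt)
  · refine Or.inr (Or.inl fun x => ?_)
    by_contra hx
    push Not at hx
    have hx1 : x ∉ FamJ r := fun hxJ => hx.1 (by rw [hc x hxJ, h1])
    have hx2 : x ∉ FamJ r' := fun hxJ => hx.2 (by rw [hc' x hxJ, h2])
    have hx3 : r x = 1 := (fam_val hx1).resolve_left hx.2
    have hx4 : r' x = 0 := (fam_val hx2).resolve_right hx.1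
    obtain ⟨w, hw, hw'⟩ := fam_ivt hlo' r (a := p') (b := x)
      (show r' p' ≤ famH from hp'.le) (show r' x ≤ famH by rw [hx4]; exact famH_pos.le) famH
      (by rw [h2]; exact famH_pos.le) (by rw [hx3]; exact famH_lt.le)
    have h3 : r' w = 1 := by rw [hc w (hmid w hw'), h1]
    have h4 : r' w ≤ famH := hw
    rw [h3] at h4
    exact absurd h4 (not_le.mpr famH_lt)
  · refine Or.inl fun x => ?_
    by_contra hx
    push Not at hx
    have hx1 : x ∉ FamJ r := fun hxJ => hx.2 (by rw [hc x hxJ, h1])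
    have hx2 : x ∉ FamJ r' := fun hxJ => hx.1 (by rw [hc' x hxJ, h2])
    have hx3 : r x = 0 := (fam_val hx1).resolve_right hx.1
    have hx4 : r' x = 0 := (fam_val hx2).resolve_right hx.2
    obtain ⟨w, hw, hw'⟩ := fam_ivt hlo r' (a := x) (b := p)
      (show r x ≤ famH by rw [hx3]; exact famH_pos.le) (show r p ≤ famH from hp.le) famH
      (by rw [hx4]; exact famH_pos.le) (by rw [h1]; exact famH_lt.le)
    have h3 : r w = 1 := by rw [hc' w (hmid' w hw'), h2]
    have h4 : r w ≤ famH := hw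
    rw [h3] at h4
    exact absurd h4 (not_le.mpr famH_lt)

/-- `(F5)`, the core. -/
theorem fam_sep {X : Type} [TopologicalSpace X] [CompactSpace X] [T2Space X]
    [ConnectedSpace X] {o : X} {r d : C(X, unitInterval)} (hr : FamFr o r) (hd : FamFr o d)
    {z : X} (hz : z ∈ FamJ r) (hz' : z ∈ FamJ d) {x y : X} (hx : r x < r z) (hy : r z < r y) :
    d x ≠ d y := by
  obtain ⟨hf, -⟩ := free_preconnected X r hr.1
  have hlo := (hf (r z) hz.1 hz.2).2.2.1
  have hhi := (hf (r z) hz.1 hz.2).2.2.2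
  have ho1 : IsOpen {w | d w < d z} := isOpen_lt d.continuous continuous_const
  have ho2 : IsOpen {w | d z < d w} := isOpen_lt continuous_const d.continuous
  have hdis : Disjoint {w | d w < d z} {w | d z < d w} :=
    Set.disjoint_left.mpr fun w h1 h2 => lt_asymm (show d w < d z from h1) h2
  have hne : ∀ w, w ≠ z → w ∈ {w | d w < d z} ∪ {w | d z < d w} := by
    intro w hw
    rcases lt_trichotomy (d w) (d z) with h | h | h
    · exact Or.inl h
    · exact (hw (hd.1 z w hz'.1 hz'.2 h.symm).symm).elim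
    · exact Or.inr h
  have hsl : {w | r w < r z} ⊆ {w | d w < d z} ∪ {w | d z < d w} := by
    intro w hw
    refine hne w ?_
    rintro rfl
    exact lt_irrefl _ (show r w < r w from hw)
  have hsh : {w | r z < r w} ⊆ {w | d w < d z} ∪ {w | d z < d w} := by
    intro w hw
    refine hne w ?_
    rintro rfl
    exact lt_irrefl _ (show r w < r w from hw)
  have hcov : ∀ w, w ≠ z → r w < r z ∨ r z < r w := by
    intro w hw
    rcases lt_trichotomy (r w) (r z) with h | h | h
    · exact Or.inl h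
    · exact (hw (hr.1 z w hz.1 hz.2 h.symm).symm).elim
    · exact Or.inr h
  have hone : d z < d o := by rw [hd.2.1]; exact hz'.2
  have honz : o ≠ z := by
    rintro rfl
    exact lt_irrefl _ hone
  obtain ⟨q, hq⟩ := hd.2.2
  have hqz : d q < d z := by rw [hq]; exact hz'.1
  have hqnz : q ≠ z := by
    rintro rfl
    exact lt_irrefl _ hqz
  have h1 := hlo.subset_or_subset ho1 ho2 hdis hsl
  have h2 := hhi.subset_or_subset ho1 ho2 hdis hsh
  rcases h1 with h1 | h1 <;> rcases h2 with h2 | h2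
  · exfalso
    rcases hcov o honz with h | h
    · exact lt_asymm hone (h1 h)
    · exact lt_asymm hone (h2 h)
  · have h3 : d x < d z := h1 hx
    have h4 : d z < d y := h2 hy
    exact (h3.trans h4).ne
  · have h3 : d z < d x := h1 hx
    have h4 : d y < d z := h2 hy
    exact (h4.trans h3).ne'
  · exfalso
    rcases hcov q hqnz with h | h
    · exact lt_asymm hqz (h1 h)
    · exact lt_asymm hqz (h2 h)

theorem exists_family (X : Type) [TopologicalSpace X] [CompactSpace X] [T2Space X]
    [ConnectedSpace X] (h : FreeSep X) :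
    ∃ (D : Type) (r : D → C(X, unitInterval)), Fam X D r := by
  classical
  obtain ⟨o⟩ : Nonempty X := inferInstance
  let S : Set (Set C(X, unitInterval)) :=
    {D | (∀ r ∈ D, FamFr o r) ∧ D.Pairwise fun r r' => ∀ z, z ∈ FamJ r → z ∉ FamJ r'}
  obtain ⟨D, hD⟩ : ∃ D, Maximal (· ∈ S) D := by
    refine zorn_subset S ?_
    intro c hc hch
    refine ⟨⋃₀ c, ⟨?_, ?_⟩, fun s hs => subset_sUnion_of_mem hs⟩
    · rintro r ⟨s, hs, hrs⟩
      exact (hc hs).1 r hrs
    · rintro r ⟨s, hs, hrs⟩ r' ⟨s', hs', hrs'⟩ hne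
      rcases hch.total hs hs' with hss | hss
      · exact (hc hs').2 (hss hrs) hrs' hne
      · exact (hc hs).2 hrs (hss hrs') hne
  refine ⟨D, fun d => d.1, ?_, ?_, ?_⟩
  · intro x y hxy
    obtain ⟨r, hr, hv⟩ := fam_one h o x y hxy
    by_cases hrD : r ∈ D
    · refine ⟨⟨r, hrD⟩, ?_⟩
      show r x ≠ r y
      rcases hv with ⟨h1, h2⟩ | ⟨h1, h2⟩ <;> rw [h1, h2]
      · exact zero_ne_one
      · exact one_ne_zero
    · have hex : ∃ d ∈ D, ∃ z, z ∈ FamJ r ∧ z ∈ FamJ d := by
        by_contra hcon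
        push Not at hcon
        have hS : insert r D ∈ S := by
          refine ⟨?_, ?_⟩
          · intro s hs
            rcases mem_insert_iff.mp hs with rfl | hs
            · exact hr
            · exact hD.prop.1 s hs
          · intro s hs s' hs' hne z hz hz'
            rcases mem_insert_iff.mp hs with rfl | hsD
            · rcases mem_insert_iff.mp hs' with rfl | hsD'
              · exact hne rfl
              · exact hcon s' hsD' z hz hz'
            · rcases mem_insert_iff.mp hs' with rfl | hsD'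
              · exact hcon s hsD z hz' hz
              · exact hD.prop.2 hsD hsD' hne z hz hz'
        exact hrD (hD.le_of_ge hS (subset_insert r D) (mem_insert r D))
      obtain ⟨d, hdD, z, hz, hz'⟩ := hex
      refine ⟨⟨d, hdD⟩, ?_⟩
      show d x ≠ d y
      rcases hv with ⟨h1, h2⟩ | ⟨h1, h2⟩
      · exact fam_sep hr (hD.prop.1 d hdD) hz hz' (by rw [h1]; exact hz.1) (by rw [h2]; exact hz.2)
      · exact (fam_sep hr (hD.prop.1 d hdD) hz hz' (x := y) (y := x)
          (by rw [h2]; exact hz.1) (by rw [h1]; exact hz.2)).symm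
  · intro d
    obtain ⟨p, hp⟩ := fam_mid (hD.prop.1 d.1 d.2)
    exact ⟨p, by rw [hp]; exact famH_pos, by rw [hp]; exact famH_lt⟩
  · intro d d' hne
    exact fam_compat (hD.prop.1 d.1 d.2) (hD.prop.1 d'.1 d'.2)
      (hD.prop.2 d.2 d'.2 fun he => hne (Subtype.ext he))

end H64DN
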