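import Pool.Agent.Helper64.DN.Rich
import Pool.Agent.Helper64.DN.Emb2

/-!
DN-31 (Final): assembly.
-/

set_option autoImplicit false

namespace H64DN

open Set Topology

theorem main_of_fam {k : ℕ → ℕ} (S : NS k) (X : Type) [TopologicalSpace X] {D : Type}
    (r : D → C(X, unitInterval)) (hr : Fam X D r) :
    ∃ (Y : Type) (_ : TopologicalSpace Y), CompactSpace Y ∧ ConnectedSpace Y ∧ T2Space Y ∧
      (∀ A B : Set Y, IsClosed A → IsConnected A → IsClosed B → IsConnected B →
        (A ∩ B).Nonempty → A ⊆ B ∨ B ⊆ A) ∧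
      ∃ f : X → Set Y,
        (∀ x, IsClosed (f x) ∧ IsConnected (f x)) ∧
        Function.Injective f ∧
        (∀ U : Set Y, IsOpen U →
          IsOpen {x : X | f x ⊆ U} ∧ IsOpen {x : X | (f x ∩ U).Nonempty}) := by
  obtain ⟨G, K, hA⟩ := exists_arcs S (D ⊕ ℕ) ⟨⟨Sum.inr, Sum.inr_injective⟩⟩
  refine ⟨S.Y (D ⊕ ℕ), inferInstance, isCompact_iff_compactSpace.1 (S.closed _).isCompact,
    isConnected_iff_connectedSpace.1 (S.conn _), inferInstance, ?_,
    fun x => (Subtype.val : S.Y (D ⊕ ℕ) → E k (D ⊕ ℕ)) ⁻¹' ff S r K x, ?_, ?_, ?_⟩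
  · intro A B hA1 hA2 hB1 hB2 hAB
    have hc : IsClosedEmbedding (Subtype.val : S.Y (D ⊕ ℕ) → E k (D ⊕ ℕ)) :=
      (S.closed _).isClosedEmbedding_subtypeVal
    have := hi_all S (D ⊕ ℕ) (Subtype.val '' A) (Subtype.val '' B) (by simp) (by simp)
      (hc.isClosedMap _ hA1) (hA2.image _ continuous_subtype_val.continuousOn)
      (hc.isClosedMap _ hB1) (hB2.image _ continuous_subtype_val.continuousOn)
      (by
        obtain ⟨z, h1, h2⟩ := hAB
        exact ⟨z, mem_image_of_mem _ h1, mem_image_of_mem _ h2⟩)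
    rcases this with h | h
    · left
      exact (image_subset_image_iff Subtype.val_injective).1 h
    · right
      exact (image_subset_image_iff Subtype.val_injective).1 h
  · intro x
    refine ⟨(ff_closed S hA r hr x).preimage continuous_subtype_val, ?_⟩
    have h1 := ff_connected S hA r hr x
    have h2 := ff_subset S hA r hr x
    have hi : IsInducing (Subtype.val : S.Y (D ⊕ ℕ) → E k (D ⊕ ℕ)) := IsInducing.subtypeVal
    have h3 : (Subtype.val : S.Y (D ⊕ ℕ) → E k (D ⊕ ℕ)) '' (Subtype.val ⁻¹' ff S r K x) =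
        ff S r K x := by
      rw [Subtype.image_preimage_coe, inter_eq_right.2 h2]
    refine ⟨?_, ?_⟩
    · obtain ⟨z, hz⟩ := h1.1
      exact ⟨⟨z, h2 hz⟩, hz⟩
    · rw [← hi.isPreconnected_image, h3]
      exact h1.2
  · intro x y hxy
    apply ff_injective S hA r hr
    have h3 : ∀ x, (Subtype.val : S.Y (D ⊕ ℕ) → E k (D ⊕ ℕ)) '' (Subtype.val ⁻¹' ff S r K x) =
        ff S r K x := by
      intro x
      rw [Subtype.image_preimage_coe, inter_eq_right.2 (ff_subset S hA r hr x)]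
    rw [← h3 x, ← h3 y]
    exact congrArg _ hxy
  · intro U hU
    obtain ⟨V, hV, rfl⟩ := isOpen_induced_iff.1 hU
    have e1 : {x : X | (Subtype.val : S.Y (D ⊕ ℕ) → E k (D ⊕ ℕ)) ⁻¹' ff S r K x ⊆
        Subtype.val ⁻¹' V} = {x | ff S r K x ⊆ V} := by
      ext x
      constructor
      · intro h z hz
        exact h (show (⟨z, ff_subset S hA r hr x hz⟩ : S.Y (D ⊕ ℕ)) ∈ _ from hz)
      · intro h z hz
        exact h hz
    have e2 : {x : X | ((Subtype.val : S.Y (D ⊕ ℕ) → E k (D ⊕ ℕ)) ⁻¹' ff S r K x ∩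
        Subtype.val ⁻¹' V).Nonempty} = {x | (ff S r K x ∩ V).Nonempty} := by
      ext x
      constructor
      · rintro ⟨z, h1, h2⟩
        exact ⟨z, h1, h2⟩
      · rintro ⟨z, h1, h2⟩
        exact ⟨⟨z, ff_subset S hA r hr x h1⟩, h1, h2⟩
    rw [e1, e2]
    exact ⟨ff_sub_open S hA r hr V hV, ff_meet_open S hA r hr V hV⟩

/-- A continuum in which any two points are separated by a free arc is a dendron in the sense of the
frozen statement. -/
theorem dendron_of_freeSep (X : Type) [TopologicalSpace X] [CompactSpace X] [T2Space X]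
    [ConnectedSpace X] (h : FreeSep X) (x y : X) (hxy : x ≠ y) :
    ∃ z : X, z ≠ x ∧ z ≠ y ∧
      ∃ U V : Set X, IsOpen U ∧ IsOpen V ∧ Disjoint U V ∧ U ∪ V = {z}ᶜ ∧ x ∈ U ∧ y ∈ V := by
  obtain ⟨r, hx, hy, hr⟩ := h x y hxy
  have hhalf : ∃ z, (r z : ℝ) = 1 / 2 := by
    have hc : Continuous fun z => (r z : ℝ) := continuous_subtype_val.comp r.continuous
    have := mem_range_of_exists_le_of_exists_ge hc (c := 1 / 2)
      ⟨x, by simp [hx]⟩ ⟨y, by rw [hy]; norm_num⟩
    exact this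
  obtain ⟨z, hz⟩ := hhalf
  have hz0 : 0 < r z := by
    rw [← Subtype.coe_lt_coe, hz]; norm_num
  have hz1 : r z < 1 := by
    rw [← Subtype.coe_lt_coe, hz]; norm_num
  refine ⟨z, ?_, ?_, {w | r w < r z}, {w | r z < r w}, isOpen_lt r.continuous continuous_const,
    isOpen_lt continuous_const r.continuous, ?_, ?_, ?_, ?_⟩
  · rintro rfl; rw [hx] at hz0; exact lt_irrefl _ hz0
  · rintro rfl; rw [hy] at hz1; exact lt_irrefl _ hz1
  · rw [Set.disjoint_left]
    intro w (h1 : r w < r z) (h2 : r z < r w)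
    exact lt_asymm h1 h2
  · ext w
    change (r w < r z ∨ r z < r w) ↔ ¬ w = z
    constructor
    · rintro h1 rfl
      rcases h1 with h1 | h1 <;> exact lt_irrefl _ h1
    · intro h1
      rcases lt_trichotomy (r w) (r z) with h2 | h2 | h2
      · left; exact h2
      · exact absurd (hr z w hz0 hz1 h2.symm).symm h1
      · right; exact h2
  · show r x < r z
    rw [hx]; exact hz0
  · show r z < r y
    rw [hy]; exact hz1

theorem main (X : Type) [TopologicalSpace X] [CompactSpace X] [T2Space X] [ConnectedSpace X]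
    (h : FreeSep X) :
    ∃ (Y : Type) (_ : TopologicalSpace Y), CompactSpace Y ∧ ConnectedSpace Y ∧ T2Space Y ∧
      (∀ A B : Set Y, IsClosed A → IsConnected A → IsClosed B → IsConnected B →
        (A ∩ B).Nonempty → A ⊆ B ∨ B ⊆ A) ∧
      ∃ f : X → Set Y,
        (∀ x, IsClosed (f x) ∧ IsConnected (f x)) ∧
        Function.Injective f ∧
        (∀ U : Set Y, IsOpen U →
          IsOpen {x : X | f x ⊆ U} ∧ IsOpen {x : X | (f x ∩ U).Nonempty}) := by
  obtain ⟨S⟩ := exists_NS
  obtain ⟨D, r, hr⟩ := exists_family X h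
  exact main_of_fam S X r hr

end H64DN
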