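import Pool.Agent.Helper64.DN.Inv

/-!
DN-21 (Grow): `(4d)` of the proof.

For `n ≥ N` let `F n = {e : Fin N ↪ ℕ | e j = 0 ∧ ∀ x, e x < n}` (finite set),
`A n = {z ∈ Y ℕ | ∀ e ∈ F n, pull e z ∈ closure O}`, `V n = {z | ∀ e ∈ F n, pull e z ∈ O}` (open),
`D n = connectedComponentIn (A n) z₀` with `z₀ ∈ cs S 0`.
* `cs S 0 ⊆ V n ∩ Y ℕ ⊆ A n` (`pull e '' cs S 0 = cs S j ⊆ O`), so `cs S 0 ⊆ D n`.
* `D n ⊄ V n` by `bump` (`Y ℕ ⊄ V n`: there is `y ∈ Y ℕ` with `pull e y = a ∉ closure O`, `S.image_pull`).  So there are `z ∈ D n`, `e ∈ F n` with `pull e z ∉ O`.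
* `D n` is `Inv {x | x ≠ 0 ∧ x < n}`: for `a, b` in this set, `e ↦ e.trans (swap a b)` maps `F n` to `F n`, so `pull (swap a b)` maps `A n` to itself and
  fixes `cs S 0` as a set, so it maps the component `D n` to itself (the image is connected, inside `A n`, meets `cs S 0 ⊆ D n`).
  With `pull_eq_of_inv`: for any `e, e' ∈ F n`, `pull e '' D n = pull e' '' D n`.  Fix `e₀ ∈ F N`; so `{z ∈ D n | pull e₀ z ∉ O}` is nonempty, for all `n ≥ N`.
* `D n` is decreasing in `n` (`A (n+1) ⊆ A n`), closed (`component_closed`).  `D = ⋂ n ≥ N, D n` is closed, connected (`preconnected_iInter`),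
  contains `cs S 0`, is `Inv {x ≠ 0}` (for `a, b` use `n > a, b`), `pull e '' D ⊆ closure O` for all `e` with `e j = 0`, and by compactness contains `z` with
  `pull e₀ z ∉ O`; by `natK_pull` the same for all `e` with `e j = 0`.
-/

set_option autoImplicit false

namespace H64DN

open Set Topology

variable {k : ℕ → ℕ} (S : NS k)

private def growF {N : ℕ} (j : Fin N) (n : ℕ) : Set (Fin N ↪ ℕ) :=
  {e | e j = 0 ∧ ∀ x, e x < n}

private theorem growF_mono {N : ℕ} (j : Fin N) {n n' : ℕ} (h : n ≤ n') :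
    growF j n ⊆ growF j n' := fun _ he => ⟨he.1, fun x => lt_of_lt_of_le (he.2 x) h⟩

private theorem growF_finite {N : ℕ} (j : Fin N) (n : ℕ) : (growF j n).Finite := by
  have h1 : (Set.univ : Set (Fin N → Fin n)).Finite := Set.toFinite _
  have h2 : ((fun f : Fin N → Fin n => fun x => (f x : ℕ)) '' Set.univ).Finite := h1.image _
  refine Set.Finite.of_finite_image (f := fun e : Fin N ↪ ℕ => (e : Fin N → ℕ)) (h2.subset ?_)
    (fun a _ b _ hab => DFunLike.coe_injective hab)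
  rintro _ ⟨e, he, rfl⟩
  exact ⟨fun x => ⟨e x, he.2 x⟩, mem_univ _, rfl⟩

private def growA {N : ℕ} (j : Fin N) (O : Set (E k (Fin N))) (n : ℕ) : Set (E k ℕ) :=
  {z | z ∈ S.Y ℕ ∧ ∀ e ∈ growF j n, pull e z ∈ closure O}

private def growV {N : ℕ} (j : Fin N) (O : Set (E k (Fin N))) (n : ℕ) : Set (E k ℕ) :=
  {z | ∀ e ∈ growF j n, pull e z ∈ O}

private theorem growA_closed {N : ℕ} (j : Fin N) (O : Set (E k (Fin N))) (n : ℕ) :
    IsClosed (growA S j O n) := by
  have h : growA S j O n = S.Y ℕ ∩ ⋂ e ∈ growF j n, (pull e : E k ℕ → E k (Fin N)) ⁻¹' closure O := by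
    ext z
    simp only [growA, Set.mem_ofPred_eq, Set.mem_inter_iff, Set.mem_iInter, Set.mem_preimage]
  rw [h]
  refine (S.closed ℕ).inter (isClosed_biInter fun e _ => ?_)
  exact isClosed_closure.preimage (pull_continuous e)

private theorem growV_open {N : ℕ} (j : Fin N) (O : Set (E k (Fin N))) (hO : IsOpen O) (n : ℕ) :
    IsOpen (growV (k := k) j O n) := by
  have h : growV (k := k) j O n = ⋂ e ∈ growF j n, (pull e : E k ℕ → E k (Fin N)) ⁻¹' O := by
    ext z
    simp only [growV, Set.mem_ofPred_eq, Set.mem_iInter, Set.mem_preimage]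
  rw [h]
  exact (growF_finite j n).isOpen_biInter fun e _ => hO.preimage (pull_continuous e)

private theorem grow_cs_pull {N : ℕ} (j : Fin N) (e : Fin N ↪ ℕ) (he : e j = 0) (z : E k ℕ)
    (hz : z ∈ cs S (0 : ℕ)) : pull e z ∈ cs S j := by
  have h := pull_cs S e j
  rw [he] at h
  rw [← h]
  exact ⟨z, hz, rfl⟩

private theorem growV_sub {N : ℕ} (j : Fin N) (O : Set (E k (Fin N))) (n : ℕ) :
    S.Y ℕ ∩ growV j O n ⊆ growA S j O n := fun _ hz => ⟨hz.1, fun e he => subset_closure (hz.2 e he)⟩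

private theorem grow_cs_V {N : ℕ} (j : Fin N) (O : Set (E k (Fin N))) (hcs : cs S j ⊆ O) (n : ℕ) :
    cs S (0 : ℕ) ⊆ growV j O n := fun z hz e he => hcs (grow_cs_pull S j e he.1 z hz)

private theorem grow_cs_A {N : ℕ} (j : Fin N) (O : Set (E k (Fin N))) (hcs : cs S j ⊆ O) (n : ℕ) :
    cs S (0 : ℕ) ⊆ growA S j O n := fun _ hz =>
  growV_sub S j O n ⟨cs_subset S 0 hz, grow_cs_V S j O hcs n hz⟩

private theorem growA_anti {N : ℕ} (j : Fin N) (O : Set (E k (Fin N))) {n n' : ℕ} (h : n ≤ n') :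
    growA S j O n' ⊆ growA S j O n := fun _ hz =>
  ⟨hz.1, fun e he => hz.2 e (growF_mono j h he)⟩

private theorem growD_anti {N : ℕ} (j : Fin N) (O : Set (E k (Fin N))) (z₀ : E k ℕ) {n n' : ℕ}
    (h : n ≤ n') :
    connectedComponentIn (growA S j O n') z₀ ⊆ connectedComponentIn (growA S j O n) z₀ :=
  connectedComponentIn_mono z₀ (growA_anti S j O h)

private theorem growA_swap {N : ℕ} (j : Fin N) (O : Set (E k (Fin N))) (n : ℕ) (a b : ℕ)
    (ha : a ≠ 0 ∧ a < n) (hb : b ≠ 0 ∧ b < n) (z : E k ℕ) (hz : z ∈ growA S j O n) :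
    pull (Equiv.swap a b).toEmbedding z ∈ growA S j O n := by
  refine ⟨?_, fun e he => ?_⟩
  · rw [← S.image_pull (Equiv.swap a b).toEmbedding]
    exact ⟨z, hz.1, rfl⟩
  · refine hz.2 (e.trans (Equiv.swap a b).toEmbedding) ⟨?_, fun x => ?_⟩
    · change Equiv.swap a b (e j) = 0
      rw [he.1]
      exact Equiv.swap_apply_of_ne_of_ne (Ne.symm ha.1) (Ne.symm hb.1)
    · change Equiv.swap a b (e x) < n
      rw [Equiv.swap_apply_def]
      split_ifs
      · exact hb.2
      · exact ha.2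
      · exact he.2 x

private theorem grow_swap_inst (a b : ℕ) (i1 i2 : DecidableEq ℕ) :
    @Equiv.swap ℕ i1 a b = @Equiv.swap ℕ i2 a b := by
  have h : i1 = i2 := Subsingleton.elim _ _
  subst h
  rfl

private theorem growD_inv {N : ℕ} (j : Fin N) (O : Set (E k (Fin N))) (hcs : cs S j ⊆ O) (n : ℕ)
    (z₀ : E k ℕ) (hz₀ : z₀ ∈ cs S (0 : ℕ)) :
    Inv {x : ℕ | x ≠ 0 ∧ x < n} (connectedComponentIn (growA S j O n) z₀) := by
  intro a ha b hb z hz
  have hinst := grow_swap_inst a b (fun a b => Classical.propDecidable (a = b)) instDecidableEqNat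
  rw [hinst]
  have hA0 : z₀ ∈ growA S j O n := grow_cs_A S j O hcs n hz₀
  have h1 : pull (Equiv.swap a b).toEmbedding z₀ ∈ cs S (0 : ℕ) := by
    rw [← hinst]
    exact inv_cs S (0 : ℕ) a ha.1 b hb.1 z₀ hz₀
  have h2 : cs S (0 : ℕ) ⊆ connectedComponentIn (growA S j O n) z₀ :=
    (cs_connected S (0 : ℕ)).isPreconnected.subset_connectedComponentIn hz₀
      (grow_cs_A S j O hcs n)
  have h3 : IsPreconnected (pull (Equiv.swap a b).toEmbedding ''
      connectedComponentIn (growA S j O n) z₀) :=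
    isPreconnected_connectedComponentIn.image _ (pull_continuous _).continuousOn
  have h4 : pull (Equiv.swap a b).toEmbedding '' connectedComponentIn (growA S j O n) z₀ ⊆
      growA S j O n := by
    rintro _ ⟨w, hw, rfl⟩
    exact growA_swap S j O n a b ha hb w (connectedComponentIn_subset _ _ hw)
  have h5 : pull (Equiv.swap a b).toEmbedding z₀ ∈
      pull (Equiv.swap a b).toEmbedding '' connectedComponentIn (growA S j O n) z₀ :=
    ⟨z₀, mem_connectedComponentIn hA0, rfl⟩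
  have h6 := h3.subset_connectedComponentIn h5 h4
  rw [← connectedComponentIn_eq (h2 h1)] at h6
  exact h6 ⟨z, hz, rfl⟩

private theorem growD_pull {N : ℕ} (j : Fin N) (O : Set (E k (Fin N))) (hcs : cs S j ⊆ O) (n : ℕ)
    (z₀ : E k ℕ) (hz₀ : z₀ ∈ cs S (0 : ℕ)) (e e' : Fin N ↪ ℕ) (he : e ∈ growF j n)
    (he' : e' ∈ growF j n) :
    pull e '' connectedComponentIn (growA S j O n) z₀ =
      pull e' '' connectedComponentIn (growA S j O n) z₀ := by
  refine pull_eq_of_inv {x : ℕ | x ≠ 0 ∧ x < n} _ (growD_inv S j O hcs n z₀ hz₀) e e' (fun a => ?_)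
  by_cases ha : a = j
  · left
    rw [ha, he.1, he'.1]
  · right
    refine ⟨⟨fun h => ha ?_, he.2 a⟩, ⟨fun h => ha ?_, he'.2 a⟩⟩
    · exact e.injective (h.trans he.1.symm)
    · exact e'.injective (h.trans he'.1.symm)

theorem grow (N : ℕ) (j : Fin N) (O : Set (E k (Fin N))) (hO : IsOpen O) (hcs : cs S j ⊆ O)
    (a : E k (Fin N)) (ha : a ∈ S.Y (Fin N)) (haO : a ∉ closure O) :
    ∃ D, NatK S D ∧ ∀ e : Fin N ↪ ℕ, e j = 0 →
      pull e '' D ⊆ closure O ∧ ¬ pull e '' D ⊆ O := by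
  classical
  obtain ⟨z₀, hz₀⟩ := (cs_connected S (0 : ℕ)).nonempty
  have hN : 0 < N := lt_of_le_of_lt (Nat.zero_le _) j.2
  set e₀ : Fin N ↪ ℕ :=
    (Equiv.swap (⟨0, hN⟩ : Fin N) j).toEmbedding.trans Fin.valEmbedding with he₀
  have he₀j : e₀ j = 0 := by
    change ((Equiv.swap (⟨0, hN⟩ : Fin N) j j : Fin N) : ℕ) = 0
    rw [Equiv.swap_apply_right]
  have he₀F : ∀ n, N ≤ n → e₀ ∈ growF j n := fun n hn =>
    ⟨he₀j, fun x => lt_of_lt_of_le (Equiv.swap (⟨0, hN⟩ : Fin N) j x).2 hn⟩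
  -- the components
  set Dn : ℕ → Set (E k ℕ) := fun n => connectedComponentIn (growA S j O n) z₀ with hDn
  have hDcs : ∀ n, cs S (0 : ℕ) ⊆ Dn n := fun n =>
    (cs_connected S (0 : ℕ)).isPreconnected.subset_connectedComponentIn hz₀
      (grow_cs_A S j O hcs n)
  have hDcl : ∀ n, IsClosed (Dn n) := fun n => component_closed (growA_closed S j O n) z₀
  have hDanti : ∀ n n', n ≤ n' → Dn n' ⊆ Dn n := fun n n' h => growD_anti S j O z₀ h
  have hDA : ∀ n, Dn n ⊆ growA S j O n := fun n => connectedComponentIn_subset _ _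
  -- nonempty
  have hbump : ∀ n, N ≤ n → ∃ z ∈ Dn n, pull e₀ z ∉ O := by
    intro n hn
    have ha' : a ∈ pull e₀ '' S.Y ℕ := by
      rw [S.image_pull e₀]
      exact ha
    obtain ⟨y, hy, hya⟩ := ha'
    have h1 : ¬ Dn n ⊆ growV j O n := by
      refine bump (S.closed ℕ) (S.conn ℕ).isPreconnected (growA_closed S j O n)
        (fun z hz => hz.1) (growV_open j O hO n) (growV_sub S j O n)
        ⟨cs_subset S 0 hz₀, grow_cs_V S j O hcs n hz₀⟩ hy ?_
      intro hyV
      have h2 := hyV e₀ (he₀F n hn)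
      rw [hya] at h2
      exact haO (subset_closure h2)
    rw [Set.not_subset] at h1
    obtain ⟨z, hz, hzV⟩ := h1
    have h3 : ∃ e ∈ growF j n, pull e z ∉ O := by
      by_contra hcon
      push Not at hcon
      exact hzV hcon
    obtain ⟨e, he, hez⟩ := h3
    have h4 : pull e z ∈ pull e₀ '' Dn n := by
      rw [← growD_pull S j O hcs n z₀ hz₀ e e₀ he (he₀F n hn)]
      exact ⟨z, hz, rfl⟩
    obtain ⟨z', hz', hzz⟩ := h4
    refine ⟨z', hz', ?_⟩
    rw [hzz]
    exact hez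
  -- the intersection
  have hDcl' : IsClosed (⋂ n, Dn n) := isClosed_iInter hDcl
  have hNat : NatK S (⋂ n, Dn n) := by
    refine ⟨hDcl', ?_, ?_, ?_, ?_⟩
    · exact preconnected_iInter Dn hDcl (fun n => isPreconnected_connectedComponentIn)
        (fun i l => ⟨max i l, hDanti _ _ (le_max_left _ _), hDanti _ _ (le_max_right _ _)⟩)
    · intro z hz
      exact (hDA 0 (mem_iInter.1 hz 0)).1
    · exact subset_iInter hDcs
    · intro x hx y hy z hz
      rw [mem_iInter] at hz ⊢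
      intro n
      have h1 : n ≤ n + x + y + 1 := by omega
      refine hDanti n (n + x + y + 1) h1 ?_
      exact growD_inv S j O hcs (n + x + y + 1) z₀ hz₀ x ⟨hx, by omega⟩ y ⟨hy, by omega⟩ z (hz _)
  have hex : ∃ z ∈ ⋂ n, Dn n, pull e₀ z ∉ O := by
    have h1 : (⋂ n, Dn n ∩ (pull e₀ : E k ℕ → E k (Fin N)) ⁻¹' Oᶜ).Nonempty := by
      refine IsCompact.nonempty_iInter_of_sequence_nonempty_isCompact_isClosed _ ?_ ?_ ?_ ?_
      · intro n z hz
        exact ⟨hDanti n (n + 1) (by omega) hz.1, hz.2⟩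
      · intro n
        obtain ⟨z, hz, hzO⟩ := hbump (n + N) (by omega)
        exact ⟨z, hDanti n (n + N) (by omega) hz, hzO⟩
      · exact ((hDcl 0).inter (hO.isClosed_compl.preimage (pull_continuous e₀))).isCompact
      · exact fun n => (hDcl n).inter (hO.isClosed_compl.preimage (pull_continuous e₀))
    obtain ⟨z, hz⟩ := h1
    rw [mem_iInter] at hz
    exact ⟨z, mem_iInter.2 fun n => (hz n).1, (hz 0).2⟩
  refine ⟨⋂ n, Dn n, hNat, fun e he => ⟨?_, ?_⟩⟩
  · rintro _ ⟨z, hz, rfl⟩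
    have h1 : e ∈ growF j (Finset.univ.sup (fun x => e x) + 1) := by
      refine ⟨he, fun x => Nat.lt_succ_of_le ?_⟩
      exact Finset.le_sup (f := fun x => e x) (Finset.mem_univ x)
    exact (hDA _ (mem_iInter.1 hz _)).2 e h1
  · rw [natK_pull S _ hNat j e e₀ he he₀j]
    intro hcon
    obtain ⟨z, hz, hzO⟩ := hex
    exact hzO (hcon ⟨z, hz, rfl⟩)

end H64DN
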