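import Pool.Agent.Helper64.DN.Sep
import Pool.Agent.Helper64.DN.Inf

/-!
DN-23 (HIm): `(4f)`, `(4g)` of the proof.

* `natK_chain`: let `a ∈ G`, `a ∉ G'`, `b ∈ G'`, `b ∉ G`.  `sep_nat` gives `N₁ ≥ 1` such that for `e₀ = Fin.valEmbedding : Fin N₁ ↪ ℕ` the point
  `pull e₀ a ∉ pull e₀ '' G'`, `pull e₀ b ∉ pull e₀ '' G`; the same holds for `N = N₁ + 1`, `e = Fin.valEmbedding`.  `K₁ = pull e '' G`, `K₂ = pull e '' G'` contain
  `cs S (0 : Fin N)` (`natK_restrict`).  `h1`: `C1` and: `K₁ ⊆ cs S i` is impossible (for `i ≠ 0` by `cs_disj` as `cs S 0 ⊆ K₁` is nonempty; for `i = 0`, `K₁ = cs S 0 ⊆ K₂`,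
  but `pull e a ∈ K₁`, `∉ K₂`).  Uniqueness: if `i ≠ 0`, `cs S i ⊆ K₁`: let `ψ : Fin N₁ ↪ Fin N` with range `{x ≠ i}` and `ψ 0 = 0` (`Fin.succAbove i`, as `i ≠ 0`);
  `pull ψ '' cs S i = Y (Fin N₁)` (`pull_cs_off`), so `pull (ψ.trans e) '' G = Y (Fin N₁)`, and `pull (ψ.trans e) '' G = pull e₀ '' G` by `natK_pull` (both send `0` to `0`),
  but `pull e₀ b ∈ Y (Fin N₁)` is not in it.
* `hi_fin`: induction on `N`.  `N = 0`: `E k (Fin 0)` has one element (`Coord k (Fin 0)` is empty since `1 ≤ k m`).  `N + 1`: suppose `K₁`, `K₂` meet, neither is inside the other.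
  If `K₁ ⊆ cs S i`: by `C1` for `K₂`: either `cs S i ⊆ K₂` (so `K₁ ⊆ K₂`) or `K₂ ⊆ cs S i`; in the latter case use the induction hypothesis for the images
  under `pull ψ`, `ψ = (Fin.succAboveEmb i)`, and `cs_inj` (a coordinate `c` with `i ∉ range c.2` factors through `ψ`): comparable.  Same for `K₂ ⊆ cs S i`.
  Otherwise `C1` gives the hypotheses `h1`, `h2` of `sep_core`; `natK_chain`.
* `hi_all`: `a ∈ A \ B`, `b ∈ B \ A`; `sep_finite`, `sep_of_trans`, `exists_common`-like choice of a common `f : Fin M ↪ L`; `hi_fin` for the images under `pull f`.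
  (`exists_common` is in `Inf.lean`; import it.)
-/

set_option autoImplicit false

namespace H64DN

open Set Topology

variable {k : ℕ → ℕ} (S : NS k)

theorem natK_chain_h1 (N : ℕ) (K₁ K₂ : Set (E k (Fin (N + 1)))) (hK₁ : K₁ ⊆ S.Y (Fin (N + 1)))
    (hc₁ : IsClosed K₁) (hp₁ : IsConnected K₁) (h01 : cs S (0 : Fin (N + 1)) ⊆ K₁)
    (h02 : cs S (0 : Fin (N + 1)) ⊆ K₂) (a : E k (Fin (N + 1))) (ha : a ∈ K₁) (ha' : a ∉ K₂)
    (i : Fin (N + 1)) : cs S i ⊆ K₁ ∨ Disjoint (cs S i) K₁ := by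
  by_cases hd : Disjoint (cs S i) K₁
  · exact Or.inr hd
  · left
    have hm : (K₁ ∩ cs S i).Nonempty := by
      rw [Set.inter_comm]
      exact Set.not_disjoint_iff_nonempty_inter.1 hd
    rcases C1 S (N + 1) i K₁ hK₁ hc₁ hp₁ hm with h | h
    · exfalso
      by_cases hi : i = 0
      · subst hi
        exact ha' (h02 (h ha))
      · obtain ⟨x, hx⟩ := (cs_connected S (0 : Fin (N + 1))).nonempty
        exact Set.disjoint_left.1 (cs_disj S (0 : Fin (N + 1)) i (Ne.symm hi)) hx (h (h01 hx))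
    · exact h

theorem natK_chain_uniq (n : ℕ) (G : Set (E k ℕ)) (hG : NatK S G) (b : E k ℕ)
    (hb : b ∈ S.Y ℕ) (hb' : pull (Fin.valEmbedding : Fin (n + 1) ↪ ℕ) b ∉
      pull (Fin.valEmbedding : Fin (n + 1) ↪ ℕ) '' G) (i : Fin (n + 1 + 1))
    (hi : cs S i ⊆ pull (Fin.valEmbedding : Fin (n + 1 + 1) ↪ ℕ) '' G) : i = 0 := by
  by_contra hne
  apply hb'
  let ψ : Fin (n + 1) ↪ Fin (n + 1 + 1) := (Fin.succAboveEmb i)
  have hψ0 : ψ 0 = 0 := Fin.succAbove_ne_zero_zero hne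
  have hir : i ∉ range ψ := by
    rintro ⟨x, hx⟩
    exact Fin.succAbove_ne i x hx
  have e1 : pull ψ '' cs S i = S.Y (Fin (n + 1)) := pull_cs_off S ψ i hir
  have e2 : pull (ψ.trans (Fin.valEmbedding : Fin (n + 1 + 1) ↪ ℕ)) '' G =
      pull (Fin.valEmbedding : Fin (n + 1) ↪ ℕ) '' G := by
    apply natK_pull S G hG (0 : Fin (n + 1))
    · show ((ψ 0 : Fin (n + 1 + 1)) : ℕ) = 0
      rw [hψ0]
      rfl
    · rfl
  have h1 : pull (Fin.valEmbedding : Fin (n + 1) ↪ ℕ) b ∈ S.Y (Fin (n + 1)) := by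
    rw [← S.image_pull (Fin.valEmbedding : Fin (n + 1) ↪ ℕ)]
    exact ⟨b, hb, rfl⟩
  rw [← e1] at h1
  obtain ⟨w, hw, hwe⟩ := h1
  obtain ⟨g, hg, rfl⟩ := hi hw
  rw [← hwe, ← e2]
  exact ⟨g, hg, rfl⟩

theorem natK_chain (G G' : Set (E k ℕ)) (hG : NatK S G) (hG' : NatK S G') :
    G ⊆ G' ∨ G' ⊆ G := by
  by_contra hcon
  rw [not_or, Set.not_subset, Set.not_subset] at hcon
  obtain ⟨⟨a, haG, haG'⟩, b, hbG', hbG⟩ := hcon
  obtain ⟨Na, hNa⟩ := sep_nat G' hG'.1 a haG'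
  obtain ⟨Nb, hNb⟩ := sep_nat G hG.1 b hbG
  let n : ℕ := max Na Nb
  have hna : Na ≤ n := le_max_left _ _
  have hnb : Nb ≤ n := le_max_right _ _
  have a0 := hNa (n + 1) (by omega)
  have b0 := hNb (n + 1) (by omega)
  have a1 := hNa (n + 1 + 1) (by omega)
  have b1 := hNb (n + 1 + 1) (by omega)
  obtain ⟨c1, p1, y1, z1⟩ := natK_restrict S G hG (0 : Fin (n + 1 + 1))
    (Fin.valEmbedding : Fin (n + 1 + 1) ↪ ℕ) rfl
  obtain ⟨c2, p2, y2, z2⟩ := natK_restrict S G' hG' (0 : Fin (n + 1 + 1))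
    (Fin.valEmbedding : Fin (n + 1 + 1) ↪ ℕ) rfl
  refine sep_core S (n + 1 + 1) (by omega) (pull (Fin.valEmbedding : Fin (n + 1 + 1) ↪ ℕ) '' G)
    (pull (Fin.valEmbedding : Fin (n + 1 + 1) ↪ ℕ) '' G') y1 y2 c1 c2 p1 p2 ?_
    (pull Fin.valEmbedding a) (pull Fin.valEmbedding b) ⟨a, haG, rfl⟩ a1 ⟨b, hbG', rfl⟩ b1
    ?_ ?_ ?_
  · obtain ⟨x, hx⟩ := (cs_connected S (0 : Fin (n + 1 + 1))).nonempty
    exact ⟨x, z1 hx, z2 hx⟩
  · intro i
    exact natK_chain_h1 S (n + 1) _ _ y1 c1 p1 z1 z2 _ ⟨a, haG, rfl⟩ a1 i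
  · intro i
    exact natK_chain_h1 S (n + 1) _ _ y2 c2 p2 z2 z1 _ ⟨b, hbG', rfl⟩ b1 i
  · right
    intro i i' hi hi'
    have h1 := natK_chain_uniq S n G hG b (hG'.2.2.1 hbG') b0 i (fun x hx => (hi hx).1)
    have h2 := natK_chain_uniq S n G hG b (hG'.2.2.1 hbG') b0 i' (fun x hx => (hi' hx).1)
    rw [h1, h2]

end H64DN
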