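import Pool.Agent.Helper64.DN.HIma

/-!
DN-23 (HIm): `(4f)`, `(4g)` of the proof.

* `natK_chain`: let `a ∈ G`, `a ∉ G'`, `b ∈ G'`, `b ∉ G`.  `sep_nat` gives `N₁ ≥ 1` such that for `e₀ = Fin.valEmbedding : Fin N₁ ↪ ℕ` the point
  `pull e₀ a ∉ pull e₀ '' G'`, `pull e₀ b ∉ pull e₀ '' G`; the same holds for `N = N₁ + 1`, `e = Fin.valEmbedding`.  `K₁ = pull e '' G`, `K₂ = pull e '' G'` contain
  `cs S (0 : Fin N)` (`natK_restrict`).  `h1`: `C1` and: `K₁ ⊆ cs S i` is impossible (for `i ≠ 0` by `cs_disj` as `cs S 0 ⊆ K₁` is nonempty; for `i = 0`, `K₁ = cs S 0 ⊆ K₂`,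
  but `pull e a ∈ K₁`, `∉ K₂`).  Uniqueness: if `i ≠ 0`, `cs S i ⊆ K₁`: let `ψ : Fin N₁ ↪ Fin N` with range `{x ≠ i}` and `ψ 0 = 0` (`Fin.succAbove i`, as `i ≠ 0`);
  `pull ψ '' cs S i = Y (Fin N₁)` (`pull_cs_off`), so `pull (ψ.trans e) '' G = Y (Fin N₁)`, and `pull (ψ.trans e) '' G = pull e₀ '' G` by `natK_pull` (both send `0` to `0`),
  but `pull e₀ b ∈ Y (Fin N₁)` is not in it.
* `hi_fin`: induction on `N`.  `N = 0`: `E k (Fin 0)` has one element (`Coord k (Fin 0)` is empty since `1 ≤ k m`).  `N + 1`: suppose `K₁`, `K₂` meet, neither is inside the other.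
  If `K₁ ⊆ cs S i`: by `C1` for `K₂`: either `cs S i ⊆ K₂` (so `K₁ ⊆ K₂`) or `K₂ ⊆ cs S i`; in the latter case use the induction hypothesis for the images
  under `pull ψ`, `ψ = (Fin.succAboveEmb i)`, and `cs_inj` (a coordinate `c` with `i ∉ range c.2` factors through `ψ`): comparable.  Same for `K₂ ⊆ cs S i`.
  Otherwise `C1` gives the hypotheses `h1`, `h2` of `sep_core`; `natK_chain`.
* `hi_all`: `a ∈ A \ B`, `b ∈ B \ A`; `sep_finite`, `sep_of_trans`, `exists_common`-like choice of a common `f : Fin M ↪ L`; `hi_fin` for the images under `pull f`.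
  (`exists_common` is in `Inf.lean`; import it.)
-/

set_option autoImplicit false

namespace H64DN

open Set Topology

variable {k : ℕ → ℕ} (S : NS k)

theorem hi_image {A B : Type} (φ : A ↪ B) (K : Set (E k B)) (hK : K ⊆ S.Y B) (hc : IsClosed K)
    (hp : IsConnected K) :
    pull φ '' K ⊆ S.Y A ∧ IsClosed (pull φ '' K) ∧ IsConnected (pull φ '' K) := by
  refine ⟨?_, ?_, ?_⟩
  · rw [← S.image_pull φ]
    exact image_mono hK
  · exact (hc.isCompact.image (pull_continuous φ)).isClosed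
  · exact hp.image _ (pull_continuous φ).continuousOn

theorem cs_inj_pull {N : ℕ} (i : Fin (N + 1)) (x y : E k (Fin (N + 1))) (hx : x ∈ cs S i)
    (hy : y ∈ cs S i) (h : pull (Fin.succAboveEmb i) x = pull (Fin.succAboveEmb i) y) : x = y := by
  apply cs_inj S i x y hx hy
  rintro ⟨m, e⟩ hi
  have hex : ∀ j, ∃ t, i.succAbove t = e j := fun j =>
    Fin.exists_succAbove_eq (fun hj => hi ⟨j, hj⟩)
  choose t ht using hex
  have htinj : Function.Injective t := by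
    intro a b hab
    apply e.injective
    rw [← ht a, ← ht b, hab]
  have he : e = (⟨t, htinj⟩ : Fin (k m) ↪ Fin N).trans (Fin.succAboveEmb i) := by
    ext j
    rw [← ht j]
    rfl
  have h1 := congrFun h ⟨m, ⟨t, htinj⟩⟩
  have h2 : x ⟨m, (⟨t, htinj⟩ : Fin (k m) ↪ Fin N).trans (Fin.succAboveEmb i)⟩ =
      y ⟨m, (⟨t, htinj⟩ : Fin (k m) ↪ Fin N).trans (Fin.succAboveEmb i)⟩ := h1
  rw [he]
  exact h2

theorem hi_sub {N : ℕ} (ih : HI (S.Y (Fin N))) (i : Fin (N + 1)) (K₁ K₂ : Set (E k (Fin (N + 1))))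
    (hK₁ : K₁ ⊆ S.Y (Fin (N + 1))) (hK₂ : K₂ ⊆ S.Y (Fin (N + 1))) (hc₁ : IsClosed K₁)
    (hp₁ : IsConnected K₁) (hc₂ : IsClosed K₂) (hp₂ : IsConnected K₂)
    (hm : (K₁ ∩ K₂).Nonempty) (hs : K₁ ⊆ cs S i) : K₁ ⊆ K₂ ∨ K₂ ⊆ K₁ := by
  obtain ⟨p, hp1, hp2⟩ := hm
  rcases C1 S (N + 1) i K₂ hK₂ hc₂ hp₂ ⟨p, hp2, hs hp1⟩ with h | h
  · obtain ⟨a1, a2, a3⟩ := hi_image S (Fin.succAboveEmb i) K₁ hK₁ hc₁ hp₁
    obtain ⟨b1, b2, b3⟩ := hi_image S (Fin.succAboveEmb i) K₂ hK₂ hc₂ hp₂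
    rcases ih _ _ a1 b1 a2 a3 b2 b3
      ⟨pull (Fin.succAboveEmb i) p, ⟨p, hp1, rfl⟩, ⟨p, hp2, rfl⟩⟩ with hh | hh
    · left
      intro x hx
      obtain ⟨y, hy, hxy⟩ := hh ⟨x, hx, rfl⟩
      rw [← cs_inj_pull S i y x (h hy) (hs hx) hxy]
      exact hy
    · right
      intro x hx
      obtain ⟨y, hy, hxy⟩ := hh ⟨x, hx, rfl⟩
      rw [← cs_inj_pull S i y x (hs hy) (h hx) hxy]
      exact hy
  · exact Or.inl (hs.trans h)

theorem hi_fin (N : ℕ) : HI (S.Y (Fin N)) := by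
  induction N with
  | zero =>
    intro A B _ _ _ _ _ _ hm
    obtain ⟨p, hp1, hp2⟩ := hm
    left
    intro x _
    have hxp : x = p := by
      funext c
      exact (c.2 ⟨0, S.hk c.1⟩).elim0
    rw [hxp]
    exact hp2
  | succ N ih =>
    intro A B hA hB hcA hpA hcB hpB hm
    by_contra hcon
    rw [not_or] at hcon
    obtain ⟨hAB, hBA⟩ := hcon
    obtain ⟨a, haA, haB⟩ := not_subset.1 hAB
    obtain ⟨b, hbB, hbA⟩ := not_subset.1 hBA
    refine sep_core S (N + 1) (by omega) A B hA hB hcA hcB hpA hpB hm a b haA haB hbB hbA ?_ ?_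
      (Or.inl (natK_chain S))
    · intro i
      by_cases hd : Disjoint (cs S i) A
      · exact Or.inr hd
      · left
        rw [not_disjoint_iff] at hd
        obtain ⟨x, hx1, hx2⟩ := hd
        rcases C1 S (N + 1) i A hA hcA hpA ⟨x, hx2, hx1⟩ with h | h
        · exfalso
          rcases hi_sub S ih i A B hA hB hcA hpA hcB hpB hm h with h' | h'
          · exact hAB h'
          · exact hBA h'
        · exact h
    · intro i
      by_cases hd : Disjoint (cs S i) B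
      · exact Or.inr hd
      · left
        rw [not_disjoint_iff] at hd
        obtain ⟨x, hx1, hx2⟩ := hd
        rcases C1 S (N + 1) i B hB hcB hpB ⟨x, hx2, hx1⟩ with h | h
        · exfalso
          rcases hi_sub S ih i B A hB hA hcB hpB hcA hpA (by rwa [inter_comm]) h with h' | h'
          · exact hBA h'
          · exact hAB h'
        · exact h

theorem hi_all (L : Type) : HI (S.Y L) := by
  intro A B hA hB hcA hpA hcB hpB hm
  by_contra hcon
  rw [not_or] at hcon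
  obtain ⟨hAB, hBA⟩ := hcon
  obtain ⟨a, haA, haB⟩ := not_subset.1 hAB
  obtain ⟨b, hbB, hbA⟩ := not_subset.1 hBA
  obtain ⟨N, e, he⟩ := sep_finite B hcB a haB
  obtain ⟨N', e', he'⟩ := sep_finite A hcA b hbA
  obtain ⟨M, f, φ, φ', h1, h2⟩ := exists_common e e'
  have g1 := sep_of_trans B a e φ f h1 he
  have g2 := sep_of_trans A b e' φ' f h2 he'
  obtain ⟨a1, a2, a3⟩ := hi_image S f A hA hcA hpA
  obtain ⟨b1, b2, b3⟩ := hi_image S f B hB hcB hpB
  obtain ⟨p, hp1, hp2⟩ := hm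
  rcases hi_fin S M _ _ a1 b1 a2 a3 b2 b3 ⟨pull f p, ⟨p, hp1, rfl⟩, ⟨p, hp2, rfl⟩⟩ with h | h
  · exact g1 (h ⟨a, haA, rfl⟩)
  · exact g2 (h ⟨b, hbB, rfl⟩)

end H64DN
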