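import Pool.Agent.Helper64.DN.Tower

/-!
DN-10 (Inf): the continua `Yn P n L` over any set of letters.

For `e : Fin N ↪ L` let `C e = {z : E k L | pull e z ∈ Yf P n N}`.  `Yn P n L = ⋂ C e`.
* `exists_common`: finitely many (here two) finite injections into `L` factor through a common one (take the finite set
  `range e ∪ range e'`, `Finset.equivFin`).
* `C e ⊆ C e'` if `e' = φ.trans e` (`Yf_pull`), so the family is directed; `C e` is closed, connected (`conn_preimage`: the preimage of a
  connected set under `pull φ` is the image of `K × E k L` under `(w, z) ↦ (w on the coordinates coming from φ, z elsewhere)`), nonempty.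
  So `Yn P n L` is closed and connected (`preconnected_iInter`; nonempty by compactness).
* `Yn_fin`: `Yf_pull` for `e : Fin N ↪ Fin N'` and `e = id`.
* `Yn_pull`: `⊆` is clear.  `⊇`: `w ∈ Yn P n A`.  For `e : Fin N ↪ B` the closed set `D e = {z | pull e z ∈ Yf P n N, pull φ z = w}` is nonempty:
  let `e₁ : Fin N₁ ↪ A` enumerate `φ ⁻¹' range e` (a finite set), so there is `ψ : Fin N₁ ↪ Fin N` with `ψ.trans e = e₁.trans φ`; `pull e₁ w ∈ Yf P n N₁`, choose
  `v ∈ Yf P n N` with `pull ψ v = pull e₁ w` (`Yf_pull`) and glue `w` and `v` (`exists_glue` with `C = B`, `D = Fin N₁`).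
  The family `D e` is directed; compactness.
* `Yn_lift`: `z ∈ Yn P n L`; the closed sets `{z' | pull e z' ∈ Yf P (n+1) N, z' = z off rank n}` are nonempty (`Yf_lift` for `pull e z`, then
  change the rank `n` coordinates of `z` coming from `e`) and directed.
-/

set_option autoImplicit false

namespace H64DN

open Set Topology

variable {k : ℕ → ℕ}

theorem exists_common {L : Type} {N N' : ℕ} (e : Fin N ↪ L) (e' : Fin N' ↪ L) :
    ∃ (M : ℕ) (f : Fin M ↪ L) (φ : Fin N ↪ Fin M) (φ' : Fin N' ↪ Fin M),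
      φ.trans f = e ∧ φ'.trans f = e' := by
  classical
  let F : Finset L := Finset.univ.map e ∪ Finset.univ.map e'
  have h1 : ∀ i, e i ∈ F := fun i => by simp [F]
  have h2 : ∀ i, e' i ∈ F := fun i => by simp [F]
  refine ⟨F.card, F.equivFin.symm.toEmbedding.trans (Function.Embedding.subtype _),
    ⟨fun i => F.equivFin ⟨e i, h1 i⟩, ?_⟩, ⟨fun i => F.equivFin ⟨e' i, h2 i⟩, ?_⟩, ?_, ?_⟩
  · intro a b hab
    have h3 := F.equivFin.injective hab
    exact e.injective (Subtype.ext_iff.1 h3)
  · intro a b hab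
    have h3 := F.equivFin.injective hab
    exact e'.injective (Subtype.ext_iff.1 h3)
  · ext i
    simp
  · ext i
    simp

theorem conn_preimage {A B : Type} (φ : A ↪ B) (K : Set (E k A)) (hK : IsConnected K) :
    IsConnected ((pull φ : E k B → E k A) ⁻¹' K) := by
  classical
  let ι : Coord k A → Coord k B := fun c => ⟨c.1, c.2.trans φ⟩
  have hι : Function.Injective ι := by
    rintro ⟨m, e⟩ ⟨m', e'⟩ h
    simp only [ι, Sigma.mk.injEq] at h
    obtain ⟨h1, h2⟩ := h
    subst h1
    have h3 := eq_of_heq h2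
    congr 1
    ext i
    have h4 := congrArg (fun f : Fin (k m) ↪ B => f i) h3
    exact φ.injective h4
  let G : E k A × E k B → E k B := fun p c => if h : ∃ c', ι c' = c then p.1 h.choose else p.2 c
  have hG : Continuous G := by
    refine continuous_pi fun c => ?_
    by_cases h : ∃ c', ι c' = c
    · simp only [G, dif_pos h]
      exact (continuous_apply _).comp continuous_fst
    · simp only [G, dif_neg h]
      exact (continuous_apply _).comp continuous_snd
  have himg : (pull φ : E k B → E k A) ⁻¹' K = G '' (K ×ˢ univ) := by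
    ext z
    constructor
    · intro hz
      refine ⟨(pull φ z, z), ⟨hz, mem_univ _⟩, ?_⟩
      funext c
      by_cases h : ∃ c', ι c' = c
      · simp only [G, dif_pos h]
        have h1 : pull φ z h.choose = z (ι h.choose) := rfl
        rw [h1, h.choose_spec]
      · simp only [G, dif_neg h]
    · rintro ⟨⟨w, z'⟩, ⟨hw, _⟩, rfl⟩
      have h1 : pull φ (G (w, z')) = w := by
        funext c
        have h2 : pull φ (G (w, z')) c = G (w, z') (ι c) := rfl
        have h3 : ∃ c', ι c' = ι c := ⟨c, rfl⟩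
        rw [h2]
        simp only [G, dif_pos h3]
        rw [hι h3.choose_spec]
      change pull φ (G (w, z')) ∈ K
      rw [h1]
      exact hw
  rw [himg]
  exact (hK.prod isConnected_univ).image G hG.continuousOn

theorem Yn_eq_iInter (P : Prog k) (n : ℕ) (L : Type) :
    Yn P n L = ⋂ p : (Σ N : ℕ, (Fin N ↪ L)), (pull p.2 : E k L → E k (Fin p.1)) ⁻¹' Yf P n p.1 := by
  ext z
  simp only [Yn, mem_ofPred_eq, mem_iInter, mem_preimage, Sigma.forall]

theorem Yn_closed (P : Prog k) (n : ℕ) (h : ∀ m, 1 ≤ m → m < n → Tch P m) (L : Type) :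
    IsClosed (Yn P n L) := by
  rw [Yn_eq_iInter]
  exact isClosed_iInter fun p => (Yf_closed P n h p.1).preimage (pull_continuous p.2)

theorem Yn_directed (P : Prog k) (n : ℕ) (h : ∀ m, 1 ≤ m → m < n → Tch P m) (L : Type)
    (p q : Σ N : ℕ, (Fin N ↪ L)) : ∃ l : (Σ N : ℕ, (Fin N ↪ L)),
      (pull l.2 : E k L → E k (Fin l.1)) ⁻¹' Yf P n l.1 ⊆ (pull p.2 : E k L → E k (Fin p.1)) ⁻¹' Yf P n p.1 ∧
      (pull l.2 : E k L → E k (Fin l.1)) ⁻¹' Yf P n l.1 ⊆
        (pull q.2 : E k L → E k (Fin q.1)) ⁻¹' Yf P n q.1 := by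
  obtain ⟨N, e⟩ := p
  obtain ⟨N', e'⟩ := q
  obtain ⟨M, f, φ, φ', h1, h2⟩ := exists_common e e'
  refine ⟨⟨M, f⟩, ?_, ?_⟩
  · intro z hz
    have h3 : pull e z = pull φ (pull f z) := by rw [← h1]; rfl
    change pull e z ∈ Yf P n N
    rw [h3, ← Yf_pull P n h φ]
    exact ⟨_, hz, rfl⟩
  · intro z hz
    have h3 : pull e' z = pull φ' (pull f z) := by rw [← h2]; rfl
    change pull e' z ∈ Yf P n N'
    rw [h3, ← Yf_pull P n h φ']
    exact ⟨_, hz, rfl⟩

theorem Yn_connected (P : Prog k) (n : ℕ) (h : ∀ m, 1 ≤ m → m < n → Tch P m) (L : Type) :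
    IsConnected (Yn P n L) := by
  haveI : Nonempty (Σ N : ℕ, (Fin N ↪ L)) := ⟨⟨0, Function.Embedding.ofIsEmpty⟩⟩
  have hcl : ∀ p : (Σ N : ℕ, (Fin N ↪ L)),
      IsClosed ((pull p.2 : E k L → E k (Fin p.1)) ⁻¹' Yf P n p.1) :=
    fun p => (Yf_closed P n h p.1).preimage (pull_continuous p.2)
  have hco : ∀ p : (Σ N : ℕ, (Fin N ↪ L)),
      IsConnected ((pull p.2 : E k L → E k (Fin p.1)) ⁻¹' Yf P n p.1) :=
    fun p => conn_preimage p.2 _ (Yf_connected P n h p.1)
  rw [Yn_eq_iInter]
  refine ⟨?_, preconnected_iInter _ hcl (fun p => (hco p).isPreconnected) (Yn_directed P n h L)⟩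
  exact IsCompact.nonempty_iInter_of_directed_nonempty_isCompact_isClosed _
    (fun p q => by
      obtain ⟨l, h1, h2⟩ := Yn_directed P n h L p q
      exact ⟨l, h1, h2⟩)
    (fun p => (hco p).nonempty) (fun p => (hcl p).isCompact) hcl

end H64DN
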