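import Pool.Agent.Helper64.DN.Infa

/-!
DN-10 (Inf): the continua `Yn P n L` over any set of letters.

For `e : Fin N ↪ L` let `C e = {z : E k L | pull e z ∈ Yf P n N}`.  `Yn P n L = ⋂ C e`.
* `exists_common`: finitely many (here two) finite injections into `L` factor through a common one (take the finite set
  `range e ∪ range e'`, `Finset.equivFin`).
* `C e ⊆ C e'` if `e' = φ.trans e` (`Yf_pull`), so the family is directed; `C e` is closed, connected (`conn_preimage`: the preimage of a
  connected set under `pull φ` is the image of `K × E k L` under `(w, z) ↦ (w on the coordinates coming from φ, z elsewhere)`), nonempty.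
  So `Yn P n L` is closed and connected (`preconnected_iInter`; nonempty by compactness).
* `Yn_fin`: `Yf_pull` for `e : Fin N ↪ Fin N'` and `e = id`.
* `Yn_pull`: `⊆` is clear.  `⊇`: `w ∈ Yn P n A`.  For `e : Fin N ↪ B` the closed set `D e = {z | pull e z ∈ Yf P n N, pull φ z = w}` is nonempty:
  let `e₁ : Fin N₁ ↪ A` enumerate `φ ⁻¹' range e` (a finite set), so there is `ψ : Fin N₁ ↪ Fin N` with `ψ.trans e = e₁.trans φ`; `pull e₁ w ∈ Yf P n N₁`, choose
  `v ∈ Yf P n N` with `pull ψ v = pull e₁ w` (`Yf_pull`) and glue `w` and `v` (`exists_glue` with `C = B`, `D = Fin N₁`).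
  The family `D e` is directed; compactness.
* `Yn_lift`: `z ∈ Yn P n L`; the closed sets `{z' | pull e z' ∈ Yf P (n+1) N, z' = z off rank n}` are nonempty (`Yf_lift` for `pull e z`, then
  change the rank `n` coordinates of `z` coming from `e`) and directed.
-/

set_option autoImplicit false

namespace H64DN

open Set Topology

variable {k : ℕ → ℕ}

private theorem aux_pull_refl {N : ℕ} (z : E k (Fin N)) :
    pull (Function.Embedding.refl (Fin N)) z = z := by
  funext c
  rfl

private theorem aux_nonempty {L : Type} (D : (Σ N : ℕ, (Fin N ↪ L)) → Set (E k L))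
    (hc : ∀ e, IsClosed (D e)) (hn : ∀ e, (D e).Nonempty)
    (hd : ∀ {N N' : ℕ} (e : Fin N ↪ L) (f : Fin N' ↪ L) (χ : Fin N ↪ Fin N'), χ.trans f = e →
      D ⟨N', f⟩ ⊆ D ⟨N, e⟩) : (⋂ e, D e).Nonempty := by
  have : Nonempty (Σ N : ℕ, (Fin N ↪ L)) :=
    ⟨⟨0, ⟨fun i => i.elim0, fun i => i.elim0⟩⟩⟩
  refine IsCompact.nonempty_iInter_of_directed_nonempty_isCompact_isClosed D ?_ hn
    (fun e => (hc e).isCompact) hc
  rintro ⟨N, e⟩ ⟨N', e'⟩
  obtain ⟨M, f, χ, χ', h1, h2⟩ := exists_common e e'
  exact ⟨⟨M, f⟩, hd e f χ h1, hd e' f χ' h2⟩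

theorem Yn_fin (P : Prog k) (n : ℕ) (h : ∀ m, 1 ≤ m → m < n → Tch P m) (N : ℕ) :
    Yn P n (Fin N) = Yf P n N := by
  apply Set.Subset.antisymm
  · intro z hz
    have := hz N (Function.Embedding.refl (Fin N))
    rwa [aux_pull_refl] at this
  · intro z hz N' e
    rw [← Yf_pull P n h e]
    exact ⟨z, hz, rfl⟩

theorem Yn_pull (P : Prog k) (n : ℕ) (h : ∀ m, 1 ≤ m → m < n → Tch P m) {A B : Type}
    (φ : A ↪ B) : pull φ '' Yn P n B = Yn P n A := by
  apply Set.Subset.antisymm
  · rintro _ ⟨z, hz, rfl⟩ N e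
    exact hz N (e.trans φ)
  · intro w hw
    let D : (Σ N : ℕ, (Fin N ↪ B)) → Set (E k B) :=
      fun e => {z | pull e.2 z ∈ Yf P n e.1 ∧ pull φ z = w}
    have hne : (⋂ e, D e).Nonempty := by
      refine aux_nonempty D ?_ ?_ ?_
      · intro e
        exact ((Yf_closed P n h e.1).preimage (pull_continuous e.2)).inter
          (isClosed_eq (pull_continuous φ) continuous_const)
      · rintro ⟨N, e⟩
        classical
        have hfin : Finite {a : A // ∃ i, e i = φ a} := by
          refine Finite.of_injective (β := Fin N) (fun a => a.2.choose) ?_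
          intro a b hab
          apply Subtype.ext
          apply φ.injective
          have h1 := a.2.choose_spec
          have h2 := b.2.choose_spec
          have h3 : a.2.choose = b.2.choose := hab
          rw [← h1, ← h2, h3]
        obtain ⟨N₁, ⟨eq⟩⟩ := Finite.exists_equiv_fin {a : A // ∃ i, e i = φ a}
        let e₁ : Fin N₁ ↪ A :=
          ⟨fun i => (eq.symm i).1, fun i j hij => eq.symm.injective (Subtype.ext hij)⟩
        let ψ : Fin N₁ ↪ Fin N :=
          ⟨fun i => (eq.symm i).2.choose, fun i j hij => by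
            apply eq.symm.injective
            apply Subtype.ext
            apply φ.injective
            have h1 := (eq.symm i).2.choose_spec
            have h2 := (eq.symm j).2.choose_spec
            have h3 : (eq.symm i).2.choose = (eq.symm j).2.choose := hij
            rw [← h1, ← h2, h3]⟩
        have hψ : e₁.trans φ = ψ.trans e := by
          ext i
          exact (eq.symm i).2.choose_spec.symm
        have hD : ∀ a b, φ a = e b → ∃ d, e₁ d = a ∧ ψ d = b := by
          intro a b hab
          refine ⟨eq ⟨a, b, hab.symm⟩, ?_, ?_⟩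
          · show (eq.symm (eq ⟨a, b, hab.symm⟩)).1 = a
            rw [Equiv.symm_apply_apply]
          · apply e.injective
            have h1 := congrArg (fun f : Fin N₁ ↪ B => f (eq ⟨a, b, hab.symm⟩)) hψ
            have h2 : (e₁.trans φ) (eq ⟨a, b, hab.symm⟩) = φ a := by
              show φ (eq.symm (eq ⟨a, b, hab.symm⟩)).1 = φ a
              rw [Equiv.symm_apply_apply]
            have h3 : (ψ.trans e) (eq ⟨a, b, hab.symm⟩) = φ a := h1.symm.trans h2
            exact h3.trans hab
        have h4 : pull e₁ w ∈ pull ψ '' Yf P n N := by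
          rw [Yf_pull P n h ψ]
          exact hw N₁ e₁
        obtain ⟨v, hv, hvw⟩ := h4
        obtain ⟨z, hz1, hz2⟩ := exists_glue φ e e₁ ψ hψ hD w v hvw.symm
        refine ⟨z, ?_, hz1⟩
        show pull e z ∈ Yf P n N
        rw [hz2]
        exact hv
      · rintro N N' e f χ rfl z ⟨hz1, hz2⟩
        refine ⟨?_, hz2⟩
        show pull (χ.trans f) z ∈ Yf P n N
        rw [← pull_pull, ← Yf_pull P n h χ]
        exact ⟨_, hz1, rfl⟩
    obtain ⟨z, hz⟩ := hne
    rw [Set.mem_iInter] at hz
    refine ⟨z, fun N e => (hz ⟨N, e⟩).1, ?_⟩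
    exact (hz ⟨0, ⟨fun i => i.elim0, fun i => i.elim0⟩⟩).2

theorem Yn_pull_mem (P : Prog k) (n : ℕ) {A B : Type} (φ : A ↪ B) {z : E k B}
    (hz : z ∈ Yn P n B) : pull φ z ∈ Yn P n A := fun N e => hz N (e.trans φ)

theorem Yn_cylR (P : Prog k) (n : ℕ) (L : Type) : CylR n (Yn P n L) := by
  intro z hz w hw N e
  exact Yf_cylR P n N (pull e z) (hz N e) (pull e w) (fun c hc => hw _ hc)

theorem Yn_succ_subset (P : Prog k) (n : ℕ) (L : Type) : Yn P (n + 1) L ⊆ Yn P n L :=
  fun _ hz N e => Yf_succ_subset P n N (hz N e)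

theorem Yn_lift (P : Prog k) (n : ℕ) (h : ∀ m, 1 ≤ m → m < n + 1 → Tch P m) (L : Type)
    (z : E k L) (hz : z ∈ Yn P n L) :
    ∃ z' ∈ Yn P (n + 1) L, ∀ c : Coord k L, c.1 ≠ n → z' c = z c := by
  let D : (Σ N : ℕ, (Fin N ↪ L)) → Set (E k L) :=
    fun e => {z' | pull e.2 z' ∈ Yf P (n + 1) e.1 ∧ ∀ c : Coord k L, c.1 ≠ n → z' c = z c}
  have hne : (⋂ e, D e).Nonempty := by
    refine aux_nonempty D ?_ ?_ ?_
    · intro e
      have hcl : IsClosed {z' : E k L | ∀ c : Coord k L, c.1 ≠ n → z' c = z c} := by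
        have h1 : {z' : E k L | ∀ c : Coord k L, c.1 ≠ n → z' c = z c} =
            ⋂ (c : Coord k L) (_ : c.1 ≠ n), {z' : E k L | z' c = z c} := by
          ext z'
          simp only [Set.mem_iInter]
          rfl
        rw [h1]
        exact isClosed_iInter fun c => isClosed_iInter fun _ =>
          isClosed_eq (continuous_apply c) continuous_const
      exact ((Yf_closed P (n + 1) h e.1).preimage (pull_continuous e.2)).inter hcl
    · rintro ⟨N, e⟩
      classical
      obtain ⟨u, hu, hu'⟩ := Yf_lift P n h N (pull e z) (hz N e)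
      let z' : E k L := fun c =>
        if hc : ∃ e' : Fin (k c.1) ↪ Fin N, e'.trans e = c.2 then u ⟨c.1, hc.choose⟩ else z c
      have h1 : pull e z' = u := by
        funext c
        have hex : ∃ e' : Fin (k c.1) ↪ Fin N, e'.trans e = c.2.trans e := ⟨c.2, rfl⟩
        show (if hc : ∃ e' : Fin (k c.1) ↪ Fin N, e'.trans e = c.2.trans e then
          u ⟨c.1, hc.choose⟩ else z ⟨c.1, c.2.trans e⟩) = u c
        rw [dif_pos hex]
        have h2 : hex.choose = c.2 := by
          have h3 := hex.choose_spec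
          ext i
          have h4 := congrArg (fun f : Fin (k c.1) ↪ L => f i) h3
          exact congrArg Fin.val (e.injective h4)
        rw [h2]
      refine ⟨z', ?_, ?_⟩
      · show pull e z' ∈ Yf P (n + 1) N
        rw [h1]
        exact hu
      · intro c hcn
        show (if hc : ∃ e' : Fin (k c.1) ↪ Fin N, e'.trans e = c.2 then
          u ⟨c.1, hc.choose⟩ else z c) = z c
        split_ifs with hc
        · rw [hu' ⟨c.1, hc.choose⟩ hcn]
          show z ⟨c.1, hc.choose.trans e⟩ = z c
          rw [hc.choose_spec]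
        · rfl
    · rintro N N' e f χ rfl z' ⟨hz1, hz2⟩
      refine ⟨?_, hz2⟩
      show pull (χ.trans f) z' ∈ Yf P (n + 1) N
      rw [← pull_pull, ← Yf_pull P (n + 1) h χ]
      exact ⟨_, hz1, rfl⟩
  obtain ⟨z', hz'⟩ := hne
  rw [Set.mem_iInter] at hz'
  refine ⟨z', fun N e => (hz' ⟨N, e⟩).1, ?_⟩
  exact (hz' ⟨0, ⟨fun i => i.elim0, fun i => i.elim0⟩⟩).2

end H64DN
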