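import Pool.Agent.Helper64.DN.CBasic

/-!
DN-19 (Inv): invariance under transpositions, natural continua, finite level separation.

* `pull_eq_of_inv`: by symmetry `⊆`.  Strong induction on the number of `a` with `e a ≠ e' a`.  If `e ≠ e'` take such an `a`, `x = e a`, `y = e' a` (both in `A`),
  `e₁ = e.trans (swap x y)`: `e₁ a = e' a`, and no new disagreement appears (if `e b = e' b`, `b ≠ a`, then `e b ≠ x` and `e b ≠ y`, both by injectivity).
  `pull e₁ z = pull e (pull (swap x y) z)`; `pull (swap x y)` maps `K` to `K` and is an involution, so `pull e₁ '' K = pull e '' K`.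
  The hypothesis `e a = e' a ∨ (e a ∈ A ∧ e' a ∈ A)` is kept for `e₁` (values change only between `x` and `y`).
* `sep_finite`: `z ∉ K` closed: a basic open neighbourhood of `z` avoiding `K` involves finitely many coordinates; let `e : Fin N ↪ L` have all their
  letters in its range.
* `sep_nat`: same for `L = ℕ`, `e` = `Fin.valEmbedding : Fin N ↪ ℕ` for all large `N`.
* `natK_pull`: `pull_eq_of_inv` with `A = {n | n ≠ 0}`.
* `natK_cs`: `cs S 0` is invariant: `pull (swap a b) '' cs S 0 = cs S 0` as `swap a b 0 = 0` (`pull_cs` with `φ = swap a b`).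
-/

set_option autoImplicit false

namespace H64DN

open Set Topology

variable {k : ℕ → ℕ}

open Classical in
/-- `K` is invariant under the transpositions of elements of `A`. -/
def Inv {L : Type} (A : Set L) (K : Set (E k L)) : Prop :=
  ∀ a ∈ A, ∀ b ∈ A, ∀ z ∈ K, pull (Equiv.swap a b).toEmbedding z ∈ K

private theorem inva_pull_trans {A B C : Type} (φ : A ↪ B) (ψ : B ↪ C) (z : E k C) :
    pull (φ.trans ψ) z = pull φ (pull ψ z) := rfl

private theorem inva_sub {L : Type} (A : Set L) (K : Set (E k L)) (hK : Inv A K) {N : ℕ}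
    (e' : Fin N ↪ L) : ∀ (d : ℕ) (e : Fin N ↪ L), {a | e a ≠ e' a}.ncard ≤ d →
    (∀ a, e a = e' a ∨ (e a ∈ A ∧ e' a ∈ A)) → pull e '' K ⊆ pull e' '' K := by
  classical
  intro d
  induction d with
  | zero =>
    intro e hd _
    have h1 : {a | e a ≠ e' a} = ∅ := by
      rw [← Set.ncard_eq_zero (Set.toFinite _)]
      omega
    have h2 : e = e' := by
      ext a
      by_contra hcon
      have h3 : a ∈ {a | e a ≠ e' a} := hcon
      rw [h1] at h3
      exact h3
    rw [h2]
  | succ d ih =>
    intro e hd h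
    by_cases hall : ∀ a, e a = e' a
    · have h2 : e = e' := by
        ext a
        exact hall a
      rw [h2]
    · push Not at hall
      obtain ⟨a, ha⟩ := hall
      have hA : e a ∈ A ∧ e' a ∈ A := (h a).resolve_left ha
      set e₁ : Fin N ↪ L := e.trans (Equiv.swap (e a) (e' a)).toEmbedding with he₁
      have he₁v : ∀ b, e₁ b = Equiv.swap (e a) (e' a) (e b) := fun b => rfl
      have h1a : e₁ a = e' a := by rw [he₁v, Equiv.swap_apply_left]
      have h1b : ∀ b, e b = e' b → e₁ b = e' b := by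
        intro b hb
        have hba : b ≠ a := by
          rintro rfl
          exact ha hb
        have h3 : e b ≠ e a := fun h4 => hba (e.injective h4)
        have h4 : e b ≠ e' a := by
          rw [hb]
          exact fun h5 => hba (e'.injective h5)
        rw [he₁v, Equiv.swap_apply_of_ne_of_ne h3 h4, hb]
      have h1c : ∀ b, e₁ b = e' b ∨ (e₁ b ∈ A ∧ e' b ∈ A) := by
        intro b
        rcases h b with hb | hb
        · exact Or.inl (h1b b hb)
        · right
          refine ⟨?_, hb.2⟩
          rw [he₁v]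
          by_cases h3 : e b = e a
          · rw [h3, Equiv.swap_apply_left]
            exact hA.2
          · by_cases h4 : e b = e' a
            · rw [h4, Equiv.swap_apply_right]
              exact hA.1
            · rw [Equiv.swap_apply_of_ne_of_ne h3 h4]
              exact hb.1
      have hlt : {b | e₁ b ≠ e' b}.ncard < {b | e b ≠ e' b}.ncard := by
        refine Set.ncard_lt_ncard ?_ (Set.toFinite _)
        refine ⟨fun b hb hb' => hb (h1b b hb'), fun hcon => ?_⟩
        have h3 : a ∈ {b | e₁ b ≠ e' b} := hcon ha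
        exact h3 h1a
      have h2 := ih e₁ (by omega) h1c
      rintro _ ⟨z, hz, rfl⟩
      apply h2
      refine ⟨pull (Equiv.swap (e a) (e' a)).toEmbedding z, ?_, ?_⟩
      · exact hK _ hA.1 _ hA.2 z hz
      · rw [he₁, ← inva_pull_trans]
        congr 1
        ext b
        simp

theorem pull_eq_of_inv {L : Type} (A : Set L) (K : Set (E k L)) (hK : Inv A K) {N : ℕ}
    (e e' : Fin N ↪ L) (h : ∀ a, e a = e' a ∨ (e a ∈ A ∧ e' a ∈ A)) :
    pull e '' K = pull e' '' K := by
  refine Subset.antisymm (inva_sub A K hK e' _ e le_rfl h) (inva_sub A K hK e _ e' le_rfl ?_)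
  intro a
  rcases h a with h1 | h1
  · exact Or.inl h1.symm
  · exact Or.inr ⟨h1.2, h1.1⟩

private theorem inva_core {L : Type} (K : Set (E k L)) (hK : IsClosed K) (z : E k L)
    (hz : z ∉ K) : ∃ I : Finset (Coord k L), ∀ (A : Type) (e : A ↪ L),
      (∀ c ∈ I, ∀ a, c.2 a ∈ range e) → pull e z ∉ pull e '' K := by
  obtain ⟨I, u, hu, hI⟩ := isOpen_pi_iff.1 hK.isOpen_compl z hz
  refine ⟨I, fun A e he => ?_⟩
  rintro ⟨z', hz', h⟩
  have h1 : z' ∈ (I : Set (Coord k L)).pi u := by
    intro c hc
    choose f hf using he c hc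
    have h2 : (⟨c.1, (⟨f, fun a b hab => c.2.injective (by rw [← hf a, ← hf b, hab])⟩ :
        Fin (k c.1) ↪ A).trans e⟩ : Coord k L) = c := by
      obtain ⟨m, g⟩ := c
      congr 1
      ext a
      exact hf a
    have h3 := congrFun h ⟨c.1, ⟨f, fun a b hab => c.2.injective (by rw [← hf a, ← hf b, hab])⟩⟩
    simp only [pull] at h3
    rw [h2] at h3
    rw [h3]
    exact (hu c hc).2
  exact hI h1 hz'

theorem sep_finite {L : Type} (K : Set (E k L)) (hK : IsClosed K) (z : E k L) (hz : z ∉ K) :
    ∃ (N : ℕ) (e : Fin N ↪ L), pull e z ∉ pull e '' K := by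
  classical
  obtain ⟨I, hI⟩ := inva_core K hK z hz
  set W : Finset L := I.biUnion (fun c => Finset.univ.map c.2) with hW
  refine ⟨W.card, W.equivFin.symm.toEmbedding.trans (Function.Embedding.subtype _),
    hI _ _ fun c hc a => ?_⟩
  have h1 : c.2 a ∈ W := by
    rw [hW, Finset.mem_biUnion]
    exact ⟨c, hc, by simp⟩
  refine ⟨W.equivFin ⟨c.2 a, h1⟩, ?_⟩
  simp

/-- If `z` is separated from `K` along `e`, then along every larger `f`. -/
theorem sep_of_trans {L : Type} (K : Set (E k L)) (z : E k L) {N M : ℕ} (e : Fin N ↪ L)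
    (φ : Fin N ↪ Fin M) (f : Fin M ↪ L) (h : φ.trans f = e) (hz : pull e z ∉ pull e '' K) :
    pull f z ∉ pull f '' K := by
  rintro ⟨z', hz', h1⟩
  apply hz
  refine ⟨z', hz', ?_⟩
  rw [← h, inva_pull_trans, inva_pull_trans, h1]

theorem sep_nat (K : Set (E k ℕ)) (hK : IsClosed K) (z : E k ℕ) (hz : z ∉ K) :
    ∃ N₀ : ℕ, ∀ N, N₀ ≤ N → pull (Fin.valEmbedding : Fin N ↪ ℕ) z ∉ pull Fin.valEmbedding '' K := by
  classical
  obtain ⟨I, hI⟩ := inva_core K hK z hz
  refine ⟨(I.biUnion (fun c => Finset.univ.map c.2)).sup id + 1, fun N hN => ?_⟩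
  refine hI _ _ fun c hc a => ?_
  have h1 : c.2 a ∈ I.biUnion (fun c => Finset.univ.map c.2) := by
    rw [Finset.mem_biUnion]
    exact ⟨c, hc, by simp⟩
  have h2 : c.2 a ≤ (I.biUnion (fun c => Finset.univ.map c.2)).sup id :=
    Finset.le_sup (f := id) h1
  exact ⟨⟨c.2 a, by omega⟩, rfl⟩

end H64DN
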