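import Pool.Agent.Helper64.DN.Inva

/-!
DN-19 (Inv): invariance under transpositions, natural continua, finite level separation.

* `pull_eq_of_inv`: by symmetry `⊆`.  Strong induction on the number of `a` with `e a ≠ e' a`.  If `e ≠ e'` take such an `a`, `x = e a`, `y = e' a` (both in `A`),
  `e₁ = e.trans (swap x y)`: `e₁ a = e' a`, and no new disagreement appears (if `e b = e' b`, `b ≠ a`, then `e b ≠ x` and `e b ≠ y`, both by injectivity).
  `pull e₁ z = pull e (pull (swap x y) z)`; `pull (swap x y)` maps `K` to `K` and is an involution, so `pull e₁ '' K = pull e '' K`.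
  The hypothesis `e a = e' a ∨ (e a ∈ A ∧ e' a ∈ A)` is kept for `e₁` (values change only between `x` and `y`).
* `sep_finite`: `z ∉ K` closed: a basic open neighbourhood of `z` avoiding `K` involves finitely many coordinates; let `e : Fin N ↪ L` have all their
  letters in its range.
* `sep_nat`: same for `L = ℕ`, `e` = `Fin.valEmbedding : Fin N ↪ ℕ` for all large `N`.
* `natK_pull`: `pull_eq_of_inv` with `A = {n | n ≠ 0}`.
* `natK_cs`: `cs S 0` is invariant: `pull (swap a b) '' cs S 0 = cs S 0` as `swap a b 0 = 0` (`pull_cs` with `φ = swap a b`).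
-/

set_option autoImplicit false

namespace H64DN

open Set Topology

variable {k : ℕ → ℕ}

variable (S : NS k)

/-- A natural continuum over `ℕ`. -/
def NatK (G : Set (E k ℕ)) : Prop :=
  IsClosed G ∧ IsPreconnected G ∧ G ⊆ S.Y ℕ ∧ cs S (0 : ℕ) ⊆ G ∧ Inv {n : ℕ | n ≠ 0} G

theorem inv_cs {L : Type} (i : L) : Inv {a | a ≠ i} (cs S i) := by
  classical
  intro a ha b hb z hz
  have h := pull_cs S (Equiv.swap a b).toEmbedding i
  have hi : (Equiv.swap a b).toEmbedding i = i :=
    Equiv.swap_apply_of_ne_of_ne (Ne.symm ha) (Ne.symm hb)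
  rw [hi] at h
  have h2 : pull (Equiv.swap a b).toEmbedding z ∈
      pull (Equiv.swap a b).toEmbedding '' cs S i := ⟨z, hz, rfl⟩
  rw [h] at h2
  convert h2

theorem inv_Y {L : Type} (A : Set L) : Inv A (S.Y L) := by
  classical
  intro a _ b _ z hz
  have h := S.image_pull (Equiv.swap a b).toEmbedding
  have h2 : pull (Equiv.swap a b).toEmbedding z ∈
      pull (Equiv.swap a b).toEmbedding '' S.Y L := ⟨z, hz, rfl⟩
  rw [h] at h2
  convert h2

theorem natK_cs : NatK S (cs S (0 : ℕ)) :=
  ⟨cs_closed S 0, (cs_connected S 0).isPreconnected, cs_subset S 0, Subset.rfl, inv_cs S 0⟩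

theorem natK_pull (G : Set (E k ℕ)) (hG : NatK S G) {N : ℕ} (j : Fin N) (e e' : Fin N ↪ ℕ)
    (h : e j = 0) (h' : e' j = 0) : pull e '' G = pull e' '' G := by
  refine pull_eq_of_inv {n : ℕ | n ≠ 0} G hG.2.2.2.2 e e' fun a => ?_
  by_cases ha : a = j
  · left
    rw [ha, h, h']
  · right
    constructor
    · intro h0
      exact ha (e.injective (h0.trans h.symm))
    · intro h0
      exact ha (e'.injective (h0.trans h'.symm))

/-- The restriction of a natural continuum. -/
theorem natK_restrict (G : Set (E k ℕ)) (hG : NatK S G) {N : ℕ} (j : Fin N) (e : Fin N ↪ ℕ)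
    (h : e j = 0) : IsClosed (pull e '' G) ∧ IsConnected (pull e '' G) ∧
      pull e '' G ⊆ S.Y (Fin N) ∧ cs S j ⊆ pull e '' G := by
  refine ⟨?_, ⟨?_, ?_⟩, ?_, ?_⟩
  · exact (hG.1.isCompact.image (pull_continuous e)).isClosed
  · obtain ⟨z, hz⟩ := (cs_connected S (0 : ℕ)).nonempty
    exact ⟨pull e z, z, hG.2.2.2.1 hz, rfl⟩
  · exact hG.2.1.image _ (pull_continuous e).continuousOn
  · rw [← S.image_pull e]
    exact image_mono hG.2.2.1
  · have h1 := pull_cs S e j
    rw [h] at h1
    rw [← h1]
    exact image_mono hG.2.2.2.1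

end H64DN
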