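import Pool.Agent.Helper64.DN.HIm
import Pool.Agent.Helper64.DN.Arc

/-!
DN-26 (Lift): section 5 of the proof.

* `exact_inv`: for `a, b ≠ i`, `σ = swap a b`: `K' = pull σ '' K` is a continuum in `Y L` containing `pull σ '' cs S i = cs S i` (`inv_cs`), so it meets `K`; `hi_all`: `K ⊆ K'` or `K' ⊆ K`;
  `pull σ` is an involution, so `K' = K`.
* `lift_unique`: let `z ∈ K`, `z ∉ K'`; `sep_finite`: `e : Fin N ↪ L`; we may assume `i ∈ range e`, `e j = i` (add a letter: `exists_common` with the map `Fin 1 ↪ L`, `sep_of_trans`).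
  Let `e' = (e₁).trans φ` with `e₁ : Fin N ↪ ℕ`, `e₁ j = 0` (so `e' j = i`).  `pull_eq_of_inv` (`A = {a ≠ i}`; all positions `≠ j` have values `≠ i`): `pull e '' K = pull e' '' K = pull e₁ '' (pull φ '' K)`,
  same for `K'`; so `pull e '' K = pull e '' K'`, contradiction.
* `lift_exists`: `G` a continuum, `cs S 0 ⊆ G ⊆ Y ℕ`.  `𝒢 = {K | K continuum, cs S i ⊆ K ⊆ Y L}` is a chain (`hi_all`: all contain `cs S i`).  For `K ∈ 𝒢`, `pull φ '' K` is a continuum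
  containing `cs S 0`, so comparable with `G` (`hi_all`).  `K⁻ = closure ⋃ {K ∈ 𝒢 | pull φ '' K ⊆ G}` (contains `cs S i` itself), `K⁺ = ⋂ {K ∈ 𝒢 | G ⊆ pull φ '' K}` (contains `Y L`).
  `K⁻, K⁺ ∈ 𝒢`; `pull φ '' K⁻ ⊆ G`; `G ⊆ pull φ '' K⁺` by compactness (chain).  If `K⁻ = K⁺` done.  `K⁻ ⊆ K⁺`: each `K` with `pull φ '' K ⊆ G` and each `K'` with
  `G ⊆ pull φ '' K'` satisfy `K ⊆ K'` or `K' ⊆ K`, in the latter case `pull φ '' K = G = pull φ '' K'`, so `K = K'` by `lift_unique`.  If `K⁻ ≠ K⁺`, `exists_between` gives a contradiction as in `Arc`.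
* `exists_arcs`: `G` from `exists_arc` for `cs S 0 ⊂ Y ℕ` (proper: `cs S 1 ⊆ Y ℕ` is disjoint from it; chain by `hi_all`), `K i t` from `lift_exists` with some `φ`, `φ 0 = i` (compose `hL` with a transposition);
  for another `φ'` with `φ' 0 = i`: `pull φ' '' K i t = pull φ '' K i t`: both closed; they have the same restrictions to all `Fin N` (`pull_eq_of_inv`), use `sep_nat`.
  `K i 0 = cs S i`, `K i 1 = Y L` by `lift_unique`.
-/

set_option autoImplicit false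

namespace H64DN

open Set Topology

variable {k : ℕ → ℕ} (S : NS k)

theorem exact_inv {L : Type} (i : L) (K : Set (E k L)) (hc : IsClosed K) (hp : IsConnected K)
    (hK : K ⊆ S.Y L) (hi : cs S i ⊆ K) : Inv {a | a ≠ i} K := by
  classical
  intro a ha b hb z hz
  have hinv : ∀ w : E k L, pull (Equiv.swap a b).toEmbedding
      (pull (Equiv.swap a b).toEmbedding w) = w := by
    intro w
    funext c
    show w ⟨c.1, (c.2.trans (Equiv.swap a b).toEmbedding).trans (Equiv.swap a b).toEmbedding⟩ = w c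
    have h1 : (c.2.trans (Equiv.swap a b).toEmbedding).trans (Equiv.swap a b).toEmbedding = c.2 := by
      ext t
      show Equiv.swap a b (Equiv.swap a b (c.2 t)) = c.2 t
      rw [Equiv.swap_apply_self]
    rw [h1]
  have hK' : pull (Equiv.swap a b).toEmbedding '' K ⊆ S.Y L := by
    rw [← S.image_pull (Equiv.swap a b).toEmbedding]
    exact image_mono hK
  have hc' : IsClosed (pull (Equiv.swap a b).toEmbedding '' K) :=
    (hc.isCompact.image (pull_continuous _)).isClosed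
  have hp' : IsConnected (pull (Equiv.swap a b).toEmbedding '' K) :=
    hp.image _ (pull_continuous _).continuousOn
  obtain ⟨x, hx⟩ := (cs_connected S i).nonempty
  have hx' : pull (Equiv.swap a b).toEmbedding x ∈ cs S i := inv_cs S i a ha b hb x hx
  rcases hi_all S L K (pull (Equiv.swap a b).toEmbedding '' K) hK hK' hc hp hc' hp'
    ⟨x, hi hx, ⟨_, hi hx', hinv x⟩⟩ with h | h
  · obtain ⟨w, hw, hwe⟩ := h hz
    rw [← hwe, hinv]
    exact hw
  · exact h ⟨z, hz, rfl⟩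

private theorem lifta_pull_trans {A B C : Type} (φ : A ↪ B) (ψ : B ↪ C) (K : Set (E k C)) :
    pull (φ.trans ψ) '' K = pull φ '' (pull ψ '' K) := by
  rw [image_image]
  rfl

private theorem lifta_sub {L : Type} (i : L) (K K' : Set (E k L)) (hc : IsClosed K)
    (hp : IsConnected K) (hK : K ⊆ S.Y L) (hi : cs S i ⊆ K) (hc' : IsClosed K')
    (hp' : IsConnected K') (hK' : K' ⊆ S.Y L) (hi' : cs S i ⊆ K') (φ : ℕ ↪ L) (hφ : φ 0 = i)
    (h : pull φ '' K = pull φ '' K') : K ⊆ K' := by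
  intro z hz
  by_contra hz'
  obtain ⟨N, e, he⟩ := sep_finite K' hc' z hz'
  obtain ⟨M, f, φ₁, φ₂, h1, h2⟩ := exists_common e
    (⟨fun _ => i, fun a b _ => Subsingleton.elim a b⟩ : Fin 1 ↪ L)
  have hsep := sep_of_trans K' z e φ₁ f h1 he
  have hfj : f (φ₂ 0) = i := by
    have h3 := DFunLike.congr_fun h2 (0 : Fin 1)
    exact h3
  have he1 : ∃ e₁ : Fin M ↪ ℕ, e₁ (φ₂ 0) = 0 :=
    ⟨Fin.valEmbedding.trans (Equiv.swap ((φ₂ 0 : Fin M) : ℕ) 0).toEmbedding, by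
      show Equiv.swap ((φ₂ 0 : Fin M) : ℕ) 0 ((φ₂ 0 : Fin M) : ℕ) = 0
      rw [Equiv.swap_apply_left]⟩
  obtain ⟨e₁, he₁⟩ := he1
  have hej : (e₁.trans φ) (φ₂ 0) = i := by
    show φ (e₁ (φ₂ 0)) = i
    rw [he₁, hφ]
  have hagree : ∀ a, f a = (e₁.trans φ) a ∨
      (f a ∈ {a : L | a ≠ i} ∧ (e₁.trans φ) a ∈ {a : L | a ≠ i}) := by
    intro a
    by_cases ha : a = φ₂ 0
    · left
      rw [ha, hfj, hej]
    · right
      refine ⟨fun h3 => ha (f.injective ?_), fun h3 => ha ((e₁.trans φ).injective ?_)⟩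
      · rw [h3, hfj]
      · rw [h3, hej]
  have hA := pull_eq_of_inv {a | a ≠ i} K (exact_inv S i K hc hp hK hi) f (e₁.trans φ) hagree
  have hB := pull_eq_of_inv {a | a ≠ i} K' (exact_inv S i K' hc' hp' hK' hi') f (e₁.trans φ) hagree
  apply hsep
  rw [hB, lifta_pull_trans, ← h, ← lifta_pull_trans, ← hA]
  exact ⟨z, hz, rfl⟩

theorem lift_unique {L : Type} (i : L) (K K' : Set (E k L)) (hc : IsClosed K)
    (hp : IsConnected K) (hK : K ⊆ S.Y L) (hi : cs S i ⊆ K) (hc' : IsClosed K')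
    (hp' : IsConnected K') (hK' : K' ⊆ S.Y L) (hi' : cs S i ⊆ K') (φ : ℕ ↪ L) (hφ : φ 0 = i)
    (h : pull φ '' K = pull φ '' K') : K = K' :=
  Subset.antisymm (lifta_sub S i K K' hc hp hK hi hc' hp' hK' hi' φ hφ h)
    (lifta_sub S i K' K hc' hp' hK' hi' hc hp hK hi φ hφ h.symm)

theorem lift_exists {L : Type} (i : L) (φ : ℕ ↪ L) (hφ : φ 0 = i) (G : Set (E k ℕ))
    (hc : IsClosed G) (hp : IsConnected G) (hG : G ⊆ S.Y ℕ) (h0 : cs S (0 : ℕ) ⊆ G) :
    ∃ K : Set (E k L), IsClosed K ∧ IsConnected K ∧ K ⊆ S.Y L ∧ cs S i ⊆ K ∧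
      pull φ '' K = G := by
  have hcs0 : pull φ '' cs S i = cs S (0 : ℕ) := by
    rw [← hφ]
    exact pull_cs S φ 0
  obtain ⟨x0, hx0⟩ := (cs_connected S i).nonempty
  obtain ⟨g0, hg0⟩ := (cs_connected S (0 : ℕ)).nonempty
  let A : Set (Set (E k L)) := {K | IsClosed K ∧ IsConnected K ∧ cs S i ⊆ K ∧ K ⊆ S.Y L ∧
    pull φ '' K ⊆ G}
  let B : Set (Set (E k L)) := {K | IsClosed K ∧ IsConnected K ∧ cs S i ⊆ K ∧ K ⊆ S.Y L ∧
    G ⊆ pull φ '' K}
  have hcomp : ∀ K : Set (E k L), IsClosed K → IsConnected K → cs S i ⊆ K → K ⊆ S.Y L →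
      K ∈ A ∨ K ∈ B := by
    intro K h1 h2 h3 h4
    have h5 : cs S (0 : ℕ) ⊆ pull φ '' K := by
      rw [← hcs0]
      exact image_mono h3
    rcases hi_all S ℕ (pull φ '' K) G (by rw [← S.image_pull φ]; exact image_mono h4) hG
      (h1.isCompact.image (pull_continuous φ)).isClosed
      (h2.image _ (pull_continuous φ).continuousOn) hc hp ⟨g0, h5 hg0, h0 hg0⟩ with h | h
    · exact Or.inl ⟨h1, h2, h3, h4, h⟩
    · exact Or.inr ⟨h1, h2, h3, h4, h⟩
  have hch : ∀ K K' : Set (E k L), IsClosed K → IsConnected K → cs S i ⊆ K → K ⊆ S.Y L →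
      IsClosed K' → IsConnected K' → cs S i ⊆ K' → K' ⊆ S.Y L → K ⊆ K' ∨ K' ⊆ K := by
    intro K K' h1 h2 h3 h4 h1' h2' h3' h4'
    exact hi_all S L K K' h4 h4' h1 h2 h1' h2' ⟨x0, h3 hx0, h3' hx0⟩
  have hAne : cs S i ∈ A := by
    refine ⟨cs_closed S i, cs_connected S i, subset_rfl, cs_subset S i, ?_⟩
    rw [hcs0]
    exact h0
  have hBne : S.Y L ∈ B := by
    refine ⟨S.closed L, S.conn L, cs_subset S i, subset_rfl, ?_⟩
    rw [S.image_pull φ]
    exact hG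
  have hAch : ∀ K ∈ A, ∀ K' ∈ A, K ⊆ K' ∨ K' ⊆ K := fun K hK K' hK' =>
    hch K K' hK.1 hK.2.1 hK.2.2.1 hK.2.2.2.1 hK'.1 hK'.2.1 hK'.2.2.1 hK'.2.2.2.1
  have hBch : ∀ K ∈ B, ∀ K' ∈ B, K ⊆ K' ∨ K' ⊆ K := fun K hK K' hK' =>
    hch K K' hK.1 hK.2.1 hK.2.2.1 hK.2.2.2.1 hK'.1 hK'.2.1 hK'.2.2.1 hK'.2.2.2.1
  -- the lower continuum
  have hmA : closure (⋃₀ A) ∈ A := by
    refine ⟨isClosed_closure, closure_sUnion_connected A ⟨_, hAne⟩ (fun K hK => hK.2.1) hAch,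
      ?_, ?_, ?_⟩
    · exact (subset_sUnion_of_mem hAne).trans subset_closure
    · exact closure_minimal (sUnion_subset fun K hK => hK.2.2.2.1) (S.closed L)
    · refine (image_closure_subset_closure_image (pull_continuous φ)).trans
        (closure_minimal ?_ hc)
      rintro _ ⟨x, ⟨K, hK, hx⟩, rfl⟩
      exact hK.2.2.2.2 ⟨x, hx, rfl⟩
  -- the upper continuum
  have hsi := sInter_connected B ⟨_, hBne⟩ (fun K hK => ⟨hK.1, hK.2.1⟩) hBch
  have hpB : ⋂₀ B ∈ B := by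
    refine ⟨hsi.1, hsi.2, subset_sInter fun K hK => hK.2.2.1, sInter_subset_of_mem hBne, ?_⟩
    intro g hg
    have hne : Nonempty B := ⟨⟨_, hBne⟩⟩
    have h1 : (⋂ K : B, (K : Set (E k L)) ∩ pull φ ⁻¹' {g}).Nonempty := by
      refine IsCompact.nonempty_iInter_of_directed_nonempty_isCompact_isClosed
        (fun K : B => (K : Set (E k L)) ∩ pull φ ⁻¹' {g}) ?_ ?_ ?_ ?_
      · rintro ⟨K, hK⟩ ⟨K', hK'⟩
        rcases hBch K hK K' hK' with h | h
        · exact ⟨⟨K, hK⟩, subset_rfl, inter_subset_inter_left _ h⟩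
        · exact ⟨⟨K', hK'⟩, inter_subset_inter_left _ h, subset_rfl⟩
      · rintro ⟨K, hK⟩
        obtain ⟨x, hx, hxe⟩ := hK.2.2.2.2 hg
        exact ⟨x, hx, hxe⟩
      · rintro ⟨K, hK⟩
        exact (hK.1.inter (isClosed_singleton.preimage (pull_continuous φ))).isCompact
      · rintro ⟨K, hK⟩
        exact hK.1.inter (isClosed_singleton.preimage (pull_continuous φ))
    obtain ⟨x, hx⟩ := h1
    rw [mem_iInter] at hx
    refine ⟨x, ?_, (hx ⟨_, hBne⟩).2⟩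
    rw [mem_sInter]
    intro K hK
    exact (hx ⟨K, hK⟩).1
  have hle : closure (⋃₀ A) ⊆ ⋂₀ B := by
    rcases hch _ _ hmA.1 hmA.2.1 hmA.2.2.1 hmA.2.2.2.1 hpB.1 hpB.2.1 hpB.2.2.1 hpB.2.2.2.1 with
      h | h
    · exact h
    · have h3 : pull φ '' (⋂₀ B) = pull φ '' (closure (⋃₀ A)) :=
        Subset.antisymm (image_mono h) (hmA.2.2.2.2.trans hpB.2.2.2.2)
      rw [lift_unique S i _ _ hpB.1 hpB.2.1 hpB.2.2.2.1 hpB.2.2.1 hmA.1 hmA.2.1 hmA.2.2.2.1
        hmA.2.2.1 φ hφ h3]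
  by_cases heq : closure (⋃₀ A) = ⋂₀ B
  · refine ⟨closure (⋃₀ A), hmA.1, hmA.2.1, hmA.2.2.2.1, hmA.2.2.1,
      Subset.antisymm hmA.2.2.2.2 ?_⟩
    rw [heq]
    exact hpB.2.2.2.2
  · exfalso
    obtain ⟨K, hK1, hK2, hK3, hK4⟩ := exists_between hmA.1 hmA.2.1 hpB.1 hpB.2.1
      (ssubset_of_subset_of_ne hle heq)
    rcases hcomp K hK1 hK2 (hmA.2.2.1.trans hK3.subset) (hK4.subset.trans hpB.2.2.2.1) with h | h
    · exact hK3.2 ((subset_sUnion_of_mem h).trans subset_closure)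
    · exact hK4.2 (sInter_subset_of_mem h)

end H64DN
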