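import Pool.Agent.Helper64.DN.Lifta

/-!
DN-26 (Lift): section 5 of the proof.

* `exact_inv`: for `a, b ≠ i`, `σ = swap a b`: `K' = pull σ '' K` is a continuum in `Y L` containing `pull σ '' cs S i = cs S i` (`inv_cs`), so it meets `K`; `hi_all`: `K ⊆ K'` or `K' ⊆ K`;
  `pull σ` is an involution, so `K' = K`.
* `lift_unique`: let `z ∈ K`, `z ∉ K'`; `sep_finite`: `e : Fin N ↪ L`; we may assume `i ∈ range e`, `e j = i` (add a letter: `exists_common` with the map `Fin 1 ↪ L`, `sep_of_trans`).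
  Let `e' = (e₁).trans φ` with `e₁ : Fin N ↪ ℕ`, `e₁ j = 0` (so `e' j = i`).  `pull_eq_of_inv` (`A = {a ≠ i}`; all positions `≠ j` have values `≠ i`): `pull e '' K = pull e' '' K = pull e₁ '' (pull φ '' K)`,
  same for `K'`; so `pull e '' K = pull e '' K'`, contradiction.
* `lift_exists`: `G` a continuum, `cs S 0 ⊆ G ⊆ Y ℕ`.  `𝒢 = {K | K continuum, cs S i ⊆ K ⊆ Y L}` is a chain (`hi_all`: all contain `cs S i`).  For `K ∈ 𝒢`, `pull φ '' K` is a continuum
  containing `cs S 0`, so comparable with `G` (`hi_all`).  `K⁻ = closure ⋃ {K ∈ 𝒢 | pull φ '' K ⊆ G}` (contains `cs S i` itself), `K⁺ = ⋂ {K ∈ 𝒢 | G ⊆ pull φ '' K}` (contains `Y L`).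
  `K⁻, K⁺ ∈ 𝒢`; `pull φ '' K⁻ ⊆ G`; `G ⊆ pull φ '' K⁺` by compactness (chain).  If `K⁻ = K⁺` done.  `K⁻ ⊆ K⁺`: each `K` with `pull φ '' K ⊆ G` and each `K'` with
  `G ⊆ pull φ '' K'` satisfy `K ⊆ K'` or `K' ⊆ K`, in the latter case `pull φ '' K = G = pull φ '' K'`, so `K = K'` by `lift_unique`.  If `K⁻ ≠ K⁺`, `exists_between` gives a contradiction as in `Arc`.
* `exists_arcs`: `G` from `exists_arc` for `cs S 0 ⊂ Y ℕ` (proper: `cs S 1 ⊆ Y ℕ` is disjoint from it; chain by `hi_all`), `K i t` from `lift_exists` with some `φ`, `φ 0 = i` (compose `hL` with a transposition);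
  for another `φ'` with `φ' 0 = i`: `pull φ' '' K i t = pull φ '' K i t`: both closed; they have the same restrictions to all `Fin N` (`pull_eq_of_inv`), use `sep_nat`.
  `K i 0 = cs S i`, `K i 1 = Y L` by `lift_unique`.
-/

set_option autoImplicit false

namespace H64DN

open Set Topology

variable {k : ℕ → ℕ} (S : NS k)

/-- The arcs `[cs S i, Y L]`. -/
structure ArcData (L : Type) (G : unitInterval → Set (E k ℕ))
    (K : L → unitInterval → Set (E k L)) : Prop where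
  G_closed : ∀ t, IsClosed (G t)
  G_conn : ∀ t, IsConnected (G t)
  G_zero : G 0 = cs S (0 : ℕ)
  G_one : G 1 = S.Y ℕ
  G_lt : ∀ t t', t < t' → G t ⊂ G t'
  G_sub_open : ∀ U : Set (E k ℕ), IsOpen U → IsOpen {t | G t ⊆ U}
  G_meet_open : ∀ U : Set (E k ℕ), IsOpen U → IsOpen {t | (G t ∩ U).Nonempty}
  K_closed : ∀ i t, IsClosed (K i t)
  K_conn : ∀ i t, IsConnected (K i t)
  K_sub : ∀ i t, K i t ⊆ S.Y L
  K_cs : ∀ i t, cs S i ⊆ K i t
  K_pull : ∀ i t, ∀ φ : ℕ ↪ L, φ 0 = i → pull φ '' K i t = G t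
  K_zero : ∀ i, K i 0 = cs S i
  K_one : ∀ i, K i 1 = S.Y L

private theorem exists_emb_zero {L : Type} (hL : Nonempty (ℕ ↪ L)) (i : L) :
    ∃ φ : ℕ ↪ L, φ 0 = i := by
  classical
  obtain ⟨ψ⟩ := hL
  refine ⟨ψ.trans (Equiv.swap (ψ 0) i).toEmbedding, ?_⟩
  simp

private theorem pull_subset_of_inv {L : Type} (i : L) (K : Set (E k L)) (hc : IsClosed K)
    (hK : Inv {a | a ≠ i} K) (φ φ' : ℕ ↪ L) (hφ : φ 0 = i) (hφ' : φ' 0 = i) :
    pull φ '' K ⊆ pull φ' '' K := by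
  intro z hz
  by_contra hz'
  have hcl : IsClosed (pull φ' '' K) := (hc.isCompact.image (pull_continuous φ')).isClosed
  obtain ⟨N, hN⟩ := sep_nat _ hcl z hz'
  have h1 := hN N le_rfl
  have h2 : pull (Fin.valEmbedding : Fin N ↪ ℕ) z ∈
      pull ((Fin.valEmbedding : Fin N ↪ ℕ).trans φ) '' K := by
    obtain ⟨w, hw, rfl⟩ := hz
    exact ⟨w, hw, rfl⟩
  rw [pull_eq_of_inv {a | a ≠ i} K hK ((Fin.valEmbedding : Fin N ↪ ℕ).trans φ)
    ((Fin.valEmbedding : Fin N ↪ ℕ).trans φ')] at h2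
  · obtain ⟨w, hw, hwz⟩ := h2
    exact h1 ⟨pull φ' w, ⟨w, hw, rfl⟩, hwz⟩
  · intro a
    rcases Nat.eq_zero_or_pos (a : ℕ) with h0 | h0
    · left
      change φ (a : ℕ) = φ' (a : ℕ)
      rw [h0, hφ, hφ']
    · right
      constructor
      · intro he
        have he' : φ (a : ℕ) = φ 0 := by rw [hφ]; exact he
        have := φ.injective he'
        omega
      · intro he
        have he' : φ' (a : ℕ) = φ' 0 := by rw [hφ']; exact he
        have := φ'.injective he'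
        omega

theorem exists_arcs (L : Type) (hL : Nonempty (ℕ ↪ L)) :
    ∃ (G : unitInterval → Set (E k ℕ)) (K : L → unitInterval → Set (E k L)),
      ArcData S L G K := by
  have hcnt : ∀ m : ℕ, Countable (Fin (k m) ↪ ℕ) := fun m =>
    Function.Injective.countable (f := fun (e : Fin (k m) ↪ ℕ) (j : Fin (k m)) => e j)
      (fun e e' h => DFunLike.coe_injective h)
  have : Countable (Coord k ℕ) := inferInstance
  have : SecondCountableTopology (E k ℕ) := inferInstance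
  have hss : cs S (0 : ℕ) ⊂ S.Y ℕ := by
    refine ⟨cs_subset S 0, fun h => ?_⟩
    obtain ⟨x, hx⟩ := (cs_connected S (1 : ℕ)).nonempty
    have hd := cs_disj S (0 : ℕ) 1 (by decide)
    exact Set.disjoint_left.1 hd (h (cs_subset S 1 hx)) hx
  have hch : ∀ K K' : Set (E k ℕ), IsClosed K → IsConnected K → cs S (0 : ℕ) ⊆ K → K ⊆ S.Y ℕ →
      IsClosed K' → IsConnected K' → cs S (0 : ℕ) ⊆ K' → K' ⊆ S.Y ℕ → K ⊆ K' ∨ K' ⊆ K := by
    intro K K' h1 h2 h3 h4 h5 h6 h7 h8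
    obtain ⟨x, hx⟩ := (cs_connected S (0 : ℕ)).nonempty
    exact hi_all S ℕ K K' h4 h8 h1 h2 h5 h6 ⟨x, h3 hx, h7 hx⟩
  obtain ⟨G, hG, hG0, hG1, hlt, -, hsub, hmeet⟩ := exists_arc (cs S (0 : ℕ)) (S.Y ℕ) hss
    (cs_closed S 0) (cs_connected S 0) (S.closed ℕ) (S.conn ℕ) hch
  choose φ hφ using fun i : L => exists_emb_zero hL i
  choose K hK using fun (i : L) (t : unitInterval) =>
    lift_exists S i (φ i) (hφ i) (G t) (hG t).1 (hG t).2.1 (hG t).2.2.2 (hG t).2.2.1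
  refine ⟨G, K, ⟨fun t => (hG t).1, fun t => (hG t).2.1, hG0, hG1, hlt, hsub, hmeet,
    fun i t => (hK i t).1, fun i t => (hK i t).2.1, fun i t => (hK i t).2.2.1,
    fun i t => (hK i t).2.2.2.1, ?_, ?_, ?_⟩⟩
  · intro i t φ' hφ'
    obtain ⟨h1, h2, h3, h4, h5⟩ := hK i t
    have hinv := exact_inv S i (K i t) h1 h2 h3 h4
    rw [← h5]
    exact Subset.antisymm (pull_subset_of_inv i _ h1 hinv φ' (φ i) hφ' (hφ i))
      (pull_subset_of_inv i _ h1 hinv (φ i) φ' (hφ i) hφ')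
  · intro i
    obtain ⟨h1, h2, h3, h4, h5⟩ := hK i 0
    refine lift_unique S i (K i 0) (cs S i) h1 h2 h3 h4 (cs_closed S i) (cs_connected S i)
      (cs_subset S i) Subset.rfl (φ i) (hφ i) ?_
    rw [h5, hG0]
    have := pull_cs S (φ i) (0 : ℕ)
    rw [hφ i] at this
    exact this.symm
  · intro i
    obtain ⟨h1, h2, h3, h4, h5⟩ := hK i 1
    refine lift_unique S i (K i 1) (S.Y L) h1 h2 h3 h4 (S.closed L) (S.conn L)
      Subset.rfl (cs_subset S i) (φ i) (hφ i) ?_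
    rw [h5, hG1, S.image_pull]

end H64DN
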