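import Pool.Agent.Helper64.DN.Top

/-!
DN-24 (Mu): a strictly monotone, continuous size function on the closed sets of a compact metrizable space.

Take a countable basis; there is a sequence `φ n : C(X, ℝ)`, `0 ≤ φ n ≤ 1`, such that for every closed `K` and `z ∉ K` some `φ n` is `0` on `K` and
`φ n z > 0` (e.g. for the countably many pairs `(U, V)` of basic open sets with `closure U ⊆ V` take a Urysohn function `= 1` on `closure U`, `= 0` off `V`; or use a
metric and `max 0 (1 - dist x d / q)` for `d` in a dense sequence, `q > 0` rational).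
`μ K = ∑' n, (1/2)^(n+1) * sSup (φ n '' K)` (with `sSup ∅ = 0`).
* `mono`: termwise.  `strict`: termwise and one strict term (`sSup (φ n '' K) = 0 < φ n z`), summable.
* `sup`: for a chain `C` with `μ K ≤ v` for all `K ∈ C`: for finitely many `n < M` and `ε > 0` there is one `K ∈ C` with
  `sSup (φ n '' closure (⋃₀ C)) ≤ sSup (φ n '' K) + ε` for all `n < M`; so the partial sums of `μ (closure (⋃₀ C))` are `≤ v + ε`.
* `inf`: similarly, `sSup (φ n '' ⋂₀ C) = inf`: by compactness, for every `ε` there is `K ∈ C` with `φ n < sSup (φ n '' ⋂₀ C) + ε` on `K`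
  (the closed sets `K ∩ {φ n ≥ sSup + ε}` have empty intersection).
-/

set_option autoImplicit false

namespace H64DN

open Set Topology

variable {X : Type} [TopologicalSpace X]

theorem mu_key_aux {ι : Type} (a : ℕ → ℝ) (b : ι → ℕ → ℝ) (v : ℝ)
    (ha0 : ∀ n, 0 ≤ a n)
    (hb0 : ∀ i n, 0 ≤ b i n) (hb1 : ∀ i n, b i n ≤ 1)
    (h : ∀ (M : ℕ) (ε : ℝ), 0 < ε → ∃ i, ∀ n < M, a n ≤ b i n + ε)
    (hv : ∀ i, (∑' n, (1 / 2 : ℝ) ^ (n + 1) * b i n) ≤ v) :
    (∑' n, (1 / 2 : ℝ) ^ (n + 1) * a n) ≤ v := by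
  have hgeo : ∀ M : ℕ, ∑ n ∈ Finset.range M, (1 / 2 : ℝ) ^ (n + 1) ≤ 1 := by
    intro M
    have : ∀ M : ℕ, ∑ n ∈ Finset.range M, (1 / 2 : ℝ) ^ (n + 1) = 1 - (1 / 2 : ℝ) ^ M := by
      intro M
      induction M with
      | zero => simp
      | succ k ih =>
        rw [Finset.sum_range_succ, ih, pow_succ]
        ring
    rw [this]
    have : (0 : ℝ) ≤ (1 / 2 : ℝ) ^ M := by positivity
    linarith
  have hsum : ∀ c : ℕ → ℝ, (∀ n, 0 ≤ c n) → (∀ n, c n ≤ 1) →
      Summable (fun n => (1 / 2 : ℝ) ^ (n + 1) * c n) := by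
    intro c h0 h1
    have hs : Summable (fun n : ℕ => (1 / 2 : ℝ) ^ (n + 1)) := by
      have := (summable_nat_add_iff (f := fun n : ℕ => (1 / 2 : ℝ) ^ n) 1).2
        (summable_geometric_of_lt_one (by norm_num) (by norm_num))
      exact this
    refine Summable.of_nonneg_of_le (fun n => mul_nonneg (by positivity) (h0 n)) (fun n => ?_) hs
    have : (0 : ℝ) ≤ (1 / 2 : ℝ) ^ (n + 1) := by positivity
    nlinarith [h1 n]
  refine Real.tsum_le_of_sum_range_le (fun n => mul_nonneg (by positivity) (ha0 n)) (fun M => ?_)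
  refine le_of_forall_pos_le_add (fun ε hε => ?_)
  obtain ⟨i, hi⟩ := h M ε hε
  calc ∑ n ∈ Finset.range M, (1 / 2 : ℝ) ^ (n + 1) * a n
      ≤ ∑ n ∈ Finset.range M, ((1 / 2 : ℝ) ^ (n + 1) * b i n + (1 / 2 : ℝ) ^ (n + 1) * ε) := by
        refine Finset.sum_le_sum (fun n hn => ?_)
        have h1 := hi n (Finset.mem_range.1 hn)
        have : (0 : ℝ) ≤ (1 / 2 : ℝ) ^ (n + 1) := by positivity
        nlinarith
    _ = (∑ n ∈ Finset.range M, (1 / 2 : ℝ) ^ (n + 1) * b i n)
        + (∑ n ∈ Finset.range M, (1 / 2 : ℝ) ^ (n + 1)) * ε := by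
        rw [Finset.sum_add_distrib, Finset.sum_mul]
    _ ≤ v + ε := by
        have h1 : ∑ n ∈ Finset.range M, (1 / 2 : ℝ) ^ (n + 1) * b i n
            ≤ ∑' n, (1 / 2 : ℝ) ^ (n + 1) * b i n :=
          (hsum (b i) (hb0 i) (hb1 i)).sum_le_tsum _
            (fun n _ => mul_nonneg (by positivity) (hb0 i n))
        have h2 := hv i
        have h3 := hgeo M
        nlinarith

theorem mu_phi_aux [CompactSpace X] [T2Space X] [SecondCountableTopology X] :
    ∃ φ : ℕ → X → ℝ, (∀ n, Continuous (φ n)) ∧ (∀ n x, 0 ≤ φ n x) ∧ (∀ n x, φ n x ≤ 1) ∧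
      ∀ K : Set X, IsClosed K → ∀ z ∉ K, ∃ n, (∀ x ∈ K, φ n x = 0) ∧ 0 < φ n z := by
  classical
  let _ : MetricSpace X := TopologicalSpace.metrizableSpaceMetric X
  obtain ⟨b, hbc, -, hb⟩ := TopologicalSpace.exists_countable_basis X
  obtain ⟨U, hU⟩ := (hbc.insert ∅).exists_eq_range ⟨∅, Set.mem_insert _ _⟩
  have hUo : ∀ n, IsOpen (U n) := by
    intro n
    have : U n ∈ insert ∅ b := by rw [hU]; exact ⟨n, rfl⟩
    rcases this with h | h
    · rw [h]; exact isOpen_empty
    · exact hb.isOpen h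
  refine ⟨fun n x => if (U n)ᶜ = ∅ then 1 else min 1 (Metric.infDist x (U n)ᶜ), ?_, ?_, ?_, ?_⟩
  · intro n
    by_cases h : (U n)ᶜ = ∅
    · simp only [h, if_true]
      exact continuous_const
    · simp only [h, if_false]
      exact continuous_const.min (Metric.continuous_infDist_pt _)
  · intro n x
    by_cases h : (U n)ᶜ = ∅
    · simp only [h, if_true]
      norm_num
    · simp only [h, if_false]
      exact le_min (by norm_num) Metric.infDist_nonneg
  · intro n x
    by_cases h : (U n)ᶜ = ∅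
    · simp only [h, if_true]
      norm_num
    · simp only [h, if_false]
      exact min_le_left _ _
  · intro K hK z hz
    obtain ⟨V, hVb, hzV, hVK⟩ := hb.exists_subset_of_mem_open (a := z) (u := Kᶜ) hz hK.isOpen_compl
    have : V ∈ insert ∅ b := Set.mem_insert_of_mem _ hVb
    rw [hU] at this
    obtain ⟨n, hn⟩ := this
    refine ⟨n, ?_, ?_⟩
    · intro x hx
      have hxV : x ∈ (U n)ᶜ := by
        intro hx'
        rw [hn] at hx'
        exact hVK hx' hx
      have hne : (U n)ᶜ ≠ ∅ := fun h => by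
        rw [h] at hxV
        exact hxV
      simp only [hne, if_false]
      rw [Metric.infDist_zero_of_mem hxV]
      norm_num
    · by_cases h : (U n)ᶜ = ∅
      · simp only [h, if_true]
        norm_num
      · simp only [h, if_false]
        refine lt_min (by norm_num) ?_
        have hcl : IsClosed (U n)ᶜ := (hUo n).isClosed_compl
        refine (hcl.notMem_iff_infDist_pos (Set.nonempty_iff_ne_empty.2 h)).1 ?_
        intro h'
        exact h' (by rw [hn]; exact hzV)

theorem exists_mu [CompactSpace X] [T2Space X] [SecondCountableTopology X] :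
    ∃ μ : Set X → ℝ,
      (∀ K K' : Set X, K ⊆ K' → μ K ≤ μ K') ∧
      (∀ K K' : Set X, IsClosed K → K ⊂ K' → μ K < μ K') ∧
      (∀ (C : Set (Set X)) (v : ℝ), C.Nonempty → (∀ K ∈ C, K.Nonempty) →
        (∀ K ∈ C, ∀ K' ∈ C, K ⊆ K' ∨ K' ⊆ K) → (∀ K ∈ C, μ K ≤ v) →
        μ (closure (⋃₀ C)) ≤ v) ∧
      (∀ (C : Set (Set X)) (v : ℝ), C.Nonempty → (∀ K ∈ C, IsClosed K ∧ K.Nonempty) →
        (∀ K ∈ C, ∀ K' ∈ C, K ⊆ K' ∨ K' ⊆ K) → (∀ K ∈ C, v ≤ μ K) → v ≤ μ (⋂₀ C)) := by
  obtain ⟨φ, hφc, hφ0, hφ1, hφs⟩ := mu_phi_aux (X := X)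
  have hbdd : ∀ n (K : Set X), BddAbove (φ n '' K) := by
    intro n K
    refine ⟨1, ?_⟩
    rintro _ ⟨x, -, rfl⟩
    exact hφ1 n x
  have hS0 : ∀ n (K : Set X), 0 ≤ sSup (φ n '' K) := by
    intro n K
    refine Real.sSup_nonneg ?_
    rintro _ ⟨x, -, rfl⟩
    exact hφ0 n x
  have hS1 : ∀ n (K : Set X), sSup (φ n '' K) ≤ 1 := by
    intro n K
    refine Real.sSup_le ?_ (by norm_num)
    rintro _ ⟨x, -, rfl⟩
    exact hφ1 n x
  have hSle : ∀ n (K : Set X) x, x ∈ K → φ n x ≤ sSup (φ n '' K) := by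
    intro n K x hx
    exact le_csSup (hbdd n K) ⟨x, hx, rfl⟩
  have hSmono : ∀ n (K K' : Set X), K ⊆ K' → sSup (φ n '' K) ≤ sSup (φ n '' K') := by
    intro n K K' h
    refine Real.sSup_le ?_ (hS0 n K')
    rintro _ ⟨x, hx, rfl⟩
    exact hSle n K' x (h hx)
  have hgs : Summable (fun n : ℕ => (1 / 2 : ℝ) ^ (n + 1)) := by
    have := (summable_nat_add_iff (f := fun n : ℕ => (1 / 2 : ℝ) ^ n) 1).2
      (summable_geometric_of_lt_one (by norm_num) (by norm_num))
    exact this
  have hsum : ∀ K : Set X, Summable (fun n => (1 / 2 : ℝ) ^ (n + 1) * sSup (φ n '' K)) := by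
    intro K
    refine Summable.of_nonneg_of_le (fun n => mul_nonneg (by positivity) (hS0 n K))
      (fun n => ?_) hgs
    have : (0 : ℝ) ≤ (1 / 2 : ℝ) ^ (n + 1) := by positivity
    nlinarith [hS1 n K]
  refine ⟨fun K => ∑' n, (1 / 2 : ℝ) ^ (n + 1) * sSup (φ n '' K), ?_, ?_, ?_, ?_⟩
  · intro K K' h
    refine (hsum K).tsum_le_tsum (fun n => ?_) (hsum K')
    exact mul_le_mul_of_nonneg_left (hSmono n K K' h) (by positivity)
  · intro K K' hK h
    obtain ⟨z, hz', hz⟩ := Set.exists_of_ssubset h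
    obtain ⟨n, hn0, hnz⟩ := hφs K hK z hz
    refine Summable.tsum_lt_tsum (i := n) (fun m => ?_) ?_ (hsum K) (hsum K')
    · exact mul_le_mul_of_nonneg_left (hSmono m K K' h.1) (by positivity)
    · have h1 : sSup (φ n '' K) ≤ 0 := by
        refine Real.sSup_le ?_ le_rfl
        rintro _ ⟨x, hx, rfl⟩
        exact (hn0 x hx).le
      have h2 := hSle n K' z hz'
      have : (0 : ℝ) < (1 / 2 : ℝ) ^ (n + 1) := by positivity
      exact mul_lt_mul_of_pos_left (by linarith) this
  · intro C v hC hCn hch hv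
    refine mu_key_aux (ι := C) (fun n => sSup (φ n '' closure (⋃₀ C)))
      (fun K n => sSup (φ n '' (K : Set X))) v (fun n => hS0 n _)
      (fun K n => hS0 n _) (fun K n => hS1 n _) ?_ (fun K => hv K K.2)
    intro M ε hε
    have hsingle : ∀ n, ∃ K ∈ C, sSup (φ n '' closure (⋃₀ C)) ≤ sSup (φ n '' K) + ε := by
      intro n
      by_contra hcon
      push Not at hcon
      have hsub : closure (⋃₀ C) ⊆ {x | φ n x ≤ sSup (φ n '' closure (⋃₀ C)) - ε} := by
        refine closure_minimal ?_ (isClosed_le (hφc n) continuous_const)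
        rintro x ⟨K, hKC, hxK⟩
        have h1 := hcon K hKC
        have h2 := hSle n K x hxK
        show φ n x ≤ _
        linarith
      obtain ⟨K, hKC⟩ := hC
      obtain ⟨x, hxK⟩ := hCn K hKC
      have hne : (φ n '' closure (⋃₀ C)).Nonempty :=
        ⟨φ n x, x, subset_closure ⟨K, hKC, hxK⟩, rfl⟩
      have : sSup (φ n '' closure (⋃₀ C)) ≤ sSup (φ n '' closure (⋃₀ C)) - ε := by
        refine csSup_le hne ?_
        rintro _ ⟨y, hy, rfl⟩
        exact hsub hy
      linarith
    induction M with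
    | zero =>
      obtain ⟨K, hKC⟩ := hC
      exact ⟨⟨K, hKC⟩, fun n hn => absurd hn (Nat.not_lt_zero n)⟩
    | succ M ih =>
      obtain ⟨⟨K, hKC⟩, hK⟩ := ih
      obtain ⟨K', hK'C, hK'⟩ := hsingle M
      rcases hch K hKC K' hK'C with h | h
      · refine ⟨⟨K', hK'C⟩, fun n hn => ?_⟩
        rcases Nat.lt_succ_iff_lt_or_eq.1 hn with h' | h'
        · have h1 := hK n h'
          have h2 := hSmono n K K' h
          simp only at h1 ⊢
          linarith
        · subst h'
          exact hK'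
      · refine ⟨⟨K, hKC⟩, fun n hn => ?_⟩
        rcases Nat.lt_succ_iff_lt_or_eq.1 hn with h' | h'
        · exact hK n h'
        · subst h'
          have h2 := hSmono n K' K h
          simp only
          linarith
  · intro C v hC hCc hch hv
    have hsub1 : ∀ K : Set X, ∑' n, (1 / 2 : ℝ) ^ (n + 1) * (1 - sSup (φ n '' K))
        = (∑' n : ℕ, (1 / 2 : ℝ) ^ (n + 1))
          - ∑' n, (1 / 2 : ℝ) ^ (n + 1) * sSup (φ n '' K) := by
      intro K
      rw [← hgs.tsum_sub (hsum K)]
      refine tsum_congr (fun n => ?_)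
      ring
    have hmain := mu_key_aux (ι := C) (fun n => 1 - sSup (φ n '' ⋂₀ C))
      (fun K n => 1 - sSup (φ n '' (K : Set X))) 
      ((∑' n : ℕ, (1 / 2 : ℝ) ^ (n + 1)) - v)
      (fun n => by have := hS1 n (⋂₀ C); linarith)
      (fun K n => by have := hS1 n (K : Set X); linarith)
      (fun K n => by have := hS0 n (K : Set X); linarith) ?_
      (fun K => by
        rw [hsub1]
        have := hv K K.2
        linarith)
    · rw [hsub1] at hmain
      simp only
      linarith
    intro M ε hε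
    have hsingle : ∀ n, ∃ K ∈ C, sSup (φ n '' K) ≤ sSup (φ n '' ⋂₀ C) + ε := by
      intro n
      by_contra hcon
      push Not at hcon
      have hne : (⋂ K : C, ((K : Set X) ∩ {x | sSup (φ n '' ⋂₀ C) + ε ≤ φ n x})).Nonempty := by
        have : Nonempty C := hC.to_subtype
        refine IsCompact.nonempty_iInter_of_directed_nonempty_isCompact_isClosed _ ?_ ?_ ?_ ?_
        · rintro ⟨K, hK⟩ ⟨K', hK'⟩
          rcases hch K hK K' hK' with h | h
          · refine ⟨⟨K, hK⟩, le_rfl, ?_⟩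
            exact Set.inter_subset_inter_left _ h
          · refine ⟨⟨K', hK'⟩, ?_, le_rfl⟩
            exact Set.inter_subset_inter_left _ h
        · rintro ⟨K, hK⟩
          obtain ⟨_, ⟨x, hx, rfl⟩, hlt⟩ := exists_lt_of_lt_csSup
            ((hCc K hK).2.image (φ n)) (hcon K hK)
          exact ⟨x, hx, hlt.le⟩
        · rintro ⟨K, hK⟩
          exact ((hCc K hK).1.inter (isClosed_le continuous_const (hφc n))).isCompact
        · rintro ⟨K, hK⟩
          exact (hCc K hK).1.inter (isClosed_le continuous_const (hφc n))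
      obtain ⟨z, hz⟩ := hne
      rw [Set.mem_iInter] at hz
      have hzC : z ∈ ⋂₀ C := by
        rw [Set.mem_sInter]
        intro K hK
        exact (hz ⟨K, hK⟩).1
      obtain ⟨K, hK⟩ := hC
      have h1 : sSup (φ n '' ⋂₀ C) + ε ≤ φ n z := (hz ⟨K, hK⟩).2
      have h2 := hSle n (⋂₀ C) z hzC
      linarith
    induction M with
    | zero =>
      obtain ⟨K, hKC⟩ := hC
      exact ⟨⟨K, hKC⟩, fun n hn => absurd hn (Nat.not_lt_zero n)⟩
    | succ M ih =>
      obtain ⟨⟨K, hKC⟩, hK⟩ := ih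
      obtain ⟨K', hK'C, hK'⟩ := hsingle M
      rcases hch K hKC K' hK'C with h | h
      · refine ⟨⟨K, hKC⟩, fun n hn => ?_⟩
        rcases Nat.lt_succ_iff_lt_or_eq.1 hn with h' | h'
        · exact hK n h'
        · subst h'
          have h2 := hSmono n K K' h
          simp only
          linarith
      · refine ⟨⟨K', hK'C⟩, fun n hn => ?_⟩
        rcases Nat.lt_succ_iff_lt_or_eq.1 hn with h' | h'
        · have h1 := hK n h'
          have h2 := hSmono n K' K h
          simp only at h1 ⊢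
          linarith
        · subst h'
          simp only
          linarith

end H64DN
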