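import Pool.Agent.Helper64.DN.Nu

/-!
DN-2 (Par1): one fold `t`.  `Ind S {t} {t}` says that `g t` does not depend on the coordinate `t`.

* `ind_of_rk`: `g t` depends only on coordinates of rank `< rk t ≤ rk t'`, so not on `t' ∈ T₂`.
* `sol_single`: `Sol S {t} U z = {w | w = update z t y, y a non-fold solution of nu y = g t z, w ∈ U}`.
* `par_single_total`: the number of non-fold solutions of `nu y = c` is 1 (c ≤ 1/3 or c ≥ 2/3) or 3.
* `par_single_RC`.  Let `v₁ z = [update z t (lam false (g t z)) ∈ U]` (continuous = locally constant on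
  `A ∩ {g t ≤ 2/3}`), `v₂ z = [update z t (1 - g t z) ∈ U]` (on `A ∩ {1/3 ≤ g t ≤ 2/3}`), `v₃ z =
  [update z t (lam true (g t z)) ∈ U]` (on `A ∩ {1/3 ≤ g t}`).  Membership `z ∈ Par` is (for `z ∈ A`)
  `v₁` if `g ≤ 1/3`, `xor v₁ v₂ v₃` if `1/3 ≤ g ≤ 2/3` and `v₃` if `2/3 ≤ g`; this is consistent, because
  at `g = 1/3` the points of `v₂` and `v₃` coincide (`y = 2/3`), at `g = 2/3` those of `v₁` and `v₂`
  (`y = 1/3`).  On each of the three closed pieces of `A` the set `Par` is relatively clopen, since `U`
  and `(A ∩ Om) \ U` are closed and the three section maps are continuous on the pieces.  Hence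
  `Par ∩ A` and `A \ Par` are finite unions of closed sets.  `Par ⊆ A` by `Cyl {t} A`.
-/

set_option autoImplicit false

namespace H64DN

open Set Topology

variable {J : Type}

theorem ind_of_rk (S : FS J) (T₁ T₂ : Finset J) (h : ∀ t ∈ T₁, ∀ t' ∈ T₂, S.rk t ≤ S.rk t') :
    Ind S T₁ T₂ := by
  intro t ht z z' hz
  refine S.dep t z z' fun i hi => hz i fun hi2 => ?_
  have := h t ht i hi2
  omega

private theorem nf_low {y c : unitInterval} (h : (c : ℝ) ≤ 1 / 3) :
    (nu y = c ∧ NF y) ↔ y = lam false c := by
  constructor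
  · rintro ⟨e, n1, n2⟩
    apply Subtype.ext
    rw [lam_false_coe]
    rcases (nu_eq_iff y.2.2).1 e with ⟨_, h1⟩ | ⟨a, b, h1⟩ | ⟨a, h1⟩
    · exact h1
    · exact absurd (by linarith) n2
    · exact absurd (by linarith) n2
  · rintro rfl
    refine ⟨nu_lam_false (by linarith), ?_, ?_⟩ <;> rw [lam_false_coe] <;> intro h' <;> linarith

private theorem nf_high {y c : unitInterval} (h : 2 / 3 ≤ (c : ℝ)) :
    (nu y = c ∧ NF y) ↔ y = lam true c := by
  constructor
  · rintro ⟨e, n1, n2⟩
    apply Subtype.ext
    rw [lam_true_coe]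
    rcases (nu_eq_iff y.2.2).1 e with ⟨a, h1⟩ | ⟨a, b, h1⟩ | ⟨_, h1⟩
    · exact absurd (by linarith) n1
    · exact absurd (by linarith) n1
    · exact h1
  · rintro rfl
    refine ⟨nu_lam_true (by linarith), ?_, ?_⟩ <;> rw [lam_true_coe] <;> intro h' <;> linarith

private theorem nf_mid {y c : unitInterval} (h1 : 1 / 3 < (c : ℝ)) (h2 : (c : ℝ) < 2 / 3) :
    (nu y = c ∧ NF y) ↔ y = lam false c ∨ y = unitInterval.symm c ∨ y = lam true c := by
  constructor
  · rintro ⟨e, n1, n2⟩
    rcases (nu_eq_iff y.2.2).1 e with ⟨_, h⟩ | ⟨_, _, h⟩ | ⟨_, h⟩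
    · left
      apply Subtype.ext
      rw [lam_false_coe, h]
    · right; left
      apply Subtype.ext
      rw [unitInterval.coe_symm_eq, h]
    · right; right
      apply Subtype.ext
      rw [lam_true_coe, h]
  · rintro (rfl | rfl | rfl)
    · refine ⟨nu_lam_false (by linarith), ?_, ?_⟩ <;> rw [lam_false_coe] <;> intro h' <;> linarith
    · refine ⟨?_, ?_, ?_⟩
      · rw [unitInterval.coe_symm_eq, nu_mid (by linarith) (by linarith)]
        ring
      · rw [unitInterval.coe_symm_eq]
        intro h'
        linarith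
      · rw [unitInterval.coe_symm_eq]
        intro h'
        linarith
    · refine ⟨nu_lam_true (by linarith), ?_, ?_⟩ <;> rw [lam_true_coe] <;> intro h' <;> linarith

private theorem nf_finite (c : unitInterval) : {y : unitInterval | nu y = c ∧ NF y}.Finite := by
  rcases le_or_gt (c : ℝ) (1 / 3) with h | h
  · refine (Set.finite_singleton (lam false c)).subset fun y hy => (nf_low h).1 hy
  · rcases le_or_gt (2 / 3) (c : ℝ) with h' | h'
    · refine (Set.finite_singleton (lam true c)).subset fun y hy => (nf_high h').1 hy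
    · refine (Set.toFinite {lam false c, unitInterval.symm c, lam true c}).subset
        fun y hy => (nf_mid h h').1 hy

private theorem nf_odd (c : unitInterval) : Odd {y : unitInterval | nu y = c ∧ NF y}.ncard := by
  rcases le_or_gt (c : ℝ) (1 / 3) with h | h
  · have : {y : unitInterval | nu y = c ∧ NF y} = {lam false c} := Set.ext fun y => nf_low h
    rw [this, Set.ncard_singleton]
    exact odd_one
  · rcases le_or_gt (2 / 3) (c : ℝ) with h' | h'
    · have : {y : unitInterval | nu y = c ∧ NF y} = {lam true c} := Set.ext fun y => nf_high h'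
      rw [this, Set.ncard_singleton]
      exact odd_one
    · have : {y : unitInterval | nu y = c ∧ NF y}.ncard = 3 := by
        refine Set.ncard_eq_three.2 ⟨lam false c, unitInterval.symm c, lam true c, ?_, ?_, ?_,
          Set.ext fun y => nf_mid h h'⟩ <;> intro e <;> have e' := congrArg (Subtype.val) e <;>
          simp only [lam_false_coe, lam_true_coe, unitInterval.coe_symm_eq] at e' <;> linarith
      rw [this]
      exact ⟨1, rfl⟩

open Classical in
theorem sol_single (S : FS J) (t : J) (ht : Ind S {t} {t}) (U : Set (J → unitInterval))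
    (z : J → unitInterval) :
    Sol S {t} U z = {w | ∃ y : unitInterval, nu y = S.g t z ∧ NF y ∧ w = Function.update z t y ∧
      w ∈ U} := by
  ext w
  constructor
  · rintro ⟨hU, hO, hz, hN⟩
    have hw : w = Function.update z t (w t) := by
      funext j
      by_cases hj : j = t
      · subst hj
        rw [Function.update_self]
      · rw [Function.update_of_ne hj]
        exact hz j (by simpa using hj)
    have hg : S.g t w = S.g t z := ht t (Finset.mem_singleton_self t) w z hz
    exact ⟨w t, by rw [← hg]; exact hO t (Finset.mem_singleton_self t),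
      hN t (Finset.mem_singleton_self t), hw, hU⟩
  · rintro ⟨y, hy, hN, rfl, hU⟩
    have hz : ∀ j, j ∉ ({t} : Finset J) → Function.update z t y j = z j := fun j hj =>
      Function.update_of_ne (by simpa using hj) _ _
    have hg : S.g t (Function.update z t y) = S.g t z :=
      ht t (Finset.mem_singleton_self t) _ z hz
    refine ⟨hU, fun t' ht' => ?_, hz, fun t' ht' => ?_⟩
    · rw [Finset.mem_singleton.1 ht', hg, Function.update_self]
      exact hy
    · rw [Finset.mem_singleton.1 ht', Function.update_self]
      exact hN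

theorem sol_single_finite (S : FS J) (t : J) (ht : Ind S {t} {t}) (U : Set (J → unitInterval))
    (z : J → unitInterval) : (Sol S {t} U z).Finite := by
  classical
  rw [sol_single S t ht U z]
  refine ((nf_finite (S.g t z)).image (fun y => Function.update z t y)).subset ?_
  rintro w ⟨y, h1, h2, h3, _⟩
  exact ⟨y, ⟨h1, h2⟩, h3.symm⟩

theorem par_single_total (S : FS J) (t : J) (ht : Ind S {t} {t}) :
    Par S {t} (univ : Set (J → unitInterval)) = univ := by
  classical
  refine Set.eq_univ_of_forall fun z => ?_
  show Odd (Sol S {t} univ z).ncard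
  have h : Sol S {t} univ z =
      (fun y => Function.update z t y) '' {y : unitInterval | nu y = S.g t z ∧ NF y} := by
    rw [sol_single S t ht univ z]
    ext w
    constructor
    · rintro ⟨y, h1, h2, h3, _⟩
      exact ⟨y, ⟨h1, h2⟩, h3.symm⟩
    · rintro ⟨y, ⟨h1, h2⟩, h3⟩
      exact ⟨y, h1, h2, h3.symm, mem_univ _⟩
  rw [h, Set.ncard_image_of_injective _ (Function.update_injective z t)]
  exact nf_odd _

open Classical in
private theorem par_aux (S : FS J) (t : J) (ht : Ind S {t} {t}) (U : Set (J → unitInterval))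
    (z : J → unitInterval) (x : unitInterval)
    (hx : ∀ y : unitInterval, (nu y = S.g t z ∧ NF y) ↔ y = x) :
    z ∈ Par S {t} U ↔ Function.update z t x ∈ U := by
  show Odd (Sol S {t} U z).ncard ↔ _
  rw [sol_single S t ht U z]
  by_cases hU : Function.update z t x ∈ U
  · have : {w | ∃ y : unitInterval, nu y = S.g t z ∧ NF y ∧ w = Function.update z t y ∧
        w ∈ U} = {Function.update z t x} := by
      ext w
      constructor
      · rintro ⟨y, h1, h2, h3, _⟩
        rw [h3, (hx y).1 ⟨h1, h2⟩]
        rfl
      · intro hw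
        have hw' : w = Function.update z t x := hw
        exact ⟨x, ((hx x).2 rfl).1, ((hx x).2 rfl).2, hw', by rw [hw']; exact hU⟩
    rw [this, Set.ncard_singleton]
    exact ⟨fun _ => hU, fun _ => odd_one⟩
  · have : {w | ∃ y : unitInterval, nu y = S.g t z ∧ NF y ∧ w = Function.update z t y ∧
        w ∈ U} = ∅ := by
      rw [Set.eq_empty_iff_forall_notMem]
      rintro w ⟨y, h1, h2, h3, h4⟩
      apply hU
      rw [← (hx y).1 ⟨h1, h2⟩, ← h3]
      exact h4
    rw [this, Set.ncard_empty]
    exact ⟨fun h => absurd h (by decide), fun h => absurd h hU⟩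

open Classical in
theorem mem_par_single_low (S : FS J) (t : J) (ht : Ind S {t} {t}) (U : Set (J → unitInterval))
    (z : J → unitInterval) (h : (S.g t z : ℝ) < 1 / 3) :
    z ∈ Par S {t} U ↔ Function.update z t (lam false (S.g t z)) ∈ U :=
  par_aux S t ht U z _ fun _ => nf_low h.le

open Classical in
theorem mem_par_single_high (S : FS J) (t : J) (ht : Ind S {t} {t}) (U : Set (J → unitInterval))
    (z : J → unitInterval) (h : 2 / 3 < (S.g t z : ℝ)) :
    z ∈ Par S {t} U ↔ Function.update z t (lam true (S.g t z)) ∈ U :=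
  par_aux S t ht U z _ fun _ => nf_high h.le

end H64DN
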