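import Pool.Agent.Helper64.DN.Par1a

/-!
DN-2 (Par1): one fold `t`.  `Ind S {t} {t}` says that `g t` does not depend on the coordinate `t`.

* `ind_of_rk`: `g t` depends only on coordinates of rank `< rk t ≤ rk t'`, so not on `t' ∈ T₂`.
* `sol_single`: `Sol S {t} U z = {w | w = update z t y, y a non-fold solution of nu y = g t z, w ∈ U}`.
* `par_single_total`: the number of non-fold solutions of `nu y = c` is 1 (c ≤ 1/3 or c ≥ 2/3) or 3.
* `par_single_RC`.  Let `v₁ z = [update z t (lam false (g t z)) ∈ U]` (continuous = locally constant on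
  `A ∩ {g t ≤ 2/3}`), `v₂ z = [update z t (1 - g t z) ∈ U]` (on `A ∩ {1/3 ≤ g t ≤ 2/3}`), `v₃ z =
  [update z t (lam true (g t z)) ∈ U]` (on `A ∩ {1/3 ≤ g t}`).  Membership `z ∈ Par` is (for `z ∈ A`)
  `v₁` if `g ≤ 1/3`, `xor v₁ v₂ v₃` if `1/3 ≤ g ≤ 2/3` and `v₃` if `2/3 ≤ g`; this is consistent, because
  at `g = 1/3` the points of `v₂` and `v₃` coincide (`y = 2/3`), at `g = 2/3` those of `v₁` and `v₂`
  (`y = 1/3`).  On each of the three closed pieces of `A` the set `Par` is relatively clopen, since `U`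
  and `(A ∩ Om) \ U` are closed and the three section maps are continuous on the pieces.  Hence
  `Par ∩ A` and `A \ Par` are finite unions of closed sets.  `Par ⊆ A` by `Cyl {t} A`.
-/

set_option autoImplicit false

namespace H64DN

open Set Topology

variable {J : Type}

open Classical in
private theorem g_update (S : FS J) (t : J) (ht : Ind S {t} {t}) (z : J → unitInterval)
    (y : unitInterval) : S.g t (Function.update z t y) = S.g t z := by
  refine ht t (Finset.mem_singleton_self t) _ _ fun i hi => ?_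
  rw [Finset.mem_singleton] at hi
  exact Function.update_of_ne hi _ _

open Classical in
private theorem upd_mem_Om (S : FS J) (t : J) (ht : Ind S {t} {t}) (z : J → unitInterval)
    (y : unitInterval) (h : nu y = S.g t z) : Function.update z t y ∈ Om S {t} := by
  intro t' ht'
  rw [Finset.mem_singleton] at ht'
  subst ht'
  rw [Function.update_self, g_update S t' ht]
  exact h

open Classical in
private theorem upd_mem_A (t : J) (A : Set (J → unitInterval)) (hc : Cyl {t} A)
    (z : J → unitInterval) (y : unitInterval) (hz : z ∈ A) : Function.update z t y ∈ A := by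
  refine hc z hz _ fun j hj => ?_
  rw [Set.mem_singleton_iff] at hj
  exact Function.update_of_ne hj _ _

private theorem ncard_single_inter {X : Type} (s : X) (U : Set X) :
    (s ∈ U ∧ ({s} ∩ U : Set X).ncard = 1) ∨ (s ∉ U ∧ ({s} ∩ U : Set X).ncard = 0) := by
  by_cases h : s ∈ U
  · left
    refine ⟨h, ?_⟩
    rw [Set.inter_eq_left.mpr (Set.singleton_subset_iff.mpr h), Set.ncard_singleton]
  · right
    refine ⟨h, ?_⟩
    rw [Set.singleton_inter_eq_empty.mpr h, Set.ncard_empty]

private theorem nu_symm {c : unitInterval} (h1 : 1 / 3 ≤ (c : ℝ)) (h2 : (c : ℝ) ≤ 2 / 3) :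
    nu (unitInterval.symm c) = c := by
  rw [unitInterval.coe_symm_eq, nu_mid (by linarith) (by linarith)]
  ring

open Classical in
private theorem par_le (S : FS J) (t : J) (ht : Ind S {t} {t}) (U : Set (J → unitInterval))
    (z : J → unitInterval) (h : (S.g t z : ℝ) ≤ 1 / 3) :
    z ∈ Par S {t} U ↔ Function.update z t (lam false (S.g t z)) ∈ U := by
  rcases h.lt_or_eq with h1 | h1
  · exact mem_par_single_low S t ht U z h1
  · have h2 : Sol S {t} U z = {Function.update z t (lam false (S.g t z))} ∩ U := by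
      rw [sol_single S t ht U z]
      ext w
      simp only [Set.mem_setOf_eq, Set.mem_inter_iff, Set.mem_singleton_iff]
      constructor
      · rintro ⟨y, hy, hn, hw, hwU⟩
        refine ⟨?_, hwU⟩
        rcases (nu_eq_iff y.2.2).1 hy with ⟨_, e⟩ | ⟨_, _, e⟩ | ⟨_, e⟩
        · have : y = lam false (S.g t z) := Subtype.ext (by rw [lam_false_coe]; exact e)
          rw [hw, this]
        · exact absurd (by rw [e, h1]; norm_num) hn.2
        · exact absurd (by rw [e, h1]; norm_num) hn.2
      · rintro ⟨hw, hwU⟩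
        refine ⟨lam false (S.g t z), nu_lam_false (by rw [h1]; norm_num), ?_, hw, hwU⟩
        constructor
        · rw [lam_false_coe, h1]; norm_num
        · rw [lam_false_coe, h1]; norm_num
    change Odd (Sol S {t} U z).ncard ↔ _
    rw [h2]
    rcases ncard_single_inter (Function.update z t (lam false (S.g t z))) U with ⟨a, b⟩ | ⟨a, b⟩
    · rw [b]; simp [a]
    · rw [b]; simp [a]

open Classical in
private theorem par_ge (S : FS J) (t : J) (ht : Ind S {t} {t}) (U : Set (J → unitInterval))
    (z : J → unitInterval) (h : 2 / 3 ≤ (S.g t z : ℝ)) :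
    z ∈ Par S {t} U ↔ Function.update z t (lam true (S.g t z)) ∈ U := by
  rcases h.lt_or_eq with h1 | h1
  · exact mem_par_single_high S t ht U z h1
  · have h1' : (S.g t z : ℝ) = 2 / 3 := h1.symm
    have h2 : Sol S {t} U z = {Function.update z t (lam true (S.g t z))} ∩ U := by
      rw [sol_single S t ht U z]
      ext w
      simp only [Set.mem_setOf_eq, Set.mem_inter_iff, Set.mem_singleton_iff]
      constructor
      · rintro ⟨y, hy, hn, hw, hwU⟩
        refine ⟨?_, hwU⟩
        rcases (nu_eq_iff y.2.2).1 hy with ⟨_, e⟩ | ⟨_, _, e⟩ | ⟨_, e⟩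
        · exact absurd (by rw [e, h1']; norm_num) hn.1
        · exact absurd (by rw [e, h1']; norm_num) hn.1
        · have : y = lam true (S.g t z) := Subtype.ext (by rw [lam_true_coe]; exact e)
          rw [hw, this]
      · rintro ⟨hw, hwU⟩
        refine ⟨lam true (S.g t z), nu_lam_true (by rw [h1']; norm_num), ?_, hw, hwU⟩
        constructor
        · rw [lam_true_coe, h1']; norm_num
        · rw [lam_true_coe, h1']; norm_num
    change Odd (Sol S {t} U z).ncard ↔ _
    rw [h2]
    rcases ncard_single_inter (Function.update z t (lam true (S.g t z))) U with ⟨a, b⟩ | ⟨a, b⟩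
    · rw [b]; simp [a]
    · rw [b]; simp [a]

open Classical in
private theorem par_mid (S : FS J) (t : J) (ht : Ind S {t} {t}) (U : Set (J → unitInterval))
    (z : J → unitInterval) (h1 : 1 / 3 ≤ (S.g t z : ℝ)) (h2 : (S.g t z : ℝ) ≤ 2 / 3) :
    z ∈ Par S {t} U ↔
      Xor (Xor (Function.update z t (lam false (S.g t z)) ∈ U)
        (Function.update z t (unitInterval.symm (S.g t z)) ∈ U))
        (Function.update z t (lam true (S.g t z)) ∈ U) := by
  rcases h1.lt_or_eq with h3 | h3
  · rcases h2.lt_or_eq with h4 | h4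
    · have hne12 : Function.update z t (lam false (S.g t z)) ≠
          Function.update z t (unitInterval.symm (S.g t z)) := by
        intro e
        have e1 := congrFun e t
        rw [Function.update_self, Function.update_self] at e1
        have e2 : ((lam false (S.g t z) : unitInterval) : ℝ) =
          ((unitInterval.symm (S.g t z) : unitInterval) : ℝ) := by rw [e1]
        rw [lam_false_coe, unitInterval.coe_symm_eq] at e2
        linarith
      have hne13 : Function.update z t (lam false (S.g t z)) ≠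
          Function.update z t (lam true (S.g t z)) := by
        intro e
        have e1 := congrFun e t
        rw [Function.update_self, Function.update_self] at e1
        have e2 : ((lam false (S.g t z) : unitInterval) : ℝ) =
          ((lam true (S.g t z) : unitInterval) : ℝ) := by rw [e1]
        rw [lam_false_coe, lam_true_coe] at e2
        linarith
      have hne23 : Function.update z t (unitInterval.symm (S.g t z)) ≠
          Function.update z t (lam true (S.g t z)) := by
        intro e
        have e1 := congrFun e t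
        rw [Function.update_self, Function.update_self] at e1
        have e2 : ((unitInterval.symm (S.g t z) : unitInterval) : ℝ) =
          ((lam true (S.g t z) : unitInterval) : ℝ) := by rw [e1]
        rw [lam_true_coe, unitInterval.coe_symm_eq] at e2
        linarith
      have hS : Sol S {t} U z = ({Function.update z t (lam false (S.g t z))} ∩ U) ∪
          (({Function.update z t (unitInterval.symm (S.g t z))} ∩ U) ∪
            ({Function.update z t (lam true (S.g t z))} ∩ U)) := by
        rw [sol_single S t ht U z]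
        ext w
        simp only [Set.mem_setOf_eq, Set.mem_union, Set.mem_inter_iff, Set.mem_singleton_iff]
        constructor
        · rintro ⟨y, hy, hn, hw, hwU⟩
          rcases (nu_eq_iff y.2.2).1 hy with ⟨_, e⟩ | ⟨_, _, e⟩ | ⟨_, e⟩
          · have : y = lam false (S.g t z) := Subtype.ext (by rw [lam_false_coe]; exact e)
            left
            exact ⟨by rw [hw, this], hwU⟩
          · have : y = unitInterval.symm (S.g t z) :=
              Subtype.ext (by rw [unitInterval.coe_symm_eq]; exact e)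
            right; left
            exact ⟨by rw [hw, this], hwU⟩
          · have : y = lam true (S.g t z) := Subtype.ext (by rw [lam_true_coe]; exact e)
            right; right
            exact ⟨by rw [hw, this], hwU⟩
        · rintro (⟨hw, hwU⟩ | ⟨hw, hwU⟩ | ⟨hw, hwU⟩)
          · refine ⟨lam false (S.g t z), nu_lam_false h2, ?_, hw, hwU⟩
            constructor
            · rw [lam_false_coe]; intro e; linarith
            · rw [lam_false_coe]; intro e; linarith
          · refine ⟨unitInterval.symm (S.g t z), nu_symm h1 h2, ?_, hw, hwU⟩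
            constructor
            · rw [unitInterval.coe_symm_eq]; intro e; linarith
            · rw [unitInterval.coe_symm_eq]; intro e; linarith
          · refine ⟨lam true (S.g t z), nu_lam_true h1, ?_, hw, hwU⟩
            constructor
            · rw [lam_true_coe]; intro e; linarith
            · rw [lam_true_coe]; intro e; linarith
      have hfin : ∀ x : J → unitInterval, ({x} ∩ U : Set (J → unitInterval)).Finite := fun x =>
        (Set.finite_singleton x).inter_of_left U
      have hd23 : Disjoint ({Function.update z t (unitInterval.symm (S.g t z))} ∩ U)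
          ({Function.update z t (lam true (S.g t z))} ∩ U) :=
        (Set.disjoint_singleton.mpr hne23).mono Set.inter_subset_left Set.inter_subset_left
      have hd1 : Disjoint ({Function.update z t (lam false (S.g t z))} ∩ U)
          (({Function.update z t (unitInterval.symm (S.g t z))} ∩ U) ∪
            ({Function.update z t (lam true (S.g t z))} ∩ U)) := by
        rw [Set.disjoint_union_right]
        exact ⟨(Set.disjoint_singleton.mpr hne12).mono Set.inter_subset_left
          Set.inter_subset_left, (Set.disjoint_singleton.mpr hne13).mono Set.inter_subset_left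
          Set.inter_subset_left⟩
      change Odd (Sol S {t} U z).ncard ↔ _
      rw [hS, Set.ncard_union_eq hd1 (hfin _) ((hfin _).union (hfin _)),
        Set.ncard_union_eq hd23 (hfin _) (hfin _)]
      rcases ncard_single_inter (Function.update z t (lam false (S.g t z))) U with
        ⟨a1, b1⟩ | ⟨a1, b1⟩ <;>
      rcases ncard_single_inter (Function.update z t (unitInterval.symm (S.g t z))) U with
        ⟨a2, b2⟩ | ⟨a2, b2⟩ <;>
      rcases ncard_single_inter (Function.update z t (lam true (S.g t z))) U with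
        ⟨a3, b3⟩ | ⟨a3, b3⟩ <;>
      rw [b1, b2, b3] <;> simp only [a1, a2, a3, Xor] <;> decide
    · have e : lam false (S.g t z) = unitInterval.symm (S.g t z) :=
        Subtype.ext (by rw [lam_false_coe, unitInterval.coe_symm_eq, h4]; norm_num)
      rw [par_ge S t ht U z h4.ge, e]
      by_cases a1 : Function.update z t (unitInterval.symm (S.g t z)) ∈ U <;>
        by_cases a2 : Function.update z t (lam true (S.g t z)) ∈ U <;> simp [a1, a2, Xor]
  · have h3' : (S.g t z : ℝ) = 1 / 3 := h3.symm
    have e : unitInterval.symm (S.g t z) = lam true (S.g t z) :=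
      Subtype.ext (by rw [lam_true_coe, unitInterval.coe_symm_eq, h3']; norm_num)
    rw [par_le S t ht U z h3'.le, e]
    by_cases a1 : Function.update z t (lam false (S.g t z)) ∈ U <;>
      by_cases a2 : Function.update z t (lam true (S.g t z)) ∈ U <;> simp [a1, a2, Xor]

theorem par_single_RC (S : FS J) (t : J) (ht : Ind S {t} {t}) (A : Set (J → unitInterval))
    (hA : IsClosed A) (hc : Cyl {t} A) (U : Set (J → unitInterval))
    (hU : RC (A ∩ Om S {t}) U) : RC A (Par S {t} U) := by
  classical
  obtain ⟨hUA, hUc, hUd⟩ := hU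
  have hgc : Continuous (fun z => ((S.g t z : unitInterval) : ℝ)) :=
    continuous_subtype_val.comp (S.cont t)
  -- the three sections
  obtain ⟨s1, hs1⟩ : ∃ f : (J → unitInterval) → (J → unitInterval),
    ∀ z, f z = Function.update z t (lam false (S.g t z)) := ⟨_, fun _ => rfl⟩
  obtain ⟨s2, hs2⟩ : ∃ f : (J → unitInterval) → (J → unitInterval),
    ∀ z, f z = Function.update z t (unitInterval.symm (S.g t z)) := ⟨_, fun _ => rfl⟩
  obtain ⟨s3, hs3⟩ : ∃ f : (J → unitInterval) → (J → unitInterval),
    ∀ z, f z = Function.update z t (lam true (S.g t z)) := ⟨_, fun _ => rfl⟩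
  have c1 : Continuous s1 := by
    rw [funext hs1]
    exact continuous_id.update t ((lam_continuous false).comp (S.cont t))
  have c2 : Continuous s2 := by
    rw [funext hs2]
    exact continuous_id.update t (unitInterval.continuous_symm.comp (S.cont t))
  have c3 : Continuous s3 := by
    rw [funext hs3]
    exact continuous_id.update t ((lam_continuous true).comp (S.cont t))
  -- complements
  have w1 : ∀ z ∈ A, (S.g t z : ℝ) ≤ 2 / 3 → (s1 z ∈ (A ∩ Om S {t}) \ U ↔ ¬ s1 z ∈ U) := by
    intro z hz h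
    refine ⟨fun h' => h'.2, fun h' => ⟨⟨?_, ?_⟩, h'⟩⟩
    · rw [hs1]; exact upd_mem_A t A hc z _ hz
    · rw [hs1]; exact upd_mem_Om S t ht z _ (nu_lam_false h)
  have w2 : ∀ z ∈ A, 1 / 3 ≤ (S.g t z : ℝ) → (S.g t z : ℝ) ≤ 2 / 3 →
      (s2 z ∈ (A ∩ Om S {t}) \ U ↔ ¬ s2 z ∈ U) := by
    intro z hz h h'
    refine ⟨fun h' => h'.2, fun h' => ⟨⟨?_, ?_⟩, h'⟩⟩
    · rw [hs2]; exact upd_mem_A t A hc z _ hz
    · rw [hs2]; exact upd_mem_Om S t ht z _ (nu_symm h (by assumption))
  have w3 : ∀ z ∈ A, 1 / 3 ≤ (S.g t z : ℝ) → (s3 z ∈ (A ∩ Om S {t}) \ U ↔ ¬ s3 z ∈ U) := by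
    intro z hz h
    refine ⟨fun h' => h'.2, fun h' => ⟨⟨?_, ?_⟩, h'⟩⟩
    · rw [hs3]; exact upd_mem_A t A hc z _ hz
    · rw [hs3]; exact upd_mem_Om S t ht z _ (nu_lam_true h)
  have pl : ∀ z, (S.g t z : ℝ) ≤ 1 / 3 → (z ∈ Par S {t} U ↔ s1 z ∈ U) := by
    intro z h
    rw [hs1]; exact par_le S t ht U z h
  have pg : ∀ z, 2 / 3 ≤ (S.g t z : ℝ) → (z ∈ Par S {t} U ↔ s3 z ∈ U) := by
    intro z h
    rw [hs3]; exact par_ge S t ht U z h
  have pm : ∀ z, 1 / 3 ≤ (S.g t z : ℝ) → (S.g t z : ℝ) ≤ 2 / 3 →
      (z ∈ Par S {t} U ↔ Xor (Xor (s1 z ∈ U) (s2 z ∈ U)) (s3 z ∈ U)) := by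
    intro z h h'
    rw [hs1, hs2, hs3]; exact par_mid S t ht U z h h'
  have hsub : Par S {t} U ⊆ A := by
    intro z hz
    have h1 : (Sol S {t} U z).Nonempty := by
      by_contra h2
      rw [Set.not_nonempty_iff_eq_empty] at h2
      have h3 : Odd (Sol S {t} U z).ncard := hz
      rw [h2, Set.ncard_empty] at h3
      exact absurd h3 (by decide)
    obtain ⟨w, hwU, _, hw, _⟩ := h1
    refine hc w (hUA hwU).1 z fun j hj => ?_
    rw [Set.mem_singleton_iff] at hj
    exact (hw j (by rwa [Finset.mem_singleton])).symm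
  have kV1 : IsClosed (s1 ⁻¹' U) := hUc.preimage c1
  have kV2 : IsClosed (s2 ⁻¹' U) := hUc.preimage c2
  have kV3 : IsClosed (s3 ⁻¹' U) := hUc.preimage c3
  have kW1 : IsClosed (s1 ⁻¹' ((A ∩ Om S {t}) \ U)) := hUd.preimage c1
  have kW2 : IsClosed (s2 ⁻¹' ((A ∩ Om S {t}) \ U)) := hUd.preimage c2
  have kW3 : IsClosed (s3 ⁻¹' ((A ∩ Om S {t}) \ U)) := hUd.preimage c3
  have kR1 : IsClosed {z : J → unitInterval | (S.g t z : ℝ) ≤ 1 / 3} :=
    isClosed_le hgc continuous_const
  have kR3 : IsClosed {z : J → unitInterval | 2 / 3 ≤ (S.g t z : ℝ)} :=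
    isClosed_le continuous_const hgc
  have kR2a : IsClosed {z : J → unitInterval | 1 / 3 ≤ (S.g t z : ℝ)} :=
    isClosed_le continuous_const hgc
  have kR2b : IsClosed {z : J → unitInterval | (S.g t z : ℝ) ≤ 2 / 3} :=
    isClosed_le hgc continuous_const
  refine ⟨hsub, ?_, ?_⟩
  · have hEq : Par S {t} U = A ∩ (({z | (S.g t z : ℝ) ≤ 1 / 3} ∩ s1 ⁻¹' U) ∪
        ({z | 2 / 3 ≤ (S.g t z : ℝ)} ∩ s3 ⁻¹' U) ∪
        (({z | 1 / 3 ≤ (S.g t z : ℝ)} ∩ {z | (S.g t z : ℝ) ≤ 2 / 3}) ∩
          ((s1 ⁻¹' U ∩ s2 ⁻¹' ((A ∩ Om S {t}) \ U) ∩ s3 ⁻¹' ((A ∩ Om S {t}) \ U)) ∪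
           (s1 ⁻¹' ((A ∩ Om S {t}) \ U) ∩ s2 ⁻¹' U ∩ s3 ⁻¹' ((A ∩ Om S {t}) \ U)) ∪
           (s1 ⁻¹' ((A ∩ Om S {t}) \ U) ∩ s2 ⁻¹' ((A ∩ Om S {t}) \ U) ∩ s3 ⁻¹' U) ∪
           (s1 ⁻¹' U ∩ s2 ⁻¹' U ∩ s3 ⁻¹' U)))) := by
      ext z
      constructor
      · intro hz
        have hzA := hsub hz
        refine ⟨hzA, ?_⟩
        rcases le_total (S.g t z : ℝ) (1 / 3) with h | h
        · exact Or.inl (Or.inl ⟨h, (pl z h).mp hz⟩)
        · rcases le_total (2 / 3) (S.g t z : ℝ) with h' | h'
          · exact Or.inl (Or.inr ⟨h', (pg z h').mp hz⟩)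
          · refine Or.inr ⟨⟨h, h'⟩, ?_⟩
            have h5 := (pm z h h').mp hz
            simp only [Set.mem_union, Set.mem_inter_iff, Set.mem_preimage]
            rw [w1 z hzA h', w2 z hzA h h', w3 z hzA h]
            unfold Xor at h5
            tauto
      · rintro ⟨hzA, (⟨h, hv⟩ | ⟨h, hv⟩) | ⟨⟨h, h'⟩, hv⟩⟩
        · exact (pl z h).mpr hv
        · exact (pg z h).mpr hv
        · have ha : 1 / 3 ≤ (S.g t z : ℝ) := h
          have hb : (S.g t z : ℝ) ≤ 2 / 3 := h'
          rw [pm z ha hb]
          simp only [Set.mem_union, Set.mem_inter_iff, Set.mem_preimage] at hv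
          rw [w1 z hzA hb, w2 z hzA ha hb, w3 z hzA ha] at hv
          unfold Xor
          tauto
    rw [hEq]
    exact hA.inter (((kR1.inter kV1).union (kR3.inter kV3)).union ((kR2a.inter kR2b).inter
      ((((kV1.inter kW2).inter kW3).union ((kW1.inter kV2).inter kW3)).union
        ((kW1.inter kW2).inter kV3) |>.union ((kV1.inter kV2).inter kV3))))
  · have hEq : A \ Par S {t} U = A ∩ (({z | (S.g t z : ℝ) ≤ 1 / 3} ∩
          s1 ⁻¹' ((A ∩ Om S {t}) \ U)) ∪
        ({z | 2 / 3 ≤ (S.g t z : ℝ)} ∩ s3 ⁻¹' ((A ∩ Om S {t}) \ U)) ∪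
        (({z | 1 / 3 ≤ (S.g t z : ℝ)} ∩ {z | (S.g t z : ℝ) ≤ 2 / 3}) ∩
          ((s1 ⁻¹' ((A ∩ Om S {t}) \ U) ∩ s2 ⁻¹' ((A ∩ Om S {t}) \ U) ∩
              s3 ⁻¹' ((A ∩ Om S {t}) \ U)) ∪
           (s1 ⁻¹' U ∩ s2 ⁻¹' U ∩ s3 ⁻¹' ((A ∩ Om S {t}) \ U)) ∪
           (s1 ⁻¹' U ∩ s2 ⁻¹' ((A ∩ Om S {t}) \ U) ∩ s3 ⁻¹' U) ∪
           (s1 ⁻¹' ((A ∩ Om S {t}) \ U) ∩ s2 ⁻¹' U ∩ s3 ⁻¹' U)))) := by
      ext z
      constructor
      · rintro ⟨hzA, hz⟩
        refine ⟨hzA, ?_⟩
        rcases le_total (S.g t z : ℝ) (1 / 3) with h | h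
        · refine Or.inl (Or.inl ⟨h, ?_⟩)
          rw [pl z h] at hz
          exact (w1 z hzA (by linarith)).mpr hz
        · rcases le_total (2 / 3) (S.g t z : ℝ) with h' | h'
          · refine Or.inl (Or.inr ⟨h', ?_⟩)
            rw [pg z h'] at hz
            exact (w3 z hzA h).mpr hz
          · refine Or.inr ⟨⟨h, h'⟩, ?_⟩
            rw [pm z h h'] at hz
            simp only [Set.mem_union, Set.mem_inter_iff, Set.mem_preimage]
            rw [w1 z hzA h', w2 z hzA h h', w3 z hzA h]
            unfold Xor at hz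
            tauto
      · rintro ⟨hzA, (⟨h, hv⟩ | ⟨h, hv⟩) | ⟨⟨h, h'⟩, hv⟩⟩
        · exact ⟨hzA, fun hz => hv.2 ((pl z h).mp hz)⟩
        · exact ⟨hzA, fun hz => hv.2 ((pg z h).mp hz)⟩
        · have ha : 1 / 3 ≤ (S.g t z : ℝ) := h
          have hb : (S.g t z : ℝ) ≤ 2 / 3 := h'
          refine ⟨hzA, ?_⟩
          rw [pm z ha hb]
          simp only [Set.mem_union, Set.mem_inter_iff, Set.mem_preimage] at hv
          rw [w1 z hzA hb, w2 z hzA ha hb, w3 z hzA ha] at hv
          unfold Xor
          tauto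
    rw [hEq]
    exact hA.inter (((kR1.inter kW1).union (kR3.inter kW3)).union ((kR2a.inter kR2b).inter
      ((((kW1.inter kW2).inter kW3).union ((kV1.inter kV2).inter kW3)).union
        ((kV1.inter kW2).inter kV3) |>.union ((kW1.inter kV2).inter kV3))))

end H64DN
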