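import Pool.Agent.Helper64.DN.Comp

/-!
DN-4 (ParG): general facts on `Par` (all easy from the definition, `par_comp` and the single fold case).

* `par_total`, `par_RC`: induction on `T.card`, removing an element `t` of maximal rank:
  `Par S T U = Par S (T.erase t) (Par S {t} U)`; `A ∩ Om S (T.erase t)` is closed and a `{t}`-cylinder
  (the functions of `T.erase t` do not depend on `t`, by rank).
* `par_diff`: `U` and `(A ∩ Om) \ U` are disjoint, `par_union`, `par_inter`, `par_inter_Om`, `par_total`.
-/

set_option autoImplicit false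

namespace H64DN

open Set Topology

variable {J : Type}

theorem om_closed (S : FS J) (T : Finset J) : IsClosed (Om S T) := by
  have h : Om S T = ⋂ t ∈ T, {z : J → unitInterval | nu (z t) = S.g t z} := by
    ext z
    simp [Om]
  rw [h]
  refine isClosed_biInter fun t _ => isClosed_eq ?_ ?_
  · exact nu_continuous.comp (continuous_subtype_val.comp (continuous_apply t))
  · exact continuous_subtype_val.comp (S.cont t)

open Classical in
theorem om_union (S : FS J) (T₁ T₂ : Finset J) : Om S (T₁ ∪ T₂) = Om S T₁ ∩ Om S T₂ := by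
  ext z
  constructor
  · intro h
    exact ⟨fun t ht => h t (Finset.mem_union_left _ ht), fun t ht => h t (Finset.mem_union_right _ ht)⟩
  · rintro ⟨h1, h2⟩ t ht
    rcases Finset.mem_union.1 ht with h | h
    · exact h1 t h
    · exact h2 t h

/-- The solutions of `T` form a cylinder in every set of directions not in `T` and not seen by `T`. -/
theorem om_cyl (S : FS J) (T R : Finset J) (hd : Disjoint T R) (hi : Ind S T R) :
    Cyl (R : Set J) (Om S T) := by
  intro z hz w hw t ht
  have htR : t ∉ (R : Set J) := fun h => Finset.disjoint_left.1 hd ht (Finset.mem_coe.1 h)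
  have h1 : w t = z t := hw t htR
  have h2 : S.g t w = S.g t z := hi t ht w z fun i hi' => hw i fun h => hi' (Finset.mem_coe.1 h)
  rw [h1, h2]
  exact hz t ht

theorem par_empty (S : FS J) (U : Set (J → unitInterval)) : Par S ∅ U = U := by
  ext z
  by_cases hz : z ∈ U
  · have h : Sol S ∅ U z = {z} := by
      ext w
      rw [Set.mem_singleton_iff]
      constructor
      · intro hw
        funext j
        exact hw.2.2.1 j (Finset.notMem_empty j)
      · rintro rfl
        exact ⟨hz, fun t ht => absurd ht (Finset.notMem_empty t), fun _ _ => rfl,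
          fun t ht => absurd ht (Finset.notMem_empty t)⟩
    have h2 : z ∈ Par S ∅ U := by
      change Odd (Sol S ∅ U z).ncard
      rw [h, Set.ncard_singleton]
      exact odd_one
    exact ⟨fun _ => hz, fun _ => h2⟩
  · have h : Sol S ∅ U z = ∅ := by
      rw [Set.eq_empty_iff_forall_notMem]
      intro w hw
      have hwz : w = z := by
        funext j
        exact hw.2.2.1 j (Finset.notMem_empty j)
      exact hz (hwz ▸ hw.1)
    constructor
    · intro h2
      change Odd (Sol S ∅ U z).ncard at h2
      rw [h, Set.ncard_empty] at h2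
      exact absurd h2 (by decide)
    · intro h2
      exact absurd h2 hz

theorem par_cyl (S : FS J) (T : Finset J) (U : Set (J → unitInterval)) :
    Cyl (T : Set J) (Par S T U) := by
  intro z hz w hw
  have h : Sol S T U w = Sol S T U z := by
    ext v
    constructor
    · rintro ⟨h1, h2, h3, h4⟩
      exact ⟨h1, h2, fun j hj => (h3 j hj).trans (hw j fun h => hj (Finset.mem_coe.1 h)), h4⟩
    · rintro ⟨h1, h2, h3, h4⟩
      exact ⟨h1, h2, fun j hj => (h3 j hj).trans (hw j fun h => hj (Finset.mem_coe.1 h)).symm, h4⟩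
  change Odd (Sol S T U w).ncard
  rw [h]
  exact hz

theorem par_inter_Om (S : FS J) (T : Finset J) (U : Set (J → unitInterval)) :
    Par S T (U ∩ Om S T) = Par S T U := by
  ext z
  have h : Sol S T (U ∩ Om S T) z = Sol S T U z := by
    ext v
    constructor
    · rintro ⟨h1, h2, h3, h4⟩
      exact ⟨h1.1, h2, h3, h4⟩
    · rintro ⟨h1, h2, h3, h4⟩
      exact ⟨⟨h1, h2⟩, h2, h3, h4⟩
  change Odd (Sol S T (U ∩ Om S T) z).ncard ↔ Odd (Sol S T U z).ncard
  rw [h]

theorem par_inter (S : FS J) (T : Finset J) (A U : Set (J → unitInterval))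
    (hA : Cyl (T : Set J) A) : Par S T (U ∩ A) = Par S T U ∩ A := by
  ext z
  by_cases hz : z ∈ A
  · have h : Sol S T (U ∩ A) z = Sol S T U z := by
      ext v
      constructor
      · rintro ⟨h1, h2, h3, h4⟩
        exact ⟨h1.1, h2, h3, h4⟩
      · rintro ⟨h1, h2, h3, h4⟩
        exact ⟨⟨h1, hA z hz v fun j hj => h3 j fun h => hj (Finset.mem_coe.2 h)⟩, h2, h3, h4⟩
    constructor
    · intro h2
      change Odd (Sol S T (U ∩ A) z).ncard at h2
      rw [h] at h2
      exact ⟨h2, hz⟩
    · rintro ⟨h2, _⟩
      change Odd (Sol S T (U ∩ A) z).ncard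
      rw [h]
      exact h2
  · have h : Sol S T (U ∩ A) z = ∅ := by
      rw [Set.eq_empty_iff_forall_notMem]
      intro v hv
      exact hz (hA v hv.1.2 z fun j hj => (hv.2.2.1 j fun h => hj (Finset.mem_coe.2 h)).symm)
    constructor
    · intro h2
      change Odd (Sol S T (U ∩ A) z).ncard at h2
      rw [h, Set.ncard_empty] at h2
      exact absurd h2 (by decide)
    · intro h2
      exact absurd h2.2 hz

theorem exists_of_mem_par (S : FS J) (T : Finset J) (U : Set (J → unitInterval))
    (z : J → unitInterval) (hz : z ∈ Par S T U) :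
    ∃ w ∈ U, w ∈ Om S T ∧ (∀ j, j ∉ T → w j = z j) ∧ ∀ t ∈ T, NF (w t) := by
  have hne : (Sol S T U z).Nonempty := by
    by_contra h
    rw [Set.not_nonempty_iff_eq_empty] at h
    change Odd (Sol S T U z).ncard at hz
    rw [h, Set.ncard_empty] at hz
    exact absurd hz (by decide)
  obtain ⟨w, hw1, hw2, hw3, hw4⟩ := hne
  exact ⟨w, hw1, hw2, hw3, hw4⟩

end H64DN
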