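import Pool.Agent.Helper64.DN.ParGa

/-!
DN-4 (ParG): general facts on `Par` (all easy from the definition, `par_comp` and the single fold case).

* `par_total`, `par_RC`: induction on `T.card`, removing an element `t` of maximal rank:
  `Par S T U = Par S (T.erase t) (Par S {t} U)`; `A ∩ Om S (T.erase t)` is closed and a `{t}`-cylinder
  (the functions of `T.erase t` do not depend on `t`, by rank).
* `par_diff`: `U` and `(A ∩ Om) \ U` are disjoint, `par_union`, `par_inter`, `par_inter_Om`, `par_total`.
-/

set_option autoImplicit false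

namespace H64DN

open Set Topology

variable {J : Type}

theorem par_union (S : FS J) (T : Finset J) (U V : Set (J → unitInterval)) (hd : Disjoint U V)
    (z : J → unitInterval) :
    z ∈ Par S T (U ∪ V) ↔ Xor' (z ∈ Par S T U) (z ∈ Par S T V) := by
  have h1 : Sol S T (U ∪ V) z = Sol S T U z ∪ Sol S T V z := by
    ext w
    constructor
    · rintro ⟨h | h, h'⟩
      · exact Or.inl ⟨h, h'⟩
      · exact Or.inr ⟨h, h'⟩
    · rintro (⟨h, h'⟩ | ⟨h, h'⟩)
      · exact ⟨Or.inl h, h'⟩
      · exact ⟨Or.inr h, h'⟩
  have h2 : Disjoint (Sol S T U z) (Sol S T V z) :=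
    Set.disjoint_left.2 fun w hw hw' => Set.disjoint_left.1 hd hw.1 hw'.1
  have h3 : (Sol S T (U ∪ V) z).ncard = (Sol S T U z).ncard + (Sol S T V z).ncard := by
    rw [h1, Set.ncard_union_eq h2 (sol_finite S T U z) (sol_finite S T V z)]
  change Odd (Sol S T (U ∪ V) z).ncard ↔
    Xor' (Odd (Sol S T U z).ncard) (Odd (Sol S T V z).ncard)
  rw [h3, Nat.odd_add, ← Nat.not_odd_iff_even]
  unfold Xor' Xor
  tauto

private theorem par_ind (T : Finset J) (hT : T.Nonempty) (S : FS J) :
    ∃ t ∈ T, ∀ t' ∈ T, S.rk t' ≤ S.rk t := T.exists_max_image S.rk hT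

open Classical in
private theorem par_split (S : FS J) (T : Finset J) (t : J) (ht : t ∈ T)
    (hm : ∀ t' ∈ T, S.rk t' ≤ S.rk t) (U : Set (J → unitInterval)) :
    Par S T U = Par S (T.erase t) (Par S {t} U) := by
  have h1 : T.erase t ∪ {t} = T := by
    ext x
    simp only [Finset.mem_union, Finset.mem_erase, Finset.mem_singleton]
    constructor
    · rintro (⟨_, h⟩ | rfl)
      · exact h
      · exact ht
    · intro h
      by_cases hx : x = t
      · exact Or.inr hx
      · exact Or.inl ⟨hx, h⟩
  rw [← par_comp S (T.erase t) {t}, h1]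
  · rw [Finset.disjoint_singleton_right]
    exact Finset.notMem_erase t T
  · refine ind_of_rk S _ _ fun t₁ ht₁ t₂ ht₂ => ?_
    rw [Finset.mem_singleton] at ht₂
    rw [ht₂]
    exact hm t₁ (Finset.mem_of_mem_erase ht₁)

private theorem ind_self (S : FS J) (t : J) : Ind S {t} {t} := by
  refine ind_of_rk S _ _ fun t₁ ht₁ t₂ ht₂ => ?_
  rw [Finset.mem_singleton] at ht₁ ht₂
  rw [ht₁, ht₂]

theorem par_total (S : FS J) (T : Finset J) : Par S T univ = (univ : Set (J → unitInterval)) := by
  classical
  induction hn : T.card generalizing T with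
  | zero =>
    rw [Finset.card_eq_zero] at hn
    rw [hn, par_empty]
  | succ n ih =>
    obtain ⟨t, ht, hm⟩ := par_ind T (Finset.card_pos.1 (by omega)) S
    rw [par_split S T t ht hm, par_single_total S t (ind_self S t)]
    exact ih (T.erase t) (by rw [Finset.card_erase_of_mem ht]; omega)

theorem par_diff (S : FS J) (T : Finset J) (A U : Set (J → unitInterval))
    (hA : Cyl (T : Set J) A) (hU : U ⊆ A ∩ Om S T) :
    Par S T ((A ∩ Om S T) \ U) = A \ Par S T U := by
  have h1 : Par S T (A ∩ Om S T) = A := by
    rw [par_inter_Om]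
    have h2 := par_inter S T A univ hA
    rw [Set.univ_inter, par_total, Set.univ_inter] at h2
    exact h2
  have h2 : Par S T U ⊆ A := by
    have h3 : U ∩ A = U := Set.inter_eq_left.2 fun x hx => (hU hx).1
    have h4 := par_inter S T A U hA
    rw [h3] at h4
    rw [h4]
    exact Set.inter_subset_right
  have h3 : ((A ∩ Om S T) \ U) ∪ U = A ∩ Om S T := Set.sdiff_union_of_subset hU
  have h4 : Disjoint ((A ∩ Om S T) \ U) U :=
    Set.disjoint_left.2 fun x hx hx' => hx.2 hx'
  ext z
  have h5 := par_union S T _ _ h4 z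
  rw [h3, h1] at h5
  have h6 := @h2 z
  rw [Set.mem_sdiff]
  unfold Xor' Xor at h5
  tauto

theorem par_RC (S : FS J) (T : Finset J) (A : Set (J → unitInterval)) (hA : IsClosed A)
    (hc : Cyl (T : Set J) A) (U : Set (J → unitInterval)) (hU : RC (A ∩ Om S T) U) :
    RC A (Par S T U) := by
  classical
  induction hn : T.card generalizing T U with
  | zero =>
    rw [Finset.card_eq_zero] at hn
    rw [hn, par_empty]
    have h1 : A ∩ Om S T = A := by
      rw [hn]
      refine Set.inter_eq_left.2 fun x _ t ht => ?_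
      exact (Finset.notMem_empty t ht).elim
    rwa [h1] at hU
  | succ n ih =>
    obtain ⟨t, ht, hm⟩ := par_ind T (Finset.card_pos.1 (by omega)) S
    rw [par_split S T t ht hm]
    have hd : Disjoint (T.erase t) {t} := by
      rw [Finset.disjoint_singleton_right]
      exact Finset.notMem_erase t T
    have hi : Ind S (T.erase t) {t} := by
      refine ind_of_rk S _ _ fun t₁ ht₁ t₂ ht₂ => ?_
      rw [Finset.mem_singleton] at ht₂
      rw [ht₂]
      exact hm t₁ (Finset.mem_of_mem_erase ht₁)
    have h1 : Om S T = Om S (T.erase t) ∩ Om S {t} := by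
      rw [← om_union]
      congr 1
      ext x
      simp only [Finset.mem_union, Finset.mem_erase, Finset.mem_singleton]
      constructor
      · intro h
        by_cases hx : x = t
        · exact Or.inr hx
        · exact Or.inl ⟨hx, h⟩
      · rintro (⟨_, h⟩ | rfl)
        · exact h
        · exact ht
    have h2 : Cyl {t} (A ∩ Om S (T.erase t)) := by
      intro z hz w hw
      refine ⟨hc z hz.1 w fun j hj => hw j fun hj' => hj ?_, ?_⟩
      · rw [Set.mem_singleton_iff] at hj'
        rw [hj']
        exact ht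
      · refine om_cyl S (T.erase t) {t} hd hi z hz.2 w fun j hj => hw j ?_
        rwa [Finset.coe_singleton] at hj
    have h3 := par_single_RC S t (ind_self S t) (A ∩ Om S (T.erase t))
      (hA.inter (om_closed S (T.erase t))) h2 U (by rwa [h1, ← Set.inter_assoc] at hU)
    refine ih (T.erase t) ?_ (Par S {t} U) h3 (by rw [Finset.card_erase_of_mem ht]; omega)
    intro z hz w hw
    refine hc z hz w fun j hj => hw j fun hj' => hj ?_
    exact Finset.mem_of_mem_erase hj'

theorem par_of_mem (S : FS J) (T : Finset J) (A : Set (J → unitInterval)) (hA : IsClosed A)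
    (hA' : IsPreconnected A) (hc : Cyl (T : Set J) A) (U : Set (J → unitInterval))
    (hU : RC (A ∩ Om S T) U) (z : J → unitInterval) (hz : z ∈ A) (hz' : z ∈ Par S T U) :
    A ⊆ Par S T U := by
  obtain ⟨_, h2, h3⟩ := par_RC S T A hA hc U hU
  rcases (isPreconnected_iff_subset_of_disjoint_closed.1 hA') _ _ h2 h3
    (fun x hx => by
      by_cases hxU : x ∈ Par S T U
      · exact Or.inl hxU
      · exact Or.inr ⟨hx, hxU⟩)
    (by
      ext x
      constructor
      · rintro ⟨_, hx1, _, hx2⟩
        exact (hx2 hx1).elim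
      · intro hx
        exact hx.elim) with h | h
  · exact h
  · exact ((h hz).2 hz').elim

end H64DN
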