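import Pool.Agent.Helper64.DN.SecY
import Pool.Agent.Helper64.DN.Enum

/-!
DN-16 (ProgC): construction of the program by recursion.

* `Yf_congr`, `secn_congr_prog`, `cons_congr`: everything of stage `m` depends only on the tests and types of stages `< m`
  (in `OddS (fs P _) (TT k m N)` only `g t`, `t ∈ TT k m N`, of rank `< m`, occurs).
* `cons_default`: if all stages `1 ≤ m' < m` are consistent then the test `0` with type `false` is consistent at stage `m`:
  `K j = secn P sg0 m '' Yn P m ℕ` for all `j` (`secn_image`, `secn_mem_Yn`; `Yn P m ℕ` is nonempty).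
* `exists_prog`: `P₀` = all tests `0`, all types `false`.  `P_{m+1}` = `P_m` with the test of stage `m` replaced by `candm m` and types `τ` if
  `m ≥ 1`, `(unpair (unpair m).2).1 ≤ m` (then `candm m` has rank `< m` by `cand_dep`) and `Cons P_m m (kk m) (candm m) τ` for some `τ`; otherwise `P_{m+1} = P_m`.
  The final program has at stage `m` the test and types of `P_{m+1}`; it agrees with `P_m` below `m` and with `P_{m+1}` below `m+1`.
  Strong induction on `m` gives `Cons` at all stages `≥ 1` (`cons_default` in the second case; there the test of stage `m` is `0`).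
-/

set_option autoImplicit false

namespace H64DN

open Set Topology

variable {k : ℕ → ℕ}

theorem aux_Om_congr {J : Type} (S S' : FS J) (T : Finset J) (h : ∀ t ∈ T, S.g t = S'.g t) :
    Om S T = Om S' T := by
  ext z
  constructor
  · intro hz t ht
    rw [← h t ht]
    exact hz t ht
  · intro hz t ht
    rw [h t ht]
    exact hz t ht

theorem aux_OddS_congr {J : Type} (S S' : FS J) (T : Finset J) (h : ∀ t ∈ T, S.g t = S'.g t) :
    OddS S T = OddS S' T := by
  have h1 : Om S T = Om S' T := aux_Om_congr S S' T h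
  have h2 : ∀ U, Par S T U = Par S' T U := by
    intro U
    unfold Par Sol
    rw [h1]
  unfold OddS
  rw [h1]
  simp only [h2]

theorem Yn_congr (P P' : Prog k) (m : ℕ) (h : ∀ m' < m, P.s m' = P'.s m') (L : Type) :
    Yn P m L = Yn P' m L := by
  have h1 : ∀ N : ℕ, Yf P m N = Yf P' m N := by
    intro N
    refine aux_OddS_congr _ _ _ ?_
    intro t ht
    funext z
    change P.s t.1 (pull t.2 z) = P'.s t.1 (pull t.2 z)
    rw [h t.1 ((mem_TT t).1 ht).2]
  unfold Yn
  simp only [h1]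

theorem secn_congr_prog (P P' : Prog k) (m : ℕ) (h : ∀ m' < m, P.s m' = P'.s m')
    (h' : ∀ m' < m, P.τ m' = P'.τ m') {L : Type} (ρ : Prio L) (z : E k L) :
    secn P ρ m z = secn P' ρ m z := by
  induction m with
  | zero => rfl
  | succ m ih =>
    have h1 := ih (fun m' hm' => h m' (Nat.lt_succ_of_lt hm'))
      (fun m' hm' => h' m' (Nat.lt_succ_of_lt hm'))
    change upd P ρ m (secn P ρ m z) = upd P' ρ m (secn P' ρ m z)
    rw [h1]
    funext c
    unfold upd
    by_cases hc : c.1 = m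
    · have hs : P.s c.1 = P'.s c.1 := h c.1 (hc ▸ Nat.lt_succ_self _)
      have ht : P.τ c.1 = P'.τ c.1 := h' c.1 (hc ▸ Nat.lt_succ_self _)
      rw [hs, ht]
    · rw [if_neg hc, if_neg hc]

theorem cons_congr (P P' : Prog k) (m : ℕ) (h : ∀ m' < m, P.s m' = P'.s m')
    (h' : ∀ m' < m, P.τ m' = P'.τ m') (N : ℕ) (s : E k (Fin N) → unitInterval) (τ : Fin N → Bool)
    (hC : Cons P m N s τ) : Cons P' m N s τ := by
  obtain ⟨K, hK, hK'⟩ := hC
  refine ⟨K, ?_, hK'⟩
  intro j
  obtain ⟨h1, h2, h3, h4, h5, h6⟩ := hK j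
  have e1 : Yn P m ℕ = Yn P' m ℕ := Yn_congr P P' m h ℕ
  refine ⟨h1, h2, h3, ?_, ?_, h6⟩
  · rw [← e1]
    exact h4
  · rw [← e1]
    rintro _ ⟨z, hz, rfl⟩
    rw [← secn_congr_prog P P' m h h' sg0 z]
    exact h5 ⟨z, hz, rfl⟩

theorem cons_default (P : Prog k) (hk : ∀ m, 1 ≤ k m) (m : ℕ)
    (hC : ∀ m', 1 ≤ m' → m' < m → Cons P m' (k m') (P.s m') (P.τ m')) (N : ℕ) :
    Cons P m N (fun _ => 0) (fun _ => false) := by
  have hT : ∀ m', 1 ≤ m' → m' < m → Tch P m' := tch_all P hk m hC
  obtain ⟨h1, h2, h3⟩ := secn_image P m hT (0 : ℕ)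
  have hne : (secn P sg0 m '' Yn P m ℕ).Nonempty := (Yn_connected P m hT ℕ).nonempty.image _
  refine ⟨fun _ => secn P sg0 m '' Yn P m ℕ, ?_, fun _ _ => Or.inl subset_rfl⟩
  intro j
  refine ⟨h1, h2, h3, ?_, subset_rfl, ?_⟩
  · rintro _ ⟨z, hz, rfl⟩
    exact secn_mem_Yn P hk m hC (0 : ℕ) z hz
  · intro e _
    refine ⟨fun _ => ⟨fun z _ => ?_, ?_⟩, fun hb => absurd hb Bool.false_ne_true⟩
    · change ((0 : unitInterval) : ℝ) < 2 / 3
      norm_num
    · obtain ⟨z, hz⟩ := hne
      refine ⟨z, hz, ?_⟩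
      change ((0 : unitInterval) : ℝ) < 1 / 3
      norm_num

end H64DN
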