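import Pool.Agent.Helper64.DN.ProgCa

/-!
DN-16 (ProgC): construction of the program by recursion.

* `Yf_congr`, `secn_congr_prog`, `cons_congr`: everything of stage `m` depends only on the tests and types of stages `< m`
  (in `OddS (fs P _) (TT k m N)` only `g t`, `t ∈ TT k m N`, of rank `< m`, occurs).
* `cons_default`: if all stages `1 ≤ m' < m` are consistent then the test `0` with type `false` is consistent at stage `m`:
  `K j = secn P sg0 m '' Yn P m ℕ` for all `j` (`secn_image`, `secn_mem_Yn`; `Yn P m ℕ` is nonempty).
* `exists_prog`: `P₀` = all tests `0`, all types `false`.  `P_{m+1}` = `P_m` with the test of stage `m` replaced by `candm m` and types `τ` if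
  `m ≥ 1`, `(unpair (unpair m).2).1 ≤ m` (then `candm m` has rank `< m` by `cand_dep`) and `Cons P_m m (kk m) (candm m) τ` for some `τ`; otherwise `P_{m+1} = P_m`.
  The final program has at stage `m` the test and types of `P_{m+1}`; it agrees with `P_m` below `m` and with `P_{m+1}` below `m+1`.
  Strong induction on `m` gives `Cons` at all stages `≥ 1` (`cons_default` in the second case; there the test of stage `m` is `0`).
-/

set_option autoImplicit false

namespace H64DN

open Set Topology

variable {k : ℕ → ℕ}

/-- The start program. -/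
private noncomputable def P0 : Prog kk where
  s _ := ContinuousMap.const _ 0
  τ _ _ := false
  dep _ _ _ _ := rfl

/-- The condition under which the candidate of stage `m` is taken. -/
private def Take (m : ℕ) (P : Prog kk) : Prop :=
  1 ≤ m ∧ (Nat.unpair (Nat.unpair m).2).1 ≤ m ∧
    ∃ τ : Fin (kk m) → Bool, Cons P m (kk m) (candm m) τ

open Classical in
/-- One step of the recursion. -/
private noncomputable def nextP (m : ℕ) (P : Prog kk) : Prog kk :=
  if h : Take m P then
    { s := Function.update P.s m (candm m)
      τ := Function.update P.τ m h.2.2.choose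
      dep := by
        intro m' z z' hz
        by_cases hm : m' = m
        · subst hm
          rw [Function.update_self]
          exact cand_dep _ _ _ _ _ fun c hc => hz c (lt_of_lt_of_le hc h.2.1)
        · rw [Function.update_of_ne hm]
          exact P.dep m' z z' hz }
  else P

private theorem nextP_s_ne (m : ℕ) (P : Prog kk) (m' : ℕ) (hm : m' ≠ m) :
    (nextP m P).s m' = P.s m' := by
  unfold nextP
  split_ifs with h
  · exact Function.update_of_ne hm _ _
  · rfl

private theorem nextP_t_ne (m : ℕ) (P : Prog kk) (m' : ℕ) (hm : m' ≠ m) :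
    (nextP m P).τ m' = P.τ m' := by
  unfold nextP
  split_ifs with h
  · exact Function.update_of_ne hm _ _
  · rfl

private theorem nextP_s_pos (m : ℕ) (P : Prog kk) (h : Take m P) :
    (nextP m P).s m = candm m := by
  unfold nextP
  rw [dif_pos h]
  exact Function.update_self _ _ _

private theorem nextP_cons (m : ℕ) (P : Prog kk) (h : Take m P) :
    Cons P m (kk m) (candm m) ((nextP m P).τ m) := by
  have h1 : (nextP m P).τ m = h.2.2.choose := by
    unfold nextP
    rw [dif_pos h]
    exact Function.update_self _ _ _
  rw [h1]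
  exact h.2.2.choose_spec

private theorem nextP_neg (m : ℕ) (P : Prog kk) (h : ¬ Take m P) : nextP m P = P := by
  unfold nextP
  rw [dif_neg h]

/-- The recursion. -/
private noncomputable def PP : ℕ → Prog kk
  | 0 => P0
  | m + 1 => nextP m (PP m)

private theorem PP_succ (m : ℕ) : PP (m + 1) = nextP m (PP m) := rfl

private theorem PP_s_stable (m' j : ℕ) (hj : m' + 1 ≤ j) : (PP j).s m' = (PP (m' + 1)).s m' := by
  induction j, hj using Nat.le_induction with
  | base => rfl
  | succ j hj ih => rw [PP_succ, nextP_s_ne j (PP j) m' (by omega), ih]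

private theorem PP_t_stable (m' j : ℕ) (hj : m' + 1 ≤ j) : (PP j).τ m' = (PP (m' + 1)).τ m' := by
  induction j, hj using Nat.le_induction with
  | base => rfl
  | succ j hj ih => rw [PP_succ, nextP_t_ne j (PP j) m' (by omega), ih]

private theorem PP_s_start (m' j : ℕ) (hj : j ≤ m') : (PP j).s m' = P0.s m' := by
  induction j with
  | zero => rfl
  | succ j ih => rw [PP_succ, nextP_s_ne j (PP j) m' (by omega), ih (by omega)]

private theorem PP_t_start (m' j : ℕ) (hj : j ≤ m') : (PP j).τ m' = P0.τ m' := by
  induction j with
  | zero => rfl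
  | succ j ih => rw [PP_succ, nextP_t_ne j (PP j) m' (by omega), ih (by omega)]

/-- The final program. -/
private noncomputable def PF : Prog kk where
  s m := (PP (m + 1)).s m
  τ m := (PP (m + 1)).τ m
  dep m := (PP (m + 1)).dep m

private theorem PF_s (m m' : ℕ) (h : m' < m) : PF.s m' = (PP m).s m' :=
  (PP_s_stable m' m h).symm

private theorem PF_t (m m' : ℕ) (h : m' < m) : PF.τ m' = (PP m).τ m' :=
  (PP_t_stable m' m h).symm

private theorem PF_cons (m : ℕ) (hm : 1 ≤ m) : Cons PF m (kk m) (PF.s m) (PF.τ m) := by
  induction m using Nat.strong_induction_on with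
  | _ m ih =>
    by_cases h : Take m (PP m)
    · have h1 : PF.s m = candm m := nextP_s_pos m (PP m) h
      have h2 := nextP_cons m (PP m) h
      have h3 := cons_congr (PP m) PF m (fun m' h' => (PF_s m m' h').symm)
        (fun m' h' => (PF_t m m' h').symm) (kk m) (candm m) _ h2
      rw [h1]
      exact h3
    · have h1 : PP (m + 1) = PP m := nextP_neg m (PP m) h
      have h2 : PF.s m = P0.s m := by
        change (PP (m + 1)).s m = P0.s m
        rw [h1]
        exact PP_s_start m m le_rfl
      have h3 : PF.τ m = P0.τ m := by
        change (PP (m + 1)).τ m = P0.τ m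
        rw [h1]
        exact PP_t_start m m le_rfl
      have h4 := cons_default PF kk_pos m (fun m' h1 h2 => ih m' h2 h1) (kk m)
      rw [h2, h3]
      exact h4

theorem exists_prog : ∃ P : Prog kk,
    (∀ m, 1 ≤ m → Cons P m (kk m) (P.s m) (P.τ m)) ∧
    ∀ m, 1 ≤ m → (Nat.unpair (Nat.unpair m).2).1 ≤ m → ∀ τ : Fin (kk m) → Bool,
      Cons P m (kk m) (candm m) τ → P.s m = candm m := by
  refine ⟨PF, PF_cons, ?_⟩
  intro m hm hu τ hC
  have h1 : Take m (PP m) := ⟨hm, hu, τ, cons_congr PF (PP m) m (PF_s m) (PF_t m) (kk m) _ τ hC⟩
  exact nextP_s_pos m (PP m) h1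

end H64DN
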