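import Pool.Agent.Helper64.DN.Dir

/-!
DN-7 (PullA): change of the index set.  `ι : J' ↪ J`, `S' : FS J'`, `S : FS J` with
`S.g (ι j) z = S'.g j (z ∘ ι)`; `T : Finset J'`.

* `par_map`: `w ↦ w ∘ ι` is a bijection `Sol S (T.map ι) (preimage of U) z → Sol S' T U (z ∘ ι)` (inverse: `v` on the range
  of `ι`, `z` elsewhere), so the cardinalities agree.
* `rc_map`: `Om S (T.map ι)` is the preimage of `Om S' T`, a cylinder in the directions off the range of `ι`; so an RC
  subset `U` is a cylinder in these directions (`rc_cyl`), hence `U` is the preimage of `U' = {v | ext v ∈ U}` where `ext v` is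
  `v` on the range of `ι` and `0` elsewhere; `U'` is RC in `Om S' T` (`ext` is continuous).
* `oddS_map`, `dir_map` follow (for `dir_map` the witness is `ext z₀`).
-/

set_option autoImplicit false

namespace H64DN

open Set Topology

variable {J J' : Type}

/-- Extension of a point. -/
private noncomputable def exq (ι : J' ↪ J) (z : J → unitInterval) (v : J' → unitInterval) :
    J → unitInterval := Function.extend ι v z

private theorem exq_apply (ι : J' ↪ J) (z : J → unitInterval) (v : J' → unitInterval) (j : J') :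
    exq ι z v (ι j) = v j := ι.injective.extend_apply v z j

private theorem exq_comp (ι : J' ↪ J) (z : J → unitInterval) (v : J' → unitInterval) :
    exq ι z v ∘ ι = v := funext fun j => exq_apply ι z v j

private theorem exq_off (ι : J' ↪ J) (z : J → unitInterval) (v : J' → unitInterval) (j : J)
    (h : j ∉ range ι) : exq ι z v j = z j :=
  Function.extend_apply' v z j fun ⟨a, ha⟩ => h ⟨a, ha⟩

private theorem exq_cont (ι : J' ↪ J) (z : J → unitInterval) : Continuous (exq ι z) := by
  refine continuous_pi fun j => ?_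
  by_cases h : j ∈ range ι
  · obtain ⟨a, rfl⟩ := h
    simp only [exq_apply]
    exact continuous_apply a
  · have : (fun v => exq ι z v j) = fun _ => z j := funext fun v => exq_off ι z v j h
    rw [this]
    exact continuous_const

private theorem comp_cont (ι : J' ↪ J) :
    Continuous (fun z : J → unitInterval => (z ∘ ι : J' → unitInterval)) :=
  continuous_pi fun j => continuous_apply (ι j)

theorem om_map (S' : FS J') (S : FS J) (ι : J' ↪ J) (hg : ∀ j z, S.g (ι j) z = S'.g j (z ∘ ι))
    (T : Finset J') : Om S (T.map ι) = (fun z => z ∘ ι) ⁻¹' (Om S' T) := by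
  ext z
  constructor
  · intro h t ht
    have := h (ι t) (Finset.mem_map_of_mem ι ht)
    rw [hg] at this
    exact this
  · intro h t ht
    obtain ⟨a, ha, rfl⟩ := Finset.mem_map.1 ht
    have := h a ha
    rw [hg]
    exact this

theorem par_map (S' : FS J') (S : FS J) (ι : J' ↪ J) (hg : ∀ j z, S.g (ι j) z = S'.g j (z ∘ ι))
    (T : Finset J') (U : Set (J' → unitInterval)) :
    Par S (T.map ι) ((fun z => z ∘ ι) ⁻¹' U) = (fun z => z ∘ ι) ⁻¹' (Par S' T U) := by
  ext z
  have key : Sol S (T.map ι) ((fun z => z ∘ ι) ⁻¹' U) z = exq ι z '' Sol S' T U (z ∘ ι) := by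
    ext w
    constructor
    · rintro ⟨h1, h2, h3, h4⟩
      have hw : exq ι z (w ∘ ι) = w := by
        funext j
        by_cases h : j ∈ range ι
        · obtain ⟨a, rfl⟩ := h
          rw [exq_apply]; rfl
        · rw [exq_off ι z _ j h]
          refine (h3 j fun hj => h ?_).symm
          obtain ⟨a, _, rfl⟩ := Finset.mem_map.1 hj
          exact mem_range_self a
      refine ⟨w ∘ ι, ⟨h1, ?_, ?_, ?_⟩, hw⟩
      · rw [om_map S' S ι hg T] at h2
        exact h2
      · intro j hj
        exact h3 (ι j) fun hj' => hj ((Finset.mem_map' ι).1 hj')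
      · intro t ht
        exact h4 (ι t) (Finset.mem_map_of_mem ι ht)
    · rintro ⟨v, ⟨h1, h2, h3, h4⟩, rfl⟩
      refine ⟨?_, ?_, ?_, ?_⟩
      · show exq ι z v ∘ ι ∈ U
        rw [exq_comp]; exact h1
      · rw [om_map S' S ι hg T]
        show exq ι z v ∘ ι ∈ Om S' T
        rw [exq_comp]; exact h2
      · intro j hj
        by_cases h : j ∈ range ι
        · obtain ⟨a, rfl⟩ := h
          rw [exq_apply]
          exact h3 a fun ha => hj (Finset.mem_map_of_mem ι ha)
        · exact exq_off ι z v j h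
      · intro t ht
        obtain ⟨a, ha, rfl⟩ := Finset.mem_map.1 ht
        rw [exq_apply]
        exact h4 a ha
  have hinj : Function.Injective (exq ι z) := by
    intro v v' h
    rw [← exq_comp ι z v, ← exq_comp ι z v', h]
  show Odd (Sol S (T.map ι) ((fun z => z ∘ ι) ⁻¹' U) z).ncard ↔ Odd (Sol S' T U (z ∘ ι)).ncard
  rw [key, ncard_image_of_injective _ hinj]

theorem rc_map (S' : FS J') (S : FS J) (ι : J' ↪ J) (hg : ∀ j z, S.g (ι j) z = S'.g j (z ∘ ι))
    (T : Finset J') (U : Set (J → unitInterval)) (hU : RC (Om S (T.map ι)) U) :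
    ∃ U', RC (Om S' T) U' ∧ U = (fun z => z ∘ ι) ⁻¹' U' := by
  have hcyl : Cyl (range ι)ᶜ (Om S (T.map ι)) := by
    intro z hz w hw
    rw [om_map S' S ι hg T] at hz ⊢
    have : w ∘ ι = z ∘ ι := funext fun j => hw (ι j) fun h => h (mem_range_self j)
    show w ∘ ι ∈ Om S' T
    rw [this]; exact hz
  have hUc := rc_cyl _ _ _ hcyl hU
  let e : (J' → unitInterval) → (J → unitInterval) := exq ι (fun _ => 0)
  have hec : Continuous e := exq_cont ι _
  have hOm : e ⁻¹' (Om S (T.map ι)) = Om S' T := by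
    rw [om_map S' S ι hg T]
    ext v
    show exq ι _ v ∘ ι ∈ Om S' T ↔ v ∈ Om S' T
    rw [exq_comp]
  refine ⟨e ⁻¹' U, ⟨?_, hU.2.1.preimage hec, ?_⟩, ?_⟩
  · rw [← hOm]
    exact preimage_mono hU.1
  · rw [← hOm, ← preimage_sdiff]
    exact hU.2.2.preimage hec
  · ext w
    have hagree : ∀ j, j ∉ (range ι)ᶜ → e (w ∘ ι) j = w j := by
      intro j hj
      obtain ⟨a, rfl⟩ : j ∈ range ι := by simpa using hj
      exact exq_apply ι _ _ a
    constructor
    · intro hw
      exact hUc w hw _ hagree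
    · intro hw
      exact hUc _ hw w fun j hj => (hagree j hj).symm

private theorem rc_pre (S' : FS J') (S : FS J) (ι : J' ↪ J)
    (hg : ∀ j z, S.g (ι j) z = S'.g j (z ∘ ι)) (T : Finset J') (U' : Set (J' → unitInterval))
    (hU : RC (Om S' T) U') : RC (Om S (T.map ι)) ((fun z => z ∘ ι) ⁻¹' U') := by
  rw [om_map S' S ι hg T]
  refine ⟨preimage_mono hU.1, hU.2.1.preimage (comp_cont ι), ?_⟩
  rw [← preimage_sdiff]
  exact hU.2.2.preimage (comp_cont ι)

private theorem pre_univ (ι : J' ↪ J) (V : Set (J' → unitInterval)) :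
    (fun z : J → unitInterval => (z ∘ ι : J' → unitInterval)) ⁻¹' V = univ ↔ V = univ := by
  constructor
  · intro h
    refine eq_univ_of_forall fun v => ?_
    have : exq ι (fun _ => 0) v ∈ (fun z : J → unitInterval => (z ∘ ι : J' → unitInterval)) ⁻¹' V := by
      rw [h]; trivial
    have h2 : exq ι (fun _ => 0) v ∘ ι ∈ V := this
    rwa [exq_comp] at h2
  · rintro rfl
    rfl

theorem oddS_map (S' : FS J') (S : FS J) (ι : J' ↪ J) (hg : ∀ j z, S.g (ι j) z = S'.g j (z ∘ ι))
    (T : Finset J') : OddS S (T.map ι) = (fun z => z ∘ ι) ⁻¹' (OddS S' T) := by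
  ext z
  constructor
  · rintro ⟨h1, h2⟩
    rw [om_map S' S ι hg T] at h1
    refine ⟨h1, fun U' hU' hz => ?_⟩
    have := h2 _ (rc_pre S' S ι hg T U' hU') hz
    rw [par_map S' S ι hg T, pre_univ] at this
    exact this
  · rintro ⟨h1, h2⟩
    refine ⟨by rw [om_map S' S ι hg T]; exact h1, fun U hU hz => ?_⟩
    obtain ⟨U', hU', rfl⟩ := rc_map S' S ι hg T U hU
    rw [par_map S' S ι hg T, pre_univ]
    exact h2 U' hU' hz

theorem dir_map (S' : FS J') (S : FS J) (ι : J' ↪ J) (hg : ∀ j z, S.g (ι j) z = S'.g j (z ∘ ι))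
    (T : Finset J') (hD : Dir S' T) : Dir S (T.map ι) := by
  obtain ⟨z₀, h0, h⟩ := hD
  refine ⟨exq ι (fun _ => 0) z₀, ?_, fun U hU => ?_⟩
  · rw [om_map S' S ι hg T]
    show exq ι _ z₀ ∘ ι ∈ Om S' T
    rw [exq_comp]; exact h0
  · obtain ⟨U', hU', rfl⟩ := rc_map S' S ι hg T U hU
    rw [par_map S' S ι hg T, pre_univ, ← h U' hU']
    show exq ι _ z₀ ∘ ι ∈ U' ↔ z₀ ∈ U'
    rw [exq_comp]

end H64DN
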