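import Pool.Agent.Helper64.DN.ProgC

/-!
DN-17 (Rich): richness and the interface `NS`.

* `hull m A = {z | ∃ z' ∈ A, z = z' in ranks < m}` is the image of `A × E k L` under a continuous map; closed, preconnected,
  `CylR m`, monotone in `A`.
* `rich_YY`: let `K, τ` witness `Good P (YY P) N s`, `s ∈ O` open.  `O' = {f ∈ O | ∀ j, Touch f (τ j) j (K j)}` contains `s`; it is open: for
  each `j` fix one `e₀` with `e₀ j = 0`; `pull e '' K j = pull e₀ '' K j` for all other `e`, so `Touch f (τ j) j (K j)` says `f < 2/3` on the compact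
  set `pull e₀ '' K j` and `f < 1/3` at some point of it (resp. `>`); both are open in the compact-open topology.
  `cand_dense`: some `f = cand N r n ∈ O'`.  `exists_index`: `m ≥ max n 1` with `kk m = N`, `r`, `n`; `subst N`, `f = candm m`.
  `Cons P m (kk m) f τ` holds with `hull m (K j)`: it is in `Yn P m ℕ` (`Yn_cylR`), contains `secn P sg0 m z` for `z ∈ Yn P m ℕ` (lift `z` to `z' ∈ YY P ℕ`,
  `YY_lift`; `sec P sg0 z' ∈ cset 0 ⊆ K j` and `secn P sg0 m z` agrees with it in ranks `< m`: `secn_congr`, `secn_lt`); `Touch`: `f` has rank `< n ≤ m`.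
  So `P.s m = f`, and `c = ⟨m, e⟩` with `YY_eq`.
* `exists_NS`: fields from `YLim`, `SecY`, `ProgC`.
-/

set_option autoImplicit false

namespace H64DN

open Set Topology

/-- The hull of a set in the ranks `< m`. -/
private def hull {L : Type} (m : ℕ) (A : Set (E kk L)) : Set (E kk L) :=
  {z | ∃ z' ∈ A, ∀ c : Coord kk L, c.1 < m → z c = z' c}

open Classical in
private noncomputable def hmap {L : Type} (m : ℕ) (p : E kk L × E kk L) : E kk L :=
  fun c => if c.1 < m then p.1 c else p.2 c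

private theorem hmap_cont {L : Type} (m : ℕ) : Continuous (hmap m : E kk L × E kk L → E kk L) := by
  refine continuous_pi fun c => ?_
  by_cases h : c.1 < m
  · simp only [hmap, if_pos h]
    exact (continuous_apply c).comp continuous_fst
  · simp only [hmap, if_neg h]
    exact (continuous_apply c).comp continuous_snd

private theorem hull_eq {L : Type} (m : ℕ) (A : Set (E kk L)) :
    hull m A = hmap m '' (A ×ˢ univ) := by
  ext z
  constructor
  · rintro ⟨z', hz', h⟩
    refine ⟨(z', z), ⟨hz', mem_univ _⟩, ?_⟩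
    funext c
    by_cases hc : c.1 < m
    · simp only [hmap, if_pos hc, h c hc]
    · simp only [hmap, if_neg hc]
  · rintro ⟨⟨z', w⟩, ⟨hz', -⟩, rfl⟩
    refine ⟨z', hz', fun c hc => ?_⟩
    simp only [hmap, if_pos hc]

private theorem hull_closed {L : Type} (m : ℕ) (A : Set (E kk L)) (hA : IsClosed A) :
    IsClosed (hull m A) := by
  rw [hull_eq]
  exact ((hA.isCompact.prod isCompact_univ).image (hmap_cont m)).isClosed

private theorem hull_preconn {L : Type} (m : ℕ) (A : Set (E kk L)) (hA : IsPreconnected A) :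
    IsPreconnected (hull m A) := by
  rw [hull_eq]
  exact (hA.prod isPreconnected_univ).image _ (hmap_cont m).continuousOn

private theorem hull_mono {L : Type} (m : ℕ) {A B : Set (E kk L)} (h : A ⊆ B) :
    hull m A ⊆ hull m B := by
  rintro z ⟨z', hz', hc⟩
  exact ⟨z', h hz', hc⟩

private theorem emb_exists {N : ℕ} (j : Fin N) : ∃ e : Fin N ↪ ℕ, e j = 0 := by
  classical
  refine ⟨⟨fun i => if i = j then 0 else (i : ℕ) + 1, ?_⟩, ?_⟩
  · intro a b hab
    by_cases ha : a = j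
    · by_cases hb : b = j
      · rw [ha, hb]
      · simp only [if_pos ha, if_neg hb] at hab
        omega
    · by_cases hb : b = j
      · simp only [if_neg ha, if_pos hb] at hab
        omega
      · simp only [if_neg ha, if_neg hb] at hab
        exact Fin.ext (by omega)
  · change (if j = j then 0 else (j : ℕ) + 1) = 0
    rw [if_pos rfl]

/-- The condition `Touch` is open if the images of `K` along all `e` with `e j = 0` agree. -/
private theorem touch_open {N : ℕ} (s : C(E kk (Fin N), unitInterval)) (b : Bool) (j : Fin N)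
    (K : Set (E kk ℕ)) (hK : IsClosed K) (ht : Touch s b j K)
    (hp : ∀ e e' : Fin N ↪ ℕ, e j = 0 → e' j = 0 → pull e '' K = pull e' '' K) :
    ∃ U : Set C(E kk (Fin N), unitInterval), IsOpen U ∧ s ∈ U ∧
      ∀ f ∈ U, Touch f b j K := by
  obtain ⟨e₀, he₀⟩ := emb_exists j
  have hcomp : IsCompact (pull e₀ '' K) := hK.isCompact.image (pull_continuous e₀)
  have hev : ∀ y : E kk (Fin N), Continuous
      (fun f : C(E kk (Fin N), unitInterval) => ((f y : unitInterval) : ℝ)) := fun y =>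
    continuous_subtype_val.comp (continuous_eval_const y)
  have hall : ∀ e : Fin N ↪ ℕ, e j = 0 → ∀ z ∈ K, ∃ z' ∈ K, pull e₀ z' = pull e z := by
    intro e he z hz
    have h1 : pull e z ∈ pull e '' K := ⟨z, hz, rfl⟩
    rw [hp e e₀ he he₀] at h1
    exact h1
  have hall' : ∀ e : Fin N ↪ ℕ, e j = 0 → ∀ z ∈ K, ∃ z' ∈ K, pull e z' = pull e₀ z := by
    intro e he z hz
    have h1 : pull e₀ z ∈ pull e₀ '' K := ⟨z, hz, rfl⟩
    rw [hp e₀ e he₀ he] at h1
    exact h1
  cases b with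
  | false =>
    obtain ⟨h1, z₀, hz₀, h2⟩ := (ht e₀ he₀).1 rfl
    refine ⟨{f | MapsTo f (pull e₀ '' K) {t : unitInterval | (t : ℝ) < 2 / 3}} ∩
      {f | ((f (pull e₀ z₀) : unitInterval) : ℝ) < 1 / 3}, ?_, ⟨?_, h2⟩, ?_⟩
    · refine IsOpen.inter (ContinuousMap.isOpen_setOfPred_mapsTo hcomp ?_) ?_
      · exact isOpen_lt continuous_subtype_val continuous_const
      · exact isOpen_lt (hev _) continuous_const
    · rintro _ ⟨z, hz, rfl⟩
      exact h1 z hz
    · rintro f ⟨hf1, hf2⟩ e he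
      refine ⟨fun _ => ⟨fun z hz => ?_, ?_⟩, fun h => absurd h (by decide)⟩
      · obtain ⟨z', hz', h3⟩ := hall e he z hz
        rw [← h3]
        exact hf1 ⟨z', hz', rfl⟩
      · obtain ⟨z', hz', h3⟩ := hall' e he z₀ hz₀
        exact ⟨z', hz', by rw [h3]; exact hf2⟩
  | true =>
    obtain ⟨h1, z₀, hz₀, h2⟩ := (ht e₀ he₀).2 rfl
    refine ⟨{f | MapsTo f (pull e₀ '' K) {t : unitInterval | 1 / 3 < (t : ℝ)}} ∩
      {f | 2 / 3 < ((f (pull e₀ z₀) : unitInterval) : ℝ)}, ?_, ⟨?_, h2⟩, ?_⟩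
    · refine IsOpen.inter (ContinuousMap.isOpen_setOfPred_mapsTo hcomp ?_) ?_
      · exact isOpen_lt continuous_const continuous_subtype_val
      · exact isOpen_lt continuous_const (hev _)
    · rintro _ ⟨z, hz, rfl⟩
      exact h1 z hz
    · rintro f ⟨hf1, hf2⟩ e he
      refine ⟨fun h => absurd h (by decide), fun _ => ⟨fun z hz => ?_, ?_⟩⟩
      · obtain ⟨z', hz', h3⟩ := hall e he z hz
        rw [← h3]
        exact hf1 ⟨z', hz', rfl⟩
      · obtain ⟨z', hz', h3⟩ := hall' e he z₀ hz₀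
        exact ⟨z', hz', by rw [h3]; exact hf2⟩

/-- `Touch` for the hull. -/
private theorem touch_hull {N : ℕ} (f : E kk (Fin N) → unitInterval) (m : ℕ)
    (hf : ∀ z z' : E kk (Fin N), (∀ c : Coord kk (Fin N), c.1 < m → z c = z' c) → f z = f z')
    (b : Bool) (j : Fin N) (K : Set (E kk ℕ)) (ht : Touch f b j K) :
    Touch f b j (hull m K) := by
  have hval : ∀ (e : Fin N ↪ ℕ) (z : E kk ℕ), z ∈ hull m K → ∃ z' ∈ K,
      f (pull e z) = f (pull e z') := by
    rintro e z ⟨z', hz', hc⟩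
    exact ⟨z', hz', hf _ _ fun c hcm => hc _ hcm⟩
  have hsub : ∀ z ∈ K, z ∈ hull m K := fun z hz => ⟨z, hz, fun _ _ => rfl⟩
  intro e he
  refine ⟨fun hb => ?_, fun hb => ?_⟩
  · obtain ⟨h1, z₀, hz₀, h2⟩ := (ht e he).1 hb
    refine ⟨fun z hz => ?_, z₀, hsub z₀ hz₀, h2⟩
    obtain ⟨z', hz', h3⟩ := hval e z hz
    rw [h3]
    exact h1 z' hz'
  · obtain ⟨h1, z₀, hz₀, h2⟩ := (ht e he).2 hb
    refine ⟨fun z hz => ?_, z₀, hsub z₀ hz₀, h2⟩
    obtain ⟨z', hz', h3⟩ := hval e z hz
    rw [h3]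
    exact h1 z' hz'

theorem rich_YY (P : Prog kk) (hC : ∀ m, 1 ≤ m → Cons P m (kk m) (P.s m) (P.τ m))
    (hP : ∀ m, 1 ≤ m → (Nat.unpair (Nat.unpair m).2).1 ≤ m → ∀ τ : Fin (kk m) → Bool,
      Cons P m (kk m) (candm m) τ → P.s m = candm m) :
    ∀ N : ℕ, 1 ≤ N → ∀ O : Set C(E kk (Fin N), unitInterval), IsOpen O → ∀ s ∈ O,
    Good P (YY P) N s →
    ∃ f ∈ O, ∀ (L : Type) (e : Fin N ↪ L), ∃ c : Coord kk L, ∀ z ∈ YY P L,
      nu (z c) = f (pull e z) := by
  intro N hN O hO s hs hgood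
  obtain ⟨K, τ, hK, hchain⟩ := hgood
  have htch : ∀ m, 1 ≤ m → Tch P m := fun m h1 => tch_of_cons P m (kk_pos m) (hC m h1)
  choose U hUo hsU hUt using fun j => touch_open s (τ j) j (K j) (hK j).1 (hK j).2.2.2.2.1
    (hK j).2.2.2.2.2
  obtain ⟨r, n, hf⟩ := cand_dense N (O ∩ ⋂ j, U j) (hO.inter (isOpen_iInter_of_finite hUo))
    ⟨s, hs, mem_iInter.2 hsU⟩
  obtain ⟨m, hm, hkm, hr, hn⟩ := exists_index N hN r n (max n 1)
  have hnm : n ≤ m := (le_max_left _ _).trans hm
  have h1m : 1 ≤ m := (le_max_right _ _).trans hm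
  subst hkm
  have hcand : candm m = cand (kk m) r n := by rw [candm, hr, hn]
  rw [← hcand] at hf
  have hdep : ∀ z z' : E kk (Fin (kk m)), (∀ c : Coord kk (Fin (kk m)), c.1 < m → z c = z' c) →
      candm m z = candm m z' := by
    intro z z' h
    rw [hcand]
    exact cand_dep _ _ _ _ _ fun c hc => h c (by omega)
  have hcons : Cons P m (kk m) (candm m) τ := by
    refine ⟨fun j => hull m (K j), fun j => ?_, fun j j' => ?_⟩
    · obtain ⟨hcl, hpre, hY, hc, ht, hpull⟩ := hK j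
      refine ⟨hull_closed m _ hcl, hull_preconn m _ hpre, ?_, ?_, ?_, ?_⟩
      · rintro z ⟨z', hz', h⟩ w hw
        exact ⟨z', hz', fun c hcm => (hw c hcm).trans (h c hcm)⟩
      · rintro z ⟨z', hz', h⟩
        exact Yn_cylR P m ℕ z' (hY hz' m) z h
      · rintro _ ⟨z, hz, rfl⟩
        obtain ⟨z', hz', h⟩ := YY_lift P htch m ℕ z hz
        refine ⟨sec P sg0 z', hc ⟨z', hz', rfl⟩, fun c hcm => ?_⟩
        rw [secn_congr P sg0 m z z' (fun c' hc' => (h c' hc').symm) c hcm,
          secn_lt P sg0 m z' c hcm]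
      · exact touch_hull _ m hdep _ j _ (hUt j _ (mem_iInter.1 hf.2 j))
    · rcases hchain j j' with h | h
      · exact Or.inl (hull_mono m h)
      · exact Or.inr (hull_mono m h)
  have hPs := hP m h1m (by rw [hn]; exact hnm) τ hcons
  refine ⟨candm m, hf.1, fun L e => ⟨⟨m, e⟩, fun z hz => ?_⟩⟩
  rw [YY_eq P z hz ⟨m, e⟩ h1m, hPs]

end H64DN
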