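import Pool.Agent.Helper64.DN.Richa

/-!
DN-17 (Rich), second part: the interface `NS`.

* `exists_NS`: fields from `YLim`, `SecY`, `ProgC`.
-/

set_option autoImplicit false

namespace H64DN

open Set Topology

theorem exists_NS : Nonempty (NS kk) := by
  obtain ⟨P, hC, hP⟩ := exists_prog
  have hT : ∀ m, 1 ≤ m → Tch P m := fun m hm => tch_of_cons P m (kk_pos m) (hC m hm)
  exact ⟨{
    P := P
    hk := kk_pos
    hk0 := kk_zero
    Y := YY P
    closed := YY_closed P hT
    conn := YY_connected P hT
    image_pull := fun φ => YY_pull P hT φ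
    sec_mem := fun w r hr z hz => sec_word_mem P kk_pos hC w r hr z hz
    base_one := fun i => YY_base P hT kk_zero i
    rich := rich_YY P hC hP }⟩

end H64DN
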