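import Pool.Agent.Helper64.DN.Step

/-!
DN-14 (SecY): the section maps preserve the limit.

* `secn_mem`: induction on `n` (`sec_step`; `n = 0 → 1`: `Yf P 1 N = univ`).
* `secn_mem_Yn`: for `e : Fin N ↪ L`: `pull e (secn (single i) n z) = secn ((single i).comap e) n (pull e z)`; if `i = e a` this is
  `secn (single a) n _` (`single_comap`), otherwise `noPrio` (identity).
* `sec_single_mem`: for `z ∈ YY P L`, `sec z` and `secn n z` agree in ranks `< n` (`secn_lt`), `Yn_cylR`.
* `sec_word_mem`: by `sec_pull` and `ofSet_comap` it is enough to treat `L = Fin N` (`z ∈ Yn P n L` iff all `pull e z ∈ Yf P n N`; for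
  `y ∈ YY P (Fin N)`, `y ∈ Yf P n N` by taking `e` the identity); there `w` is finite: induction on `w.ncard`: remove the first letter,
  `sec_ofSet_append` with `w₁ = {d}`, `ofSet_singleton`, `sec_single_mem`; for `w = ∅`: `ofSet_empty`, `sec_noPrio`.
-/

set_option autoImplicit false

namespace H64DN

open Set Topology

variable {k : ℕ → ℕ}

theorem tch_all (P : Prog k) (hk : ∀ m, 1 ≤ k m) (n : ℕ)
    (hC : ∀ m, 1 ≤ m → m < n → Cons P m (k m) (P.s m) (P.τ m)) :
    ∀ m, 1 ≤ m → m < n → Tch P m := fun m h1 h2 => tch_of_cons P m (hk m) (hC m h1 h2)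

theorem secn_mem (P : Prog k) (hk : ∀ m, 1 ≤ k m) (n : ℕ)
    (hC : ∀ m, 1 ≤ m → m < n → Cons P m (k m) (P.s m) (P.τ m)) (N : ℕ) (i : Fin N)
    (z : E k (Fin N)) (hz : z ∈ Yf P n N) : secn P (single i) n z ∈ Yf P n N := by
  induction n generalizing N with
  | zero => exact hz
  | succ n ih =>
    rcases Nat.eq_zero_or_pos n with h0 | h0
    · subst h0
      rw [Yf_le_one P (0 + 1) N (by omega)]
      exact mem_univ _
    · exact sec_step P n h0 (tch_all P hk (n + 1) hC) (hC n h0 (by omega))
        (fun N i z hz => ih (fun m h1 h2 => hC m h1 (by omega)) N i z hz) N i z hz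

private theorem secY_noPrio_secn (P : Prog k) {L : Type} (n : ℕ) (z : E k L) :
    secn P (noPrio : Prio L) n z = z := by
  induction n with
  | zero => rfl
  | succ n ih =>
    change upd P noPrio n (secn P noPrio n z) = z
    rw [ih]
    funext c
    unfold upd
    by_cases h : c.1 = n
    · rw [if_pos h]
      rfl
    · rw [if_neg h]

theorem secn_mem_Yn (P : Prog k) (hk : ∀ m, 1 ≤ k m) (n : ℕ)
    (hC : ∀ m, 1 ≤ m → m < n → Cons P m (k m) (P.s m) (P.τ m)) {L : Type} (i : L)
    (z : E k L) (hz : z ∈ Yn P n L) : secn P (single i) n z ∈ Yn P n L := by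
  intro N e
  rw [secn_pull]
  by_cases hi : i ∈ range e
  · obtain ⟨a, rfl⟩ := hi
    rw [single_comap]
    exact secn_mem P hk n hC N a _ (hz N e)
  · rw [single_comap_off e i hi, secY_noPrio_secn]
    exact hz N e

theorem sec_single_mem (P : Prog k) (hk : ∀ m, 1 ≤ k m)
    (hC : ∀ m, 1 ≤ m → Cons P m (k m) (P.s m) (P.τ m)) {L : Type} (i : L)
    (z : E k L) (hz : z ∈ YY P L) : sec P (single i) z ∈ YY P L := by
  intro n
  refine Yn_cylR P n L (secn P (single i) n z)
    (secn_mem_Yn P hk n (fun m h1 _ => hC m h1) i z (hz n)) _ (fun c hc => ?_)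
  exact (secn_lt P (single i) n z c hc).symm

private theorem secY_fin (P : Prog k) (hk : ∀ m, 1 ≤ k m)
    (hC : ∀ m, 1 ≤ m → Cons P m (k m) (P.s m) (P.τ m)) {N : ℕ} (r : Fin N → Fin N → Prop) (q : ℕ) :
    ∀ (w : Set (Fin N)), w.ncard = q → LinOn w r → ∀ z ∈ YY P (Fin N),
    sec P (ofSet w r) z ∈ YY P (Fin N) := by
  induction q with
  | zero =>
    intro w hw hr z hz
    have h0 : w = ∅ := (Set.ncard_eq_zero (Set.toFinite w)).1 hw
    subst h0
    rw [ofSet_empty, sec_noPrio]
    exact hz
  | succ q ih =>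
    intro w hw hr z hz
    -- the first letter
    have hne : w.Nonempty := by
      rw [← Set.ncard_pos (Set.toFinite w)]
      omega
    have hfirst : ∀ (p : ℕ) (u : Set (Fin N)), u.ncard = p → u.Nonempty → u ⊆ w →
        ∃ d ∈ u, ∀ b ∈ u, b ≠ d → r d b := by
      intro p
      induction p with
      | zero =>
        intro u hu hne _
        have h0 : u = ∅ := (Set.ncard_eq_zero (Set.toFinite u)).1 hu
        subst h0
        exact absurd hne Set.not_nonempty_empty
      | succ p ihp =>
        intro u hu hne huw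
        obtain ⟨x, hx⟩ := hne
        by_cases he : (u \ {x}).Nonempty
        · obtain ⟨d, hd, hd'⟩ := ihp (u \ {x}) (by
            rw [Set.ncard_sdiff_singleton_of_mem hx, hu]
            rfl) he (fun a ha => huw ha.1)
          rcases hr.2.2 x (huw hx) d (huw hd.1) (fun h => hd.2 h.symm) with h1 | h1
          · refine ⟨x, hx, fun b hb hbx => ?_⟩
            by_cases hbd : b = d
            · rw [hbd]
              exact h1
            · exact hr.2.1 x (huw hx) d (huw hd.1) b (huw hb) h1 (hd' b ⟨hb, hbx⟩ hbd)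
          · refine ⟨d, hd.1, fun b hb hbd => ?_⟩
            by_cases hbx : b = x
            · rw [hbx]
              exact h1
            · exact hd' b ⟨hb, hbx⟩ hbd
        · refine ⟨x, hx, fun b hb hbx => absurd ?_ he⟩
          exact ⟨b, hb, hbx⟩
    obtain ⟨d, hd, hdw⟩ := hfirst _ w rfl hne (le_refl _)
    have hunion : {d} ∪ (w \ {d}) = w := by
      ext x
      constructor
      · rintro (hx | hx)
        · rw [Set.mem_singleton_iff] at hx
          rw [hx]
          exact hd
        · exact hx.1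
      · intro hx
        by_cases hxd : x = d
        · exact Or.inl hxd
        · exact Or.inr ⟨hx, hxd⟩
    have happ := sec_ofSet_append P {d} (w \ {d}) r (by rw [hunion]; exact hr)
      (by
        intro a ha b hb
        rw [Set.mem_singleton_iff] at ha
        rw [ha]
        exact hdw b hb.1 hb.2) z
    rw [hunion] at happ
    rw [happ, ofSet_singleton]
    refine sec_single_mem P hk hC d _ (ih (w \ {d}) ?_ ?_ z hz)
    · rw [Set.ncard_sdiff_singleton_of_mem hd, hw]
      rfl
    · exact ⟨fun a ha => hr.1 a ha.1, fun a ha b hb c hc => hr.2.1 a ha.1 b hb.1 c hc.1,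
        fun a ha b hb => hr.2.2 a ha.1 b hb.1⟩

theorem sec_word_mem (P : Prog k) (hk : ∀ m, 1 ≤ k m)
    (hC : ∀ m, 1 ≤ m → Cons P m (k m) (P.s m) (P.τ m)) {L : Type} (w : Set L)
    (r : L → L → Prop) (hr : LinOn w r) (z : E k L) (hz : z ∈ YY P L) :
    sec P (ofSet w r) z ∈ YY P L := by
  intro n N e
  rw [sec_pull, ofSet_comap w r hr e]
  have h1 : pull e z ∈ YY P (Fin N) := fun n' => Yn_pull_mem P n' e (hz n')
  have h2 := secY_fin P hk hC (fun a a' => r (e a) (e a')) _ (e ⁻¹' w) rfl (linOn_comap w r hr e)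
    (pull e z) h1
  have h3 := h2 n N (Function.Embedding.refl (Fin N))
  exact h3

end H64DN
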