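import Pool.Agent.Helper64.DN.Tower

/-!
DN-12 (Sec): the section maps `secn P ρ n`, `sec P ρ`.  Everything by induction on the rank.

* `secn_ge`: coordinates of rank `≥ n` are untouched by `secn _ n`.  `secn_lt`: for `c.1 < n`, `secn P ρ n z c = sec P ρ z c`
  (later steps change only higher ranks).
* `sec_some`: the value at `(m,e)` is computed from `secn P ρ m z` restricted to `e`; `P.dep` allows to replace it by `sec P ρ z`.
* `sec_pull`: by `secn_pull` (induction on `n`).
* `sec_congr`: `z = z'` on all coordinates with `ρ = none` implies `sec z = sec z'` (induction on the rank).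
* `ofSet`, `single`: the decisive position is unique if `LinOn w r` (irreflexive, transitive, total on `w`): a `j` with `e j ∈ w` and
  `r (e j) (e j')` for all other `j'` with `e j' ∈ w`; two such `j ≠ j'` give `r (e j) (e j')` and `r (e j') (e j)`, so `r (e j) (e j)`.
  Existence: a finite nonempty set with a strict linear order has a first element.
* `ofSet_comap`: the two sides are definitionally equal (same proposition, same choice).
* `sec_ofSet_append`: `w₁`, `w₂` are disjoint (`r` irreflexive).  Induction on the rank of the coordinate `(m,e)`.  If `e` has a letter in `w₁`,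
  both sides are decided by the first letter of `w₁` in `e` and are `lam _ (s_m (pull e side))` (`sec_some`), equal by induction.  If not, the right side is
  `sec (ofSet w₂ r) z (m,e)` (`sec_none`); if `e` has a letter in `w₂`, both are decided by the first letter of `w₂` in `e`, and the lower coordinates inside
  `e` of `sec w₁ (sec w₂ z)` are those of `sec w₂ z`; otherwise both are `z (m,e)`.
-/

set_option autoImplicit false

namespace H64DN

open Set Topology

variable {k : ℕ → ℕ} {L : Type}

private theorem upd_ne (P : Prog k) (ρ : Prio L) (n : ℕ) (z : E k L) (c : Coord k L)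
    (h : c.1 ≠ n) : upd P ρ n z c = z c := by
  unfold upd
  rw [if_neg h]

private theorem upd_none (P : Prog k) (ρ : Prio L) (n : ℕ) (z : E k L) (c : Coord k L)
    (h : ρ (k c.1) c.2 = none) : upd P ρ n z c = z c := by
  unfold upd
  rw [h]
  simp

private theorem upd_some (P : Prog k) (ρ : Prio L) (n : ℕ) (z : E k L) (c : Coord k L)
    (j : Fin (k c.1)) (h : ρ (k c.1) c.2 = some j) (h0 : c.1 ≠ 0) (hn : c.1 = n) :
    upd P ρ n z c = lam (P.τ c.1 j) (P.s c.1 (pull c.2 z)) := by
  unfold upd
  rw [if_pos hn, h]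
  simp [h0]

private theorem upd_zero (P : Prog k) (ρ : Prio L) (n : ℕ) (z : E k L) (c : Coord k L)
    (j : Fin (k c.1)) (h : ρ (k c.1) c.2 = some j) (h0 : c.1 = 0) (hn : c.1 = n) :
    upd P ρ n z c = 0 := by
  unfold upd
  rw [if_pos hn, h]
  simp [h0]

theorem secn_ge (P : Prog k) (ρ : Prio L) (n : ℕ) (z : E k L) (c : Coord k L) (h : n ≤ c.1) :
    secn P ρ n z c = z c := by
  induction n with
  | zero => rfl
  | succ n ih =>
    change upd P ρ n (secn P ρ n z) c = z c
    rw [upd_ne P ρ n _ c (by omega)]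
    exact ih (by omega)

theorem secn_lt (P : Prog k) (ρ : Prio L) (n : ℕ) (z : E k L) (c : Coord k L) (h : c.1 < n) :
    secn P ρ n z c = sec P ρ z c := by
  induction n with
  | zero => omega
  | succ n ih =>
    rcases Nat.lt_succ_iff_lt_or_eq.mp h with h1 | h1
    · change upd P ρ n (secn P ρ n z) c = _
      rw [upd_ne P ρ n _ c (by omega)]
      exact ih h1
    · unfold sec
      rw [h1]

theorem sec_none (P : Prog k) (ρ : Prio L) (z : E k L) (c : Coord k L)
    (h : ρ (k c.1) c.2 = none) : sec P ρ z c = z c := by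
  change upd P ρ c.1 (secn P ρ c.1 z) c = z c
  rw [upd_none P ρ _ _ c h]
  exact secn_ge P ρ _ z c le_rfl

theorem sec_some (P : Prog k) (ρ : Prio L) (z : E k L) (c : Coord k L) (j : Fin (k c.1))
    (h : ρ (k c.1) c.2 = some j) (h0 : c.1 ≠ 0) :
    sec P ρ z c = lam (P.τ c.1 j) (P.s c.1 (pull c.2 (sec P ρ z))) := by
  change upd P ρ c.1 (secn P ρ c.1 z) c = _
  rw [upd_some P ρ _ _ c j h h0 rfl]
  congr 1
  refine P.dep c.1 _ _ (fun c' hc' => ?_)
  exact secn_lt P ρ c.1 z ⟨c'.1, c'.2.trans c.2⟩ hc'

theorem sec_zero (P : Prog k) (ρ : Prio L) (z : E k L) (c : Coord k L) (j : Fin (k c.1))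
    (h : ρ (k c.1) c.2 = some j) (h0 : c.1 = 0) : sec P ρ z c = 0 := by
  change upd P ρ c.1 (secn P ρ c.1 z) c = 0
  exact upd_zero P ρ _ _ c j h h0 rfl

private theorem upd_continuous (P : Prog k) (ρ : Prio L) (n : ℕ) : Continuous (upd P ρ n) := by
  refine continuous_pi (fun c => ?_)
  by_cases hn : c.1 = n
  · rcases hρ : ρ (k c.1) c.2 with _ | j
    · have h1 : (fun z => upd P ρ n z c) = fun z => z c :=
        funext (fun z => upd_none P ρ n z c hρ)
      rw [h1]
      exact continuous_apply c
    · by_cases h0 : c.1 = 0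
      · have h1 : (fun z => upd P ρ n z c) = fun _ => 0 :=
          funext (fun z => upd_zero P ρ n z c j hρ h0 hn)
        rw [h1]
        exact continuous_const
      · have h1 : (fun z => upd P ρ n z c) =
            fun z => lam (P.τ c.1 j) (P.s c.1 (pull c.2 z)) :=
          funext (fun z => upd_some P ρ n z c j hρ h0 hn)
        rw [h1]
        exact (lam_continuous _).comp ((P.s c.1).continuous.comp (pull_continuous c.2))
  · have h1 : (fun z => upd P ρ n z c) = fun z => z c :=
      funext (fun z => upd_ne P ρ n z c hn)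
    rw [h1]
    exact continuous_apply c

theorem secn_continuous (P : Prog k) (ρ : Prio L) (n : ℕ) : Continuous (secn P ρ n) := by
  induction n with
  | zero => exact continuous_id
  | succ n ih => exact (upd_continuous P ρ n).comp ih

theorem sec_continuous (P : Prog k) (ρ : Prio L) : Continuous (sec P ρ) :=
  continuous_pi (fun c => (continuous_apply c).comp (secn_continuous P ρ (c.1 + 1)))

private theorem upd_pull (P : Prog k) {A B : Type} (ρ : Prio B) (φ : A ↪ B) (n : ℕ)
    (z : E k B) : pull φ (upd P ρ n z) = upd P (ρ.comap φ) n (pull φ z) := by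
  funext c
  change upd P ρ n z ⟨c.1, c.2.trans φ⟩ = _
  by_cases hn : c.1 = n
  · rcases hρ : ρ (k c.1) (c.2.trans φ) with _ | j
    · rw [upd_none P ρ n z ⟨c.1, c.2.trans φ⟩ hρ, upd_none P (ρ.comap φ) n (pull φ z) c hρ]
      rfl
    · by_cases h0 : c.1 = 0
      · rw [upd_zero P ρ n z ⟨c.1, c.2.trans φ⟩ j hρ h0 hn,
          upd_zero P (ρ.comap φ) n (pull φ z) c j hρ h0 hn]
      · rw [upd_some P ρ n z ⟨c.1, c.2.trans φ⟩ j hρ h0 hn,
          upd_some P (ρ.comap φ) n (pull φ z) c j hρ h0 hn]
        rfl
  · rw [upd_ne P ρ n z ⟨c.1, c.2.trans φ⟩ hn, upd_ne P (ρ.comap φ) n (pull φ z) c hn]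
    rfl

theorem secn_pull (P : Prog k) {A B : Type} (ρ : Prio B) (φ : A ↪ B) (n : ℕ) (z : E k B) :
    pull φ (secn P ρ n z) = secn P (ρ.comap φ) n (pull φ z) := by
  induction n with
  | zero => rfl
  | succ n ih =>
    change pull φ (upd P ρ n (secn P ρ n z)) = upd P (ρ.comap φ) n (secn P (ρ.comap φ) n (pull φ z))
    rw [upd_pull, ih]

theorem sec_pull (P : Prog k) {A B : Type} (ρ : Prio B) (φ : A ↪ B) (z : E k B) :
    pull φ (sec P ρ z) = sec P (ρ.comap φ) (pull φ z) := by
  funext c
  exact congrFun (secn_pull P ρ φ (c.1 + 1) z) c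

/-- Congruence up to rank `N`. -/
private theorem sec_congr_aux (P : Prog k) (ρ : Prio L) (z z' : E k L) (N : ℕ)
    (h : ∀ c : Coord k L, c.1 < N → ρ (k c.1) c.2 = none → z c = z' c) :
    ∀ m : ℕ, m < N → ∀ c : Coord k L, c.1 = m → sec P ρ z c = sec P ρ z' c := by
  intro m
  induction m using Nat.strong_induction_on with
  | _ m ih =>
    intro hm c hc
    rcases hρ : ρ (k c.1) c.2 with _ | j
    · rw [sec_none P ρ z c hρ, sec_none P ρ z' c hρ]
      exact h c (by omega) hρ
    · by_cases h0 : c.1 = 0
      · rw [sec_zero P ρ z c j hρ h0, sec_zero P ρ z' c j hρ h0]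
      · rw [sec_some P ρ z c j hρ h0, sec_some P ρ z' c j hρ h0]
        congr 1
        refine P.dep c.1 _ _ (fun c' hc' => ?_)
        exact ih c'.1 (by omega) (by omega) ⟨c'.1, c'.2.trans c.2⟩ rfl

theorem sec_congr (P : Prog k) (ρ : Prio L) (z z' : E k L)
    (h : ∀ c : Coord k L, ρ (k c.1) c.2 = none → z c = z' c) : sec P ρ z = sec P ρ z' := by
  funext c
  exact sec_congr_aux P ρ z z' (c.1 + 1) (fun c' _ hc' => h c' hc') c.1 (by omega) c rfl

/-- `secn` depends only on the coordinates of rank `< n` (for its values of rank `< n`). -/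
theorem secn_congr (P : Prog k) (ρ : Prio L) (n : ℕ) (z z' : E k L)
    (h : ∀ c : Coord k L, c.1 < n → z c = z' c) (c : Coord k L) (hc : c.1 < n) :
    secn P ρ n z c = secn P ρ n z' c := by
  rw [secn_lt P ρ n z c hc, secn_lt P ρ n z' c hc]
  exact sec_congr_aux P ρ z z' n (fun c' hc' _ => h c' hc') c.1 hc c rfl

end H64DN
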