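import Pool.Agent.Helper64.DN.Seca

/-!
DN-12 (Sec): the section maps `secn P ρ n`, `sec P ρ`.  Everything by induction on the rank.

* `secn_ge`: coordinates of rank `≥ n` are untouched by `secn _ n`.  `secn_lt`: for `c.1 < n`, `secn P ρ n z c = sec P ρ z c`
  (later steps change only higher ranks).
* `sec_some`: the value at `(m,e)` is computed from `secn P ρ m z` restricted to `e`; `P.dep` allows to replace it by `sec P ρ z`.
* `sec_pull`: by `secn_pull` (induction on `n`).
* `sec_congr`: `z = z'` on all coordinates with `ρ = none` implies `sec z = sec z'` (induction on the rank).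
* `ofSet`, `single`: the decisive position is unique if `LinOn w r` (irreflexive, transitive, total on `w`): a `j` with `e j ∈ w` and
  `r (e j) (e j')` for all other `j'` with `e j' ∈ w`; two such `j ≠ j'` give `r (e j) (e j')` and `r (e j') (e j)`, so `r (e j) (e j)`.
  Existence: a finite nonempty set with a strict linear order has a first element.
* `ofSet_comap`: the two sides are definitionally equal (same proposition, same choice).
* `sec_ofSet_append`: `w₁`, `w₂` are disjoint (`r` irreflexive).  Induction on the rank of the coordinate `(m,e)`.  If `e` has a letter in `w₁`,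
  both sides are decided by the first letter of `w₁` in `e` and are `lam _ (s_m (pull e side))` (`sec_some`), equal by induction.  If not, the right side is
  `sec (ofSet w₂ r) z (m,e)` (`sec_none`); if `e` has a letter in `w₂`, both are decided by the first letter of `w₂` in `e`, and the lower coordinates inside
  `e` of `sec w₁ (sec w₂ z)` are those of `sec w₂ z`; otherwise both are `z (m,e)`.
-/

set_option autoImplicit false

namespace H64DN

open Set Topology

variable {k : ℕ → ℕ} {L : Type}

private theorem ofSet_some_iff (w : Set L) (r : L → L → Prop) (hr : LinOn w r) {n : ℕ}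
    (e : Fin n ↪ L) (j : Fin n) :
    ofSet w r n e = some j ↔ e j ∈ w ∧ ∀ j', j' ≠ j → e j' ∈ w → r (e j) (e j') := by
  classical
  unfold ofSet
  constructor
  · intro h
    by_cases hex : ∃ j, e j ∈ w ∧ ∀ j', j' ≠ j → e j' ∈ w → r (e j) (e j')
    · rw [dif_pos hex] at h
      have h1 := Option.some.inj h
      rw [← h1]
      exact hex.choose_spec
    · rw [dif_neg hex] at h
      cases h
  · intro h
    have hex : ∃ j, e j ∈ w ∧ ∀ j', j' ≠ j → e j' ∈ w → r (e j) (e j') := ⟨j, h⟩
    rw [dif_pos hex]
    congr 1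
    by_contra hne
    have h1 := hex.choose_spec
    have h2 := h1.2 j (fun h => hne h.symm) h.1
    have h3 := h.2 _ hne h1.1
    exact hr.1 _ h.1 (hr.2.1 _ h.1 _ h1.1 _ h.1 h3 h2)

private theorem ofSet_none_iff (w : Set L) (r : L → L → Prop) (hr : LinOn w r) {n : ℕ}
    (e : Fin n ↪ L) : ofSet w r n e = none ↔ ∀ j, e j ∉ w := by
  classical
  constructor
  · intro h j hj
    have hne : Nonempty {j // e j ∈ w} := ⟨⟨j, hj⟩⟩
    let R : {j // e j ∈ w} → {j // e j ∈ w} → Prop := fun a b => r (e a.1) (e b.1)
    have hwf : WellFounded R := by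
      haveI : IsTrans {j // e j ∈ w} R :=
        ⟨fun a b c hab hbc => hr.2.1 _ a.2 _ b.2 _ c.2 hab hbc⟩
      haveI : Std.Irrefl R := ⟨fun a => hr.1 _ a.2⟩
      exact Finite.wellFounded_of_trans_of_irrefl R
    obtain ⟨m, -, hm⟩ := hwf.has_min (Set.univ : Set {j // e j ∈ w}) ⟨⟨j, hj⟩, trivial⟩
    have hsome : ofSet w r n e = some m.1 := by
      rw [ofSet_some_iff w r hr]
      refine ⟨m.2, fun j' hne' hj' => ?_⟩
      rcases hr.2.2 _ m.2 _ hj' (fun h => hne' (e.injective h).symm) with h1 | h1
      · exact h1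
      · exact absurd h1 (hm ⟨j', hj'⟩ trivial)
    rw [hsome] at h
    cases h
  · intro h
    unfold ofSet
    rw [dif_neg]
    rintro ⟨j, hj, -⟩
    exact h j hj

private theorem linOn_single (i : L) : LinOn ({i} : Set L) (fun _ _ => False) := by
  refine ⟨fun a _ h => h, fun a _ b _ c _ h _ => h, ?_⟩
  intro a ha b hb hab
  rw [mem_singleton_iff] at ha hb
  exact absurd (ha.trans hb.symm) hab

theorem single_some (i : L) {n : ℕ} (e : Fin n ↪ L) (j : Fin n) :
    single i n e = some j ↔ e j = i := by
  unfold single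
  rw [ofSet_some_iff _ _ (linOn_single i)]
  constructor
  · rintro ⟨h, -⟩
    exact h
  · intro h
    refine ⟨h, fun j' hne hj' => hne (e.injective ?_)⟩
    rw [mem_singleton_iff] at hj'
    rw [hj', h]

theorem single_none (i : L) {n : ℕ} (e : Fin n ↪ L) :
    single i n e = none ↔ i ∉ range e := by
  unfold single
  rw [ofSet_none_iff _ _ (linOn_single i)]
  constructor
  · rintro h ⟨j, hj⟩
    exact h j hj
  · intro h j hj
    exact h ⟨j, hj⟩

theorem single_comap {A B : Type} (φ : A ↪ B) (a : A) : (single (φ a)).comap φ = single a := by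
  funext n e
  apply Option.ext
  intro j
  change single (φ a) n (e.trans φ) = some j ↔ single a n e = some j
  rw [single_some, single_some]
  exact φ.injective.eq_iff

/-- The priority which never decides. -/
def noPrio : Prio L := fun _ _ => none

theorem sec_noPrio (P : Prog k) (z : E k L) : sec P noPrio z = z := by
  have h : ∀ n, secn P noPrio n z = z := by
    intro n
    induction n with
    | zero => rfl
    | succ n ih =>
      rw [secn, ih]
      funext c
      unfold upd
      by_cases hc : c.1 = n
      · rw [if_pos hc]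
        rfl
      · rw [if_neg hc]
  funext c
  unfold sec
  rw [h]

theorem single_comap_off {A B : Type} (φ : A ↪ B) (i : B) (hi : i ∉ range φ) :
    (single i).comap φ = noPrio := by
  funext n e
  change single i n (e.trans φ) = none
  rw [single_none]
  rintro ⟨j, hj⟩
  exact hi ⟨e j, hj⟩

theorem ofSet_some (w : Set L) (r : L → L → Prop) (hr : LinOn w r) {n : ℕ} (e : Fin n ↪ L)
    (j : Fin n) : ofSet w r n e = some j ↔ e j ∈ w ∧ ∀ j', j' ≠ j → e j' ∈ w → r (e j) (e j') :=
  ofSet_some_iff w r hr e j

theorem ofSet_none (w : Set L) (r : L → L → Prop) (hr : LinOn w r) {n : ℕ} (e : Fin n ↪ L) :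
    ofSet w r n e = none ↔ ∀ j, e j ∉ w :=
  ofSet_none_iff w r hr e

theorem ofSet_comap {A B : Type} (w : Set B) (r : B → B → Prop) (hr : LinOn w r) (φ : A ↪ B) :
    (ofSet w r).comap φ = ofSet (φ ⁻¹' w) (fun a a' => r (φ a) (φ a')) :=
  rfl

theorem linOn_comap {A B : Type} (w : Set B) (r : B → B → Prop) (hr : LinOn w r) (φ : A ↪ B) :
    LinOn (φ ⁻¹' w) (fun a a' => r (φ a) (φ a')) := by
  refine ⟨fun a ha => hr.1 _ ha, fun a ha b hb c hc => hr.2.1 _ ha _ hb _ hc, ?_⟩
  intro a ha b hb hab
  exact hr.2.2 _ ha _ hb (fun h => hab (φ.injective h))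

theorem ofSet_empty (r : L → L → Prop) : (ofSet (∅ : Set L) r) = noPrio := by
  funext n e
  unfold ofSet
  rw [dif_neg]
  · rfl
  · rintro ⟨j, hj, -⟩
    exact hj

theorem ofSet_singleton (d : L) (r : L → L → Prop) : ofSet {d} r = single d := by
  funext n e
  have hinj : ∀ j j' : Fin n, j' ≠ j → e j ∈ ({d} : Set L) → ¬ (e j' ∈ ({d} : Set L)) := by
    intro j j' hne h hj'
    rw [mem_singleton_iff] at h hj'
    exact hne (e.injective (by rw [hj', h]))
  unfold single ofSet
  by_cases hh : ∃ j, e j ∈ ({d} : Set L)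
  · have h1 : ∃ j, e j ∈ ({d} : Set L) ∧ ∀ j', j' ≠ j → e j' ∈ ({d} : Set L) → r (e j) (e j') := by
      obtain ⟨j, hj⟩ := hh
      exact ⟨j, hj, fun j' hne hj' => absurd hj' (hinj j j' hne hj)⟩
    have h2 : ∃ j, e j ∈ ({d} : Set L) ∧ ∀ j', j' ≠ j → e j' ∈ ({d} : Set L) →
        (fun _ _ : L => False) (e j) (e j') := by
      obtain ⟨j, hj⟩ := hh
      exact ⟨j, hj, fun j' hne hj' => absurd hj' (hinj j j' hne hj)⟩
    rw [dif_pos h1, dif_pos h2]
    congr 1
    by_contra hne
    exact hinj _ _ hne h2.choose_spec.1 h1.choose_spec.1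
  · rw [dif_neg (fun h => hh ⟨h.choose, h.choose_spec.1⟩),
      dif_neg (fun h => hh ⟨h.choose, h.choose_spec.1⟩)]

end H64DN
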