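import Pool.Agent.Helper64.DN.Secb

/-!
DN-12 (Sec): the section maps `secn P ρ n`, `sec P ρ`.  Everything by induction on the rank.

* `secn_ge`: coordinates of rank `≥ n` are untouched by `secn _ n`.  `secn_lt`: for `c.1 < n`, `secn P ρ n z c = sec P ρ z c`
  (later steps change only higher ranks).
* `sec_some`: the value at `(m,e)` is computed from `secn P ρ m z` restricted to `e`; `P.dep` allows to replace it by `sec P ρ z`.
* `sec_pull`: by `secn_pull` (induction on `n`).
* `sec_congr`: `z = z'` on all coordinates with `ρ = none` implies `sec z = sec z'` (induction on the rank).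
* `ofSet`, `single`: the decisive position is unique if `LinOn w r` (irreflexive, transitive, total on `w`): a `j` with `e j ∈ w` and
  `r (e j) (e j')` for all other `j'` with `e j' ∈ w`; two such `j ≠ j'` give `r (e j) (e j')` and `r (e j') (e j)`, so `r (e j) (e j)`.
  Existence: a finite nonempty set with a strict linear order has a first element.
* `ofSet_comap`: the two sides are definitionally equal (same proposition, same choice).
* `sec_ofSet_append`: `w₁`, `w₂` are disjoint (`r` irreflexive).  Induction on the rank of the coordinate `(m,e)`.  If `e` has a letter in `w₁`,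
  both sides are decided by the first letter of `w₁` in `e` and are `lam _ (s_m (pull e side))` (`sec_some`), equal by induction.  If not, the right side is
  `sec (ofSet w₂ r) z (m,e)` (`sec_none`); if `e` has a letter in `w₂`, both are decided by the first letter of `w₂` in `e`, and the lower coordinates inside
  `e` of `sec w₁ (sec w₂ z)` are those of `sec w₂ z`; otherwise both are `z (m,e)`.
-/

set_option autoImplicit false

namespace H64DN

open Set Topology

variable {k : ℕ → ℕ} {L : Type}

private theorem linOn_mono {w w' : Set L} {r : L → L → Prop} (hr : LinOn w' r) (h : w ⊆ w') :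
    LinOn w r :=
  ⟨fun a ha => hr.1 a (h ha), fun a ha b hb c hc => hr.2.1 a (h ha) b (h hb) c (h hc),
    fun a ha b hb => hr.2.2 a (h ha) b (h hb)⟩

private theorem exists_some_of_not {w : Set L} {r : L → L → Prop} (hr : LinOn w r) {n : ℕ}
    {e : Fin n ↪ L} (h : ¬ ∀ j, e j ∉ w) : ∃ j, ofSet w r n e = some j := by
  rcases hh : ofSet w r n e with _ | j
  · exact absurd ((ofSet_none w r hr e).1 hh) h
  · exact ⟨j, rfl⟩

/-- If `w = w₁ ∪ w₂` and all letters of `w₁` come before all letters of `w₂`, then the section of `w` is the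
section of `w₁` after the section of `w₂`. -/
theorem sec_ofSet_append (P : Prog k) (w₁ w₂ : Set L) (r : L → L → Prop)
    (hr : LinOn (w₁ ∪ w₂) r) (h : ∀ a ∈ w₁, ∀ b ∈ w₂, r a b) (z : E k L) :
    sec P (ofSet (w₁ ∪ w₂) r) z = sec P (ofSet w₁ r) (sec P (ofSet w₂ r) z) := by
  have hr1 : LinOn w₁ r := linOn_mono hr subset_union_left
  have hr2 : LinOn w₂ r := linOn_mono hr subset_union_right
  have key : ∀ m : ℕ, ∀ c : Coord k L, c.1 = m →
      sec P (ofSet (w₁ ∪ w₂) r) z c = sec P (ofSet w₁ r) (sec P (ofSet w₂ r) z) c := by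
    intro m
    induction m using Nat.strong_induction_on with
    | _ m ih =>
      intro c hc
      by_cases hA : ∀ j, c.2 j ∉ w₁
      · rw [sec_none P (ofSet w₁ r) _ c ((ofSet_none w₁ r hr1 c.2).2 hA)]
        by_cases hB : ∀ j, c.2 j ∉ w₂
        · rw [sec_none P (ofSet w₂ r) _ c ((ofSet_none w₂ r hr2 c.2).2 hB),
            sec_none P (ofSet (w₁ ∪ w₂) r) _ c
              ((ofSet_none (w₁ ∪ w₂) r hr c.2).2 (fun j hj => hj.elim (hA j) (hB j)))]
        · obtain ⟨j, hj⟩ := exists_some_of_not hr2 hB
          have hjW : ofSet (w₁ ∪ w₂) r (k c.1) c.2 = some j := by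
            rw [ofSet_some (w₁ ∪ w₂) r hr]
            rw [ofSet_some w₂ r hr2] at hj
            exact ⟨Or.inr hj.1, fun j' hne hj' => hj.2 j' hne (hj'.resolve_left (hA j'))⟩
          by_cases h0 : c.1 = 0
          · rw [sec_zero P _ z c j hjW h0, sec_zero P _ z c j hj h0]
          · rw [sec_some P _ z c j hjW h0, sec_some P _ z c j hj h0]
            congr 1
            refine P.dep c.1 _ _ (fun c' hc' => ?_)
            change sec P (ofSet (w₁ ∪ w₂) r) z ⟨c'.1, c'.2.trans c.2⟩ =
              sec P (ofSet w₂ r) z ⟨c'.1, c'.2.trans c.2⟩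
            rw [ih c'.1 (by omega) ⟨c'.1, c'.2.trans c.2⟩ rfl]
            exact sec_none P (ofSet w₁ r) _ ⟨c'.1, c'.2.trans c.2⟩
              ((ofSet_none w₁ r hr1 (c'.2.trans c.2)).2 (fun i => hA (c'.2 i)))
      · obtain ⟨j, hj⟩ := exists_some_of_not hr1 hA
        have hjW : ofSet (w₁ ∪ w₂) r (k c.1) c.2 = some j := by
          rw [ofSet_some (w₁ ∪ w₂) r hr]
          rw [ofSet_some w₁ r hr1] at hj
          exact ⟨Or.inl hj.1, fun j' hne hj' => hj'.elim (hj.2 j' hne) (h _ hj.1 _)⟩
        by_cases h0 : c.1 = 0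
        · rw [sec_zero P _ z c j hjW h0, sec_zero P _ _ c j hj h0]
        · rw [sec_some P _ z c j hjW h0, sec_some P _ _ c j hj h0]
          congr 1
          refine P.dep c.1 _ _ (fun c' hc' => ?_)
          exact ih c'.1 (by omega) ⟨c'.1, c'.2.trans c.2⟩ rfl
  funext c
  exact key c.1 c rfl

end H64DN
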