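import Pool.Agent.Helper64.DN.Disj
import Pool.Agent.Helper64.DN.Grow

/-!
DN-22 (Sep): `(4e)` of the proof.

`I₁₂ = {i | cs S i ⊆ K₁ ∩ K₂}`.  For `i ∈ I₁₂` call `i` high if there is `D` with `NatK S D`, `pull e '' D ⊆ K₂` (all `e` with `e i = 0`) and a point
`d ∈ pull e '' D`, `d ∉ K₁`.  Choose such `D i`, `d i` for high `i`.
`AH = {b} ∪ ⋃ {cs S i | i ∉ I₁₂, cs S i ⊆ K₂} ∪ {d i | i high}`: closed, `⊆ K₂`, disjoint from `K₁` (if `cs S i ⊆ K₂`, `i ∉ I₁₂` then `cs S i ⊄ K₁`, so disjoint by `h1`).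
For `i ∈ I₁₂` not high: by normality there is an open `O` with `K₁ ∩ K₂ ⊆ O`, `closure O` disjoint from `AH`; `grow` (with `b ∉ closure O`) gives `D i`; it is not
inside `K₂` (otherwise, `i` not being high, it is inside `K₁`, so inside `O`), so there is `d i ∈ pull e '' D i`, `d i ∉ K₂`; `pull e '' D i ∩ AH = ∅`.
`AL = {a} ∪ ⋃ {cs S i | i ∉ I₁₂, ¬ cs S i ⊆ K₂} ∪ {d i | i ∈ I₁₂ not high}`: closed, disjoint from `K₂` (by `h2`).
`Ale = K₁ ∪ ⋃ {pull e '' D i | i ∈ I₁₂ not high}`, `Age = K₂`.  `ury4` gives `s`.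
`Good`: `K i = D i` for `i ∈ I₁₂` (τ = true iff high), `K i = cs S 0` otherwise (τ = true iff `cs S i ⊆ K₂`); values along `e` with `e i = 0` are the values of
`s` on `pull e '' K i` (which does not depend on `e`, `natK_pull`).  Chain condition: all are `NatK`, and either any two are comparable, or `I₁₂` has at most
one element (then the only sets are `cs S 0` and one `D i ⊇ cs S 0`).
`test_sep` for `K₁`, `K₂` gives `Disjoint K₁ K₂`, contradiction.
-/

set_option autoImplicit false

namespace H64DN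

open Set Topology

variable {k : ℕ → ℕ} (S : NS k)

theorem sep_core (N : ℕ) (hN : 1 ≤ N) (K₁ K₂ : Set (E k (Fin N))) (hK₁ : K₁ ⊆ S.Y (Fin N))
    (hK₂ : K₂ ⊆ S.Y (Fin N)) (hc₁ : IsClosed K₁) (hc₂ : IsClosed K₂) (hp₁ : IsConnected K₁)
    (hp₂ : IsConnected K₂) (hm : (K₁ ∩ K₂).Nonempty) (a b : E k (Fin N)) (ha : a ∈ K₁)
    (ha' : a ∉ K₂) (hb : b ∈ K₂) (hb' : b ∉ K₁)
    (h1 : ∀ i : Fin N, cs S i ⊆ K₁ ∨ Disjoint (cs S i) K₁)
    (h2 : ∀ i : Fin N, cs S i ⊆ K₂ ∨ Disjoint (cs S i) K₂)
    (hch : (∀ G G', NatK S G → NatK S G' → G ⊆ G' ∨ G' ⊆ G) ∨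
      ∀ i i' : Fin N, cs S i ⊆ K₁ ∩ K₂ → cs S i' ⊆ K₁ ∩ K₂ → i = i') : False := by
  classical
  have he : ∀ i : Fin N, ∃ e : Fin N ↪ ℕ, e i = 0 := by
    intro i
    refine ⟨⟨fun x => if x = i then 0 else x.val + 1, ?_⟩, if_pos rfl⟩
    intro x y h
    by_cases hx : x = i
    · by_cases hy : y = i
      · rw [hx, hy]
      · simp [hx, hy] at h
    · by_cases hy : y = i
      · simp [hx, hy] at h
      · simp [hx, hy] at h
        exact Fin.ext h
  choose e₀ he₀ using he
  have hR : ∀ G : Set (E k ℕ), NatK S G → ∀ (i : Fin N) (e : Fin N ↪ ℕ), e i = 0 →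
      pull e '' G = pull (e₀ i) '' G :=
    fun G hG i e h => natK_pull S G hG i e (e₀ i) h (he₀ i)
  set high : Fin N → Prop := fun i => ∃ D, NatK S D ∧ pull (e₀ i) '' D ⊆ K₂ ∧
    ∃ d ∈ pull (e₀ i) '' D, d ∉ K₁ with hhigh
  set I : Fin N → Prop := fun i => cs S i ⊆ K₁ ∩ K₂ with hI
  have hh : ∀ i, ∃ (D : Set (E k ℕ)) (d : E k (Fin N)), high i → NatK S D ∧
      pull (e₀ i) '' D ⊆ K₂ ∧ d ∈ pull (e₀ i) '' D ∧ d ∉ K₁ := by
    intro i
    by_cases h : high i
    · obtain ⟨D, hD, hD2, d, hd, hd1⟩ := h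
      exact ⟨D, d, fun _ => ⟨hD, hD2, hd, hd1⟩⟩
    · exact ⟨∅, a, fun h' => absurd h' h⟩
  choose DH dH hDH using hh
  -- the letters outside `I`
  have hC : ∀ i, ¬ I i → cs S i ⊆ K₂ → Disjoint (cs S i) K₁ := by
    intro i hi h
    rcases h1 i with h' | h'
    · exact absurd (subset_inter h' h) hi
    · exact h'
  have hD' : ∀ i, ¬ cs S i ⊆ K₂ → Disjoint (cs S i) K₂ := by
    intro i hi
    rcases h2 i with h' | h'
    · exact absurd h' hi
    · exact h'
  set AH : Set (E k (Fin N)) := {b} ∪ (⋃ i ∈ {i | ¬ I i ∧ cs S i ⊆ K₂}, cs S i) ∪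
    (⋃ i ∈ {i | I i ∧ high i}, {dH i}) with hAH
  have hAHc : IsClosed AH := by
    refine (isClosed_singleton.union ?_).union ?_
    · exact Set.Finite.isClosed_biUnion (Set.toFinite _) (fun i _ => cs_closed S i)
    · exact Set.Finite.isClosed_biUnion (Set.toFinite _) (fun i _ => isClosed_singleton)
  have hbAH : b ∈ AH := Or.inl (Or.inl rfl)
  have hAHC : ∀ i, ¬ I i → cs S i ⊆ K₂ → cs S i ⊆ AH := by
    intro i hi h z hz
    exact Or.inl (Or.inr (mem_biUnion (show i ∈ {i | ¬ I i ∧ cs S i ⊆ K₂} from ⟨hi, h⟩) hz))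
  have hAHA : ∀ i, I i → high i → dH i ∈ AH := by
    intro i hi h
    exact Or.inr (mem_biUnion (show i ∈ {i | I i ∧ high i} from ⟨hi, h⟩) rfl)
  have hAH2 : AH ⊆ K₂ := by
    rintro z ((hz | hz) | hz)
    · rw [mem_singleton_iff] at hz
      rw [hz]; exact hb
    · obtain ⟨i, hi, hz⟩ := mem_iUnion₂.mp hz
      exact hi.2 hz
    · obtain ⟨i, hi, hz⟩ := mem_iUnion₂.mp hz
      rw [mem_singleton_iff] at hz
      rw [hz]
      exact (hDH i hi.2).2.1 (hDH i hi.2).2.2.1
  have hAH1 : Disjoint AH K₁ := by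
    rw [disjoint_left]
    rintro z ((hz | hz) | hz) hz1
    · rw [mem_singleton_iff] at hz
      rw [hz] at hz1; exact hb' hz1
    · obtain ⟨i, hi, hz⟩ := mem_iUnion₂.mp hz
      exact disjoint_left.mp (hC i hi.1 hi.2) hz hz1
    · obtain ⟨i, hi, hz⟩ := mem_iUnion₂.mp hz
      rw [mem_singleton_iff] at hz
      rw [hz] at hz1
      exact (hDH i hi.2).2.2.2 hz1
  -- the open set
  obtain ⟨O, hO, hO1, hO2⟩ := normal_exists_closure_subset (hc₁.inter hc₂)
    hAHc.isOpen_compl (fun z hz hz' => disjoint_left.mp hAH1 hz' hz.1)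
  have hbO : b ∉ closure O := fun h => hO2 h hbAH
  have hl : ∀ i, ∃ (D : Set (E k ℕ)) (d : E k (Fin N)), I i → ¬ high i → NatK S D ∧
      pull (e₀ i) '' D ⊆ closure O ∧ d ∈ pull (e₀ i) '' D ∧ d ∉ K₂ := by
    intro i
    by_cases h : I i ∧ ¬ high i
    · obtain ⟨D, hD, hDe⟩ := grow S N i O hO (h.1.trans hO1) b (hK₂ hb) hbO
      obtain ⟨hD1, hD2⟩ := hDe (e₀ i) (he₀ i)
      have hnot : ¬ pull (e₀ i) '' D ⊆ K₂ := by
        intro hsub
        apply hD2
        intro d hd
        apply hO1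
        refine ⟨?_, hsub hd⟩
        by_contra hd1
        exact h.2 ⟨D, hD, hsub, d, hd, hd1⟩
      obtain ⟨d, hd, hd2⟩ := not_subset.mp hnot
      exact ⟨D, d, fun _ _ => ⟨hD, hD1, hd, hd2⟩⟩
    · exact ⟨∅, a, fun h' h'' => absurd ⟨h', h''⟩ h⟩
  choose DL dL hDL using hl
  set AL : Set (E k (Fin N)) := {a} ∪ (⋃ i ∈ {i | ¬ cs S i ⊆ K₂}, cs S i) ∪
    (⋃ i ∈ {i | I i ∧ ¬ high i}, {dL i}) with hAL
  have hALc : IsClosed AL := by
    refine (isClosed_singleton.union ?_).union ?_
    · exact Set.Finite.isClosed_biUnion (Set.toFinite _) (fun i _ => cs_closed S i)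
    · exact Set.Finite.isClosed_biUnion (Set.toFinite _) (fun i _ => isClosed_singleton)
  have haAL : a ∈ AL := Or.inl (Or.inl rfl)
  have hALD : ∀ i, ¬ cs S i ⊆ K₂ → cs S i ⊆ AL := by
    intro i hi z hz
    exact Or.inl (Or.inr (mem_biUnion (show i ∈ {i | ¬ cs S i ⊆ K₂} from hi) hz))
  have hALB : ∀ i, I i → ¬ high i → dL i ∈ AL := by
    intro i hi h
    exact Or.inr (mem_biUnion (show i ∈ {i | I i ∧ ¬ high i} from ⟨hi, h⟩) rfl)
  have hAL2 : Disjoint K₂ AL := by
    rw [disjoint_right]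
    rintro z ((hz | hz) | hz) hz2
    · rw [mem_singleton_iff] at hz
      rw [hz] at hz2; exact ha' hz2
    · obtain ⟨i, hi, hz⟩ := mem_iUnion₂.mp hz
      exact disjoint_left.mp (hD' i hi) hz hz2
    · obtain ⟨i, hi, hz⟩ := mem_iUnion₂.mp hz
      rw [mem_singleton_iff] at hz
      rw [hz] at hz2
      exact (hDL i hi.1 hi.2).2.2.2 hz2
  set Ale : Set (E k (Fin N)) := K₁ ∪ (⋃ i ∈ {i | I i ∧ ¬ high i}, pull (e₀ i) '' (DL i)) with hAle
  have hAlec : IsClosed Ale := by
    refine hc₁.union ?_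
    exact Set.Finite.isClosed_biUnion (Set.toFinite _)
      (fun i hi => (natK_restrict S (DL i) (hDL i hi.1 hi.2).1 i (e₀ i) (he₀ i)).1)
  have hAleB : ∀ i, I i → ¬ high i → pull (e₀ i) '' (DL i) ⊆ Ale := by
    intro i hi h z hz
    exact Or.inr (mem_biUnion (show i ∈ {i | I i ∧ ¬ high i} from ⟨hi, h⟩) hz)
  have hd1 : Disjoint (AL ∪ Ale) AH := by
    rw [disjoint_right]
    rintro z hzH (hz | hz | hz)
    · exact disjoint_left.mp hAL2 (hAH2 hzH) hz
    · exact disjoint_left.mp hAH1 hzH hz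
    · obtain ⟨i, hi, hz⟩ := mem_iUnion₂.mp hz
      exact hO2 ((hDL i hi.1 hi.2).2.1 hz) hzH
  have hd2 : Disjoint (K₂ ∪ AH) AL := by
    rw [union_eq_self_of_subset_right hAH2]
    exact hAL2
  obtain ⟨s, hsL, hsle, hsge, hsH⟩ := ury4 AL Ale K₂ AH hALc hAlec hc₂ hAHc hd1 hd2
  -- the data of `Good`
  set G : Fin N → Set (E k ℕ) := fun i => if I i then (if high i then DH i else DL i)
    else cs S (0 : ℕ) with hG
  have hGn : ∀ i, NatK S (G i) := by
    intro i
    simp only [hG]
    split_ifs with hi hh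
    · exact (hDH i hh).1
    · exact (hDL i hi hh).1
    · exact natK_cs S
  have hgood : Good S.P S.Y N s := by
    refine ⟨G, fun i => decide ((I i ∧ high i) ∨ (¬ I i ∧ cs S i ⊆ K₂)), ?_, ?_⟩
    · intro i
      obtain ⟨g1, g2, g3, g4, g5⟩ := hGn i
      refine ⟨g1, g2, g3, g4, ?_, fun e e' h h' => natK_pull S (G i) (hGn i) i e e' h h'⟩
      intro e hei
      have hRe := hR (G i) (hGn i) i e hei
      have hcsi : pull e '' cs S (0 : ℕ) = cs S i := by
        have := pull_cs S e i
        rwa [hei] at this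
      by_cases hi : I i
      · by_cases hh : high i
        · refine ⟨fun h => ?_, fun _ => ?_⟩
          · exfalso
            simp [hi, hh] at h
          · have hGi : G i = DH i := by simp only [hG, if_pos hi, if_pos hh]
            obtain ⟨q1, q2, q3, q4⟩ := hDH i hh
            rw [hGi] at hRe ⊢
            constructor
            · intro z hz
              have : pull e z ∈ K₂ := q2 (by rw [← hRe]; exact mem_image_of_mem _ hz)
              have := hsge _ this
              linarith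
            · rw [← hRe] at q3
              obtain ⟨z, hz, hzd⟩ := q3
              refine ⟨z, hz, ?_⟩
              rw [hzd, hsH _ (hAHA i hi hh)]
              norm_num
        · refine ⟨fun _ => ?_, fun h => ?_⟩
          · have hGi : G i = DL i := by simp only [hG, if_pos hi, if_neg hh]
            obtain ⟨q1, q2, q3, q4⟩ := hDL i hi hh
            rw [hGi] at hRe ⊢
            constructor
            · intro z hz
              have : pull e z ∈ Ale := hAleB i hi hh (by rw [← hRe]; exact mem_image_of_mem _ hz)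
              have := hsle _ this
              linarith
            · rw [← hRe] at q3
              obtain ⟨z, hz, hzd⟩ := q3
              refine ⟨z, hz, ?_⟩
              rw [hzd, hsL _ (hALB i hi hh)]
              norm_num
          · exfalso
            simp [hi, hh] at h
      · have hGi : G i = cs S (0 : ℕ) := by simp only [hG, if_neg hi]
        rw [hGi]
        obtain ⟨z₀, hz₀⟩ := (cs_connected S (0 : ℕ)).nonempty
        by_cases hk2 : cs S i ⊆ K₂
        · refine ⟨fun h => ?_, fun _ => ?_⟩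
          · exfalso
            simp [hi, hk2] at h
          · have hall : ∀ z ∈ cs S (0 : ℕ), s (pull e z) = 1 := by
              intro z hz
              apply hsH
              apply hAHC i hi hk2
              rw [← hcsi]
              exact mem_image_of_mem _ hz
            constructor
            · intro z hz
              rw [hall z hz]
              norm_num
            · refine ⟨z₀, hz₀, ?_⟩
              rw [hall z₀ hz₀]
              norm_num
        · refine ⟨fun _ => ?_, fun h => ?_⟩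
          · have hall : ∀ z ∈ cs S (0 : ℕ), s (pull e z) = 0 := by
              intro z hz
              apply hsL
              apply hALD i hk2
              rw [← hcsi]
              exact mem_image_of_mem _ hz
            constructor
            · intro z hz
              rw [hall z hz]
              norm_num
            · refine ⟨z₀, hz₀, ?_⟩
              rw [hall z₀ hz₀]
              norm_num
          · exfalso
            simp [hi, hk2] at h
    · intro j j'
      rcases hch with hch | hch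
      · exact hch _ _ (hGn j) (hGn j')
      · by_cases hj : I j
        · by_cases hj' : I j'
          · left
            rw [hch j j' hj hj']
          · right
            have : G j' = cs S (0 : ℕ) := by simp only [hG, if_neg hj']
            rw [this]
            exact (hGn j).2.2.2.1
        · left
          have : G j = cs S (0 : ℕ) := by simp only [hG, if_neg hj]
          rw [this]
          exact (hGn j').2.2.2.1
  have hdisj : Disjoint K₁ K₂ := by
    refine test_sep S N hN K₁ K₂ hK₁ hK₂ hc₁ hc₂ hp₁.isPreconnected hp₂.isPreconnected s hgood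
      ?_ ⟨a, ha, ?_⟩ ?_ ⟨b, hb, ?_⟩
    · intro z hz
      have := hsle z (Or.inl hz)
      linarith
    · rw [hsL a haAL]
      norm_num
    · intro z hz
      have := hsge z hz
      linarith
    · rw [hsH b hbAH]
      norm_num
  obtain ⟨z, hz1, hz2⟩ := hm
  exact disjoint_left.mp hdisj hz1 hz2

end H64DN
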