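import Pool.Agent.Helper64.DN.Inf

/-!
DN-11 (YLim): the limit continuum `YY P L = ⋂ n, Yn P n L`.

* closed, connected: decreasing intersection (`Yn_succ_subset`) of continua.
* `YY_lift`: iterate `Yn_lift`: `z₀ = z ∈ Yn P n L`, `z_{i+1} ∈ Yn P (n+i+1) L`, `z_{i+1} = z_i` off rank `n+i`.  The limit point
  `z' c = z_{c.1 + 1} c` agrees with `z_i` in all ranks `< n + i`, so `z' ∈ Yn P (n+i) L` (`Yn_cylR`).
* `YY_pull`: `⊆` clear.  `⊇`: for `w ∈ YY P A` the closed sets `{z ∈ Yn P n B | pull φ z = w}` are nonempty (`Yn_pull`) and decreasing.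
* `YY_base`: the point `x` of `E k L` with `x (baseC hk0 i) = 1` is in `Yn P 1 L = univ` (`Yf_le_one`); lift it (rank 0 is kept).
* `YY_eq`: `Yf_eq` applied to `pull e z` with `e` a finite injection through which `c.2` factors (`c.2` itself: `N = k c.1`,
  `c.2 = (Function.Embedding.refl _).trans c.2`).
-/

set_option autoImplicit false

namespace H64DN

open Set Topology

variable {k : ℕ → ℕ}

private theorem YY_eq_iInter (P : Prog k) (L : Type) : YY P L = ⋂ n, Yn P n L := by
  ext z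
  simp only [YY, mem_setOf_eq, mem_iInter]

private theorem Yn_anti (P : Prog k) (L : Type) : Antitone (fun n => Yn P n L) :=
  antitone_nat_of_succ_le fun n => Yn_succ_subset P n L

theorem YY_closed (P : Prog k) (h : ∀ m, 1 ≤ m → Tch P m) (L : Type) : IsClosed (YY P L) := by
  rw [YY_eq_iInter]
  exact isClosed_iInter fun n => Yn_closed P n (fun m h1 _ => h m h1) L

theorem YY_connected (P : Prog k) (h : ∀ m, 1 ≤ m → Tch P m) (L : Type) :
    IsConnected (YY P L) := by
  rw [YY_eq_iInter]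
  have hc : ∀ n, IsClosed (Yn P n L) := fun n => Yn_closed P n (fun m h1 _ => h m h1) L
  have hp : ∀ n, IsConnected (Yn P n L) := fun n => Yn_connected P n (fun m h1 _ => h m h1) L
  refine ⟨?_, ?_⟩
  · exact IsCompact.nonempty_iInter_of_sequence_nonempty_isCompact_isClosed (fun n => Yn P n L)
      (fun n => Yn_succ_subset P n L) (fun n => (hp n).nonempty) (hc 0).isCompact hc
  · exact preconnected_iInter _ hc (fun n => (hp n).isPreconnected)
      (fun i j => ⟨max i j, Yn_anti P L (le_max_left i j), Yn_anti P L (le_max_right i j)⟩)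

theorem YY_lift (P : Prog k) (h : ∀ m, 1 ≤ m → Tch P m) (n : ℕ) (L : Type) (z : E k L)
    (hz : z ∈ Yn P n L) : ∃ z' ∈ YY P L, ∀ c : Coord k L, c.1 < n → z' c = z c := by
  classical
  have hl : ∀ (i : ℕ) (x : {x : E k L // x ∈ Yn P (n + i) L}),
      ∃ y : {x : E k L // x ∈ Yn P (n + (i + 1)) L},
        ∀ c : Coord k L, c.1 ≠ n + i → y.1 c = x.1 c := by
    intro i x
    obtain ⟨y, hy, hyc⟩ := Yn_lift P (n + i) (fun m h1 _ => h m h1) L x.1 x.2
    exact ⟨⟨y, hy⟩, hyc⟩
  choose g hg using hl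
  let f : ∀ i : ℕ, {x : E k L // x ∈ Yn P (n + i) L} := fun i => Nat.rec ⟨z, hz⟩ (fun i x => g i x) i
  have hf0 : (f 0).1 = z := rfl
  have hfs : ∀ i, f (i + 1) = g i (f i) := fun i => rfl
  have hst : ∀ (c : Coord k L) (i j : ℕ), c.1 < n + i → i ≤ j → (f j).1 c = (f i).1 c := by
    intro c i j hc hij
    induction j, hij using Nat.le_induction with
    | base => rfl
    | succ j hij ih =>
      rw [hfs, hg j (f j) c (by omega), ih]
  have hag : ∀ (c : Coord k L) (i : ℕ), c.1 < n + i → (f (c.1 + 1)).1 c = (f i).1 c := by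
    intro c i hc
    rcases le_total i (c.1 + 1) with h1 | h1
    · exact hst c i _ hc h1
    · exact (hst c (c.1 + 1) i (by omega) h1).symm
  refine ⟨fun c => (f (c.1 + 1)).1 c, ?_, ?_⟩
  · intro m
    have h1 : (fun c : Coord k L => (f (c.1 + 1)).1 c) ∈ Yn P (n + m) L :=
      Yn_cylR P (n + m) L (f m).1 (f m).2 _ (fun c hc => hag c m hc)
    exact Yn_anti P L (Nat.le_add_left m n) h1
  · intro c hc
    have := hag c 0 (by omega)
    rw [hf0] at this
    exact this

theorem YY_pull (P : Prog k) (h : ∀ m, 1 ≤ m → Tch P m) {A B : Type} (φ : A ↪ B) :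
    pull φ '' YY P B = YY P A := by
  apply Subset.antisymm
  · rintro _ ⟨z, hz, rfl⟩ n
    exact Yn_pull_mem P n φ (hz n)
  · intro w hw
    have hcl : IsClosed {z : E k B | pull φ z = w} :=
      isClosed_eq (pull_continuous φ) continuous_const
    have hc : ∀ n, IsClosed (Yn P n B ∩ {z : E k B | pull φ z = w}) := fun n =>
      (Yn_closed P n (fun m h1 _ => h m h1) B).inter hcl
    obtain ⟨z, hz⟩ := IsCompact.nonempty_iInter_of_sequence_nonempty_isCompact_isClosed
      (fun n => Yn P n B ∩ {z : E k B | pull φ z = w})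
      (fun n => inter_subset_inter_left _ (Yn_succ_subset P n B)) (fun n => by
        have h1 : w ∈ pull φ '' Yn P n B := by
          rw [Yn_pull P n (fun m h1 _ => h m h1) φ]
          exact hw n
        obtain ⟨z, hz, hzw⟩ := h1
        exact ⟨z, hz, hzw⟩) (hc 0).isCompact hc
    rw [mem_iInter] at hz
    exact ⟨z, fun n => (hz n).1, (hz 0).2⟩

theorem YY_base (P : Prog k) (h : ∀ m, 1 ≤ m → Tch P m) (hk0 : k 0 = 1) {L : Type} (i : L) :
    ∃ z ∈ YY P L, z (baseC hk0 i) = 1 := by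
  obtain ⟨z', hz', hc⟩ := YY_lift P h 1 L (fun _ => 1) (by
    intro N e
    rw [Yf_le_one P 1 N le_rfl]
    exact mem_univ _)
  exact ⟨z', hz', hc (baseC hk0 i) Nat.zero_lt_one⟩

theorem YY_eq (P : Prog k) {L : Type} (z : E k L) (hz : z ∈ YY P L) (c : Coord k L)
    (h1 : 1 ≤ c.1) : nu (z c) = P.s c.1 (pull c.2 z) :=
  Yf_eq P (c.1 + 1) (k c.1) (pull c.2 z) (hz (c.1 + 1) (k c.1) c.2)
    ⟨c.1, Function.Embedding.refl _⟩ h1 (Nat.lt_succ_self _)

end H64DN
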