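import Pool.Agent.Helper64.DN.Adj
import Pool.Agent.Helper64.DN.YLim
import Pool.Agent.Helper64.DN.Sec

/-!
DN-13 (Step): the section maps preserve the stages.

Fix `n ≥ 1`, `N`, `i : Fin N`, `S = fs P (Fin N)`, `T = TT k n N`, `T₁` / `T₂` = the coordinates `(n,e)` with `i ∉ range e` / `i ∈ range e`, so
`TT k (n+1) N = T ∪ (T₁ ∪ T₂)`.  Let `z₁ ∈ Yf P (n+1) N`, `z = secn P (single i) (n+1) z₁`, `A₀ = secn P (single i) n '' Yf P n N`.
* `step_zero` : `OddAt S T₁ A₀ z`.  `A₀` is closed, connected, a cylinder in the ranks `≥ n` (`secn` at stage `n` does not touch or see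
  them), so `z ∈ A₀` (`z` and `secn n z₁` agree off rank `n`).  For `t = (n,e) ∈ T₁` and any `w`: the `t` coordinate of
  `w' = secn (n+1) w` is `w t` and `pull e w' = pull e w` (`secn_pull`, `single_comap_off`), so `w' ∈ Om T₁` iff `w ∈ Om T₁`.
  Let `U ∋ z` be RC in `A₀ ∩ Om T₁`, `V = {w ∈ OddS T ∩ Om T₁ | secn (n+1) w ∈ U}`: RC in `OddS T ∩ Om T₁`, contains `z₁` (`z₁ ∈ OddS (T ∪ T₁)` by
  `oddS_mono`).  `oddAt_of_oddS`: `OddS T ⊆ Par T₁ V`, so `z₁ ∈ Par T₁ V`.  `w ↦ secn (n+1) w` is a bijection `Sol T₁ V z₁ → Sol T₁ U z` (changing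
  coordinates of `T₁` changes `secn (n+1)` only in these coordinates), so `z ∈ Par T₁ U`, and `A₀ ⊆ Par T₁ U` by `par_of_mem`.
* `step_up` : let `A j = pull ψ '' K j`, `ψ : Fin N ↪ ℕ` with `ψ i = 0`.  `A j` is closed, connected, a cylinder in ranks `≥ n`, `A j ⊆ Yf P n N`, and
  `A₀ ⊆ A j` (for `w ∈ Yf P n N` take `w' ∈ Yn P n ℕ` with `pull ψ w' = w`; `secn n sg0 w' ∈ K j` and its pull is `secn n (single i) w`).
  For `R : Finset (Fin (k n))` let `T₂ R = {(n,e) ∈ T₂ | the position of i in e is in R}`.  Claim: if `R` is empty or `j ∈ R` has the largest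
  `A j`, then `OddAt S (T₁ ∪ T₂ R) (A j) z` (`A₀` for `R = ∅`).  Induction along `f j = #{j' | A j' ⊆ A j}` with `Finset.induction_on_max_value f`
  (`f j' ≤ f j` implies `A j' ⊆ A j` as the `A j` form a chain): `oddAt_base` to the larger `A j`, then `oddAt_adjoin` with
  `T' = {(n,e) | e j = i}`, sheet `P.τ n j`, hypotheses from `Touch` for `e.trans ψ`, and `z (n,e) = lam (P.τ n j) (P.s n (pull e z))`.
* finally `oddAt_base` to `OddS T = Yf P n N` and `oddAt_total`.
* `tch_of_cons` : take any position `j` (`1 ≤ k m`), an `e` with `e j = 0`, the touched point `z ∈ K j ⊆ Yn P m ℕ`, `a = pull e z`.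
-/

set_option autoImplicit false

namespace H64DN

open Set Topology

variable {k : ℕ → ℕ}

theorem tch_of_cons (P : Prog k) (m : ℕ) (hk : 1 ≤ k m) (hC : Cons P m (k m) (P.s m) (P.τ m)) :
    Tch P m := by
  obtain ⟨K, hK, -⟩ := hC
  have hj : 0 < k m := hk
  obtain ⟨-, -, -, hY, -, hT⟩ := hK ⟨0, hj⟩
  have h1 := hT ⟨fun a => a.val, fun a b h => Fin.ext h⟩ rfl
  cases hb : P.τ m ⟨0, hj⟩ with
  | false =>
    obtain ⟨z, hz, hz'⟩ := (h1.1 hb).2
    exact ⟨_, hY hz (k m) _, Or.inl hz'⟩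
  | true =>
    obtain ⟨z, hz, hz'⟩ := (h1.2 hb).2
    exact ⟨_, hY hz (k m) _, Or.inr hz'⟩

/-- The image of the section map at stage `n`. -/
theorem secn_image (P : Prog k) (n : ℕ) (hT : ∀ m, 1 ≤ m → m < n → Tch P m) {L : Type} (i : L) :
    IsClosed (secn P (single i) n '' Yn P n L) ∧ IsPreconnected (secn P (single i) n '' Yn P n L) ∧
      CylR n (secn P (single i) n '' Yn P n L) := by
  have hc : Continuous (secn P (single i) n) := secn_continuous P (single i) n
  refine ⟨?_, ?_, ?_⟩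
  · exact ((Yn_closed P n hT L).isCompact.image hc).isClosed
  · exact (Yn_connected P n hT L).isPreconnected.image _ hc.continuousOn
  · rintro _ ⟨z, hz, rfl⟩ w hw
    classical
    refine ⟨fun c => if c.1 < n then z c else w c, ?_, ?_⟩
    · refine Yn_cylR P n L z hz _ fun c hc => ?_
      simp only [if_pos hc]
    · funext c
      by_cases h : c.1 < n
      · rw [secn_congr P (single i) n _ z (fun c' hc' => by simp only [if_pos hc']) c h]
        exact (hw c h).symm
      · rw [secn_ge P (single i) n _ c (not_lt.1 h)]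
        simp only [if_neg h]

end H64DN
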