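import Pool.Agent.Helper64.DN.Stepa

/-!
DN-13 (Step): the section maps preserve the stages.

Fix `n ≥ 1`, `N`, `i : Fin N`, `S = fs P (Fin N)`, `T = TT k n N`, `T₁` / `T₂` = the coordinates `(n,e)` with `i ∉ range e` / `i ∈ range e`, so
`TT k (n+1) N = T ∪ (T₁ ∪ T₂)`.  Let `z₁ ∈ Yf P (n+1) N`, `z = secn P (single i) (n+1) z₁`, `A₀ = secn P (single i) n '' Yf P n N`.
* `step_zero` : `OddAt S T₁ A₀ z`.  `A₀` is closed, connected, a cylinder in the ranks `≥ n` (`secn` at stage `n` does not touch or see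
  them), so `z ∈ A₀` (`z` and `secn n z₁` agree off rank `n`).  For `t = (n,e) ∈ T₁` and any `w`: the `t` coordinate of
  `w' = secn (n+1) w` is `w t` and `pull e w' = pull e w` (`secn_pull`, `single_comap_off`), so `w' ∈ Om T₁` iff `w ∈ Om T₁`.
  Let `U ∋ z` be RC in `A₀ ∩ Om T₁`, `V = {w ∈ OddS T ∩ Om T₁ | secn (n+1) w ∈ U}`: RC in `OddS T ∩ Om T₁`, contains `z₁` (`z₁ ∈ OddS (T ∪ T₁)` by
  `oddS_mono`).  `oddAt_of_oddS`: `OddS T ⊆ Par T₁ V`, so `z₁ ∈ Par T₁ V`.  `w ↦ secn (n+1) w` is a bijection `Sol T₁ V z₁ → Sol T₁ U z` (changing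
  coordinates of `T₁` changes `secn (n+1)` only in these coordinates), so `z ∈ Par T₁ U`, and `A₀ ⊆ Par T₁ U` by `par_of_mem`.
* `step_up` : let `A j = pull ψ '' K j`, `ψ : Fin N ↪ ℕ` with `ψ i = 0`.  `A j` is closed, connected, a cylinder in ranks `≥ n`, `A j ⊆ Yf P n N`, and
  `A₀ ⊆ A j` (for `w ∈ Yf P n N` take `w' ∈ Yn P n ℕ` with `pull ψ w' = w`; `secn n sg0 w' ∈ K j` and its pull is `secn n (single i) w`).
  For `R : Finset (Fin (k n))` let `T₂ R = {(n,e) ∈ T₂ | the position of i in e is in R}`.  Claim: if `R` is empty or `j ∈ R` has the largest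
  `A j`, then `OddAt S (T₁ ∪ T₂ R) (A j) z` (`A₀` for `R = ∅`).  Induction along `f j = #{j' | A j' ⊆ A j}` with `Finset.induction_on_max_value f`
  (`f j' ≤ f j` implies `A j' ⊆ A j` as the `A j` form a chain): `oddAt_base` to the larger `A j`, then `oddAt_adjoin` with
  `T' = {(n,e) | e j = i}`, sheet `P.τ n j`, hypotheses from `Touch` for `e.trans ψ`, and `z (n,e) = lam (P.τ n j) (P.s n (pull e z))`.
* finally `oddAt_base` to `OddS T = Yf P n N` and `oddAt_total`.
* `tch_of_cons` : take any position `j` (`1 ≤ k m`), an `e` with `e j = 0`, the touched point `z ∈ K j ⊆ Yn P m ℕ`, `a = pull e z`.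
-/

set_option autoImplicit false

namespace H64DN

open Set Topology

variable {k : ℕ → ℕ}

private theorem secn_noPrio (P : Prog k) {L : Type} (n : ℕ) (z : E k L) :
    secn P (noPrio : Prio L) n z = z := by
  induction n with
  | zero => rfl
  | succ n ih =>
    change upd P noPrio n (secn P noPrio n z) = z
    rw [ih]
    funext c
    unfold upd
    by_cases h : c.1 = n
    · rw [if_pos h]
      rfl
    · rw [if_neg h]

private theorem secn_succ_ne (P : Prog k) {L : Type} (ρ : Prio L) (n : ℕ) (z : E k L)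
    (c : Coord k L) (h : c.1 ≠ n) : secn P ρ (n + 1) z c = secn P ρ n z c := by
  change upd P ρ n (secn P ρ n z) c = _
  unfold upd
  rw [if_neg h]

private theorem secn_succ_none (P : Prog k) {L : Type} (ρ : Prio L) (n : ℕ) (z : E k L)
    (c : Coord k L) (h : c.1 = n) (hc : ρ (k c.1) c.2 = none) : secn P ρ (n + 1) z c = z c := by
  change upd P ρ n (secn P ρ n z) c = _
  unfold upd
  rw [if_pos h, hc]
  exact secn_ge P ρ n z c (le_of_eq h.symm)

private theorem secn_succ_some (P : Prog k) {L : Type} (ρ : Prio L) (n : ℕ) (hn : 1 ≤ n)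
    (z : E k L) (c : Coord k L) (h : c.1 = n) (j : Fin (k c.1)) (hc : ρ (k c.1) c.2 = some j) :
    secn P ρ (n + 1) z c = lam (P.τ c.1 j) (P.s c.1 (pull c.2 (secn P ρ n z))) := by
  change upd P ρ n (secn P ρ n z) c = _
  unfold upd
  rw [if_pos h, hc]
  have h0 : c.1 ≠ 0 := by omega
  exact if_neg h0

/-- The values of the section map off the folds without the letter `i` depend only on the lower
ranks and on the coordinates itself. -/
private theorem secn_succ_congr (P : Prog k) {L : Type} (i : L) (n : ℕ) (hn : 1 ≤ n)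
    (z z' : E k L) (h : ∀ c : Coord k L, c.1 < n → z c = z' c) (c : Coord k L)
    (hc : c.1 < n ∨ (c.1 = n ∧ i ∈ range c.2) ∨ z c = z' c) :
    secn P (single i) (n + 1) z c = secn P (single i) (n + 1) z' c := by
  rcases lt_trichotomy c.1 n with h1 | h1 | h1
  · rw [secn_succ_ne P _ n z c (by omega), secn_succ_ne P _ n z' c (by omega)]
    exact secn_congr P _ n z z' h c h1
  · rcases hr : single i (k c.1) c.2 with _ | j
    · rw [secn_succ_none P _ n z c h1 hr, secn_succ_none P _ n z' c h1 hr]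
      rcases hc with hc | hc | hc
      · omega
      · exact absurd hc.2 ((single_none i c.2).1 hr)
      · exact hc
    · rw [secn_succ_some P _ n hn z c h1 j hr, secn_succ_some P _ n hn z' c h1 j hr]
      congr 1
      refine P.dep c.1 _ _ fun c' hc' => ?_
      refine secn_congr P _ n z z' h _ ?_
      change c'.1 < n
      omega
  · rw [secn_succ_ne P _ n z c (by omega), secn_succ_ne P _ n z' c (by omega),
      secn_ge P _ n z c h1.le, secn_ge P _ n z' c h1.le]
    rcases hc with hc | hc | hc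
    · omega
    · omega
    · exact hc

private theorem aux_union {N : ℕ} (inst : DecidableEq (Coord k (Fin N)))
    (A B : Finset (Coord k (Fin N))) (c : Coord k (Fin N)) (h : c ∈ A ∪ B) : c ∈ A ∨ c ∈ B :=
  Finset.mem_union.1 h

private theorem aux_sdiff {N : ℕ} (inst inst' : DecidableEq (Coord k (Fin N)))
    (A B C : Finset (Coord k (Fin N))) (c : Coord k (Fin N))
    (h : c ∈ @SDiff.sdiff _ (@Finset.instSDiff _ inst) C
      (@Union.union _ (@Finset.instUnion _ inst') A B)) : c ∈ C ∧ c ∉ A ∧ c ∉ B := by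
  have h1 := (@Finset.mem_sdiff _ inst _ _ _).1 h
  refine ⟨h1.1, fun h2 => h1.2 ?_, fun h2 => h1.2 ?_⟩
  · exact (@Finset.mem_union _ inst' _ _ _).2 (Or.inl h2)
  · exact (@Finset.mem_union _ inst' _ _ _).2 (Or.inr h2)

open Classical in
theorem step_zero (P : Prog k) (n : ℕ) (hn : 1 ≤ n) (hT : ∀ m, 1 ≤ m → m < n + 1 → Tch P m)
    (N : ℕ) (i : Fin N) (z₁ : E k (Fin N)) (hz : z₁ ∈ Yf P (n + 1) N) :
    OddAt (fs P (Fin N)) ((TT k (n + 1) N).filter fun c => c.1 = n ∧ i ∉ range c.2)
      (secn P (single i) n '' Yf P n N) (secn P (single i) (n + 1) z₁) := by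
  have hT' : ∀ m, 1 ≤ m → m < n → Tch P m := fun m h1 h2 => hT m h1 (by omega)
  obtain ⟨hAc, hAp, hAcyl⟩ := secn_image P n hT' i
  rw [Yn_fin P n hT' N] at hAc hAp hAcyl
  set S := fs P (Fin N) with hS
  set T₁ := (TT k (n + 1) N).filter fun c => c.1 = n ∧ i ∉ range c.2 with hT₁
  set A₀ := secn P (single i) n '' Yf P n N with hA₀
  have hmem : ∀ c : Coord k (Fin N), c ∈ T₁ ↔ c.1 = n ∧ i ∉ range c.2 := by
    intro c
    rw [hT₁, Finset.mem_filter, mem_TT]
    constructor
    · exact fun h => h.2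
    · exact fun h => ⟨⟨by omega, by omega⟩, h⟩
  have hsub : T₁ ⊆ TT k (n + 1) N := Finset.filter_subset _ _
  have hcylA : Cyl (T₁ : Set (Coord k (Fin N))) A₀ := by
    intro w hw w' hw'
    refine hAcyl w hw w' fun c hc => hw' c fun hc' => ?_
    have := ((hmem c).1 (Finset.mem_coe.1 hc')).1
    omega
  -- the section map at the next stage
  have hgA : ∀ w ∈ Yf P n N, secn P (single i) (n + 1) w ∈ A₀ := by
    intro w hw
    refine hAcyl _ ⟨w, hw, rfl⟩ _ fun c hc => ?_
    exact secn_succ_ne P _ n w c (by omega)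
  have hgT : ∀ (w : E k (Fin N)) (c : Coord k (Fin N)), c ∈ T₁ →
      secn P (single i) (n + 1) w c = w c := by
    intro w c hc
    have hc' := (hmem c).1 hc
    exact secn_succ_none P _ n w c hc'.1 ((single_none i c.2).2 hc'.2)
  have hgP : ∀ (w : E k (Fin N)) (c : Coord k (Fin N)), c ∈ T₁ →
      pull c.2 (secn P (single i) (n + 1) w) = pull c.2 w := by
    intro w c hc
    have hc' := (hmem c).1 hc
    rw [secn_pull, single_comap_off c.2 i hc'.2, secn_noPrio]
  have hgO : ∀ w : E k (Fin N), secn P (single i) (n + 1) w ∈ Om S T₁ ↔ w ∈ Om S T₁ := by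
    intro w
    have h1 : ∀ t ∈ T₁, (nu (secn P (single i) (n + 1) w t) =
        S.g t (secn P (single i) (n + 1) w) ↔ nu (w t) = S.g t w) := by
      intro t ht
      have e1 : S.g t (secn P (single i) (n + 1) w) = S.g t w := by
        change P.s t.1 (pull t.2 (secn P (single i) (n + 1) w)) = P.s t.1 (pull t.2 w)
        rw [hgP w t ht]
      rw [e1, hgT w t ht]
    exact ⟨fun h t ht => (h1 t ht).1 (h t ht), fun h t ht => (h1 t ht).2 (h t ht)⟩
  have hgoff : ∀ w w' : E k (Fin N), (∀ c, c ∉ T₁ → w c = w' c) → ∀ c, c ∉ T₁ →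
      secn P (single i) (n + 1) w c = secn P (single i) (n + 1) w' c := by
    intro w w' h c hc
    refine secn_succ_congr P i n hn w w' (fun c' hc' => h c' fun h' => ?_) c
      (Or.inr (Or.inr (h c hc)))
    have := ((hmem c').1 h').1
    omega
  have hz' : z₁ ∈ Yf P n N := Yf_succ_subset P n N hz
  have hz1T : z₁ ∈ Om S T₁ := fun t ht => hz.1 t (hsub ht)
  refine ⟨hgA z₁ hz', (hgO z₁).2 hz1T, ?_⟩
  intro U hU hzU
  -- oddness of `z₁`
  have hdis : Disjoint (TT k n N) T₁ := by
    rw [Finset.disjoint_left]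
    intro c hc hc'
    have h1 := (mem_TT c).1 hc
    have h2 := (hmem c).1 hc'
    omega
  have hind : Ind S (TT k n N) T₁ := by
    refine ind_of_rk _ _ _ fun t ht t' ht' => ?_
    have h1 := (mem_TT t).1 ht
    have h2 := (hmem t').1 ht'
    change t.1 ≤ t'.1
    omega
  have hat : OddAt S T₁ (OddS S (TT k n N)) z₁ := by
    refine oddAt_of_oddS S (TT k n N) T₁ hdis hind (dir_TT P n hT' N) z₁ ?_
    refine oddS_mono S _ (TT k (n + 1) N) ?_ ?_ hz
    · intro c hc
      rcases aux_union _ _ _ c hc with h | h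
      · have h1 := (mem_TT c).1 h
        exact (mem_TT c).2 ⟨h1.1, by omega⟩
      · exact hsub h
    · refine ind_of_rk _ _ _ fun t ht t' ht' => ?_
      have ht'' := aux_sdiff _ _ _ _ _ t' ht'
      have h1 := (mem_TT t').1 ht''.1
      have h2 : ¬ (1 ≤ t'.1 ∧ t'.1 < n) := fun h => ht''.2.1 ((mem_TT t').2 h)
      have h3 : t.1 < n + 1 := by
        rcases aux_union _ _ _ t ht with h | h
        · have := ((mem_TT t).1 h).2
          omega
        · have := ((hmem t).1 h).1
          omega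
      change t.1 ≤ t'.1
      omega
  have hYc : IsClosed (OddS S (TT k n N)) := oddS_closed _ _ (dir_TT P n hT' N)
  have hgc : Continuous (secn P (single i) (n + 1) : E k (Fin N) → E k (Fin N)) :=
    secn_continuous P _ _
  let V : Set (E k (Fin N)) :=
    (OddS S (TT k n N) ∩ Om S T₁) ∩ secn P (single i) (n + 1) ⁻¹' U
  have hV : RC (OddS S (TT k n N) ∩ Om S T₁) V := by
    refine ⟨inter_subset_left, (hYc.inter (om_closed S T₁)).inter (hU.2.1.preimage hgc), ?_⟩
    have e : (OddS S (TT k n N) ∩ Om S T₁) \ V = (OddS S (TT k n N) ∩ Om S T₁) ∩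
        secn P (single i) (n + 1) ⁻¹' ((A₀ ∩ Om S T₁) \ U) := by
      ext w
      constructor
      · rintro ⟨h1, h2⟩
        exact ⟨h1, ⟨hgA w h1.1, (hgO w).2 h1.2⟩, fun h3 => h2 ⟨h1, h3⟩⟩
      · rintro ⟨h1, h2⟩
        exact ⟨h1, fun h3 => h2.2 h3.2⟩
    rw [e]
    exact (hYc.inter (om_closed S T₁)).inter (hU.2.2.preimage hgc)
  have hzV : z₁ ∈ V := ⟨⟨hz', hz1T⟩, hzU⟩
  have hpar : z₁ ∈ Par S T₁ V := hat.2.2 V hV hzV hz'
  -- the bijection
  have himg : secn P (single i) (n + 1) '' Sol S T₁ V z₁ =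
      Sol S T₁ U (secn P (single i) (n + 1) z₁) := by
    ext v
    constructor
    · rintro ⟨w, ⟨h1, h2, h3, h4⟩, rfl⟩
      refine ⟨h1.2, (hgO w).2 h2, hgoff w z₁ h3, fun t ht => ?_⟩
      rw [hgT w t ht]
      exact h4 t ht
    · rintro ⟨h1, h2, h3, h4⟩
      let w : E k (Fin N) := fun c => if c ∈ T₁ then v c else z₁ c
      have hw1 : ∀ c, c ∈ T₁ → w c = v c := fun c hc => if_pos hc
      have hw2 : ∀ c, c ∉ T₁ → w c = z₁ c := fun c hc => if_neg hc
      have hgw : secn P (single i) (n + 1) w = v := by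
        funext c
        by_cases hc : c ∈ T₁
        · rw [hgT w c hc, hw1 c hc]
        · rw [hgoff w z₁ hw2 c hc, h3 c hc]
      have hwO : w ∈ Om S T₁ := (hgO w).1 (by rw [hgw]; exact h2)
      have hwY : w ∈ OddS S (TT k n N) := by
        refine Yf_cylR P n N z₁ hz' w fun c hc => hw2 c fun hc' => ?_
        have := ((hmem c).1 hc').1
        omega
      refine ⟨w, ⟨⟨⟨hwY, hwO⟩, ?_⟩, hwO, hw2, fun t ht => ?_⟩, hgw⟩
      · change secn P (single i) (n + 1) w ∈ U
        rw [hgw]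
        exact h1
      · rw [hw1 t ht]
        exact h4 t ht
  have hinj : InjOn (secn P (single i) (n + 1)) (Sol S T₁ V z₁) := by
    intro w hw w' hw' h
    funext c
    by_cases hc : c ∈ T₁
    · rw [← hgT w c hc, ← hgT w' c hc, h]
    · rw [hw.2.2.1 c hc, hw'.2.2.1 c hc]
  have hpar' : secn P (single i) (n + 1) z₁ ∈ Par S T₁ U := by
    change Odd (Sol S T₁ U (secn P (single i) (n + 1) z₁)).ncard
    rw [← himg, hinj.ncard_image]
    exact hpar
  exact par_of_mem S T₁ A₀ hAc hAp hcylA U hU _ (hgA z₁ hz') hpar'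

end H64DN
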