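import Pool.Agent.Helper64.DN.Stepb

/-!
DN-13 (Step): the section maps preserve the stages.

Fix `n ≥ 1`, `N`, `i : Fin N`, `S = fs P (Fin N)`, `T = TT k n N`, `T₁` / `T₂` = the coordinates `(n,e)` with `i ∉ range e` / `i ∈ range e`, so
`TT k (n+1) N = T ∪ (T₁ ∪ T₂)`.  Let `z₁ ∈ Yf P (n+1) N`, `z = secn P (single i) (n+1) z₁`, `A₀ = secn P (single i) n '' Yf P n N`.
* `step_zero` : `OddAt S T₁ A₀ z`.  `A₀` is closed, connected, a cylinder in the ranks `≥ n` (`secn` at stage `n` does not touch or see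
  them), so `z ∈ A₀` (`z` and `secn n z₁` agree off rank `n`).  For `t = (n,e) ∈ T₁` and any `w`: the `t` coordinate of
  `w' = secn (n+1) w` is `w t` and `pull e w' = pull e w` (`secn_pull`, `single_comap_off`), so `w' ∈ Om T₁` iff `w ∈ Om T₁`.
  Let `U ∋ z` be RC in `A₀ ∩ Om T₁`, `V = {w ∈ OddS T ∩ Om T₁ | secn (n+1) w ∈ U}`: RC in `OddS T ∩ Om T₁`, contains `z₁` (`z₁ ∈ OddS (T ∪ T₁)` by
  `oddS_mono`).  `oddAt_of_oddS`: `OddS T ⊆ Par T₁ V`, so `z₁ ∈ Par T₁ V`.  `w ↦ secn (n+1) w` is a bijection `Sol T₁ V z₁ → Sol T₁ U z` (changing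
  coordinates of `T₁` changes `secn (n+1)` only in these coordinates), so `z ∈ Par T₁ U`, and `A₀ ⊆ Par T₁ U` by `par_of_mem`.
* `step_up` : let `A j = pull ψ '' K j`, `ψ : Fin N ↪ ℕ` with `ψ i = 0`.  `A j` is closed, connected, a cylinder in ranks `≥ n`, `A j ⊆ Yf P n N`, and
  `A₀ ⊆ A j` (for `w ∈ Yf P n N` take `w' ∈ Yn P n ℕ` with `pull ψ w' = w`; `secn n sg0 w' ∈ K j` and its pull is `secn n (single i) w`).
  For `R : Finset (Fin (k n))` let `T₂ R = {(n,e) ∈ T₂ | the position of i in e is in R}`.  Claim: if `R` is empty or `j ∈ R` has the largest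
  `A j`, then `OddAt S (T₁ ∪ T₂ R) (A j) z` (`A₀` for `R = ∅`).  Induction along `f j = #{j' | A j' ⊆ A j}` with `Finset.induction_on_max_value f`
  (`f j' ≤ f j` implies `A j' ⊆ A j` as the `A j` form a chain): `oddAt_base` to the larger `A j`, then `oddAt_adjoin` with
  `T' = {(n,e) | e j = i}`, sheet `P.τ n j`, hypotheses from `Touch` for `e.trans ψ`, and `z (n,e) = lam (P.τ n j) (P.s n (pull e z))`.
* finally `oddAt_base` to `OddS T = Yf P n N` and `oddAt_total`.
* `tch_of_cons` : take any position `j` (`1 ≤ k m`), an `e` with `e j = 0`, the touched point `z ∈ K j ⊆ Yn P m ℕ`, `a = pull e z`.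
-/

set_option autoImplicit false

namespace H64DN

open Set Topology

variable {k : ℕ → ℕ}

open Classical in
theorem oddAt_adjoin' {J : Type} (S : FS J) (T T' U : Finset J) (hU : ∀ c, c ∈ U ↔ c ∈ T ∨ c ∈ T')
    (hd : Disjoint T T') (h1 : Ind S T T')
    (h2 : Ind S T' U) (A : Set (J → unitInterval)) (hA : IsClosed A)
    (hp : IsPreconnected A) (hc : Cyl (U : Set J) A) (b : J → Bool)
    (z : J → unitInterval) (hz : OddAt S T A z)
    (hb : ∀ t ∈ T', z t = lam (b t) (S.g t z) ∧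
      (b t = false → (∀ a ∈ A, (S.g t a : ℝ) < 2 / 3) ∧ ∃ a ∈ A, (S.g t a : ℝ) < 1 / 3) ∧
      (b t = true → (∀ a ∈ A, 1 / 3 < (S.g t a : ℝ)) ∧ ∃ a ∈ A, 2 / 3 < (S.g t a : ℝ))) :
    OddAt S U A z := by
  have h : U = T ∪ T' := by
    ext c
    rw [hU, Finset.mem_union]
  subst h
  exact oddAt_adjoin S T T' hd h1 h2 A hA hp hc b z hz hb

open Classical in
theorem oddAt_total' {J : Type} (S : FS J) (T T' U : Finset J)
    (hU : ∀ c, c ∈ U ↔ c ∈ T ∨ c ∈ T') (hd : Disjoint T T') (h1 : Ind S T T')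
    (hD : Dir S T) (z : J → unitInterval) (hz : OddAt S T' (OddS S T) z) :
    z ∈ OddS S U := by
  have h : U = T ∪ T' := by
    ext c
    rw [hU, Finset.mem_union]
  subst h
  exact oddAt_total S T T' hd h1 hD z hz

theorem cyl_of_cylR {n N : ℕ} (A : Set (E k (Fin N))) (hA : CylR n A) (T : Finset (Coord k (Fin N)))
    (hT : ∀ c ∈ T, n ≤ c.1) : Cyl (T : Set (Coord k (Fin N))) A := by
  intro z hz w hw
  refine hA z hz w fun c hc => hw c ?_
  intro hcT
  exact absurd (hT c hcT) (by omega)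

theorem coord_mk_inj {n N : ℕ} {e e' : Fin (k n) ↪ Fin N}
    (h : (⟨n, e⟩ : Coord k (Fin N)) = ⟨n, e'⟩) : e = e' := by
  injection h

open Classical in
/-- The coordinates of rank `n` in which the position of `i` is in `R`. -/
noncomputable def TR (k : ℕ → ℕ) (n N : ℕ) (i : Fin N) (R : Finset (Fin (k n))) :
    Finset (Coord k (Fin N)) :=
  (Finset.univ.filter fun e : Fin (k n) ↪ Fin N => ∃ j ∈ R, e j = i).map
    ⟨fun e => ⟨n, e⟩, fun _ _ h => coord_mk_inj h⟩

theorem mem_TR {n N : ℕ} {i : Fin N} {R : Finset (Fin (k n))} {c : Coord k (Fin N)} :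
    c ∈ TR k n N i R ↔ ∃ e : Fin (k n) ↪ Fin N, (∃ j ∈ R, e j = i) ∧ (⟨n, e⟩ : Coord k (Fin N)) = c := by
  classical
  simp [TR]

theorem sec_step (P : Prog k) (n : ℕ) (hn : 1 ≤ n) (hT : ∀ m, 1 ≤ m → m < n + 1 → Tch P m)
    (hC : Cons P n (k n) (P.s n) (P.τ n))
    (IH : ∀ (N : ℕ) (i : Fin N), ∀ z ∈ Yf P n N, secn P (single i) n z ∈ Yf P n N)
    (N : ℕ) (i : Fin N) (z : E k (Fin N)) (hz : z ∈ Yf P (n + 1) N) :
    secn P (single i) (n + 1) z ∈ Yf P (n + 1) N := by
  classical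
  have hT' : ∀ m, 1 ≤ m → m < n → Tch P m := fun m h1 h2 => hT m h1 (by omega)
  obtain ⟨K, hK, hch⟩ := hC
  have hfin : Yn P n (Fin N) = Yf P n N := Yn_fin P n hT' N
  have him := secn_image P n hT' i
  rw [hfin] at him
  have h0 := step_zero P n hn hT N i z hz
  set A₀ : Set (E k (Fin N)) := secn P (single i) n '' Yf P n N with hA₀
  set z' : E k (Fin N) := secn P (single i) (n + 1) z with hz'
  set S : FS (Coord k (Fin N)) := fs P (Fin N) with hS
  set T₁ : Finset (Coord k (Fin N)) :=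
    (TT k (n + 1) N).filter fun c => c.1 = n ∧ i ∉ range c.2 with hT₁
  -- the embedding `ψ`
  obtain ⟨ψ, hψ⟩ : ∃ ψ : Fin N ↪ ℕ, ψ i = 0 :=
    ⟨Fin.valEmbedding.trans (Equiv.swap (i : ℕ) 0).toEmbedding, by simp⟩
  have hA_closed : ∀ j, IsClosed (pull ψ '' K j) := fun j =>
    ((hK j).1.isCompact.image (pull_continuous ψ)).isClosed
  have hA_conn : ∀ j, IsPreconnected (pull ψ '' K j) := fun j =>
    (hK j).2.1.image _ (pull_continuous ψ).continuousOn
  have hA_cyl : ∀ j, CylR n (pull ψ '' K j) := by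
    rintro j _ ⟨u, hu, rfl⟩ w hw
    obtain ⟨u₀, hu₀⟩ := pull_surjective ψ w
    refine ⟨fun c => if c.1 < n then u c else u₀ c, ?_, ?_⟩
    · refine (hK j).2.2.1 u hu _ fun c hc => ?_
      simp [hc]
    · funext c
      by_cases hc : c.1 < n
      · rw [hw c hc]
        simp [pull, hc]
      · have : w c = pull ψ u₀ c := by rw [hu₀]
        rw [this]
        simp [pull, hc]
  have hA_sub : ∀ j, pull ψ '' K j ⊆ Yf P n N := by
    rintro j _ ⟨u, hu, rfl⟩
    exact (hK j).2.2.2.1 hu N ψ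
  have hA_zero : ∀ j, A₀ ⊆ pull ψ '' K j := by
    rintro j _ ⟨w, hw, rfl⟩
    rw [← hfin, ← Yn_pull P n hT' ψ] at hw
    obtain ⟨w', hw', rfl⟩ := hw
    refine ⟨secn P sg0 n w', (hK j).2.2.2.2.1 ⟨w', hw', rfl⟩, ?_⟩
    rw [secn_pull]
    have : Prio.comap sg0 ψ = single i := by
      have := single_comap ψ i
      rw [hψ] at this
      exact this
    rw [this]
  -- the ranks
  have hT₁r : ∀ c ∈ T₁, c.1 = n := fun c hc => by
    rw [hT₁, Finset.mem_filter] at hc
    exact hc.2.1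
  have hTRr : ∀ R, ∀ c ∈ TR k n N i R, c.1 = n := by
    intro R c hc
    obtain ⟨e, -, rfl⟩ := mem_TR.1 hc
    rfl
  have hr : ∀ R, ∀ c ∈ T₁ ∪ TR k n N i R, c.1 = n := by
    intro R c hc
    rcases Finset.mem_union.1 hc with h | h
    · exact hT₁r c h
    · exact hTRr R c h
  -- the claim
  have claim : ∀ R : Finset (Fin (k n)), ∀ B : Set (E k (Fin N)), IsClosed B → IsPreconnected B →
      CylR n B → A₀ ⊆ B → (∀ j ∈ R, pull ψ '' K j ⊆ B) → OddAt S (T₁ ∪ TR k n N i R) B z' := by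
    intro R
    refine Finset.induction_on_max_value
      (fun j => (Finset.univ.filter fun j' => pull ψ '' K j' ⊆ pull ψ '' K j).card) R ?_ ?_
    · intro B hB1 hB2 hB3 hB4 _
      have : T₁ ∪ TR k n N i ∅ = T₁ := by
        ext c
        simp [mem_TR]
      rw [this]
      exact oddAt_base S T₁ A₀ B hB4 him.1
        (cyl_of_cylR _ him.2.2 _ fun c hc => (hT₁r c hc).ge) hB1 hB2
        (cyl_of_cylR _ hB3 _ fun c hc => (hT₁r c hc).ge) z' h0
    · intro a R' ha hmax ih B hB1 hB2 hB3 hB4 hB5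
      have hsub : ∀ x ∈ R', pull ψ '' K x ⊆ pull ψ '' K a := by
        intro x hx
        have h1 := hmax x hx
        rcases hch x a with h | h
        · exact image_mono h
        · -- the counts are equal
          have h2 : (Finset.univ.filter fun j' => pull ψ '' K j' ⊆ pull ψ '' K a) ⊆
              (Finset.univ.filter fun j' => pull ψ '' K j' ⊆ pull ψ '' K x) := by
            intro j' hj'
            rw [Finset.mem_filter] at hj' ⊢
            exact ⟨hj'.1, hj'.2.trans (image_mono h)⟩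
          have h3 := Finset.eq_of_subset_of_card_le h2 h1
          have h4 : x ∈ (Finset.univ.filter fun j' => pull ψ '' K j' ⊆ pull ψ '' K x) :=
            Finset.mem_filter.2 ⟨Finset.mem_univ _, Subset.rfl⟩
          rw [← h3, Finset.mem_filter] at h4
          exact h4.2
      have h5 := ih (pull ψ '' K a) (hA_closed a) (hA_conn a) (hA_cyl a) (hA_zero a) hsub
      have hd : Disjoint (T₁ ∪ TR k n N i R') (TR k n N i {a}) := by
        rw [Finset.disjoint_left]
        intro c hc hc'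
        obtain ⟨e, ⟨j, hj, hej⟩, rfl⟩ := mem_TR.1 hc'
        rw [Finset.mem_singleton] at hj
        subst hj
        rcases Finset.mem_union.1 hc with h | h
        · rw [hT₁, Finset.mem_filter] at h
          exact h.2.2 ⟨j, hej⟩
        · obtain ⟨e', ⟨j', hj', hej'⟩, h'⟩ := mem_TR.1 h
          have h6 : e' = e := coord_mk_inj h'
          subst h6
          have h7 : j' = j := e'.injective (hej'.trans hej.symm)
          subst h7
          exact ha hj'
      have hI1 : Ind S (T₁ ∪ TR k n N i R') (TR k n N i {a}) := by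
        apply ind_of_rk
        intro t ht t' ht'
        have e1 := hr R' t ht
        have e2 := hTRr _ t' ht'
        show t.1 ≤ t'.1
        omega
      have hI2 : ∀ T'' : Finset (Coord k (Fin N)), (∀ c ∈ T'', c.1 = n) →
          Ind S (TR k n N i {a}) T'' := by
        intro T'' hT''
        apply ind_of_rk
        intro t ht t' ht'
        have e1 := hTRr _ t ht
        have e2 : t'.1 = n := hT'' t' ht'
        show t.1 ≤ t'.1
        omega
      have h8 := oddAt_adjoin' S (T₁ ∪ TR k n N i R') (TR k n N i {a})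
        (T₁ ∪ TR k n N i (insert a R')) ?_ hd hI1 (hI2 _ (hr _))
        (pull ψ '' K a) (hA_closed a) (hA_conn a)
        (cyl_of_cylR _ (hA_cyl a) _ fun c hc => (hr _ c hc).ge) (fun _ => P.τ n a) z' h5 ?_
      · exact oddAt_base S _ (pull ψ '' K a) B (hB5 a (Finset.mem_insert_self _ _)) (hA_closed a)
          (cyl_of_cylR _ (hA_cyl a) _ fun c hc => (hr _ c hc).ge) hB1 hB2
          (cyl_of_cylR _ hB3 _ fun c hc => (hr _ c hc).ge) z' h8
      · intro c
        simp only [Finset.mem_union, mem_TR, Finset.mem_insert, Finset.mem_singleton]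
        constructor
        · rintro (h | ⟨e, ⟨j, hj | hj, hej⟩, h⟩)
          · exact Or.inl (Or.inl h)
          · exact Or.inr ⟨e, ⟨j, hj, hej⟩, h⟩
          · exact Or.inl (Or.inr ⟨e, ⟨j, hj, hej⟩, h⟩)
        · rintro ((h | ⟨e, ⟨j, hj, hej⟩, h⟩) | ⟨e, ⟨j, hj, hej⟩, h⟩)
          · exact Or.inl h
          · exact Or.inr ⟨e, ⟨j, Or.inr hj, hej⟩, h⟩
          · exact Or.inr ⟨e, ⟨j, Or.inl hj, hej⟩, h⟩
      · intro t ht
        obtain ⟨e, ⟨j, hj, hej⟩, rfl⟩ := mem_TR.1 ht
        rw [Finset.mem_singleton] at hj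
        subst hj
        have htouch := (hK j).2.2.2.2.2 (e.trans ψ) (by
          show ψ (e j) = 0
          rw [hej, hψ])
        refine ⟨?_, ?_, ?_⟩
        · have e1 : z' ⟨n, e⟩ = sec P (single i) z ⟨n, e⟩ :=
            secn_lt P (single i) (n + 1) z ⟨n, e⟩ (Nat.lt_succ_self n)
          have e2 := sec_some P (single i) z ⟨n, e⟩ j ((single_some i e j).2 hej)
            (show n ≠ 0 by omega)
          rw [e1, e2]
          show lam (P.τ n j) (P.s n (pull e (sec P (single i) z))) =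
            lam (P.τ n j) (P.s n (pull e z'))
          congr 1
          apply P.dep
          intro c hc
          show sec P (single i) z ⟨c.1, c.2.trans e⟩ = z' ⟨c.1, c.2.trans e⟩
          exact (secn_lt P (single i) (n + 1) z ⟨c.1, c.2.trans e⟩ (Nat.lt_succ_of_lt hc)).symm
        · intro hb
          obtain ⟨h1, w, hw, h2⟩ := htouch.1 hb
          refine ⟨?_, pull ψ w, ⟨w, hw, rfl⟩, h2⟩
          rintro _ ⟨v, hv, rfl⟩
          exact h1 v hv
        · intro hb
          obtain ⟨h1, w, hw, h2⟩ := htouch.2 hb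
          refine ⟨?_, pull ψ w, ⟨w, hw, rfl⟩, h2⟩
          rintro _ ⟨v, hv, rfl⟩
          exact h1 v hv
  have hA₀sub : A₀ ⊆ Yf P n N := by
    rintro _ ⟨w, hw, rfl⟩
    exact IH N i w hw
  have hfinal := claim Finset.univ (Yf P n N) (Yf_closed P n hT' N)
    (Yf_connected P n hT' N).isPreconnected (Yf_cylR P n N) hA₀sub (fun j _ => hA_sub j)
  have hdisj : Disjoint (TT k n N) (T₁ ∪ TR k n N i Finset.univ) := by
    rw [Finset.disjoint_left]
    intro c hc hc'
    have e1 := ((mem_TT c).1 hc).2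
    have e2 := hr _ c hc'
    omega
  have hind : Ind S (TT k n N) (T₁ ∪ TR k n N i Finset.univ) := by
    apply ind_of_rk
    intro t ht t' ht'
    have e1 := ((mem_TT t).1 ht).2
    have e2 := hr _ t' ht'
    show t.1 ≤ t'.1
    omega
  refine oddAt_total' S (TT k n N) (T₁ ∪ TR k n N i Finset.univ) (TT k (n + 1) N) ?_ hdisj hind
    (dir_TT P n hT' N) z' hfinal
  intro c
  rw [Finset.mem_union, mem_TT, mem_TT, hT₁, Finset.mem_filter, mem_TT, mem_TR]
  constructor
  · rintro ⟨h1, h2⟩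
    by_cases hc : c.1 = n
    · right
      by_cases hi : i ∈ range c.2
      · right
        obtain ⟨m, e⟩ := c
        obtain ⟨j, hj⟩ := hi
        simp only at hc
        subst hc
        exact ⟨e, ⟨j, Finset.mem_univ _, hj⟩, rfl⟩
      · left
        exact ⟨⟨h1, h2⟩, hc, hi⟩
    · left
      omega
  · rintro (h | ⟨h, -⟩ | ⟨e, -, rfl⟩)
    · omega
    · exact h
    · exact ⟨hn, Nat.lt_succ_self n⟩

end H64DN
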