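import Pool.Agent.Helper64.DN.Base

/-!
DN-5 (Top): general topology.

* `rc_dichotomy`: a preconnected subset of `A` is inside a relatively clopen `U` or disjoint from it.
* `rc_cyl`: `A` a cylinder in the directions `R`; for `z ∈ U`, `w = z` off `R` the segment
  `s ↦ (1-s) z + s w` (coordinatewise, continuous, inside `A` because it equals `z` off `R`) is connected.
* `component_eq`: in the compact Hausdorff subspace `A` components are quasi-components
  (`connectedComponent_eq_iInter_isClopen`), transported to the closed set `A`.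
* `component_between`: compactness: `connectedComponentIn A z = ⋂ U`, the RC sets containing `z` are closed under
  finite intersections, `V` open.
* `preconnected_iInter`: a directed intersection of compact preconnected sets in a Hausdorff space is preconnected.
* `bump` (boundary bumping): otherwise an RC set `U` of `A`, `z ∈ U ⊆ V` (`component_between`); `U` is closed, and
  `Y \ U = (A \ U) ∪ (Y \ V)` is closed (as `Y ∩ V ⊆ A`), contradiction with `Y` preconnected.
* `exists_between`: `b ∈ K₂ \ K₁`, `V` open, `K₁ ⊆ V`, `b ∉ closure V`, `A = K₂ ∩ closure V`, component in `A` of a point of `K₁`;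
  apply `bump` with `Y = K₂`.
-/

set_option autoImplicit false

namespace H64DN

open Set Topology

variable {X : Type} [TopologicalSpace X]

theorem rc_dichotomy {A U B : Set X} (hU : RC A U) (hB : B ⊆ A) (hp : IsPreconnected B) :
    B ⊆ U ∨ Disjoint B U := by
  obtain ⟨h1, h2, h3⟩ := hU
  have h4 := (isPreconnected_iff_subset_of_disjoint_closed.1 hp) U (A \ U) h2 h3
    (fun x hx => by
      by_cases hxU : x ∈ U
      · exact Or.inl hxU
      · exact Or.inr ⟨hB hx, hxU⟩)
    (by
      ext x
      constructor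
      · rintro ⟨_, hx1, _, hx2⟩
        exact (hx2 hx1).elim
      · intro hx
        exact hx.elim)
  rcases h4 with h | h
  · exact Or.inl h
  · refine Or.inr (Set.disjoint_left.2 fun x hx hxU => (h hx).2 hxU)

theorem rc_inter {A U V : Set X} (hU : RC A U) (hV : RC A V) : RC A (U ∩ V) := by
  refine ⟨fun x hx => hU.1 hx.1, hU.2.1.inter hV.2.1, ?_⟩
  rw [Set.sdiff_inter]
  exact hU.2.2.union hV.2.2

theorem rc_diff {A U : Set X} (hU : RC A U) : RC A (A \ U) := by
  refine ⟨Set.sdiff_subset, hU.2.2, ?_⟩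
  rw [Set.sdiff_sdiff_cancel_left hU.1]
  exact hU.2.1

theorem rc_restrict {A B U : Set X} (hB : B ⊆ A) (hBc : IsClosed B) (hU : RC A U) :
    RC B (U ∩ B) := by
  refine ⟨Set.inter_subset_right, hU.2.1.inter hBc, ?_⟩
  have h1 : B \ (U ∩ B) = (A \ U) ∩ B := by
    ext x
    constructor
    · rintro ⟨hx, hx'⟩
      exact ⟨⟨hB hx, fun h => hx' ⟨h, hx⟩⟩, hx⟩
    · rintro ⟨⟨_, hx'⟩, hx⟩
      exact ⟨hx, fun h => hx' h.1⟩
  rw [h1]
  exact hU.2.2.inter hBc

theorem rc_cyl {J : Type} (R : Set J) (A U : Set (J → unitInterval)) (hA : Cyl R A)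
    (hU : RC A U) : Cyl R U := by
  intro z hz w hw
  set B : Set (J → unitInterval) := Set.univ.pi fun j => Set.uIcc (z j) (w j) with hB
  have hBp : IsPreconnected B := isPreconnected_univ_pi fun j => isPreconnected_uIcc
  have hzB : z ∈ B := fun j _ => Set.left_mem_uIcc
  have hwB : w ∈ B := fun j _ => Set.right_mem_uIcc
  have hBA : B ⊆ A := by
    intro v hv
    refine hA z (hU.1 hz) v fun j hj => ?_
    have h1 : v j ∈ Set.uIcc (z j) (w j) := hv j (Set.mem_univ j)
    rw [hw j hj, Set.uIcc_self] at h1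
    exact h1
  rcases rc_dichotomy hU hBA hBp with h | h
  · exact h hwB
  · exact (Set.disjoint_left.1 h hzB hz).elim

theorem component_eq [CompactSpace X] [T2Space X] {A : Set X} (hA : IsClosed A) {z : X}
    (hz : z ∈ A) : connectedComponentIn A z = {w | ∀ U, RC A U → z ∈ U → w ∈ U} := by
  have : CompactSpace A := isCompact_iff_compactSpace.1 hA.isCompact
  rw [connectedComponentIn_eq_image hz, connectedComponent_eq_iInter_isClopen]
  ext w
  constructor
  · rintro ⟨w', hw', rfl⟩ U hU hzU
    rw [Set.mem_iInter] at hw'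
    have h1 : IsClopen ((↑) ⁻¹' U : Set A) := by
      refine ⟨hU.2.1.preimage continuous_subtype_val, ?_⟩
      rw [← isClosed_compl_iff]
      have h2 : ((↑) ⁻¹' U : Set A)ᶜ = (↑) ⁻¹' (A \ U) := by
        ext x
        simp
      rw [h2]
      exact hU.2.2.preimage continuous_subtype_val
    exact hw' ⟨_, h1, hzU⟩
  · intro hw
    have hwA : w ∈ A := hw A ⟨subset_rfl, hA, by rw [Set.sdiff_self]; exact isClosed_empty⟩ hz
    refine ⟨⟨w, hwA⟩, ?_, rfl⟩
    rw [Set.mem_iInter]
    rintro ⟨s, hs, hzs⟩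
    have hmap := hA.isClosedEmbedding_subtypeVal.isClosedMap
    have h1 : RC A ((↑) '' s) := by
      refine ⟨?_, hmap s hs.isClosed, ?_⟩
      · rintro _ ⟨x, _, rfl⟩
        exact x.2
      · have h2 : A \ ((↑) '' s) = (↑) '' sᶜ := by
          ext x
          constructor
          · rintro ⟨hx, hx'⟩
            exact ⟨⟨x, hx⟩, fun h => hx' ⟨_, h, rfl⟩, rfl⟩
          · rintro ⟨y, hy, rfl⟩
            refine ⟨y.2, ?_⟩
            rintro ⟨y', hy', he⟩
            rw [Subtype.val_injective he] at hy'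
            exact hy hy'
        rw [h2]
        exact hmap _ hs.compl.isClosed
    obtain ⟨y, hy, he⟩ := hw _ h1 ⟨_, hzs, rfl⟩
    have h3 : y = ⟨w, hwA⟩ := Subtype.ext he
    rw [← h3]
    exact hy

theorem component_between [CompactSpace X] [T2Space X] {A : Set X} (hA : IsClosed A) {z : X}
    (hz : z ∈ A) {V : Set X} (hV : IsOpen V) (h : connectedComponentIn A z ⊆ V) :
    ∃ U, RC A U ∧ z ∈ U ∧ U ⊆ V := by
  rw [component_eq hA hz] at h
  have hne : Nonempty {U : Set X // RC A U ∧ z ∈ U} :=
    ⟨⟨A, ⟨subset_rfl, hA, by rw [Set.sdiff_self]; exact isClosed_empty⟩, hz⟩⟩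
  obtain ⟨⟨U, hU, hzU⟩, hUV⟩ := exists_subset_nhds_of_isCompact' (ι := {U : Set X // RC A U ∧ z ∈ U})
    (V := fun U => U.1) (U := V)
    (by
      rintro ⟨U, hU, hzU⟩ ⟨U', hU', hzU'⟩
      exact ⟨⟨U ∩ U', rc_inter hU hU', hzU, hzU'⟩, Set.inter_subset_left, Set.inter_subset_right⟩)
    (fun U => U.2.1.2.1.isCompact) (fun U => U.2.1.2.1)
    (by
      intro x hx
      refine hV.mem_nhds (h ?_)
      intro U hU hzU
      exact Set.mem_iInter.1 hx ⟨U, hU, hzU⟩)
  exact ⟨U, hU, hzU, hUV⟩

theorem component_closed [CompactSpace X] [T2Space X] {A : Set X} (hA : IsClosed A) (z : X) :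
    IsClosed (connectedComponentIn A z) := by
  by_cases hz : z ∈ A
  · rw [component_eq hA hz]
    have h1 : {w | ∀ U, RC A U → z ∈ U → w ∈ U} =
        ⋂ U : {U : Set X // RC A U ∧ z ∈ U}, U.1 := by
      ext w
      simp only [Set.mem_ofPred_eq, Set.mem_iInter]
      constructor
      · rintro h ⟨U, hU, hzU⟩
        exact h U hU hzU
      · intro h U hU hzU
        exact h ⟨U, hU, hzU⟩
    rw [h1]
    exact isClosed_iInter fun U => U.2.1.2.1
  · rw [connectedComponentIn_eq_empty hz]
    exact isClosed_empty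

end H64DN
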