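import Pool.Agent.Helper64.DN.Topa

/-!
DN-5 (Top): general topology.

* `rc_dichotomy`: a preconnected subset of `A` is inside a relatively clopen `U` or disjoint from it.
* `rc_cyl`: `A` a cylinder in the directions `R`; for `z ∈ U`, `w = z` off `R` the segment
  `s ↦ (1-s) z + s w` (coordinatewise, continuous, inside `A` because it equals `z` off `R`) is connected.
* `component_eq`: in the compact Hausdorff subspace `A` components are quasi-components
  (`connectedComponent_eq_iInter_isClopen`), transported to the closed set `A`.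
* `component_between`: compactness: `connectedComponentIn A z = ⋂ U`, the RC sets containing `z` are closed under
  finite intersections, `V` open.
* `preconnected_iInter`: a directed intersection of compact preconnected sets in a Hausdorff space is preconnected.
* `bump` (boundary bumping): otherwise an RC set `U` of `A`, `z ∈ U ⊆ V` (`component_between`); `U` is closed, and
  `Y \ U = (A \ U) ∪ (Y \ V)` is closed (as `Y ∩ V ⊆ A`), contradiction with `Y` preconnected.
* `exists_between`: `b ∈ K₂ \ K₁`, `V` open, `K₁ ⊆ V`, `b ∉ closure V`, `A = K₂ ∩ closure V`, component in `A` of a point of `K₁`;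
  apply `bump` with `Y = K₂`.
-/

set_option autoImplicit false

namespace H64DN

open Set Topology

variable {X : Type} [TopologicalSpace X]

theorem preconnected_iInter [CompactSpace X] [T2Space X] {ι : Type} [Nonempty ι] (A : ι → Set X)
    (hc : ∀ i, IsClosed (A i)) (hp : ∀ i, IsPreconnected (A i))
    (hd : ∀ i j, ∃ l, A l ⊆ A i ∧ A l ⊆ A j) : IsPreconnected (⋂ i, A i) := by
  rw [isPreconnected_iff_subset_of_disjoint_closed]
  intro u v hu hv huv hd'
  have hK : IsClosed (⋂ i, A i) := isClosed_iInter hc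
  have hdis : Disjoint ((⋂ i, A i) ∩ u) ((⋂ i, A i) ∩ v) := by
    rw [Set.disjoint_left]
    rintro x ⟨hx, hxu⟩ ⟨_, hxv⟩
    have h1 : x ∈ (⋂ i, A i) ∩ (u ∩ v) := ⟨hx, hxu, hxv⟩
    rw [hd'] at h1
    exact h1
  obtain ⟨U, V, hU, hV, huU, hvV, hUV⟩ := normal_separation (hK.inter hu) (hK.inter hv) hdis
  obtain ⟨i, hi⟩ := exists_subset_nhds_of_isCompact' (V := A) (U := U ∪ V)
    (fun i j => by
      obtain ⟨l, h1, h2⟩ := hd i j
      exact ⟨l, h1, h2⟩)
    (fun i => (hc i).isCompact) hc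
    (by
      intro x hx
      refine (hU.union hV).mem_nhds ?_
      rcases huv hx with h | h
      · exact Or.inl (huU ⟨hx, h⟩)
      · exact Or.inr (hvV ⟨hx, h⟩))
  rcases (hp i).subset_or_subset hU hV hUV hi with h | h
  · left
    intro x hx
    rcases huv hx with h1 | h1
    · exact h1
    · exact (Set.disjoint_left.1 hUV (h (Set.mem_iInter.1 hx i)) (hvV ⟨hx, h1⟩)).elim
  · right
    intro x hx
    rcases huv hx with h1 | h1
    · exact (Set.disjoint_left.1 hUV (huU ⟨hx, h1⟩) (h (Set.mem_iInter.1 hx i))).elim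
    · exact h1

/-- Boundary bumping. -/
theorem bump [CompactSpace X] [T2Space X] {Y A V : Set X} (hY : IsClosed Y)
    (hYp : IsPreconnected Y) (hA : IsClosed A) (hAY : A ⊆ Y) (hV : IsOpen V) (hVA : Y ∩ V ⊆ A)
    {z : X} (hz : z ∈ Y ∩ V) {y : X} (hy : y ∈ Y) (hyV : y ∉ V) :
    ¬ connectedComponentIn A z ⊆ V := by
  intro h
  have hzA : z ∈ A := hVA hz
  obtain ⟨U, hU, hzU, hUV⟩ := component_between hA hzA hV h
  have h1 := (isPreconnected_iff_subset_of_disjoint_closed.1 hYp) U ((A \ U) ∪ (Y ∩ Vᶜ)) hU.2.1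
    (hU.2.2.union (hY.inter hV.isClosed_compl))
    (by
      intro x hx
      by_cases hxV : x ∈ V
      · have hxA : x ∈ A := hVA ⟨hx, hxV⟩
        by_cases hxU : x ∈ U
        · exact Or.inl hxU
        · exact Or.inr (Or.inl ⟨hxA, hxU⟩)
      · exact Or.inr (Or.inr ⟨hx, hxV⟩))
    (by
      ext x
      constructor
      · rintro ⟨_, hxU, h2⟩
        rcases h2 with h2 | h2
        · exact (h2.2 hxU).elim
        · exact (h2.2 (hUV hxU)).elim
      · intro h2
        exact h2.elim)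
  rcases h1 with h1 | h1
  · exact hyV (hUV (h1 hy))
  · rcases h1 hz.1 with h2 | h2
    · exact h2.2 hzU
    · exact h2.2 hz.2

theorem exists_between [CompactSpace X] [T2Space X] {K₁ K₂ : Set X} (h1 : IsClosed K₁)
    (h1' : IsConnected K₁) (h2 : IsClosed K₂) (h2' : IsConnected K₂) (h : K₁ ⊂ K₂) :
    ∃ K, IsClosed K ∧ IsConnected K ∧ K₁ ⊂ K ∧ K ⊂ K₂ := by
  obtain ⟨b, hb2, hb1⟩ := Set.exists_of_ssubset h
  have hsub : K₁ ⊆ ({b} : Set X)ᶜ := by
    intro x hx hxb
    rw [Set.mem_singleton_iff] at hxb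
    rw [hxb] at hx
    exact hb1 hx
  obtain ⟨V, hV, hKV, hVb⟩ := normal_exists_closure_subset h1 isClosed_singleton.isOpen_compl hsub
  obtain ⟨z, hz⟩ := h1'.nonempty
  have hAc : IsClosed (K₂ ∩ closure V) := h2.inter isClosed_closure
  have hzA : z ∈ K₂ ∩ closure V := ⟨h.subset hz, subset_closure (hKV hz)⟩
  have hK1A : K₁ ⊆ K₂ ∩ closure V := fun x hx => ⟨h.subset hx, subset_closure (hKV hx)⟩
  have hbA : b ∉ K₂ ∩ closure V := fun hb => hVb hb.2 rfl
  have hK1 : K₁ ⊆ connectedComponentIn (K₂ ∩ closure V) z :=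
    h1'.isPreconnected.subset_connectedComponentIn hz hK1A
  have hnV : ¬ connectedComponentIn (K₂ ∩ closure V) z ⊆ V :=
    bump h2 h2'.isPreconnected hAc Set.inter_subset_left hV
      (fun x hx => ⟨hx.1, subset_closure hx.2⟩) ⟨h.subset hz, hKV hz⟩ hb2
      (fun hbV => hbA ⟨hb2, subset_closure hbV⟩)
  refine ⟨connectedComponentIn (K₂ ∩ closure V) z, component_closed hAc z,
    isConnected_connectedComponentIn_iff.2 hzA, ⟨hK1, fun h3 => hnV (h3.trans hKV)⟩, ?_, ?_⟩
  · exact (connectedComponentIn_subset _ _).trans Set.inter_subset_left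
  · intro h3
    exact hbA (connectedComponentIn_subset _ _ (h3 hb2))

/-- Directed union: the closure of the union of a nonempty chain of connected sets is connected. -/
theorem closure_sUnion_connected (C : Set (Set X)) (hne : C.Nonempty)
    (hC : ∀ K ∈ C, IsConnected K) (hch : ∀ K ∈ C, ∀ K' ∈ C, K ⊆ K' ∨ K' ⊆ K) :
    IsConnected (closure (⋃₀ C)) := by
  refine IsConnected.closure ⟨?_, ?_⟩
  · obtain ⟨K, hK⟩ := hne
    obtain ⟨x, hx⟩ := (hC K hK).nonempty
    exact ⟨x, K, hK, hx⟩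
  · refine IsPreconnected.sUnion_directed ?_ fun K hK => (hC K hK).isPreconnected
    intro K hK K' hK'
    rcases hch K hK K' hK' with h | h
    · exact ⟨K', hK', h, subset_rfl⟩
    · exact ⟨K, hK, subset_rfl, h⟩

/-- The intersection of a nonempty chain of continua is a continuum. -/
theorem sInter_connected [CompactSpace X] [T2Space X] (C : Set (Set X)) (hne : C.Nonempty)
    (hC : ∀ K ∈ C, IsClosed K ∧ IsConnected K) (hch : ∀ K ∈ C, ∀ K' ∈ C, K ⊆ K' ∨ K' ⊆ K) :
    IsClosed (⋂₀ C) ∧ IsConnected (⋂₀ C) := by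
  have hne' : Nonempty C := hne.to_subtype
  have hd : ∀ i j : C, ∃ l : C, (l : Set X) ⊆ (i : Set X) ∧ (l : Set X) ⊆ (j : Set X) := by
    rintro ⟨K, hK⟩ ⟨K', hK'⟩
    rcases hch K hK K' hK' with h | h
    · exact ⟨⟨K, hK⟩, subset_rfl, h⟩
    · exact ⟨⟨K', hK'⟩, h, subset_rfl⟩
  refine ⟨isClosed_sInter fun K hK => (hC K hK).1, ?_, ?_⟩
  · rw [Set.sInter_eq_iInter]
    exact IsCompact.nonempty_iInter_of_directed_nonempty_isCompact_isClosed (fun K : C => (K : Set X))
      (fun i j => by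
        obtain ⟨l, h1, h2⟩ := hd i j
        exact ⟨l, h1, h2⟩)
      (fun K => (hC K K.2).2.nonempty) (fun K => (hC K K.2).1.isCompact) (fun K => (hC K K.2).1)
  · rw [Set.sInter_eq_iInter]
    exact preconnected_iInter (fun K : C => (K : Set X)) (fun K => (hC K K.2).1)
      (fun K => (hC K K.2).2.isPreconnected) hd

/-- Four sets Urysohn. -/
theorem ury4 [CompactSpace X] [T2Space X] (AL Ale Age AH : Set X) (hL : IsClosed AL)
    (hle : IsClosed Ale) (hge : IsClosed Age) (hH : IsClosed AH)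
    (h1 : Disjoint (AL ∪ Ale) AH) (h2 : Disjoint (Age ∪ AH) AL) :
    ∃ s : C(X, unitInterval), (∀ x ∈ AL, s x = 0) ∧ (∀ x ∈ Ale, (s x : ℝ) ≤ 1 / 2) ∧
      (∀ x ∈ Age, 1 / 2 ≤ (s x : ℝ)) ∧ ∀ x ∈ AH, s x = 1 := by
  obtain ⟨f, hf0, hf1, hf⟩ := exists_continuous_zero_one_of_isClosed hL (hge.union hH) h2.symm
  obtain ⟨g, hg0, hg1, hg⟩ := exists_continuous_zero_one_of_isClosed (hL.union hle) hH h1
  have hmem : ∀ x, (f x + g x) / 2 ∈ unitInterval := by
    intro x
    have h3 := hf x
    have h4 := hg x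
    rw [Set.mem_Icc] at h3 h4
    rw [Set.mem_Icc]
    constructor
    · linarith
    · linarith
  refine ⟨⟨fun x => ⟨(f x + g x) / 2, hmem x⟩, ?_⟩, ?_, ?_, ?_, ?_⟩
  · exact Continuous.subtype_mk ((f.continuous.add g.continuous).div_const 2) _
  · intro x hx
    refine Subtype.ext ?_
    have h3 : f x = 0 := hf0 hx
    have h4 : g x = 0 := hg0 (Or.inl hx)
    show (f x + g x) / 2 = 0
    rw [h3, h4]
    norm_num
  · intro x hx
    have h3 := hf x
    rw [Set.mem_Icc] at h3
    have h4 : g x = 0 := hg0 (Or.inr hx)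
    show (f x + g x) / 2 ≤ 1 / 2
    rw [h4]
    linarith
  · intro x hx
    have h3 := hg x
    rw [Set.mem_Icc] at h3
    have h4 : f x = 1 := hf1 (Or.inl hx)
    show 1 / 2 ≤ (f x + g x) / 2
    rw [h4]
    linarith
  · intro x hx
    refine Subtype.ext ?_
    have h3 : f x = 1 := hf1 (Or.inr hx)
    have h4 : g x = 1 := hg1 hx
    show (f x + g x) / 2 = 1
    rw [h3, h4]
    norm_num

end H64DN
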