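import Pool.Agent.Helper64.DN.PullA

/-!
DN-9 (Tower): the continua `Yf P n N` over finitely many letters.

Hypothesis throughout: `∀ m, 1 ≤ m → m < n → Tch P m`.
* `dir_and_pull`: induction on `n`, both statements together.
  `TT k 0 N = TT k 1 N = ∅` (`dir_empty`, `oddS_empty`; `pull φ` is surjective).
  Dir at `n+1` (`n ≥ 1`): `TT k (n+1) N = TT k n N ∪ {(n,e)}`; insert the `(n,e)` one by one (`Finset.induction_on`), keeping
  `Dir S (TT k n N ∪ R)`.  For a new `t = (n,e)`: `Ind S (TT ∪ R) {t}` by rank (`ind_of_rk`).  By `Tch P n` there is `a ∈ Yf P n (k n)`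
  with `P.s n a` extreme; by the pull statement at `n` there is `b ∈ Yf P n N` with `pull e b = a`; by `oddS_onto` (`T = TT k n N`,
  `T' = TT k n N ∪ R`) there is `z ∈ OddS (TT ∪ R)` with `z = b` off `R`, so `pull e z`, `pull e b` agree in ranks `< n`
  and `g t z = P.s n (pull e z) = P.s n a` (`P.dep`).
  Pull at `n+1`, `φ : Fin N ↪ Fin N'`: let `ι : Coord k (Fin N) ↪ Coord k (Fin N')`, `(m,e) ↦ (m, e.trans φ)`, so `pull φ z = z ∘ ι`, and
  `hg` of `PullA` holds by `rfl`-like computation.  `T = (TT k (n+1) N).map ι ⊆ T' = TT k (n+1) N'`, and `Ind T (T' \ T)`: the function of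
  `(m, e.trans φ)` depends only on coordinates in the range of `ι`; a fold coordinate of rank `≤ n` in the range of `ι` is in `T`.
  (Base coordinates and ranks `> n` are not in `T'`.)  `oddS_mono`, `oddS_onto` (`Dir T` by `dir_map`), `oddS_map`.
* `exists_glue`: coordinate `(m,e)` of `z`: if `e = e'.trans φ` take `u (m,e')`, else if `e = e'.trans ψ` take `v (m,e')`, else `0`; if both hold
  the two values agree, since then `e` factors through `D` (`hD`), and `huv`.
* the other statements: `oddS_mono`, `oddS_onto`, `oddS_cyl` with `T = TT k n N ⊆ T' = TT k (n+1) N`, `Ind` by rank.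
-/

set_option autoImplicit false

namespace H64DN

open Set Topology

variable {k : ℕ → ℕ}

theorem pull_pull {A B C : Type} (φ : A ↪ B) (ψ : B ↪ C) (z : E k C) :
    pull φ (pull ψ z) = pull (φ.trans ψ) z := rfl

private theorem trans_cancel {A B : Type} {n : ℕ} (φ : A ↪ B) {e e' : Fin n ↪ A}
    (h : e.trans φ = e'.trans φ) : e = e' := by
  ext x
  have h1 := DFunLike.congr_fun h x
  simp only [Function.Embedding.trans_apply] at h1
  exact φ.injective h1

theorem pull_surjective {A B : Type} (φ : A ↪ B) :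
    Function.Surjective (pull φ : E k B → E k A) := by
  classical
  intro z
  refine ⟨fun c => if h : ∃ e' : Fin (k c.1) ↪ A, e'.trans φ = c.2 then z ⟨c.1, h.choose⟩ else 0, ?_⟩
  funext c
  have hex : ∃ e' : Fin (k c.1) ↪ A, e'.trans φ = c.2.trans φ := ⟨c.2, rfl⟩
  have h1 : pull φ (fun c : Coord k B => if h : ∃ e' : Fin (k c.1) ↪ A, e'.trans φ = c.2 then
      z ⟨c.1, h.choose⟩ else 0) c = z ⟨c.1, hex.choose⟩ := by
    unfold pull
    exact dif_pos hex
  rw [h1, trans_cancel φ hex.choose_spec]

/-- Glueing: a point over `C` with prescribed compatible restrictions. -/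
theorem exists_glue {A B D C : Type} (φ : A ↪ C) (ψ : B ↪ C) (α : D ↪ A) (β : D ↪ B)
    (h : α.trans φ = β.trans ψ) (hD : ∀ a b, φ a = ψ b → ∃ d, α d = a ∧ β d = b)
    (u : E k A) (v : E k B) (huv : pull α u = pull β v) :
    ∃ z : E k C, pull φ z = u ∧ pull ψ z = v := by
  classical
  set w : E k C := fun c =>
    if h : ∃ e' : Fin (k c.1) ↪ A, e'.trans φ = c.2 then u ⟨c.1, h.choose⟩
    else if h : ∃ e' : Fin (k c.1) ↪ B, e'.trans ψ = c.2 then v ⟨c.1, h.choose⟩ else 0 with hw
  refine ⟨w, ?_, ?_⟩
  · funext c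
    have hex : ∃ e' : Fin (k c.1) ↪ A, e'.trans φ = c.2.trans φ := ⟨c.2, rfl⟩
    have h1 : pull φ w c = u ⟨c.1, hex.choose⟩ := by
      unfold pull
      rw [hw]
      exact dif_pos hex
    rw [h1, trans_cancel φ hex.choose_spec]
  · funext c
    by_cases hex : ∃ e' : Fin (k c.1) ↪ A, e'.trans φ = c.2.trans ψ
    · have h1 : pull ψ w c = u ⟨c.1, hex.choose⟩ := by
        unfold pull
        rw [hw]
        exact dif_pos hex
      rw [h1]
      obtain ⟨e', he'⟩ : ∃ e' : Fin (k c.1) ↪ A, hex.choose = e' := ⟨_, rfl⟩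
      have hspec := hex.choose_spec
      rw [he'] at hspec ⊢
      -- both embeddings factor through `D`
      have hpt : ∀ x, ∃ d, α d = e' x ∧ β d = c.2 x := by
        intro x
        apply hD
        have h2 := DFunLike.congr_fun hspec x
        simpa only [Function.Embedding.trans_apply] using h2
      choose f hf1 hf2 using hpt
      have hfinj : Function.Injective f := by
        intro x y hxy
        apply c.2.injective
        rw [← hf2 x, ← hf2 y, hxy]
      have e1 : (⟨f, hfinj⟩ : Fin (k c.1) ↪ D).trans α = e' := by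
        ext x
        exact hf1 x
      have e2 : (⟨f, hfinj⟩ : Fin (k c.1) ↪ D).trans β = c.2 := by
        ext x
        exact hf2 x
      have h3 : pull α u ⟨c.1, ⟨f, hfinj⟩⟩ = pull β v ⟨c.1, ⟨f, hfinj⟩⟩ := by rw [huv]
      unfold pull at h3
      simp only at h3
      rw [e1, e2] at h3
      exact h3
    · have hex' : ∃ e' : Fin (k c.1) ↪ B, e'.trans ψ = c.2.trans ψ := ⟨c.2, rfl⟩
      have h1 : pull ψ w c = v ⟨c.1, hex'.choose⟩ := by
        unfold pull
        rw [hw]
        simp only
        rw [dif_neg hex, dif_pos hex']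
      rw [h1, trans_cancel ψ hex'.choose_spec]

end H64DN
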