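import Pool.Agent.Helper64.DN.Towera

/-!
DN-9 (Tower): the continua `Yf P n N` over finitely many letters.

Hypothesis throughout: `∀ m, 1 ≤ m → m < n → Tch P m`.
* `dir_and_pull`: induction on `n`, both statements together.
  `TT k 0 N = TT k 1 N = ∅` (`dir_empty`, `oddS_empty`; `pull φ` is surjective).
  Dir at `n+1` (`n ≥ 1`): `TT k (n+1) N = TT k n N ∪ {(n,e)}`; insert the `(n,e)` one by one (`Finset.induction_on`), keeping
  `Dir S (TT k n N ∪ R)`.  For a new `t = (n,e)`: `Ind S (TT ∪ R) {t}` by rank (`ind_of_rk`).  By `Tch P n` there is `a ∈ Yf P n (k n)`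
  with `P.s n a` extreme; by the pull statement at `n` there is `b ∈ Yf P n N` with `pull e b = a`; by `oddS_onto` (`T = TT k n N`,
  `T' = TT k n N ∪ R`) there is `z ∈ OddS (TT ∪ R)` with `z = b` off `R`, so `pull e z`, `pull e b` agree in ranks `< n`
  and `g t z = P.s n (pull e z) = P.s n a` (`P.dep`).
  Pull at `n+1`, `φ : Fin N ↪ Fin N'`: let `ι : Coord k (Fin N) ↪ Coord k (Fin N')`, `(m,e) ↦ (m, e.trans φ)`, so `pull φ z = z ∘ ι`, and
  `hg` of `PullA` holds by `rfl`-like computation.  `T = (TT k (n+1) N).map ι ⊆ T' = TT k (n+1) N'`, and `Ind T (T' \ T)`: the function of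
  `(m, e.trans φ)` depends only on coordinates in the range of `ι`; a fold coordinate of rank `≤ n` in the range of `ι` is in `T`.
  (Base coordinates and ranks `> n` are not in `T'`.)  `oddS_mono`, `oddS_onto` (`Dir T` by `dir_map`), `oddS_map`.
* `exists_glue`: coordinate `(m,e)` of `z`: if `e = e'.trans φ` take `u (m,e')`, else if `e = e'.trans ψ` take `v (m,e')`, else `0`; if both hold
  the two values agree, since then `e` factors through `D` (`hD`), and `huv`.
* the other statements: `oddS_mono`, `oddS_onto`, `oddS_cyl` with `T = TT k n N ⊆ T' = TT k (n+1) N`, `Ind` by rank.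
-/

set_option autoImplicit false

namespace H64DN

open Set Topology

variable {k : ℕ → ℕ}

private theorem tw_cancel {A B : Type} {n : ℕ} (φ : A ↪ B) {e e' : Fin n ↪ A}
    (h : e.trans φ = e'.trans φ) : e = e' := by
  ext x
  have h1 := DFunLike.congr_fun h x
  simp only [Function.Embedding.trans_apply] at h1
  exact φ.injective h1

private theorem tw_mono {J : Type} [inst : DecidableEq J] (S : FS J) (T T' : Finset J) (h : T ⊆ T')
    (hi : Ind S T (T' \ T)) : OddS S T' ⊆ OddS S T := by
  have e : inst = fun a b => Classical.propDecidable (a = b) := Subsingleton.elim _ _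
  subst e
  exact oddS_mono S T T' h hi

private theorem tw_onto {J : Type} [inst : DecidableEq J] (S : FS J) (T T' : Finset J)
    (hD : Dir S T) (hD' : Dir S T') (h : T ⊆ T') (hi : Ind S T (T' \ T)) (z : J → unitInterval)
    (hz : z ∈ OddS S T) : ∃ z' ∈ OddS S T', ∀ j, ¬ (j ∈ T' ∧ j ∉ T) → z' j = z j := by
  have e : inst = fun a b => Classical.propDecidable (a = b) := Subsingleton.elim _ _
  subst e
  obtain ⟨z', hz', hz2⟩ := oddS_onto S T T' hD hD' h hi z hz
  refine ⟨z', hz', fun j hj => hz2 j ?_⟩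
  intro hj'
  classical
  exact hj (Finset.mem_sdiff.mp hj')

private theorem tw_insert {J : Type} [inst : DecidableEq J] (S : FS J) (T : Finset J)
    (hD : Dir S T) (t : J) (ht : t ∉ T) (hi : Ind S T {t}) (z : J → unitInterval)
    (hz : z ∈ OddS S T) (he : (S.g t z : ℝ) < 1 / 3 ∨ 2 / 3 < (S.g t z : ℝ)) :
    Dir S (insert t T) := by
  have e : inst = fun a b => Classical.propDecidable (a = b) := Subsingleton.elim _ _
  subst e
  exact dir_insert S T hD t ht hi z hz he

/-- the embedding of coordinates -/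
private def tw_emb {N N' : ℕ} (φ : Fin N ↪ Fin N') : Coord k (Fin N) ↪ Coord k (Fin N') where
  toFun c := ⟨c.1, c.2.trans φ⟩
  inj' := by
    rintro ⟨m, e⟩ ⟨m', e'⟩ h
    simp only [Sigma.mk.injEq] at h
    obtain ⟨rfl, h⟩ := h
    rw [heq_eq_eq] at h
    rw [tw_cancel φ h]

private theorem tw_mem {n N N' : ℕ} (φ : Fin N ↪ Fin N') (c : Coord k (Fin N))
    (h : tw_emb φ c ∈ TT k n N') : tw_emb φ c ∈ (TT k n N).map (tw_emb φ) := by
  rw [Finset.mem_map]
  refine ⟨c, ?_, rfl⟩
  rw [mem_TT] at h ⊢
  exact h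

private theorem tw_sub {n N N' : ℕ} (φ : Fin N ↪ Fin N') :
    (TT k n N).map (tw_emb φ) ⊆ TT k n N' := by
  intro c hc
  rw [Finset.mem_map] at hc
  obtain ⟨c', hc', rfl⟩ := hc
  rw [mem_TT] at hc' ⊢
  exact hc'

private theorem tw_pull_step (P : Prog k) (n : ℕ) (hD : ∀ N, Dir (fs P (Fin N)) (TT k n N))
    (N N' : ℕ) (φ : Fin N ↪ Fin N') : pull φ '' Yf P n N' = Yf P n N := by
  classical
  have hg : ∀ j z, (fs P (Fin N')).g (tw_emb φ j) z = (fs P (Fin N)).g j (z ∘ tw_emb φ) :=
    fun _ _ => rfl
  have hmap := oddS_map (fs P (Fin N)) (fs P (Fin N')) (tw_emb φ) hg (TT k n N)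
  have hpull : ∀ z : E k (Fin N'), pull φ z = z ∘ tw_emb φ := fun _ => rfl
  have hInd : Ind (fs P (Fin N')) ((TT k n N).map (tw_emb φ))
      (TT k n N' \ (TT k n N).map (tw_emb φ)) := by
    intro t ht z z' hz
    rw [Finset.mem_map] at ht
    obtain ⟨c, _, rfl⟩ := ht
    rw [hg, hg]
    congr 1
    funext c'
    apply hz
    rw [Finset.mem_sdiff, not_and_not_right]
    exact tw_mem φ c'
  apply Set.Subset.antisymm
  · rintro _ ⟨z, hz, rfl⟩
    have h1 := tw_mono (fs P (Fin N')) _ _ (tw_sub φ) hInd hz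
    rw [hmap] at h1
    exact h1
  · intro y hy
    obtain ⟨z0, hz0⟩ := pull_surjective (k := k) φ y
    have h1 : z0 ∈ OddS (fs P (Fin N')) ((TT k n N).map (tw_emb φ)) := by
      rw [hmap, Set.mem_preimage, ← hpull, hz0]
      exact hy
    obtain ⟨z', hz', hz2⟩ := tw_onto (fs P (Fin N')) _ _
      (dir_map (fs P (Fin N)) (fs P (Fin N')) (tw_emb φ) hg (TT k n N) (hD N)) (hD N')
      (tw_sub φ) hInd z0 h1
    refine ⟨z', hz', ?_⟩
    rw [← hz0]
    funext c
    show z' (tw_emb φ c) = z0 (tw_emb φ c)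
    apply hz2
    rw [not_and_not_right]
    exact tw_mem φ c

private theorem tw_ind (P : Prog k) {L : Type} {T R : Finset (Coord k L)} {n : ℕ}
    (hT : ∀ c ∈ T, c.1 ≤ n) (hR : ∀ c ∈ R, c.1 = n) : Ind (fs P L) T R := by
  intro t ht z z' hz
  apply (fs P L).dep t z z'
  intro i hi
  apply hz
  intro hiR
  have h1 : i.1 < t.1 := hi
  have h2 := hT t ht
  have h3 := hR i hiR
  omega

private theorem tw_dir_step (P : Prog k) (n : ℕ) (hn : 1 ≤ n) (hT : Tch P n)
    (hD : ∀ N, Dir (fs P (Fin N)) (TT k n N))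
    (hp : ∀ (N N' : ℕ) (φ : Fin N ↪ Fin N'), pull φ '' Yf P n N' = Yf P n N) (N : ℕ) :
    Dir (fs P (Fin N)) (TT k (n + 1) N) := by
  classical
  have key : ∀ R : Finset (Coord k (Fin N)), (∀ c ∈ R, c.1 = n) →
      Dir (fs P (Fin N)) (TT k n N ∪ R) := by
    intro R
    induction R using Finset.induction_on with
    | empty =>
      intro _
      rw [Finset.union_empty]
      exact hD N
    | insert t R ht ih =>
      intro hR
      have hRn : ∀ c ∈ R, c.1 = n := fun c hc => hR c (Finset.mem_insert_of_mem hc)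
      have htn : t.1 = n := hR t (Finset.mem_insert_self _ _)
      have hD0 := ih hRn
      have hrk : ∀ c ∈ TT k n N ∪ R, c.1 ≤ n := by
        intro c hc
        rw [Finset.mem_union, mem_TT] at hc
        rcases hc with hc | hc
        · omega
        · exact (hRn c hc).le
      have htnot : t ∉ TT k n N ∪ R := by
        rw [Finset.mem_union, mem_TT, not_or]
        exact ⟨by omega, ht⟩
      have hi : Ind (fs P (Fin N)) (TT k n N ∪ R) {t} := by
        apply tw_ind P hrk
        intro c hc
        rw [Finset.mem_singleton] at hc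
        rw [hc]; exact htn
      obtain ⟨m, e⟩ := t
      simp only at htn
      subst htn
      obtain ⟨a, ha, hext⟩ := hT
      have h1 : a ∈ pull e '' Yf P m N := by rw [hp]; exact ha
      obtain ⟨b, hb, hba⟩ := h1
      have hi2 : Ind (fs P (Fin N)) (TT k m N) ((TT k m N ∪ R) \ TT k m N) := by
        apply tw_ind P (n := m)
        · intro c hc
          rw [mem_TT] at hc
          omega
        · intro c hc
          rw [Finset.mem_sdiff, Finset.mem_union] at hc
          rcases hc with ⟨hc | hc, hc2⟩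
          · exact absurd hc hc2
          · exact hRn c hc
      obtain ⟨z, hz, hz2⟩ := tw_onto (fs P (Fin N)) (TT k m N) (TT k m N ∪ R) (hD N) hD0
        Finset.subset_union_left hi2 b hb
      have hgz : (fs P (Fin N)).g ⟨m, e⟩ z = P.s m a := by
        show P.s m (pull e z) = P.s m a
        rw [← hba]
        apply P.dep
        intro c hc
        show z ⟨c.1, c.2.trans e⟩ = b ⟨c.1, c.2.trans e⟩
        apply hz2
        rw [Finset.mem_union]
        rintro ⟨h3 | h3, h4⟩
        · exact h4 h3
        · have h5 := hRn _ h3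
          simp only at h5
          omega
      have hres := tw_insert (fs P (Fin N)) (TT k m N ∪ R) hD0 ⟨m, e⟩ htnot hi z hz
        (by rw [hgz]; exact hext)
      rw [Finset.union_insert]
      exact hres
  have h2 := key ((TT k (n + 1) N).filter (fun c => c.1 = n)) (by
    intro c hc
    exact (Finset.mem_filter.mp hc).2)
  have h3 : TT k n N ∪ (TT k (n + 1) N).filter (fun c => c.1 = n) = TT k (n + 1) N := by
    ext c
    rw [Finset.mem_union, Finset.mem_filter, mem_TT, mem_TT]
    omega
  rw [h3] at h2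
  exact h2

theorem dir_and_pull (P : Prog k) (n : ℕ) (h : ∀ m, 1 ≤ m → m < n → Tch P m) :
    (∀ N, Dir (fs P (Fin N)) (TT k n N)) ∧
      ∀ (N N' : ℕ) (φ : Fin N ↪ Fin N'), pull φ '' Yf P n N' = Yf P n N := by
  induction n with
  | zero =>
    have hD : ∀ N, Dir (fs P (Fin N)) (TT k 0 N) := by
      intro N
      have h0 : TT k 0 N = ∅ := by
        ext c
        rw [mem_TT]
        simp
      rw [h0]
      exact dir_empty _
    exact ⟨hD, tw_pull_step P 0 hD⟩
  | succ n ih =>
    obtain ⟨h1, h2⟩ := ih (fun m hm hmn => h m hm (by omega))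
    have hD : ∀ N, Dir (fs P (Fin N)) (TT k (n + 1) N) := by
      rcases Nat.eq_zero_or_pos n with h0 | h0
      · subst h0
        intro N
        have h0 : TT k (0 + 1) N = ∅ := by
          ext c
          rw [mem_TT]
          simp
          omega
        rw [h0]
        exact dir_empty _
      · exact tw_dir_step P n h0 (h n h0 (Nat.lt_succ_self n)) h1 h2
    exact ⟨hD, tw_pull_step P (n + 1) hD⟩

end H64DN
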