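import Pool.Agent.Helper64.DN.Towerb

/-!
DN-9 (Tower): the continua `Yf P n N` over finitely many letters.

Hypothesis throughout: `∀ m, 1 ≤ m → m < n → Tch P m`.
* `dir_and_pull`: induction on `n`, both statements together.
  `TT k 0 N = TT k 1 N = ∅` (`dir_empty`, `oddS_empty`; `pull φ` is surjective).
  Dir at `n+1` (`n ≥ 1`): `TT k (n+1) N = TT k n N ∪ {(n,e)}`; insert the `(n,e)` one by one (`Finset.induction_on`), keeping
  `Dir S (TT k n N ∪ R)`.  For a new `t = (n,e)`: `Ind S (TT ∪ R) {t}` by rank (`ind_of_rk`).  By `Tch P n` there is `a ∈ Yf P n (k n)`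
  with `P.s n a` extreme; by the pull statement at `n` there is `b ∈ Yf P n N` with `pull e b = a`; by `oddS_onto` (`T = TT k n N`,
  `T' = TT k n N ∪ R`) there is `z ∈ OddS (TT ∪ R)` with `z = b` off `R`, so `pull e z`, `pull e b` agree in ranks `< n`
  and `g t z = P.s n (pull e z) = P.s n a` (`P.dep`).
  Pull at `n+1`, `φ : Fin N ↪ Fin N'`: let `ι : Coord k (Fin N) ↪ Coord k (Fin N')`, `(m,e) ↦ (m, e.trans φ)`, so `pull φ z = z ∘ ι`, and
  `hg` of `PullA` holds by `rfl`-like computation.  `T = (TT k (n+1) N).map ι ⊆ T' = TT k (n+1) N'`, and `Ind T (T' \ T)`: the function of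
  `(m, e.trans φ)` depends only on coordinates in the range of `ι`; a fold coordinate of rank `≤ n` in the range of `ι` is in `T`.
  (Base coordinates and ranks `> n` are not in `T'`.)  `oddS_mono`, `oddS_onto` (`Dir T` by `dir_map`), `oddS_map`.
* `exists_glue`: coordinate `(m,e)` of `z`: if `e = e'.trans φ` take `u (m,e')`, else if `e = e'.trans ψ` take `v (m,e')`, else `0`; if both hold
  the two values agree, since then `e` factors through `D` (`hD`), and `huv`.
* the other statements: `oddS_mono`, `oddS_onto`, `oddS_cyl` with `T = TT k n N ⊆ T' = TT k (n+1) N`, `Ind` by rank.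
-/

set_option autoImplicit false

namespace H64DN

open Set Topology

variable {k : ℕ → ℕ}

theorem dir_TT (P : Prog k) (n : ℕ) (h : ∀ m, 1 ≤ m → m < n → Tch P m) (N : ℕ) :
    Dir (fs P (Fin N)) (TT k n N) := (dir_and_pull P n h).1 N

theorem Yf_pull (P : Prog k) (n : ℕ) (h : ∀ m, 1 ≤ m → m < n → Tch P m) {N N' : ℕ}
    (φ : Fin N ↪ Fin N') : pull φ '' Yf P n N' = Yf P n N := (dir_and_pull P n h).2 N N' φ

theorem Yf_ind_aux (n N : ℕ) (t' : Coord k (Fin N)) (inst : DecidableEq (Coord k (Fin N)))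
    (ht' : t' ∈ TT k (n + 1) N \ TT k n N) : t'.1 = n := by
  rw [Finset.mem_sdiff, mem_TT, mem_TT] at ht'
  omega

theorem Yf_closed (P : Prog k) (n : ℕ) (h : ∀ m, 1 ≤ m → m < n → Tch P m) (N : ℕ) :
    IsClosed (Yf P n N) :=
  oddS_closed _ _ (dir_TT P n h N)

theorem Yf_connected (P : Prog k) (n : ℕ) (h : ∀ m, 1 ≤ m → m < n → Tch P m) (N : ℕ) :
    IsConnected (Yf P n N) :=
  oddS_connected _ _ (dir_TT P n h N)

theorem Yf_le_one (P : Prog k) (n N : ℕ) (hn : n ≤ 1) : Yf P n N = univ := by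
  have h0 : TT k n N = ∅ := by
    ext c
    rw [mem_TT]
    constructor
    · intro h
      omega
    · intro h
      exact absurd h (Finset.notMem_empty c)
  unfold Yf
  rw [h0]
  exact oddS_empty _

theorem Yf_cylR (P : Prog k) (n N : ℕ) : CylR n (Yf P n N) := by
  have h1 : Cyl {c : Coord k (Fin N) | n ≤ c.1} (Om (fs P (Fin N)) (TT k n N)) := by
    intro z hz w hw t ht
    have ht' := (mem_TT t).1 ht
    have e1 : w t = z t := hw t (by simp only [mem_ofPred_eq, not_le]; exact ht'.2)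
    have e2 : (fs P (Fin N)).g t w = (fs P (Fin N)).g t z := by
      refine (fs P (Fin N)).dep t w z (fun i hi => hw i ?_)
      have hi' : i.1 < t.1 := hi
      simp only [mem_ofPred_eq, not_le]
      omega
    rw [e1, e2]
    exact hz t ht
  intro z hz w hw
  refine oddS_cyl _ _ _ h1 z hz w (fun c hc => hw c ?_)
  simpa using hc

/-- The fold equation. -/
theorem Yf_eq (P : Prog k) (n N : ℕ) (z : E k (Fin N)) (hz : z ∈ Yf P n N) (c : Coord k (Fin N))
    (h1 : 1 ≤ c.1) (h2 : c.1 < n) : nu (z c) = P.s c.1 (pull c.2 z) :=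
  hz.1 c ((mem_TT c).2 ⟨h1, h2⟩)

theorem Yf_succ_subset (P : Prog k) (n N : ℕ) : Yf P (n + 1) N ⊆ Yf P n N := by
  refine oddS_mono _ _ _ ?_ (ind_of_rk _ _ _ ?_)
  · intro c hc
    rw [mem_TT] at hc ⊢
    omega
  · intro t ht t' ht'
    have h1 := Yf_ind_aux n N t' _ ht'
    rw [mem_TT] at ht
    change t.1 ≤ t'.1
    omega

theorem Yf_lift (P : Prog k) (n : ℕ) (h : ∀ m, 1 ≤ m → m < n + 1 → Tch P m) (N : ℕ)
    (z : E k (Fin N)) (hz : z ∈ Yf P n N) :
    ∃ z' ∈ Yf P (n + 1) N, ∀ c : Coord k (Fin N), c.1 ≠ n → z' c = z c := by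
  obtain ⟨z', h1, h2⟩ := oddS_onto (fs P (Fin N)) (TT k n N) (TT k (n + 1) N)
    (dir_TT P n (fun m hm hm' => h m hm (by omega)) N) (dir_TT P (n + 1) h N)
    (by
      intro c hc
      rw [mem_TT] at hc ⊢
      omega)
    (ind_of_rk _ _ _ (by
      intro t ht t' ht'
      have h1 := Yf_ind_aux n N t' _ ht'
      rw [mem_TT] at ht
      change t.1 ≤ t'.1
      omega)) z hz
  exact ⟨z', h1, fun c hc => h2 c fun hc' => hc (Yf_ind_aux n N c _ hc')⟩

end H64DN
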